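import Pool.Agent.H25.HX.Sob

/-!
Haraux's problem (MP_d105ab_an): bounded energy for forced damped waves with supercritical
damping.  Discrete (implicit Euler, step `δ ≤ 1`) setting, definitions.
-/

set_option autoImplicit false

open MeasureTheory Set Filter Topology
open scoped RealInnerProductSpace
open Pool.Agent.H25.HX (E g Tst H10)

noncomputable section

namespace Pool.Agent.H15.Hx

/-- the parameters: dimension `N ≥ 3`, `p = α + 2 > 2 N / (N - 2)`. -/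
structure Par where
  N : ℕ
  p : ℝ
  hN : 3 ≤ N
  hp : 2 * (N : ℝ) / ((N : ℝ) - 2) < p

namespace Par
variable (P : Par)
/-- conjugate exponent `p' = p / (p - 1)` -/
def q : ℝ := P.p / (P.p - 1)
/-- `s = p / (p - 2)` -/
def s : ℝ := P.p / (P.p - 2)
/-- `β = (p - 1) / (p - 2)`, `2 β = s + 1` -/
def β : ℝ := (P.p - 1) / (P.p - 2)
/-- the critical Morrey exponent `λ = N - 2 s` -/
def lam : ℝ := (P.N : ℝ) - 2 * P.s
/-- exponent of the weight, `λ < λ' < N - 2` -/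
def lam' : ℝ := (P.lam + P.N - 2) / 2
/-- `γ = 2 / (p - 2) = s - 1` -/
def γ : ℝ := 2 / (P.p - 2)
end Par

/-- the weight `(1 + |x - x₀|² / r²)^(-b/2)` -/
def wt {N : ℕ} (b : ℝ) (x₀ : E N) (r : ℝ) (x : E N) : ℝ :=
  (1 + ‖x - x₀‖ ^ 2 / r ^ 2) ^ (-(b / 2))

/-- `∫ G w`, `G = wt λ'` -/
def I0 (P : Par) (x₀ : E P.N) (r : ℝ) (w : E P.N → ℝ) : ℝ := ∫ x, wt P.lam' x₀ r x * w x

/-- `∫ G₁ w`, `G₁ = r⁻² wt (λ' + 2) = G / (r² + |x - x₀|²)` -/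
def I2 (P : Par) (x₀ : E P.N) (r : ℝ) (w : E P.N → ℝ) : ℝ :=
  (∫ x, wt (P.lam' + 2) x₀ r x * w x) / r ^ 2

/-- admissible centres and radii -/
def Adm {N : ℕ} (R : ℝ) (x₀ : E N) (r : ℝ) : Prop := ‖x₀‖ ≤ R ∧ 0 < r ∧ r ≤ R

/-- the exponential average `(1 + h D)⁻¹ q`, `D` the backward difference quotient with step `δ`. -/
def avg {V : Type*} [AddCommGroup V] [Module ℝ V] (δ h : ℝ) (q : ℕ → V) : ℕ → V
  | 0 => 0
  | n + 1 => (h / (h + δ)) • avg δ h q n + (δ / (h + δ)) • q (n + 1)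

/-- A solution of the implicit Euler scheme with zero initial data:
`(z (n+1) - z n) / δ - Δ u (n+1) + g (z (n+1)) = f (n+1)`, `u (n+1) = u n + δ z (n+1)`. -/
structure Sol (P : Par) (Ω : Set (E P.N)) where
  δ : ℝ
  u : ℕ → E P.N → ℝ
  Du : ℕ → E P.N → E P.N
  z : ℕ → E P.N → ℝ
  Dz : ℕ → E P.N → E P.N
  f : ℕ → E P.N → ℝ
  δ_pos : 0 < δ
  δ_le : δ ≤ 1
  hz : ∀ n, H10 Ω (z n) (Dz n)
  hg : ∀ n, MemLp (fun x => g P.p (z n x)) 2 volume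
  hf : ∀ n, MemLp (f n) 2 volume
  hfs : ∀ n, ∀ x, x ∉ Ω → f n x = 0
  u_zero : ∀ x, u 0 x = 0
  Du_zero : ∀ x, Du 0 x = 0
  z_zero : ∀ x, z 0 x = 0
  Dz_zero : ∀ x, Dz 0 x = 0
  f_zero : ∀ x, f 0 x = 0
  u_succ : ∀ n x, u (n + 1) x = u n x + δ * z (n + 1) x
  Du_succ : ∀ n x, Du (n + 1) x = Du n x + δ • Dz (n + 1) x
  eqn : ∀ n (ψ : E P.N → ℝ) (Ψ : E P.N → E P.N), H10 Ω ψ Ψ →
    ∫ x, ⟪Du (n + 1) x, Ψ x⟫ =
      ∫ x, (f (n + 1) x - g P.p (z (n + 1) x) - (z (n + 1) x - z n x) / δ) * ψ x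

namespace Sol
variable {P : Par} {Ω : Set (E P.N)} (S : Sol P Ω)

/-- time after `n` steps -/
def t (n : ℕ) : ℝ := n * S.δ

/-- weighted energy `∫ G (|Du|² + z²)` -/
def Eg (n : ℕ) (x₀ : E P.N) (r : ℝ) : ℝ := I0 P x₀ r (fun x => ‖S.Du n x‖ ^ 2 + S.z n x ^ 2)

/-- total energy -/
def En (n : ℕ) : ℝ := ∫ x, (‖S.Du n x‖ ^ 2 + S.z n x ^ 2)

/-- exponential average of `z` with parameter `h` -/
def ζ (h : ℝ) (n : ℕ) (x : E P.N) : ℝ := avg S.δ h (fun m => S.z m x) n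
/-- its gradient -/
def Dζ (h : ℝ) (n : ℕ) (x : E P.N) : E P.N := avg S.δ h (fun m => S.Dz m x) n
/-- average of the damping -/
def Γ (h : ℝ) (n : ℕ) (x : E P.N) : ℝ := avg S.δ h (fun m => g P.p (S.z m x)) n
/-- average of the force -/
def fa (h : ℝ) (n : ℕ) (x : E P.N) : ℝ := avg S.δ h (fun m => S.f m x) n
/-- average of `|z|^p` -/
def Za (h : ℝ) (n : ℕ) (x : E P.N) : ℝ := avg S.δ h (fun m => |S.z m x| ^ P.p) n
/-- time difference quotient of `ζ`, equal to `(z - ζ)/h` -/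
def ζt (h : ℝ) (n : ℕ) (x : E P.N) : ℝ := (S.z n x - S.ζ h n x) / h
/-- the covariance `avg (g z) - Γ ζ ≥ 0` -/
def Cv (h : ℝ) (n : ℕ) (x : E P.N) : ℝ := S.Za h n x - S.Γ h n x * S.ζ h n x
/-- the functional of the averaged estimate -/
def Y (h : ℝ) (x₀ : E P.N) (r : ℝ) (n : ℕ) : ℝ :=
  (1 / P.q) * I0 P x₀ r (S.Za h n) + (h / 2) * I0 P x₀ r (fun x => ‖S.Dζ h n x‖ ^ 2) +
    (h / 2) * I0 P x₀ r (fun x => S.ζt h n x ^ 2) + I0 P x₀ r (fun x => S.ζ h n x * S.ζt h n x)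
/-- the right side of the averaged estimate (without the constant) -/
def Rr (h : ℝ) (x₀ : E P.N) (r : ℝ) (n : ℕ) : ℝ :=
  I2 P x₀ r (fun x => (S.z n x - S.ζ h n x) ^ 2) +
    I0 P x₀ r (fun x => |S.ζt h (n - 1) x| * |S.ζt h n x|) +
    I0 P x₀ r (fun x => |S.f n x - S.fa h n x| * |S.z n x|) / h
end Sol

/-- The standing hypotheses of the local analysis up to the index `n1`.
`X n = K n / τ`, where `K n` bounds `r ^ (-λ)` times the weighted energy. -/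
structure Hyp {P : Par} {Ω : Set (E P.N)} (S : Sol P Ω) (R : ℝ) (n1 : ℕ)
    (τ A εf : ℝ) (X : ℕ → ℝ) : Prop where
  hΩo : IsOpen Ω
  hΩ : Ω ⊆ Metric.ball 0 R
  hR : 1 ≤ R
  τ1 : 1 ≤ τ
  hA : 4 ≤ A
  εf0 : 0 ≤ εf
  εf1 : εf ≤ 1
  X_lb : ∀ n ≤ n1, τ ^ P.s ≤ X n
  X_anti : ∀ n < n1, X (n + 1) ≤ X n
  X_slow : ∀ n < n1, X n ≤ (1 + S.δ / (A * τ)) * X (n + 1)
  eK : ∀ n ≤ n1, ∀ x₀ r, Adm R x₀ r → S.Eg n x₀ r ≤ τ * X n * r ^ P.lam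
  fK : ∀ n ≤ n1, ∀ x₀ r, Adm R x₀ r →
    I0 P x₀ r (fun x => |S.f n x| ^ P.q) ≤ εf * X n * r ^ P.lam

/-- Smallness of `θ` (where `h = θ τ`), of the inertia and of the force. -/
structure Small (R τ εf θ : ℝ) : Prop where
  θ0 : 0 < θ
  θ1 : θ ≤ 1 / 8
  hτ : R ^ 2 ≤ θ ^ 4 * τ
  hε : εf ≤ θ ^ 4

end Pool.Agent.H15.Hx
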