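import Mathlib

/-!
# The damped wave equation `u_tt - Δu + a |u_t|^α u_t = f` (definitions for MP_d105ab_an)

The energy space `H¹₀(Ω) × L²(Ω)`, the maximal monotone operator `A` of the equation, and its weak
solutions: on every `[0, T]`, uniform limits of strong solutions `U_n` of `U_n' + A U_n = F_n`
with `F_n → (0, f)` in `L¹(0, T; H¹₀(Ω) × L²(Ω))`. `Ω` is a subset of a finite-dimensional
Euclidean space `V`; functions on `Ω` are extended by `0` to `V`.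
-/

set_option autoImplicit false

open MeasureTheory Filter Topology Metric Set
open scoped ContDiff RealInnerProductSpace

namespace Pool.Agent.H15.DampedWave

/-- `L²(X; F)`. -/
abbrev L2of (X F : Type) [MeasureSpace X] [NormedAddCommGroup F] : Type :=
  Lp F 2 (volume : Measure X)

/-- The function (a representative) given by an element of `L²(X; F)`. -/
noncomputable def rep {X F : Type} [MeasureSpace X] [NormedAddCommGroup F] (v : L2of X F) :
    X → F := v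

section space

variable {V : Type} [NormedAddCommGroup V] [InnerProductSpace ℝ V] [FiniteDimensional ℝ V]
  [MeasurableSpace V] [BorelSpace V]

/-- `φ ∈ C_c^∞(Ω)`. -/
def IsTest (Ω : Set V) (φ : V → ℝ) : Prop :=
  ContDiff ℝ ∞ φ ∧ HasCompactSupport φ ∧ tsupport φ ⊆ Ω

/-- `(u, G) = (φ, ∇φ)` for some `φ ∈ C_c^∞(Ω)`. -/
def IsTestPair (Ω : Set V) (u : L2of V ℝ) (G : L2of V V) : Prop :=
  ∃ φ : V → ℝ, IsTest Ω φ ∧ rep u =ᵐ[volume] φ ∧ rep G =ᵐ[volume] gradient φ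

/-- The Sobolev space `H¹₀(Ω)`: the closure in `L² × L²` of the pairs `(φ, ∇φ)` with
`φ ∈ C_c^∞(Ω)`. Its elements are pairs `(u, ∇u)`. -/
def H10 (Ω : Set V) : Set (L2of V ℝ × L2of V V) := closure {x | IsTestPair Ω x.1 x.2}

/-- `L²(Ω)`: the elements of `L²(V)` that vanish outside `Ω`. -/
def L2on (Ω : Set V) : Set (L2of V ℝ) :=
  {v | ∀ᵐ x ∂(volume : Measure V), x ∉ Ω → rep v x = 0}

/-- The energy space `H¹₀(Ω) × L²(Ω)`, whose elements are the states `((u, ∇u), u_t)`. -/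
def EnergySpace (Ω : Set V) : Set ((L2of V ℝ × L2of V V) × L2of V ℝ) :=
  {U | U.1 ∈ H10 Ω ∧ U.2 ∈ L2on Ω}

/-- The equation `-div G + a |v|^α v = w` in `Ω`, tested with the functions of `C_c^∞(Ω)`. -/
def TestedEq (a α : ℝ) (Ω : Set V) (G : V → V) (v w : V → ℝ) : Prop :=
  ∀ φ : V → ℝ, IsTest Ω φ →
    (∫ x, ⟪G x, gradient φ x⟫) + ∫ x, a * |v x| ^ α * v x * φ x = ∫ x, w x * φ x

/-- The maximal monotone operator `A (u, v) = (-v, -Δu + a |v|^α v)` of the damped wave equation,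
with domain `{(u, v) : u, v ∈ H¹₀(Ω), v ∈ L^{α+2}, -Δu + a |v|^α v ∈ L²(Ω)}`, as a relation:
`IsA a α Ω U W` says `U ∈ D(A)` and `W = A U`. -/
def IsA (a α : ℝ) (Ω : Set V) (U W : (L2of V ℝ × L2of V V) × L2of V ℝ) : Prop :=
  U.1 ∈ H10 Ω ∧ W.1 ∈ H10 Ω ∧ W.1.1 = -U.2 ∧ W.2 ∈ L2on Ω ∧
    MemLp (rep U.2) (ENNReal.ofReal (α + 2)) volume ∧
    TestedEq a α Ω (rep U.1.2) (rep U.2) (rep W.2)

end space

/-- Strong solutions on `[0, T]` of `U' + A U = F` in a normed space `X`, with values of `F` and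
`U 0` in `H`: `U` is absolutely continuous with derivative `W ∈ L¹(0, T; X)`, `F ∈ L¹(0, T; X)`
and `W(t) + A U(t) = F(t)` for almost every `t ∈ (0, T)`. -/
def StrongSolIn {X : Type} [NormedAddCommGroup X] [NormedSpace ℝ X] (H : Set X)
    (A : X → X → Prop) (T : ℝ) (F U : ℝ → X) : Prop :=
  U 0 ∈ H ∧ IntegrableOn F (Ioc 0 T) ∧
    (∀ᵐ t ∂(volume.restrict (Ioc 0 T)), F t ∈ H) ∧
    ∃ W : ℝ → X, IntegrableOn W (Ioc 0 T) ∧
      (∀ t ∈ Icc 0 T, U t = U 0 + ∫ s in (0 : ℝ)..t, W s) ∧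
      ∀ᵐ t ∂(volume.restrict (Ioc 0 T)), A (U t) (F t - W t)

/-- Weak solutions on `[0, ∞)` of `U' + A U = f` in a normed space `X` (in the sense of the theory
of maximal monotone operators): on every `[0, T]`, `U` is a uniform limit of strong solutions
`U_n` of `U_n' + A U_n = F_n` with `F_n → f` in `L¹(0, T; X)`. -/
def WeakSolIn {X : Type} [NormedAddCommGroup X] [NormedSpace ℝ X] (H : Set X)
    (A : X → X → Prop) (f U : ℝ → X) : Prop :=
  ∀ T : ℝ, 0 < T → ∃ F' U' : ℕ → ℝ → X,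
    (∀ n, StrongSolIn H A T (F' n) (U' n)) ∧
      Tendsto (fun n => ∫ t in (0 : ℝ)..T, ‖F' n t - f t‖) atTop (𝓝 0) ∧
      TendstoUniformlyOn U' U atTop (Icc 0 T)

/-- Weak solutions when the right side is `((0, 0), f)` in a product of three spaces. -/
def WeakSolProd {X Y Z : Type} [NormedAddCommGroup X] [NormedSpace ℝ X] [NormedAddCommGroup Y]
    [NormedSpace ℝ Y] [NormedAddCommGroup Z] [NormedSpace ℝ Z] (H : Set ((X × Y) × Z))
    (A : (X × Y) × Z → (X × Y) × Z → Prop) (f : ℝ → Z) (U : ℝ → (X × Y) × Z) : Prop :=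
  WeakSolIn H A (fun t => ((0, 0), f t)) U

section solutions

variable {V : Type} [NormedAddCommGroup V] [InnerProductSpace ℝ V] [FiniteDimensional ℝ V]
  [MeasurableSpace V] [BorelSpace V]

/-- `U = ((u, ∇u), u_t)` is a weak solution on `[0, ∞)` of the damped wave equation
`u_tt - Δu + a |u_t|^α u_t = f` in `Ω`, `u = 0` on `∂Ω`. -/
def WeakSol (a α : ℝ) (Ω : Set V) (f : ℝ → L2of V ℝ)
    (U : ℝ → (L2of V ℝ × L2of V V) × L2of V ℝ) : Prop :=
  WeakSolProd (EnergySpace Ω) (IsA a α Ω) f U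

/-- `f ∈ L^∞(ℝ⁺; L²(Ω))` with bound `M`. -/
def BoundedForce (Ω : Set V) (M : ℝ) (f : ℝ → L2of V ℝ) : Prop :=
  AEStronglyMeasurable f (volume.restrict (Ioi 0)) ∧
    (∀ᵐ t ∂(volume.restrict (Ioi (0 : ℝ))), f t ∈ L2on Ω) ∧
    ∀ᵐ t ∂(volume.restrict (Ioi (0 : ℝ))), ‖f t‖ ≤ M

end solutions

/-- The energy `∫ (u_t² + |∇u|²)` of a state `((u, ∇u), u_t)`. -/
noncomputable def energy {X Y Z : Type} [NormedAddCommGroup Y] [NormedAddCommGroup Z]
    (U : (X × Y) × Z) : ℝ := ‖U.2‖ ^ 2 + ‖U.1.2‖ ^ 2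

/-- Euclidean space `ℝᴺ`. -/
abbrev E (N : ℕ) : Type := EuclideanSpace ℝ (Fin N)

/-- `L²(ℝᴺ)`, real valued. -/
abbrev L2 (N : ℕ) : Type := L2of (E N) ℝ

/-- `L²(ℝᴺ; ℝᴺ)`, vector fields. -/
abbrev L2v (N : ℕ) : Type := L2of (E N) (E N)

/-- States `((u, ∇u), u_t)` of the wave equation. -/
abbrev St (N : ℕ) : Type := (L2 N × L2v N) × L2 N

/-- `U : [0, ∞) → St N` is a weak solution of the damped wave equation on `Ω ⊆ ℝᴺ`. -/
def WaveSol {N : ℕ} (a α : ℝ) (Ω : Set (E N)) (f : ℝ → L2 N) (U : ℝ → St N) : Prop :=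
  WeakSol a α Ω f U

/-- `f ∈ L^∞(ℝ⁺; L²(Ω))` with bound `M`, `Ω ⊆ ℝᴺ`. -/
def ForceBound {N : ℕ} (Ω : Set (E N)) (M : ℝ) (f : ℝ → L2 N) : Prop :=
  BoundedForce Ω M f

/-- The energy `∫ (u_t² + |∇u|²)` of a state. -/
noncomputable def waveEnergy {N : ℕ} (U : St N) : ℝ := energy U

end Pool.Agent.H15.DampedWave
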