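import Pool.Agent.H15.Hx.Defs

/-! M01: exponent arithmetic. -/

set_option autoImplicit false

noncomputable section

namespace Pool.Agent.H15.Hx
namespace Par
variable (P : Par)

theorem N_ge : (3 : ℝ) ≤ P.N := by exact_mod_cast P.hN

theorem two_lt_p : 2 < P.p := by
  have h := P.hp
  have hN := P.N_ge
  have h2 : (0 : ℝ) < (P.N : ℝ) - 2 := by linarith
  refine lt_trans ?_ h
  rw [lt_div_iff₀ h2]
  linarith

theorem m01_p2 : 0 < P.p - 2 := by linarith [P.two_lt_p]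
theorem m01_p1 : 0 < P.p - 1 := by linarith [P.two_lt_p]
theorem m01_p0 : 0 < P.p := by linarith [P.two_lt_p]

theorem q_gt_one : 1 < P.q := by
  unfold q
  rw [lt_div_iff₀ P.m01_p1]
  linarith

theorem q_lt_two : P.q < 2 := by
  unfold q
  rw [div_lt_iff₀ P.m01_p1]
  linarith [P.two_lt_p]

theorem s_gt_one : 1 < P.s := by
  unfold s
  rw [lt_div_iff₀ P.m01_p2]
  linarith

theorem β_gt_one : 1 < P.β := by
  unfold β
  rw [lt_div_iff₀ P.m01_p2]
  linarith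

theorem two_β : 2 * P.β = P.s + 1 := by
  have h := P.m01_p2.ne'
  unfold β s
  field_simp
  ring

theorem lam_pos : 0 < P.lam := by
  have h := P.hp
  have hN := P.N_ge
  have h2 : (0 : ℝ) < (P.N : ℝ) - 2 := by linarith
  rw [div_lt_iff₀ h2] at h
  unfold lam s
  have h3 := P.m01_p2
  have h4 : 2 * (P.p / (P.p - 2)) < (P.N : ℝ) := by
    rw [← mul_div_assoc, div_lt_iff₀ h3]
    nlinarith
  linarith

theorem lam_lt : P.lam < P.N - 2 := by
  unfold lam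
  linarith [P.s_gt_one]

theorem lam_lt_lam' : P.lam < P.lam' := by
  unfold lam'
  linarith [P.lam_lt]

theorem lam'_lt : P.lam' < P.N - 2 := by
  unfold lam'
  linarith [P.lam_lt]

theorem lam'_pos : 0 < P.lam' := lt_trans P.lam_pos P.lam_lt_lam'

theorem γ_pos : 0 < P.γ := div_pos two_pos P.m01_p2

theorem γ_eq : P.γ = P.s - 1 := by
  have h := P.m01_p2.ne'
  unfold γ s
  field_simp
  ring

theorem γ_lt : P.γ < P.N := by
  rw [P.γ_eq]
  have h := P.lam_pos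
  have hs := P.s_gt_one
  unfold lam at h
  linarith

theorem holder : P.p.HolderConjugate P.q := by
  have h1 := P.m01_p1.ne'
  have h0 := P.m01_p0.ne'
  rw [Real.holderConjugate_iff]
  refine ⟨by linarith [P.two_lt_p], ?_⟩
  unfold q
  field_simp
  ring

theorem inv_s : 1 / P.s = 1 - 2 / P.p := by
  have h2 := P.m01_p2.ne'
  have h0 := P.m01_p0.ne'
  unfold s
  field_simp

theorem half_q : P.q / 2 = 1 - 1 / (2 * P.β) := by
  have h2 := P.m01_p2.ne'
  have h1 := P.m01_p1.ne'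
  unfold q β
  field_simp
  ring

theorem two_sub_q : 2 - P.q = 1 / P.β := by
  have h2 := P.m01_p2.ne'
  have h1 := P.m01_p1.ne'
  unfold q β
  field_simp
  ring

theorem β_mul_q : P.β * P.q = P.s := by
  have h2 := P.m01_p2.ne'
  have h1 := P.m01_p1.ne'
  unfold q β s
  field_simp

theorem s_div_q : P.s / P.q = P.β := by
  have h : P.q ≠ 0 := by linarith [P.q_gt_one]
  rw [← P.β_mul_q, mul_div_assoc, div_self h, mul_one]

/-- `p' (p - 1) = p` -/
theorem q_mul : P.q * (P.p - 1) = P.p := by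
  unfold q
  exact div_mul_cancel₀ _ P.m01_p1.ne'

variable {P}

theorem m01_tau_le {τ X : ℝ} (hτ : 1 ≤ τ) (hX : τ ^ P.s ≤ X) : 1 ≤ X ∧ τ ≤ X ^ (1 / P.s) := by
  have hs : 0 < P.s := by linarith [P.s_gt_one]
  have h1 : 1 ≤ τ ^ P.s := Real.one_le_rpow hτ hs.le
  refine ⟨h1.trans hX, ?_⟩
  have h2 : (τ ^ P.s) ^ (1 / P.s) ≤ X ^ (1 / P.s) :=
    Real.rpow_le_rpow (by positivity) hX (by positivity)
  rwa [← Real.rpow_mul (by linarith), mul_one_div_cancel hs.ne', Real.rpow_one] at h2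

/-- key inequality `X^(2/p) ≤ X / τ` -/
theorem X_two_p {τ X : ℝ} (hτ : 1 ≤ τ) (hX : τ ^ P.s ≤ X) : X ^ (2 / P.p) ≤ X / τ := by
  obtain ⟨hX1, hle⟩ := m01_tau_le hτ hX
  rw [le_div_iff₀ (by linarith)]
  calc X ^ (2 / P.p) * τ ≤ X ^ (2 / P.p) * X ^ (1 / P.s) :=
        mul_le_mul_of_nonneg_left hle (by positivity)
    _ = X := by
        rw [← Real.rpow_add (by linarith), P.inv_s]
        have : 2 / P.p + (1 - 2 / P.p) = 1 := by ring
        rw [this, Real.rpow_one]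

/-- `(τ X)^(q/2) ≤ X` -/
theorem tauX_half_q {τ X : ℝ} (hτ : 1 ≤ τ) (hX : τ ^ P.s ≤ X) : (τ * X) ^ (P.q / 2) ≤ X := by
  obtain ⟨hX1, hle⟩ := m01_tau_le hτ hX
  have hq : 0 < P.q := by linarith [P.q_gt_one]
  have hs : 0 < P.s := by linarith [P.s_gt_one]
  have h1 : τ * X ≤ X ^ (1 / P.s + 1) := by
    rw [Real.rpow_add (by linarith), Real.rpow_one]
    exact mul_le_mul_of_nonneg_right hle (by linarith)
  calc (τ * X) ^ (P.q / 2) ≤ (X ^ (1 / P.s + 1)) ^ (P.q / 2) :=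
        Real.rpow_le_rpow (by nlinarith) h1 (by positivity)
    _ = X := by
        rw [← Real.rpow_mul (by linarith)]
        have h2 : (1 / P.s + 1) * (P.q / 2) = 1 := by
          have h3 : 1 / P.s + 1 = (2 * P.β) / P.s := by
            rw [P.two_β]
            field_simp
            ring
          have h4 := P.β_mul_q
          rw [h3]
          have h5 : 2 * P.β / P.s * (P.q / 2) = (P.β * P.q) / P.s := by
            field_simp
          rw [h5, h4, div_self hs.ne']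
        rw [h2, Real.rpow_one]

theorem tau_mul {τ : ℝ} (hτ : 0 < τ) : τ * τ ^ P.s = τ ^ (2 * P.β) := by
  rw [P.two_β, Real.rpow_add hτ, Real.rpow_one, mul_comm]

/-- at `X = τ^s`: `X^(1/q) (τ X)^(1/2) = τ^(2β) = τ X` -/
theorem X_final {τ : ℝ} (hτ : 1 ≤ τ) :
    (τ ^ P.s) ^ (1 / P.q) * (τ * τ ^ P.s) ^ (1 / 2 : ℝ) = τ ^ (2 * P.β) := by
  have h0 : 0 < τ := by linarith
  rw [tau_mul h0, ← Real.rpow_mul h0.le, ← Real.rpow_mul h0.le, ← Real.rpow_add h0]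
  congr 1
  rw [mul_one_div, P.s_div_q]
  ring

/-- `(X^(1/p))^(p-2) = X^(1/s)` -/
theorem X_B {X : ℝ} (hX : 0 ≤ X) : (X ^ (1 / P.p)) ^ (P.p - 2) = X ^ (1 / P.s) := by
  rw [← Real.rpow_mul hX]
  congr 1
  have h2 := P.m01_p2.ne'
  have h0 := P.m01_p0.ne'
  unfold s
  field_simp

/-- power counting: `r^(-q) (r^N)^(1-q/2) = (r^λ)^(1-q/2)` -/
theorem r_count_q {r : ℝ} (hr : 0 < r) :
    r ^ (-P.q) * (r ^ (P.N : ℝ)) ^ (1 - P.q / 2) = (r ^ P.lam) ^ (1 - P.q / 2) := by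
  rw [← Real.rpow_mul hr.le, ← Real.rpow_mul hr.le, ← Real.rpow_add hr]
  congr 1
  have h1 : P.s * (2 - P.q) = P.q := by
    have hβ : P.β ≠ 0 := by linarith [P.β_gt_one]
    rw [P.two_sub_q, ← P.β_mul_q]
    field_simp
  unfold lam
  linear_combination h1

/-- power counting: `r^(-2) (r^N)^(1/s) = (r^λ)^(1/s)` -/
theorem r_count_two {r : ℝ} (hr : 0 < r) :
    r ^ (-2 : ℝ) * (r ^ (P.N : ℝ)) ^ (1 / P.s) = (r ^ P.lam) ^ (1 / P.s) := by
  rw [← Real.rpow_mul hr.le, ← Real.rpow_mul hr.le, ← Real.rpow_add hr]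
  congr 1
  have hs : P.s ≠ 0 := by linarith [P.s_gt_one]
  unfold lam
  field_simp
  ring

/-- power counting: `(r^N)^(1-1/p) (r^λ)^(1/p) = r^(N-γ)` -/
theorem r_count_one {r : ℝ} (hr : 0 < r) :
    (r ^ (P.N : ℝ)) ^ (1 - 1 / P.p) * (r ^ P.lam) ^ (1 / P.p) = r ^ ((P.N : ℝ) - P.γ) := by
  rw [← Real.rpow_mul hr.le, ← Real.rpow_mul hr.le, ← Real.rpow_add hr]
  congr 1
  have h2 := P.m01_p2.ne'
  have h0 := P.m01_p0.ne'
  unfold lam s γ
  field_simp
  ring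

/-- power counting: `(r^N)^(1/2) (r^(λ+2))^(1/2) = r^(N-γ)` -/
theorem r_count_half {r : ℝ} (hr : 0 < r) :
    (r ^ (P.N : ℝ)) ^ (1 / 2 : ℝ) * (r ^ (P.lam + 2)) ^ (1 / 2 : ℝ) = r ^ ((P.N : ℝ) - P.γ) := by
  rw [← Real.rpow_mul hr.le, ← Real.rpow_mul hr.le, ← Real.rpow_add hr]
  congr 1
  rw [P.γ_eq]
  unfold lam
  ring

end Par
end Pool.Agent.H15.Hx
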