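import Pool.Agent.H15.Hx.M01_Expo

/-! M02: the averaging operator `avg δ h = (1 + h D)⁻¹`. -/

set_option autoImplicit false

open MeasureTheory Set Filter Topology

noncomputable section

namespace Pool.Agent.H15.Hx

section vec
variable {V W : Type*} [AddCommGroup V] [Module ℝ V] [AddCommGroup W] [Module ℝ W]
variable {δ h τ : ℝ}

@[simp] theorem avg_zero' (q : ℕ → V) : avg δ h q 0 = 0 := rfl

theorem avg_succ (q : ℕ → V) (n : ℕ) : avg δ h q (n + 1) =
    (h / (h + δ)) • avg δ h q n + (δ / (h + δ)) • q (n + 1) := rfl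

theorem avg_add (q q' : ℕ → V) (n : ℕ) :
    avg δ h (fun m => q m + q' m) n = avg δ h q n + avg δ h q' n := by
  induction n with
  | zero => simp
  | succ n ih => rw [avg_succ, avg_succ, avg_succ, ih]; module

theorem avg_sub (q q' : ℕ → V) (n : ℕ) :
    avg δ h (fun m => q m - q' m) n = avg δ h q n - avg δ h q' n := by
  induction n with
  | zero => simp
  | succ n ih => rw [avg_succ, avg_succ, avg_succ, ih]; module

theorem avg_smul (c : ℝ) (q : ℕ → V) (n : ℕ) :
    avg δ h (fun m => c • q m) n = c • avg δ h q n := by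
  induction n with
  | zero => simp
  | succ n ih => rw [avg_succ, avg_succ, ih]; module

theorem avg_map (L : V →ₗ[ℝ] W) (q : ℕ → V) (n : ℕ) :
    avg δ h (fun m => L (q m)) n = L (avg δ h q n) := by
  induction n with
  | zero => simp
  | succ n ih => rw [avg_succ, avg_succ, ih, map_add, map_smul, map_smul]

/-- evaluation of averages of functions -/
theorem avg_apply {α : Type*} (q : ℕ → α → V) (n : ℕ) (x : α) :
    avg δ h q n x = avg δ h (fun m => q m x) n := by
  induction n with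
  | zero => rfl
  | succ n ih => rw [avg_succ, avg_succ, Pi.add_apply, Pi.smul_apply, Pi.smul_apply, ih]

theorem avg_congr {q q' : ℕ → V} {n : ℕ} (H : ∀ m, 1 ≤ m → m ≤ n → q m = q' m) :
    avg δ h q n = avg δ h q' n := by
  induction n with
  | zero => rfl
  | succ n ih =>
    rw [avg_succ, avg_succ, ih fun m h1 h2 => H m h1 (by omega), H (n + 1) (by omega) le_rfl]

/-- one step of the recursion: `D (avg q) = (q - avg q)/h` -/
theorem avg_step (hδ : 0 < δ) (hh : 0 < h) (q : ℕ → V) (n : ℕ) :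
    avg δ h q (n + 1) - avg δ h q n = (δ / h) • (q (n + 1) - avg δ h q (n + 1)) := by
  have h1 : h + δ ≠ 0 := by positivity
  have h2 : h ≠ 0 := hh.ne'
  rw [avg_succ]
  match_scalars <;> field_simp <;> ring

/-- the other form: `q - avg_{n+1} = (h / (h + δ)) (q - avg_n)` -/
theorem avg_step' (hδ : 0 < δ) (hh : 0 < h) (q : ℕ → V) (n : ℕ) :
    q (n + 1) - avg δ h q (n + 1) = (h / (h + δ)) • (q (n + 1) - avg δ h q n) := by
  have h1 : h + δ ≠ 0 := by positivity
  rw [avg_succ]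
  match_scalars <;> field_simp <;> ring

/-- the average of a backward difference quotient -/
theorem avg_dq (hδ : 0 < δ) (hh : 0 < h) (q : ℕ → V) (q0 : q 0 = 0) (n : ℕ) :
    avg δ h (fun m => δ⁻¹ • (q m - q (m - 1))) n = h⁻¹ • (q n - avg δ h q n) := by
  have h1 : h + δ ≠ 0 := by positivity
  have h2 : h ≠ 0 := hh.ne'
  have h3 : δ ≠ 0 := hδ.ne'
  induction n with
  | zero => simp [q0]
  | succ n ih =>
    rw [avg_succ, avg_succ, ih, Nat.add_sub_cancel]
    match_scalars <;> field_simp <;> ring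

/-- resolvent identity -/
theorem avg_avg (hδ : 0 < δ) (hh : 0 < h) (hτ : 0 < τ) (q : ℕ → V) (n : ℕ) :
    (τ - h) • avg δ τ (avg δ h q) n = τ • avg δ τ q n - h • avg δ h q n := by
  have h1 : h + δ ≠ 0 := by positivity
  have h2 : τ + δ ≠ 0 := by positivity
  induction n with
  | zero => simp
  | succ n ih =>
    have e1 : (τ - h) • avg δ τ (avg δ h q) (n + 1) =
        (τ / (τ + δ)) • ((τ - h) • avg δ τ (avg δ h q) n) +
          ((τ - h) * (δ / (τ + δ))) • avg δ h q (n + 1) := by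
      rw [avg_succ (h := τ) (avg δ h q) n]
      module
    rw [e1, ih, avg_succ (h := τ) q n, avg_succ (h := h) q n]
    match_scalars <;> field_simp <;> ring
end vec

section real
variable {δ h τ : ℝ} {n n1 : ℕ}

theorem avg_mono (hδ : 0 < δ) (hh : 0 < h) {q q' : ℕ → ℝ}
    (H : ∀ m, 1 ≤ m → m ≤ n → q m ≤ q' m) : avg δ h q n ≤ avg δ h q' n := by
  have h1 : 0 ≤ h / (h + δ) := by positivity
  have h2 : 0 ≤ δ / (h + δ) := by positivity
  induction n with
  | zero => simp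
  | succ n ih =>
    rw [avg_succ, avg_succ, smul_eq_mul, smul_eq_mul, smul_eq_mul, smul_eq_mul]
    exact add_le_add (mul_le_mul_of_nonneg_left (ih fun m a b => H m a (by omega)) h1)
      (mul_le_mul_of_nonneg_left (H (n + 1) (by omega) le_rfl) h2)

theorem avg_nonneg (hδ : 0 < δ) (hh : 0 < h) {q : ℕ → ℝ}
    (H : ∀ m, 1 ≤ m → m ≤ n → 0 ≤ q m) : 0 ≤ avg δ h q n := by
  have h1 : 0 ≤ h / (h + δ) := by positivity
  have h2 : 0 ≤ δ / (h + δ) := by positivity
  induction n with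
  | zero => simp
  | succ n ih =>
    rw [avg_succ, smul_eq_mul, smul_eq_mul]
    exact add_nonneg (mul_nonneg h1 (ih fun m a b => H m a (by omega)))
      (mul_nonneg h2 (H (n + 1) (by omega) le_rfl))

theorem avg_const_le (hδ : 0 < δ) (hh : 0 < h) {c : ℝ} (hc : 0 ≤ c) :
    avg δ h (fun _ => c) n ≤ c := by
  have h1 : 0 ≤ h / (h + δ) := by positivity
  have h3 : h / (h + δ) + δ / (h + δ) = 1 := by field_simp
  induction n with
  | zero => simpa using hc
  | succ n ih =>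
    rw [avg_succ, smul_eq_mul, smul_eq_mul]
    calc h / (h + δ) * avg δ h (fun _ => c) n + δ / (h + δ) * c
        ≤ h / (h + δ) * c + δ / (h + δ) * c := by
          have := mul_le_mul_of_nonneg_left ih h1
          linarith
      _ = c := by rw [← add_mul, h3, one_mul]

/-- real form of `avg_smul` -/
theorem avg_mul_left (c : ℝ) (q : ℕ → ℝ) (n : ℕ) :
    avg δ h (fun m => c * q m) n = c * avg δ h q n := by
  have := avg_smul (δ := δ) (h := h) c q n
  simpa only [smul_eq_mul] using this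

/-- `L0`: from `D Y + A ≤ B`, `Y 0 = 0`, deduce `Y + h avg A ≤ avg Y + h avg B`. -/
theorem avg_ineq (hδ : 0 < δ) (hh : 0 < h) {Y A B : ℕ → ℝ} (hY0 : Y 0 = 0)
    (H : ∀ m < n1, (Y (m + 1) - Y m) / δ + A (m + 1) ≤ B (m + 1)) :
    ∀ n ≤ n1, Y n + h * avg δ h A n ≤ avg δ h Y n + h * avg δ h B n := by
  intro n hn
  have h1 := avg_dq hδ hh Y hY0 n
  have h2 : avg δ h (fun m => δ⁻¹ • (Y m - Y (m - 1)) + A m) n ≤ avg δ h B n := by
    refine avg_mono hδ hh fun m hm1 hm2 => ?_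
    have h3 := H (m - 1) (by omega)
    rw [Nat.sub_add_cancel hm1] at h3
    rw [smul_eq_mul, inv_mul_eq_div]
    exact h3
  rw [avg_add, h1, smul_eq_mul, inv_mul_eq_div] at h2
  have h4 := mul_le_mul_of_nonneg_left h2 hh.le
  have h5 : h * ((Y n - avg δ h Y n) / h + avg δ h A n) = Y n - avg δ h Y n + h * avg δ h A n := by
    field_simp
  rw [h5] at h4
  linarith

/-- `(1 + h D) Y ≤ h B` gives `Y ≤ h avg B` -/
theorem avg_ineq' (hδ : 0 < δ) (hh : 0 < h) {Y B : ℕ → ℝ} (hY0 : Y 0 = 0)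
    (H : ∀ m < n1, (Y (m + 1) - Y m) / δ + Y (m + 1) / h ≤ B (m + 1)) :
    ∀ n ≤ n1, Y n ≤ h * avg δ h B n := by
  intro n hn
  have h1 := avg_ineq (n1 := n1) hδ hh (A := fun m => (1 / h) * Y m) hY0 (B := B) (fun m hm => by
    have := H m hm
    rw [one_div, inv_mul_eq_div]
    exact this) n hn
  rw [avg_mul_left] at h1
  have h2 : h * (1 / h * avg δ h Y n) = avg δ h Y n := by field_simp
  rw [h2] at h1
  linarith

/-- `avg (D Y) = (Y - avg Y)/h` in real form -/
theorem avg_D (hδ : 0 < δ) (hh : 0 < h) {Y : ℕ → ℝ} (hY0 : Y 0 = 0) :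
    avg δ h (fun m => (Y m - Y (m - 1)) / δ) n = (Y n - avg δ h Y n) / h := by
  have h1 := avg_dq hδ hh Y hY0 n
  rw [smul_eq_mul, inv_mul_eq_div] at h1
  rw [← h1]
  refine avg_congr fun m _ _ => ?_
  rw [smul_eq_mul, inv_mul_eq_div]

theorem avg_avg_le (hδ : 0 < δ) (hh : 0 < h) (hτ : 2 * h ≤ τ) {q : ℕ → ℝ}
    (H : ∀ m, 1 ≤ m → m ≤ n → 0 ≤ q m) : avg δ τ (avg δ h q) n ≤ 2 * avg δ τ q n := by
  have hτ0 : 0 < τ := by linarith
  have h1 := avg_avg hδ hh hτ0 q n
  rw [smul_eq_mul, smul_eq_mul, smul_eq_mul] at h1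
  have h2 : 0 ≤ avg δ h q n := avg_nonneg hδ hh H
  have h3 : 0 ≤ avg δ τ q n := avg_nonneg hδ hτ0 H
  have h4 : 0 < τ - h := by linarith
  have h5 : (τ - h) * avg δ τ (avg δ h q) n ≤ (τ - h) * (2 * avg δ τ q n) := by
    rw [h1]
    nlinarith [mul_nonneg hh.le h2, mul_nonneg (show 0 ≤ τ - 2 * h by linarith) h3]
  exact le_of_mul_le_mul_left h5 h4

/-- longer averages of `q` are controlled by averages of the shorter average -/
theorem avg_long (hδ : 0 < δ) (hh : 0 < h) (hτ : h ≤ τ) (q : ℕ → ℝ) :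
    avg δ τ q n = (1 - h / τ) * avg δ τ (avg δ h q) n + (h / τ) * avg δ h q n := by
  have hτ0 : 0 < τ := by linarith
  have h1 := avg_avg hδ hh hτ0 q n
  rw [smul_eq_mul, smul_eq_mul, smul_eq_mul] at h1
  have h2 : (1 - h / τ) * avg δ τ (avg δ h q) n = ((τ - h) * avg δ τ (avg δ h q) n) / τ := by
    field_simp
  rw [h2, h1]
  field_simp
  ring

/-- shifting the index by one step -/
theorem avg_shift (hδ : 0 < δ) (hh : 0 < h) {q : ℕ → ℝ} (q0 : q 0 = 0) (hq : ∀ m, 0 ≤ q m) :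
    avg δ h (fun m => q (m - 1)) n ≤ (1 + δ / h) * avg δ h q n := by
  have h1 : ∀ n, avg δ h (fun m => q (m - 1)) (n + 1) = avg δ h q n := by
    intro n
    induction n with
    | zero => rw [avg_succ]; simp [q0]
    | succ n ih =>
      rw [avg_succ, ih, Nat.add_sub_cancel, avg_succ q n]
  rcases n with _ | n
  · simp
  · rw [h1 n, avg_succ, smul_eq_mul, smul_eq_mul]
    have h2 : 0 ≤ avg δ h q n := avg_nonneg hδ hh fun m _ _ => hq m
    have h3 : (1 + δ / h) * (h / (h + δ) * avg δ h q n + δ / (h + δ) * q (n + 1)) =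
        avg δ h q n + δ / h * q (n + 1) := by
      field_simp
    rw [h3]
    have h4 : 0 ≤ δ / h * q (n + 1) := mul_nonneg (by positivity) (hq _)
    linarith

theorem avg_prev (hδ : 0 < δ) (hh : 0 < h) {q : ℕ → ℝ} (hq : 0 ≤ q (n + 1)) :
    avg δ h q n ≤ (1 + δ / h) * avg δ h q (n + 1) := by
  rw [avg_succ, smul_eq_mul, smul_eq_mul]
  have h3 : (1 + δ / h) * (h / (h + δ) * avg δ h q n + δ / (h + δ) * q (n + 1)) =
      avg δ h q n + δ / h * q (n + 1) := by
    field_simp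
  rw [h3]
  have h4 : 0 ≤ δ / h * q (n + 1) := mul_nonneg (by positivity) hq
  linarith

theorem avg_short_le (hδ : 0 < δ) (hτ : 0 < τ) {ε : ℝ} (h0 : 0 < ε) (h1 : ε ≤ 1)
    {q : ℕ → ℝ} (H : ∀ m, 1 ≤ m → m ≤ n → 0 ≤ q m) :
    avg δ (ε * τ) q n ≤ (1 / ε) * avg δ τ q n := by
  have hh : 0 < ε * τ := by positivity
  have h2 := avg_avg hδ hh hτ q n
  rw [smul_eq_mul, smul_eq_mul, smul_eq_mul] at h2
  have h3 : 0 ≤ avg δ τ (avg δ (ε * τ) q) n :=
    avg_nonneg hδ hτ fun m hm1 hm2 => avg_nonneg hδ hh fun j hj1 hj2 => H j hj1 (by omega)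
  have h4 : 0 ≤ τ - ε * τ := by nlinarith
  have h5 : ε * τ * avg δ (ε * τ) q n ≤ τ * avg δ τ q n := by
    have := mul_nonneg h4 h3
    linarith
  have h6 : ε * avg δ (ε * τ) q n ≤ avg δ τ q n := by
    have : τ * (ε * avg δ (ε * τ) q n) ≤ τ * avg δ τ q n := by linarith
    exact le_of_mul_le_mul_left this hτ
  rw [one_div, inv_mul_eq_div, le_div_iff₀ h0]
  linarith

/-- averages of a slowly varying sequence -/
theorem avg_slow_le (hδ : 0 < δ) (hh : 0 < h) {X : ℕ → ℝ} {B : ℝ} (hB : 2 * h ≤ B)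
    (hX : ∀ m ≤ n1, 0 ≤ X m) (hs : ∀ m < n1, X m ≤ (1 + δ / B) * X (m + 1)) :
    ∀ n ≤ n1, avg δ h X n ≤ 2 * X n := by
  intro n hn
  have hB0 : 0 < B := by linarith
  have h1 : 0 ≤ h / (h + δ) := by positivity
  induction n with
  | zero =>
    have := hX 0 hn
    simpa using this
  | succ n ih =>
    rw [avg_succ, smul_eq_mul, smul_eq_mul]
    have h2 := ih (by omega)
    have h3 := hs n (by omega)
    have h4 := hX (n + 1) hn
    have h5 : h / (h + δ) * avg δ h X n ≤ h / (h + δ) * (2 * ((1 + δ / B) * X (n + 1))) :=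
      mul_le_mul_of_nonneg_left (by linarith) h1
    have h6 : h / (h + δ) * (2 * (1 + δ / B)) + δ / (h + δ) ≤ 2 := by
      have e1 : h / (h + δ) * (2 * (1 + δ / B)) + δ / (h + δ) =
          (2 * h + δ * (2 * h / B) + δ) / (h + δ) := by
        field_simp
      rw [e1, div_le_iff₀ (by positivity)]
      have e2 : 2 * h / B ≤ 1 := by rw [div_le_one hB0]; exact hB
      nlinarith [mul_le_mul_of_nonneg_left e2 hδ.le]
    have h7 := mul_le_mul_of_nonneg_right h6 h4
    nlinarith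

/-- Hölder for two terms -/
theorem holder_two_terms {p q : ℝ} (hpq : p.HolderConjugate q) {a b x y u v : ℝ}
    (ha : 0 ≤ a) (hb : 0 ≤ b) (hx : 0 ≤ x) (hy : 0 ≤ y) (hu : 0 ≤ u) (hv : 0 ≤ v) :
    a * (x ^ (1 / p) * u ^ (1 / q)) + b * (y ^ (1 / p) * v ^ (1 / q)) ≤
      (a * x + b * y) ^ (1 / p) * (a * u + b * v) ^ (1 / q) := by
  have hp0 : 0 < p := hpq.pos
  have hq0 : 0 < q := hpq.symm.pos
  have key := Real.inner_le_Lp_mul_Lq_of_nonneg (Finset.univ : Finset (Fin 2)) hpq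
    (f := ![(a * x) ^ (1 / p), (b * y) ^ (1 / p)]) (g := ![(a * u) ^ (1 / q), (b * v) ^ (1 / q)])
    (by
      intro i _
      fin_cases i
      · exact Real.rpow_nonneg (by positivity) _
      · exact Real.rpow_nonneg (by positivity) _)
    (by
      intro i _
      fin_cases i
      · exact Real.rpow_nonneg (by positivity) _
      · exact Real.rpow_nonneg (by positivity) _)
  rw [Fin.sum_univ_two, Fin.sum_univ_two, Fin.sum_univ_two] at key
  simp only [Matrix.cons_val_zero, Matrix.cons_val_one] at key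
  have r1 : ∀ z : ℝ, 0 ≤ z → (z ^ (1 / p)) ^ p = z := by
    intro z hz
    rw [← Real.rpow_mul hz, one_div_mul_cancel hp0.ne', Real.rpow_one]
  have r2 : ∀ z : ℝ, 0 ≤ z → (z ^ (1 / q)) ^ q = z := by
    intro z hz
    rw [← Real.rpow_mul hz, one_div_mul_cancel hq0.ne', Real.rpow_one]
  rw [r1 _ (by positivity), r1 _ (by positivity), r2 _ (by positivity), r2 _ (by positivity)] at key
  refine le_trans (le_of_eq ?_) key
  have r3 : ∀ c z w : ℝ, 0 ≤ c → 0 ≤ z → 0 ≤ w →
      (c * z) ^ (1 / p) * (c * w) ^ (1 / q) = c * (z ^ (1 / p) * w ^ (1 / q)) := by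
    intro c z w hc hz hw
    rw [Real.mul_rpow hc hz, Real.mul_rpow hc hw]
    have : c ^ (1 / p) * c ^ (1 / q) = c := by
      rw [← Real.rpow_add_of_nonneg hc (by positivity) (by positivity)]
      have e : 1 / p + 1 / q = 1 := by
        rw [one_div, one_div]; exact hpq.inv_add_inv_eq_one
      rw [e, Real.rpow_one]
    calc c ^ (1 / p) * z ^ (1 / p) * (c ^ (1 / q) * w ^ (1 / q))
        = (c ^ (1 / p) * c ^ (1 / q)) * (z ^ (1 / p) * w ^ (1 / q)) := by ring
      _ = _ := by rw [this]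
  rw [r3 a x u ha hx hu, r3 b y v hb hy hv]

/-- Hölder -/
theorem avg_holder (hδ : 0 < δ) (hh : 0 < h) {p q : ℝ} (hpq : p.HolderConjugate q)
    {a b : ℕ → ℝ} (ha : ∀ m, 0 ≤ a m) (hb : ∀ m, 0 ≤ b m) :
    avg δ h (fun m => a m ^ (1 / p) * b m ^ (1 / q)) n ≤
      (avg δ h a n) ^ (1 / p) * (avg δ h b n) ^ (1 / q) := by
  have h1 : 0 ≤ h / (h + δ) := by positivity
  have h2 : 0 ≤ δ / (h + δ) := by positivity
  induction n with
  | zero =>
    simp only [avg_zero']
    exact mul_nonneg (Real.rpow_nonneg le_rfl _) (Real.rpow_nonneg le_rfl _)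
  | succ n ih =>
    rw [avg_succ, avg_succ, avg_succ]
    simp only [smul_eq_mul]
    have h3 : 0 ≤ avg δ h a n := avg_nonneg hδ hh fun m _ _ => ha m
    have h4 : 0 ≤ avg δ h b n := avg_nonneg hδ hh fun m _ _ => hb m
    have h5 := mul_le_mul_of_nonneg_left ih h1
    have h6 := holder_two_terms hpq h1 h2 h3 (ha (n + 1)) h4 (hb (n + 1))
    linarith

/-- Cauchy-Schwarz -/
theorem avg_cs (hδ : 0 < δ) (hh : 0 < h) {a b : ℕ → ℝ} (ha : ∀ m, 0 ≤ a m) (hb : ∀ m, 0 ≤ b m) :
    avg δ h (fun m => Real.sqrt (a m) * Real.sqrt (b m)) n ≤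
      Real.sqrt (avg δ h a n) * Real.sqrt (avg δ h b n) := by
  have h1 := avg_holder (n := n) hδ hh (p := 2) (q := 2)
    (Real.HolderConjugate.two_two) ha hb
  have e : ∀ z : ℝ, z ^ (1 / (2 : ℝ)) = Real.sqrt z := fun z => (Real.sqrt_eq_rpow z).symm
  simp only [e] at h1
  exact h1

/-- Jensen, concave powers -/
theorem avg_rpow_le (hδ : 0 < δ) (hh : 0 < h) {r : ℝ} (hr0 : 0 ≤ r) (hr : r ≤ 1)
    {a : ℕ → ℝ} (ha : ∀ m, 0 ≤ a m) :
    avg δ h (fun m => a m ^ r) n ≤ (avg δ h a n) ^ r := by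
  have h1 : 0 ≤ h / (h + δ) := by positivity
  have h2 : 0 ≤ δ / (h + δ) := by positivity
  have h3 : h / (h + δ) + δ / (h + δ) = 1 := by field_simp
  induction n with
  | zero =>
    simp only [avg_zero']
    exact Real.rpow_nonneg le_rfl _
  | succ n ih =>
    rw [avg_succ, avg_succ]
    simp only [smul_eq_mul]
    have h4 : 0 ≤ avg δ h a n := avg_nonneg hδ hh fun m _ _ => ha m
    have h5 := mul_le_mul_of_nonneg_left ih h1
    have h6 := (Real.concaveOn_rpow hr0 hr).2 (Set.mem_Ici.mpr h4) (Set.mem_Ici.mpr (ha (n + 1)))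
      h1 h2 h3
    simp only [smul_eq_mul] at h6
    linarith

/-- Jensen, convex powers -/
theorem abs_avg_rpow_le (hδ : 0 < δ) (hh : 0 < h) {r : ℝ} (hr : 1 ≤ r) (a : ℕ → ℝ) :
    |avg δ h a n| ^ r ≤ avg δ h (fun m => |a m| ^ r) n := by
  have h1 : 0 ≤ h / (h + δ) := by positivity
  have h2 : 0 ≤ δ / (h + δ) := by positivity
  have h3 : h / (h + δ) + δ / (h + δ) = 1 := by field_simp
  induction n with
  | zero =>
    simp only [avg_zero', abs_zero]
    rw [Real.zero_rpow (by linarith)]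
  | succ n ih =>
    rw [avg_succ, avg_succ]
    simp only [smul_eq_mul]
    have h5 := mul_le_mul_of_nonneg_left ih h1
    have h6 := (convexOn_rpow hr).2 (Set.mem_Ici.mpr (abs_nonneg (avg δ h a n)))
      (Set.mem_Ici.mpr (abs_nonneg (a (n + 1)))) h1 h2 h3
    simp only [smul_eq_mul] at h6
    have h7 : |h / (h + δ) * avg δ h a n + δ / (h + δ) * a (n + 1)| ≤
        h / (h + δ) * |avg δ h a n| + δ / (h + δ) * |a (n + 1)| := by
      refine (abs_add_le _ _).trans (le_of_eq ?_)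
      rw [abs_mul, abs_mul, abs_of_nonneg h1, abs_of_nonneg h2]
    have h8 := Real.rpow_le_rpow (abs_nonneg _) h7 (by linarith : 0 ≤ r)
    linarith

end real

end Pool.Agent.H15.Hx
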