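import Pool.Agent.H15.Hx.M02_Avg

/-! M02b: the one dimensional decay lemma. -/

set_option autoImplicit false

open MeasureTheory Set Filter Topology

noncomputable section

namespace Pool.Agent.H15.Hx

variable {δ h τ : ℝ} {n n1 : ℕ}

/-- first moment of the exponential weights against a slowly varying sequence -/
theorem avg_moment (hδ : 0 < δ) (hδτ : δ ≤ τ) {B : ℝ} (hB : 16 * τ ≤ B) {X : ℕ → ℝ}
    (hX : ∀ m ≤ n1, 0 ≤ X m) (hs : ∀ m < n1, X m ≤ (1 + δ / B) * X (m + 1)) :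
    ∀ n ≤ n1, avg δ τ (fun m => ((n : ℝ) - m) * δ * X m) n ≤ 3 * τ * X n := by
  have hτ : 0 < τ := by linarith
  have hB0 : 0 < B := by linarith
  intro n hn
  induction n with
  | zero =>
    have := hX 0 hn
    simp only [avg_zero']
    positivity
  | succ n ih =>
    have h1 := ih (by omega)
    have h2 := avg_slow_le hδ hτ (B := B) (by linarith) hX hs n (by omega)
    have h3 := hs n (by omega)
    have h4 := hX (n + 1) hn
    rw [avg_succ, smul_eq_mul, smul_eq_mul]
    have e1 : avg δ τ (fun m => (((n + 1 : ℕ) : ℝ) - m) * δ * X m) n =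
        avg δ τ (fun m => ((n : ℝ) - m) * δ * X m) n + δ * avg δ τ X n := by
      rw [← avg_mul_left, ← avg_add]
      refine avg_congr fun m _ _ => ?_
      push_cast
      ring
    rw [e1, sub_self, zero_mul, zero_mul, mul_zero, add_zero]
    have h5 : avg δ τ (fun m => ((n : ℝ) - m) * δ * X m) n + δ * avg δ τ X n ≤
        (3 * τ + 2 * δ) * ((1 + δ / B) * X (n + 1)) := by
      have h6 : (3 * τ + 2 * δ) * X n ≤ (3 * τ + 2 * δ) * ((1 + δ / B) * X (n + 1)) :=
        mul_le_mul_of_nonneg_left h3 (by positivity)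
      nlinarith [mul_le_mul_of_nonneg_left h2 hδ.le]
    have h7 : τ / (τ + δ) * (avg δ τ (fun m => ((n : ℝ) - m) * δ * X m) n + δ * avg δ τ X n) ≤
        τ / (τ + δ) * ((3 * τ + 2 * δ) * ((1 + δ / B) * X (n + 1))) :=
      mul_le_mul_of_nonneg_left h5 (by positivity)
    refine h7.trans ?_
    have h8 : τ / (τ + δ) * ((3 * τ + 2 * δ) * (1 + δ / B)) ≤ 3 * τ := by
      rw [div_mul_eq_mul_div, div_le_iff₀ (by positivity)]
      have e2 : δ / B ≤ 1 / 16 * (δ / τ) := by
        rw [div_le_iff₀ hB0]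
        have : δ = 1 / 16 * (δ / τ) * (16 * τ) := by field_simp
        calc δ = 1 / 16 * (δ / τ) * (16 * τ) := this
          _ ≤ 1 / 16 * (δ / τ) * B := mul_le_mul_of_nonneg_left hB (by positivity)
      have e3 : τ * (δ / τ) = δ := by field_simp
      have e4 : δ / τ ≤ 1 := by rw [div_le_one hτ]; exact hδτ
      have e5 : (3 * τ + 2 * δ) * (δ / B) ≤ (3 * τ + 2 * δ) * (1 / 16 * (δ / τ)) :=
        mul_le_mul_of_nonneg_left e2 (by positivity)
      have e6 : δ * (δ / τ) ≤ δ * 1 := mul_le_mul_of_nonneg_left e4 hδ.le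
      have e7 : (3 * τ + 2 * δ) * (1 + δ / B) ≤ 3 * (τ + δ) := by nlinarith
      nlinarith [mul_le_mul_of_nonneg_left e7 hτ.le]
    have h9 := mul_le_mul_of_nonneg_right h8 h4
    linarith

/-- the one dimensional decay lemma: `Y` decays at rate `c0 / τ` on the last `A τ` units of
time. -/
theorem decay1D (hδ : 0 < δ) (hδτ : δ ≤ τ) {c0 A D ε : ℝ} (hc0 : 0 < c0) (hc1 : c0 ≤ 1)
    (hA : 16 ≤ c0 * A) (hD : 0 ≤ D) (hε : 0 ≤ ε) {X Y r : ℕ → ℝ}
    (hX : ∀ m ≤ n1, 0 ≤ X m) (hXs : ∀ m < n1, X m ≤ (1 + δ / (A * τ)) * X (m + 1))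
    (hY0 : Y 0 = 0) (hYX : ∀ m ≤ n1, Y m ≤ D * X m) (hr : ∀ m, 0 ≤ r m)
    (h1 : ∀ m < n1, (Y (m + 1) - Y m) / δ ≤ r (m + 1))
    (h2 : ∀ m < n1, ((n1 : ℝ) - (m + 1 : ℕ)) * δ ≤ A * τ →
      (Y (m + 1) - Y m) / δ + c0 / τ * Y (m + 1) ≤ r (m + 1))
    (h3 : ∀ m ≤ n1, avg δ τ r m ≤ ε * (X m / τ) * D) :
    avg δ τ Y n1 ≤ 16 / c0 * (ε + 1 / A) * D * X n1 := by
  have hτ : 0 < τ := by linarith
  have hA0 : 0 < A := by
    by_contra h
    push Not at h
    nlinarith
  have hA16 : 16 ≤ A := by nlinarith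
  have hAτ : 0 < A * τ := by positivity
  -- the ramp
  set φ : ℕ → ℝ := fun m => max 0 (1 - ((n1 : ℝ) - m) * δ / (A * τ)) with hφ
  have hφ0 : ∀ m, 0 ≤ φ m := fun m => le_max_left _ _
  have hφ1 : ∀ m ≤ n1, φ m ≤ 1 := by
    intro m hm
    simp only [hφ]
    refine max_le (by norm_num) ?_
    have h1 : (0 : ℝ) ≤ (n1 : ℝ) - m := by
      have : (m : ℝ) ≤ n1 := by exact_mod_cast hm
      linarith
    have h2 : 0 ≤ ((n1 : ℝ) - m) * δ / (A * τ) := by positivity
    linarith
  have hφ2 : ∀ m, 1 - φ m ≤ ((n1 : ℝ) - m) * δ / (A * τ) := by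
    intro m
    have := le_max_right 0 (1 - ((n1 : ℝ) - m) * δ / (A * τ))
    simp only [hφ]
    linarith
  have hstep : ∀ m : ℕ, (1 - ((n1 : ℝ) - (m + 1 : ℕ)) * δ / (A * τ)) -
      (1 - ((n1 : ℝ) - m) * δ / (A * τ)) = δ / (A * τ) := by
    intro m
    push_cast
    ring
  have hφmono : ∀ m, φ m ≤ φ (m + 1) := by
    intro m
    simp only [hφ]
    refine max_le_max le_rfl ?_
    have := hstep m
    have h2 : 0 ≤ δ / (A * τ) := by positivity
    linarith
  have hφinc : ∀ m, φ (m + 1) - φ m ≤ δ / (A * τ) := by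
    intro m
    simp only [hφ]
    have h1 := hstep m
    have h2 : 0 ≤ δ / (A * τ) := by positivity
    have h3 := le_max_left 0 (1 - ((n1 : ℝ) - m) * δ / (A * τ))
    have h4 := le_max_right 0 (1 - ((n1 : ℝ) - m) * δ / (A * τ))
    have h5 : max 0 (1 - ((n1 : ℝ) - (m + 1 : ℕ)) * δ / (A * τ)) ≤
        max 0 (1 - ((n1 : ℝ) - m) * δ / (A * τ)) + δ / (A * τ) := by
      refine max_le (by linarith) (by linarith)
    linarith
  have hs2 : ∀ m < n1, X m ≤ 2 * X (m + 1) := by
    intro m hm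
    have h1 := hXs m hm
    have h2 := hX (m + 1) (by omega)
    have h3 : δ / (A * τ) ≤ 1 := by
      rw [div_le_one hAτ]
      nlinarith
    nlinarith
  -- the inequality for `V = φ Y`
  set V : ℕ → ℝ := fun m => φ m * Y m with hV
  set Bq : ℕ → ℝ := fun m => r m + (2 * D / (A * τ)) * X m with hBq
  have hV0 : V 0 = 0 := by simp only [hV, hY0, mul_zero]
  have hc0τ : 0 < τ / c0 := by positivity
  have hineq : ∀ m < n1, (V (m + 1) - V m) / δ + V (m + 1) / (τ / c0) ≤ Bq (m + 1) := by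
    intro m hm
    have hXm := hX m (by omega)
    have hXm1 := hX (m + 1) (by omega)
    have hr1 := hr (m + 1)
    have hYm := hYX m (by omega)
    have g1 : (φ (m + 1) - φ m) / δ ≤ 1 / (A * τ) := by
      rw [div_le_iff₀ hδ]
      have := hφinc m
      calc φ (m + 1) - φ m ≤ δ / (A * τ) := this
        _ = 1 / (A * τ) * δ := by ring
    have g0 : 0 ≤ (φ (m + 1) - φ m) / δ := by
      have := hφmono m
      exact div_nonneg (by linarith) hδ.le
    have g2 : Y m * ((φ (m + 1) - φ m) / δ) ≤ 2 * D / (A * τ) * X (m + 1) := by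
      have k1 : Y m * ((φ (m + 1) - φ m) / δ) ≤ (D * X m) * ((φ (m + 1) - φ m) / δ) :=
        mul_le_mul_of_nonneg_right hYm g0
      have k2 : (D * X m) * ((φ (m + 1) - φ m) / δ) ≤ (D * X m) * (1 / (A * τ)) :=
        mul_le_mul_of_nonneg_left g1 (by positivity)
      have k3 : (D * X m) * (1 / (A * τ)) ≤ (D * (2 * X (m + 1))) * (1 / (A * τ)) :=
        mul_le_mul_of_nonneg_right (mul_le_mul_of_nonneg_left (hs2 m hm) hD) (by positivity)
      calc Y m * ((φ (m + 1) - φ m) / δ) ≤ (D * (2 * X (m + 1))) * (1 / (A * τ)) :=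
            k1.trans (k2.trans k3)
        _ = 2 * D / (A * τ) * X (m + 1) := by ring
    have e1 : (V (m + 1) - V m) / δ + V (m + 1) / (τ / c0) =
        φ (m + 1) * ((Y (m + 1) - Y m) / δ + c0 / τ * Y (m + 1)) +
          Y m * ((φ (m + 1) - φ m) / δ) := by
      simp only [hV]
      field_simp
      ring
    rw [e1]
    simp only [hBq]
    rcases (hφ0 (m + 1)).eq_or_lt with h0 | hpos
    · rw [← h0, zero_mul, zero_add]
      have : φ m = 0 := le_antisymm (by rw [h0]; exact hφmono m) (hφ0 m)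
      rw [this, sub_self, zero_div, mul_zero]
      positivity
    · have hwin : ((n1 : ℝ) - (m + 1 : ℕ)) * δ ≤ A * τ := by
        by_contra hcon
        push Not at hcon
        have k1 : 1 < ((n1 : ℝ) - (m + 1 : ℕ)) * δ / (A * τ) := by
          rw [lt_div_iff₀ hAτ]; linarith
        have k2 : φ (m + 1) = 0 := by
          simp only [hφ]
          exact max_eq_left (by linarith)
        linarith
      have k3 := h2 m hm hwin
      have k4 : φ (m + 1) * ((Y (m + 1) - Y m) / δ + c0 / τ * Y (m + 1)) ≤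
          φ (m + 1) * r (m + 1) := mul_le_mul_of_nonneg_left k3 hpos.le
      have k5 : φ (m + 1) * r (m + 1) ≤ 1 * r (m + 1) :=
        mul_le_mul_of_nonneg_right (hφ1 (m + 1) (by omega)) hr1
      linarith
  have hVle := avg_ineq' hδ hc0τ hV0 hineq
  have hVX : ∀ m ≤ n1, V m ≤ D / c0 * (2 * ε + 4 / A) * X m := by
    intro m hm
    have hXm := hX m hm
    have k1 := hVle m hm
    have k2 : avg δ (τ / c0) Bq m = avg δ (τ / c0) r m +
        (2 * D / (A * τ)) * avg δ (τ / c0) X m := by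
      simp only [hBq]
      rw [avg_add, avg_mul_left]
    have hXs' : ∀ j < m, X j ≤ (1 + δ / (A * τ)) * X (j + 1) := fun j hj => hXs j (by omega)
    have hX' : ∀ j ≤ m, 0 ≤ X j := fun j hj => hX j (by omega)
    have k3 : avg δ (τ / c0) X m ≤ 2 * X m := by
      refine avg_slow_le hδ hc0τ (B := A * τ) ?_ hX' hXs' m le_rfl
      rw [mul_div_assoc', div_le_iff₀ hc0]
      nlinarith
    have k4 : avg δ (τ / c0) r m ≤ 2 * (ε * (X m / τ) * D) := by
      have hττ : τ ≤ τ / c0 := by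
        rw [le_div_iff₀ hc0]
        nlinarith
      rw [avg_long hδ hτ hττ r]
      have e2 : τ / (τ / c0) = c0 := by field_simp
      rw [e2]
      have k5 : avg δ (τ / c0) (avg δ τ r) m ≤ avg δ (τ / c0) (fun j => (ε * D / τ) * X j) m := by
        refine avg_mono hδ hc0τ fun j _ hj => ?_
        refine (h3 j (by omega)).trans (le_of_eq ?_)
        ring
      rw [avg_mul_left] at k5
      have k6 : (ε * D / τ) * avg δ (τ / c0) X m ≤ (ε * D / τ) * (2 * X m) :=
        mul_le_mul_of_nonneg_left k3 (by positivity)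
      have k7 := h3 m hm
      have k8 : (1 - c0) * avg δ (τ / c0) (avg δ τ r) m ≤ (1 - c0) * ((ε * D / τ) * (2 * X m)) :=
        mul_le_mul_of_nonneg_left (k5.trans k6) (by linarith)
      have k9 : c0 * avg δ τ r m ≤ c0 * (ε * (X m / τ) * D) := mul_le_mul_of_nonneg_left k7 hc0.le
      have e3 : (ε * D / τ) * (2 * X m) = 2 * (ε * (X m / τ) * D) := by ring
      rw [e3] at k8
      have k10 : 0 ≤ ε * (X m / τ) * D := by positivity
      nlinarith
    have k11 : avg δ (τ / c0) Bq m ≤ 2 * (ε * (X m / τ) * D) + (2 * D / (A * τ)) * (2 * X m) := by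
      rw [k2]
      have := mul_le_mul_of_nonneg_left k3 (show 0 ≤ 2 * D / (A * τ) by positivity)
      linarith
    have k12 := mul_le_mul_of_nonneg_left k11 hc0τ.le
    refine (k1.trans k12).trans (le_of_eq ?_)
    field_simp
    ring
  -- assembly
  have hYle : avg δ τ Y n1 ≤ avg δ τ (fun m => D / c0 * (2 * ε + 4 / A) * X m +
      (D / (A * τ)) * (((n1 : ℝ) - m) * δ * X m)) n1 := by
    refine avg_mono hδ hτ fun m _ hm => ?_
    have k1 := hVX m hm
    have k2 := hYX m hm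
    have k3 := hφ2 m
    have k4 := hφ1 m hm
    have k5 := hX m hm
    have e4 : Y m = V m + (1 - φ m) * Y m := by simp only [hV]; ring
    have k6 : (1 - φ m) * Y m ≤ (1 - φ m) * (D * X m) :=
      mul_le_mul_of_nonneg_left k2 (by linarith)
    have k7 : (1 - φ m) * (D * X m) ≤ (((n1 : ℝ) - m) * δ / (A * τ)) * (D * X m) :=
      mul_le_mul_of_nonneg_right k3 (by positivity)
    have e5 : (((n1 : ℝ) - m) * δ / (A * τ)) * (D * X m) =
        (D / (A * τ)) * (((n1 : ℝ) - m) * δ * X m) := by ring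
    rw [e4]
    linarith
  rw [avg_add, avg_mul_left, avg_mul_left] at hYle
  have hXn := hX n1 le_rfl
  have f1 : avg δ τ X n1 ≤ 2 * X n1 :=
    avg_slow_le hδ hτ (B := A * τ) (by nlinarith) hX hXs n1 le_rfl
  have f2 := avg_moment (n1 := n1) hδ hδτ (B := A * τ) (by nlinarith) hX hXs n1 le_rfl
  have f3 : D / c0 * (2 * ε + 4 / A) * avg δ τ X n1 ≤ D / c0 * (2 * ε + 4 / A) * (2 * X n1) :=
    mul_le_mul_of_nonneg_left f1 (by positivity)
  have f4 : D / (A * τ) * avg δ τ (fun m => ((n1 : ℝ) - m) * δ * X m) n1 ≤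
      D / (A * τ) * (3 * τ * X n1) := mul_le_mul_of_nonneg_left f2 (by positivity)
  have f5 : D / (A * τ) * (3 * τ * X n1) ≤ 1 / c0 * (3 / A * (D * X n1)) := by
    have e6 : D / (A * τ) * (3 * τ * X n1) = 3 / A * (D * X n1) := by field_simp
    rw [e6]
    have : 1 ≤ 1 / c0 := by rw [le_div_iff₀ hc0]; linarith
    have h0 : 0 ≤ 3 / A * (D * X n1) := by positivity
    nlinarith
  have f6 : 16 / c0 * (ε + 1 / A) * D * X n1 = D / c0 * (2 * ε + 4 / A) * (2 * X n1) +
      1 / c0 * (3 / A * (D * X n1)) + 1 / c0 * (12 * ε + 5 / A) * (D * X n1) := by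
    field_simp
    ring
  have f7 : 0 ≤ 1 / c0 * (12 * ε + 5 / A) * (D * X n1) := by positivity
  linarith

end Pool.Agent.H15.Hx
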