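import Pool.Agent.H15.Hx.M02_Avg

/-! M03: the weights `wt b x₀ r = (1 + |x-x₀|²/r²)^(-b/2)` and the functionals `I0`, `I2`. -/

set_option autoImplicit false

open MeasureTheory Set Filter Topology
open scoped RealInnerProductSpace
open Pool.Agent.H25.HX (E g Tst H10)

noncomputable section

namespace Pool.Agent.H15.Hx

section basic
variable {N : ℕ} {b c : ℝ} {x₀ : E N} {r : ℝ}

theorem wt_base_ge (x₀ : E N) (r : ℝ) (x : E N) : 1 ≤ 1 + ‖x - x₀‖ ^ 2 / r ^ 2 := by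
  have : 0 ≤ ‖x - x₀‖ ^ 2 / r ^ 2 := by positivity
  linarith

theorem wt_base_pos (x₀ : E N) (r : ℝ) (x : E N) : 0 < 1 + ‖x - x₀‖ ^ 2 / r ^ 2 :=
  lt_of_lt_of_le one_pos (wt_base_ge x₀ r x)

theorem wt_pos (x : E N) : 0 < wt b x₀ r x := Real.rpow_pos_of_pos (wt_base_pos x₀ r x) _

theorem wt_le_one (hb : 0 ≤ b) (x : E N) : wt b x₀ r x ≤ 1 :=
  Real.rpow_le_one_of_one_le_of_nonpos (wt_base_ge x₀ r x) (by linarith)

theorem wt_mul (x : E N) : wt b x₀ r x * wt c x₀ r x = wt (b + c) x₀ r x := by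
  unfold wt
  rw [← Real.rpow_add (wt_base_pos x₀ r x)]
  congr 1
  ring

theorem wt_rpow (x : E N) : wt b x₀ r x ^ c = wt (b * c) x₀ r x := by
  unfold wt
  rw [← Real.rpow_mul (wt_base_pos x₀ r x).le]
  congr 1
  ring

theorem wt_anti (hbc : b ≤ c) (x : E N) : wt c x₀ r x ≤ wt b x₀ r x :=
  Real.rpow_le_rpow_of_exponent_le (wt_base_ge x₀ r x) (by linarith)

theorem wt_contDiff : ContDiff ℝ 1 (wt b x₀ r) := by
  unfold wt
  apply ContDiff.rpow_const_of_ne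
  · exact contDiff_const.add (((contDiff_id.sub contDiff_const).norm_sq ℝ).div_const _)
  · exact fun x => (wt_base_pos x₀ r x).ne'

theorem wt_cont : Continuous (wt b x₀ r) := wt_contDiff.continuous

theorem wt_hasGradientAt (hr : 0 < r) (x : E N) :
    HasGradientAt (wt b x₀ r) ((-(b / r ^ 2) * wt (b + 2) x₀ r x) • (x - x₀)) x := by
  have h1 : HasFDerivAt (fun y : E N => ‖y - x₀‖ ^ 2)
      (2 • (innerSL ℝ (x - x₀)).comp (ContinuousLinearMap.id ℝ (E N))) x :=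
    ((hasFDerivAt_id x).sub_const x₀).norm_sq
  have h2 : HasFDerivAt (fun y : E N => 1 + ‖y - x₀‖ ^ 2 / r ^ 2)
      ((r ^ 2)⁻¹ • (2 • (innerSL ℝ (x - x₀)).comp (ContinuousLinearMap.id ℝ (E N)))) x := by
    have h3 := (h1.const_smul ((r ^ 2)⁻¹)).const_add 1
    refine h3.congr_of_eventuallyEq (Eventually.of_forall fun y => ?_)
    simp only [Pi.smul_apply, smul_eq_mul]
    rw [div_eq_inv_mul]
  have h4 := h2.rpow_const (p := -(b / 2)) (Or.inl (wt_base_pos x₀ r x).ne')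
  unfold HasGradientAt
  refine h4.congr_fderiv ?_
  ext y
  have h5 : (1 + ‖x - x₀‖ ^ 2 / r ^ 2) ^ (-(b / 2) - 1) = wt (b + 2) x₀ r x := by
    unfold wt
    congr 1
    ring
  simp only [ContinuousLinearMap.smul_apply, ContinuousLinearMap.comp_apply,
    ContinuousLinearMap.id_apply, innerSL_apply_apply, smul_eq_mul, h5,
    InnerProductSpace.toDual_apply_apply, inner_smul_left, nsmul_eq_mul]
  simp
  ring

theorem wt_grad (hr : 0 < r) (x : E N) :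
    gradient (wt b x₀ r) x = (-(b / r ^ 2) * wt (b + 2) x₀ r x) • (x - x₀) :=
  (wt_hasGradientAt hr x).gradient

theorem wt_grad_le (hb : 0 ≤ b) (hr : 0 < r) (x : E N) :
    ‖gradient (wt b x₀ r) x‖ ≤ b / r * wt (b + 1) x₀ r x := by
  have hB := wt_base_pos x₀ r x
  have h1 : ‖x - x₀‖ / r * wt (b + 2) x₀ r x ≤ wt (b + 1) x₀ r x := by
    have h2 : ‖x - x₀‖ / r ≤ (1 + ‖x - x₀‖ ^ 2 / r ^ 2) ^ (1 / 2 : ℝ) := by
      rw [← Real.sqrt_eq_rpow]
      apply Real.le_sqrt_of_sq_le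
      rw [div_pow]
      linarith
    have h3 : wt (b + 1) x₀ r x = (1 + ‖x - x₀‖ ^ 2 / r ^ 2) ^ (1 / 2 : ℝ) *
        wt (b + 2) x₀ r x := by
      unfold wt
      rw [← Real.rpow_add hB]
      congr 1
      ring
    rw [h3]
    exact mul_le_mul_of_nonneg_right h2 (wt_pos x).le
  rw [wt_grad hr, norm_smul, Real.norm_eq_abs, abs_mul, abs_neg,
    abs_of_nonneg (by positivity : 0 ≤ b / r ^ 2), abs_of_pos (wt_pos x)]
  calc b / r ^ 2 * wt (b + 2) x₀ r x * ‖x - x₀‖ = b / r * (‖x - x₀‖ / r * wt (b + 2) x₀ r x) := by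
        field_simp
    _ ≤ b / r * wt (b + 1) x₀ r x := mul_le_mul_of_nonneg_left h1 (by positivity)

theorem wt_ball (hb : 0 ≤ b) (hr : 0 < r) {x : E N} (hx : x ∈ Metric.ball x₀ r) :
    1 ≤ (2 : ℝ) ^ (b / 2) * wt b x₀ r x := by
  have h1 : ‖x - x₀‖ < r := by rwa [← dist_eq_norm]
  have h2 : 1 + ‖x - x₀‖ ^ 2 / r ^ 2 ≤ 2 := by
    have h3 : ‖x - x₀‖ ^ 2 / r ^ 2 ≤ 1 := by
      rw [div_le_one (by positivity)]
      exact pow_le_pow_left₀ (norm_nonneg _) h1.le 2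
    linarith
  have h4 : (2 : ℝ) ^ (-(b / 2)) ≤ wt b x₀ r x :=
    Real.rpow_le_rpow_of_nonpos (wt_base_pos x₀ r x) h2 (by linarith)
  calc (1 : ℝ) = (2 : ℝ) ^ (b / 2) * (2 : ℝ) ^ (-(b / 2)) := by
        rw [← Real.rpow_add two_pos]
        simp
    _ ≤ _ := mul_le_mul_of_nonneg_left h4 (by positivity)

theorem wt_R {R : ℝ} (h : Adm R x₀ r) {x : E N} (hx : ‖x‖ ≤ R) :
    wt b x₀ r x ≤ 5 * R ^ 2 / r ^ 2 * wt (b + 2) x₀ r x := by
  obtain ⟨h1, h2, h3⟩ := h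
  have h4 : wt b x₀ r x = (1 + ‖x - x₀‖ ^ 2 / r ^ 2) * wt (b + 2) x₀ r x := by
    unfold wt
    conv_rhs => rw [← Real.rpow_one (1 + ‖x - x₀‖ ^ 2 / r ^ 2), Real.rpow_one,
      show (1 + ‖x - x₀‖ ^ 2 / r ^ 2) * (1 + ‖x - x₀‖ ^ 2 / r ^ 2) ^ (-((b + 2) / 2)) =
        (1 + ‖x - x₀‖ ^ 2 / r ^ 2) ^ (1 : ℝ) * (1 + ‖x - x₀‖ ^ 2 / r ^ 2) ^ (-((b + 2) / 2)) by
        rw [Real.rpow_one], ← Real.rpow_add (wt_base_pos x₀ r x)]
    congr 1
    ring
  have h5 : ‖x - x₀‖ ≤ 2 * R := by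
    calc ‖x - x₀‖ ≤ ‖x‖ + ‖x₀‖ := norm_sub_le _ _
      _ ≤ 2 * R := by linarith
  have h6 : 1 + ‖x - x₀‖ ^ 2 / r ^ 2 ≤ 5 * R ^ 2 / r ^ 2 := by
    rw [le_div_iff₀ (by positivity)]
    have h7 : ‖x - x₀‖ ^ 2 ≤ (2 * R) ^ 2 := pow_le_pow_left₀ (norm_nonneg _) h5 2
    have h8 : r ^ 2 ≤ R ^ 2 := pow_le_pow_left₀ h2.le h3 2
    have h9 : (1 + ‖x - x₀‖ ^ 2 / r ^ 2) * r ^ 2 = r ^ 2 + ‖x - x₀‖ ^ 2 := by
      field_simp
    rw [h9]
    nlinarith
  rw [h4]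
  exact mul_le_mul_of_nonneg_right h6 (wt_pos x).le

/-- integral of the weight for `b > N` -/
theorem wt_integral (N : ℕ) (b : ℝ) (hb : (N : ℝ) < b) : ∃ C : ℝ, 0 < C ∧
    ∀ (x₀ : E N) (r : ℝ), 0 < r → Integrable (wt b x₀ r) ∧
      ∫ x, wt b x₀ r x = C * r ^ (N : ℝ) := by
  set φ : E N → ℝ := fun y => (1 + ‖y‖ ^ 2) ^ (-b / 2) with hφ
  have hint : Integrable φ := by
    apply integrable_rpow_neg_one_add_norm_sq
    simpa using hb
  have hpos : ∀ y, 0 < φ y := fun y => Real.rpow_pos_of_pos (by positivity) _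
  refine ⟨∫ y, φ y, ?_, ?_⟩
  · rw [integral_pos_iff_support_of_nonneg (fun y => (hpos y).le) hint]
    have h1 : Function.support φ = univ := by
      ext y
      simp [(hpos y).ne']
    rw [h1]
    exact Measure.measure_univ_pos.2 (NeZero.ne _)
  · intro x₀ r hr
    have hw : wt b x₀ r = fun x => φ (r⁻¹ • (x - x₀)) := by
      funext x
      simp only [wt, hφ]
      rw [norm_smul, norm_inv, Real.norm_eq_abs, abs_of_pos hr, mul_pow, inv_pow,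
        ← div_eq_inv_mul]
      congr 1
      ring
    have h2 : Integrable (fun x : E N => φ (r⁻¹ • x)) := hint.comp_smul (inv_ne_zero hr.ne')
    constructor
    · rw [hw]
      exact h2.comp_sub_right x₀
    · rw [hw, integral_sub_right_eq_self (fun x => φ (r⁻¹ • x)) x₀, Measure.integral_comp_smul]
      rw [finrank_euclideanSpace_fin, smul_eq_mul, inv_pow, inv_inv, abs_of_pos (by positivity),
        Real.rpow_natCast]
      ring

/-- projection of a centre onto the ball of radius `R` -/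
theorem ball_adm {R : ℝ} (hR : 0 < R) (hr : 0 < r) : ∃ (x₁ : E N) (r₁ : ℝ), Adm R x₁ r₁ ∧
    r₁ ≤ r ∧ Metric.ball x₀ r ∩ Metric.ball 0 R ⊆ Metric.ball x₁ r₁ := by
  rcases le_or_gt R r with h | h
  · exact ⟨0, R, ⟨by simpa using hR.le, hR, le_rfl⟩, h, inter_subset_right⟩
  rcases le_or_gt ‖x₀‖ R with h0 | h0
  · exact ⟨x₀, r, ⟨h0, hr, h.le⟩, le_rfl, inter_subset_left⟩
  have hx0 : 0 < ‖x₀‖ := hR.trans h0
  set t : ℝ := R / ‖x₀‖ with ht
  have ht0 : 0 < t := by positivity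
  have ht1 : t < 1 := by rwa [ht, div_lt_one hx0]
  have htR : t * ‖x₀‖ = R := by rw [ht]; field_simp
  refine ⟨t • x₀, r, ⟨?_, hr, h.le⟩, le_rfl, ?_⟩
  · rw [norm_smul, Real.norm_eq_abs, abs_of_pos ht0, htR]
  · rintro x ⟨hx1, hx2⟩
    rw [Metric.mem_ball, dist_eq_norm] at hx1 ⊢
    rw [Metric.mem_ball, dist_zero_right] at hx2
    refine lt_of_le_of_lt ?_ hx1
    apply le_of_sq_le_sq _ (norm_nonneg _)
    rw [@norm_sub_sq_real, @norm_sub_sq_real, norm_smul, Real.norm_eq_abs, abs_of_pos ht0, htR,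
      inner_smul_right]
    have h1 : ⟪x, x₀⟫ ≤ ‖x‖ * ‖x₀‖ := real_inner_le_norm x x₀
    have h2 : ‖x‖ * ‖x₀‖ ≤ R * ‖x₀‖ := mul_le_mul_of_nonneg_right hx2.le hx0.le
    have h3 : ⟪x, x₀⟫ ≤ R * ‖x₀‖ := h1.trans h2
    have h4 : (1 - t) * ⟪x, x₀⟫ ≤ (1 - t) * (R * ‖x₀‖) :=
      mul_le_mul_of_nonneg_left h3 (by linarith)
    have h5 : (1 - t) * (R * ‖x₀‖) = R * ‖x₀‖ - R * R := by
      rw [sub_mul, one_mul, mul_left_comm, htR]
    nlinarith [sq_nonneg (‖x₀‖ - R)]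

/-- volume of balls -/
theorem vol_ball (N : ℕ) : ∃ C : ℝ, 0 < C ∧ ∀ (x₀ : E N) (r : ℝ), 0 < r →
    (volume (Metric.ball x₀ r)).toReal = C * r ^ (N : ℝ) := by
  refine ⟨(volume (Metric.ball (0 : E N) 1)).toReal, ?_, fun x₀ r hr => ?_⟩
  · exact ENNReal.toReal_pos (Metric.measure_ball_pos volume _ one_pos).ne'
      Metric.isBounded_ball.measure_lt_top.ne
  · rw [Measure.addHaar_ball_of_pos volume x₀ hr, ENNReal.toReal_mul,
      ENNReal.toReal_ofReal (by positivity), finrank_euclideanSpace_fin, Real.rpow_natCast]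
    ring
end basic

end Pool.Agent.H15.Hx
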