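import Pool.Agent.H15.Hx.M03_Wt

/-! M03b: the functionals `I0`, `I2`. -/

set_option autoImplicit false

open MeasureTheory Set Filter Topology
open scoped RealInnerProductSpace
open Pool.Agent.H25.HX (E g Tst H10)

noncomputable section

namespace Pool.Agent.H15.Hx

section b3aux
variable {α : Type*} [MeasurableSpace α] {μ : Measure α}

theorem b3_memLp {p : ℝ} (hp : 0 < p) {f : α → ℝ} (hf : AEStronglyMeasurable f μ)
    (h0 : ∀ x, 0 ≤ f x) (hi : Integrable (fun x => f x ^ p) μ) :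
    MemLp f (ENNReal.ofReal p) μ := by
  rw [← integrable_norm_rpow_iff hf (by simpa using hp) ENNReal.ofReal_ne_top,
    ENNReal.toReal_ofReal hp.le]
  have : (fun x => ‖f x‖ ^ p) = fun x => f x ^ p := by
    funext x
    rw [Real.norm_of_nonneg (h0 x)]
  rw [this]
  exact hi

theorem b3_holder {p q : ℝ} (hpq : p.HolderConjugate q) {f g : α → ℝ}
    (hf : AEStronglyMeasurable f μ) (hg : AEStronglyMeasurable g μ)
    (f0 : ∀ x, 0 ≤ f x) (g0 : ∀ x, 0 ≤ g x) (hfi : Integrable (fun x => f x ^ p) μ)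
    (hgi : Integrable (fun x => g x ^ q) μ) :
    Integrable (fun x => f x * g x) μ ∧ ∫ x, f x * g x ∂μ ≤
      (∫ x, f x ^ p ∂μ) ^ (1 / p) * (∫ x, g x ^ q ∂μ) ^ (1 / q) := by
  constructor
  · refine Integrable.mono' ((hfi.div_const p).add (hgi.div_const q)) (hf.mul hg) ?_
    filter_upwards with x
    rw [Real.norm_of_nonneg (mul_nonneg (f0 x) (g0 x))]
    exact Real.young_inequality_of_nonneg (f0 x) (g0 x) hpq
  · exact integral_mul_le_Lp_mul_Lq_of_nonneg hpq (ae_of_all _ f0) (ae_of_all _ g0)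
      (b3_memLp hpq.pos hf f0 hfi) (b3_memLp hpq.symm.pos hg g0 hgi)

/-- Hölder for a product of two nonnegative functions given as powers -/
theorem b3_holder' {p q : ℝ} (hpq : p.HolderConjugate q) {u v w : α → ℝ}
    (hu : AEStronglyMeasurable u μ) (hv : AEStronglyMeasurable v μ)
    (u0 : ∀ x, 0 ≤ u x) (v0 : ∀ x, 0 ≤ v x) (hui : Integrable u μ) (hvi : Integrable v μ)
    (hw : ∀ x, w x = u x ^ (1 / p) * v x ^ (1 / q)) :
    Integrable w μ ∧ ∫ x, w x ∂μ ≤ (∫ x, u x ∂μ) ^ (1 / p) * (∫ x, v x ∂μ) ^ (1 / q) := by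
  have hp : p ≠ 0 := hpq.ne_zero
  have hq : q ≠ 0 := hpq.symm.ne_zero
  have e1 : ∀ x, (u x ^ (1 / p)) ^ p = u x := by
    intro x
    rw [← Real.rpow_mul (u0 x), one_div, inv_mul_cancel₀ hp, Real.rpow_one]
  have e2 : ∀ x, (v x ^ (1 / q)) ^ q = v x := by
    intro x
    rw [← Real.rpow_mul (v0 x), one_div, inv_mul_cancel₀ hq, Real.rpow_one]
  have h := b3_holder (μ := μ) hpq (f := fun x => u x ^ (1 / p)) (g := fun x => v x ^ (1 / q))
    (hu.aemeasurable.pow_const _).aestronglyMeasurable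
    (hv.aemeasurable.pow_const _).aestronglyMeasurable
    (fun x => Real.rpow_nonneg (u0 x) _) (fun x => Real.rpow_nonneg (v0 x) _)
    (by simpa only [e1] using hui) (by simpa only [e2] using hvi)
  simp only [e1, e2] at h
  have : w = fun x => u x ^ (1 / p) * v x ^ (1 / q) := funext hw
  rw [this]
  exact h

theorem b3_avg_int {δ h : ℝ} {w : ℕ → α → ℝ} (hw : ∀ m, Integrable (w m) μ) (n : ℕ) :
    Integrable (fun x => avg δ h (fun m => w m x) n) μ ∧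
    ∫ x, avg δ h (fun m => w m x) n ∂μ = avg δ h (fun m => ∫ x, w m x ∂μ) n := by
  induction n with
  | zero => simp [avg]
  | succ n ih =>
    obtain ⟨i1, i2⟩ := ih
    have e : (fun x => avg δ h (fun m => w m x) (n + 1)) = fun x =>
        (h / (h + δ)) * avg δ h (fun m => w m x) n + (δ / (h + δ)) * w (n + 1) x := by
      funext x
      simp [avg]
    rw [e]
    refine ⟨(i1.const_mul _).add ((hw _).const_mul _), ?_⟩
    rw [integral_add (i1.const_mul _) ((hw _).const_mul _), integral_const_mul,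
      integral_const_mul, i2]
    simp [avg]

end b3aux

section integrals
variable {P : Par} {x₀ : E P.N} {r : ℝ}

theorem wt_int {b : ℝ} (hb : 0 ≤ b) {w : E P.N → ℝ} (hw : Integrable w) :
    Integrable (fun x => wt b x₀ r x * w x) := by
  refine hw.bdd_mul (c := 1) wt_cont.aestronglyMeasurable (ae_of_all _ fun x => ?_)
  rw [Real.norm_of_nonneg (wt_pos x).le]
  exact wt_le_one hb x

theorem b3_l0 (P : Par) : 0 ≤ P.lam' := P.lam'_pos.le
theorem b3_l2 (P : Par) : 0 ≤ P.lam' + 2 := by have := P.lam'_pos; linarith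

theorem I0_nonneg {w : E P.N → ℝ} (hw : ∀ x, 0 ≤ w x) : 0 ≤ I0 P x₀ r w :=
  integral_nonneg fun x => mul_nonneg (wt_pos x).le (hw x)
theorem I2_nonneg {w : E P.N → ℝ} (hw : ∀ x, 0 ≤ w x) : 0 ≤ I2 P x₀ r w :=
  div_nonneg (integral_nonneg fun x => mul_nonneg (wt_pos x).le (hw x)) (sq_nonneg r)
theorem I0_mono {w v : E P.N → ℝ} (hw : Integrable w) (hv : Integrable v)
    (h : ∀ᵐ x, w x ≤ v x) : I0 P x₀ r w ≤ I0 P x₀ r v := by
  refine integral_mono_ae (wt_int (b3_l0 P) hw) (wt_int (b3_l0 P) hv) ?_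
  filter_upwards [h] with x hx
  exact mul_le_mul_of_nonneg_left hx (wt_pos x).le
theorem I2_mono {w v : E P.N → ℝ} (hw : Integrable w) (hv : Integrable v)
    (h : ∀ᵐ x, w x ≤ v x) : I2 P x₀ r w ≤ I2 P x₀ r v := by
  refine div_le_div_of_nonneg_right ?_ (sq_nonneg r)
  refine integral_mono_ae (wt_int (b3_l2 P) hw) (wt_int (b3_l2 P) hv) ?_
  filter_upwards [h] with x hx
  exact mul_le_mul_of_nonneg_left hx (wt_pos x).le
theorem I0_add {w v : E P.N → ℝ} (hw : Integrable w) (hv : Integrable v) :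
    I0 P x₀ r (fun x => w x + v x) = I0 P x₀ r w + I0 P x₀ r v := by
  unfold I0
  rw [← integral_add (wt_int (b3_l0 P) hw) (wt_int (b3_l0 P) hv)]
  simp only [mul_add]
theorem I2_add {w v : E P.N → ℝ} (hw : Integrable w) (hv : Integrable v) :
    I2 P x₀ r (fun x => w x + v x) = I2 P x₀ r w + I2 P x₀ r v := by
  unfold I2
  rw [← add_div, ← integral_add (wt_int (b3_l2 P) hw) (wt_int (b3_l2 P) hv)]
  simp only [mul_add]
theorem I0_sub {w v : E P.N → ℝ} (hw : Integrable w) (hv : Integrable v) :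
    I0 P x₀ r (fun x => w x - v x) = I0 P x₀ r w - I0 P x₀ r v := by
  unfold I0
  rw [← integral_sub (wt_int (b3_l0 P) hw) (wt_int (b3_l0 P) hv)]
  simp only [mul_sub]
theorem I0_mul (c : ℝ) (w : E P.N → ℝ) :
    I0 P x₀ r (fun x => c * w x) = c * I0 P x₀ r w := by
  unfold I0
  rw [← integral_const_mul]
  refine integral_congr_ae (ae_of_all _ fun x => ?_)
  simp only
  ring
theorem I2_mul (c : ℝ) (w : E P.N → ℝ) :
    I2 P x₀ r (fun x => c * w x) = c * I2 P x₀ r w := by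
  unfold I2
  rw [← mul_div_assoc, ← integral_const_mul]
  congr 1
  refine integral_congr_ae (ae_of_all _ fun x => ?_)
  simp only
  ring
theorem b3_avg_mul {δ h c : ℝ} (q : ℕ → ℝ) (n : ℕ) :
    c * avg δ h q n = avg δ h (fun m => c * q m) n := by
  induction n with
  | zero => simp [avg]
  | succ n ih =>
    simp only [avg, smul_eq_mul]
    rw [← ih]
    ring
theorem I0_avg {δ h : ℝ} {w : ℕ → E P.N → ℝ} (hw : ∀ m, Integrable (w m)) (n : ℕ) :
    I0 P x₀ r (fun x => avg δ h (fun m => w m x) n) = avg δ h (fun m => I0 P x₀ r (w m)) n := by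
  unfold I0
  rw [← (b3_avg_int (fun m => wt_int (x₀ := x₀) (r := r) (b3_l0 P) (hw m)) n).2]
  refine integral_congr_ae (ae_of_all _ fun x => ?_)
  simp only
  rw [b3_avg_mul]
theorem I2_avg {δ h : ℝ} {w : ℕ → E P.N → ℝ} (hw : ∀ m, Integrable (w m)) (n : ℕ) :
    I2 P x₀ r (fun x => avg δ h (fun m => w m x) n) = avg δ h (fun m => I2 P x₀ r (w m)) n := by
  unfold I2
  have e := (b3_avg_int (δ := δ) (h := h)
    (fun m => wt_int (x₀ := x₀) (r := r) (b3_l2 P) (hw m)) n).2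
  have e2 : avg δ h (fun m => (∫ x, wt (P.lam' + 2) x₀ r x * w m x) / r ^ 2) n =
      (avg δ h (fun m => ∫ x, wt (P.lam' + 2) x₀ r x * w m x) n) / r ^ 2 := by
    rw [div_eq_inv_mul, b3_avg_mul]
    simp only [div_eq_inv_mul]
  rw [e2, ← e]
  congr 1
  refine integral_congr_ae (ae_of_all _ fun x => ?_)
  simp only
  rw [b3_avg_mul]
theorem I2_le_I0 (hr : 0 < r) {w : E P.N → ℝ} (hw : Integrable w) (h0 : ∀ x, 0 ≤ w x) :
    I2 P x₀ r w ≤ I0 P x₀ r w / r ^ 2 := by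
  refine div_le_div_of_nonneg_right ?_ (sq_nonneg r)
  refine integral_mono (wt_int (b3_l2 P) hw) (wt_int (b3_l0 P) hw) fun x => ?_
  exact mul_le_mul_of_nonneg_right (wt_anti (by linarith) x) (h0 x)
theorem I0_le_I2 {R : ℝ} (h : Adm R x₀ r) {w : E P.N → ℝ} (hw : Integrable w)
    (h0 : ∀ x, 0 ≤ w x) (hs : ∀ᵐ x, x ∉ Metric.ball (0 : E P.N) R → w x = 0) :
    I0 P x₀ r w ≤ 5 * R ^ 2 * I2 P x₀ r w := by
  have hr : 0 < r := h.2.1
  have e : 5 * R ^ 2 * I2 P x₀ r w =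
      ∫ x, 5 * R ^ 2 / r ^ 2 * (wt (P.lam' + 2) x₀ r x * w x) := by
    unfold I2
    rw [integral_const_mul]
    ring
  rw [e]
  refine integral_mono_ae (wt_int (b3_l0 P) hw) ((wt_int (b3_l2 P) hw).const_mul _) ?_
  filter_upwards [hs] with x hx
  by_cases hxR : x ∈ Metric.ball (0 : E P.N) R
  · rw [mem_ball_zero_iff] at hxR
    have := mul_le_mul_of_nonneg_right (wt_R (b := P.lam') h hxR.le) (h0 x)
    calc _ ≤ _ := this
      _ = _ := by ring
  · rw [hx hxR]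
    simp

theorem b3_qp (P : Par) : P.q.HolderConjugate P.p := P.holder.symm

theorem b3_pos_p (P : Par) : 0 < P.p := by have := P.two_lt_p; linarith
theorem b3_pos_q (P : Par) : 0 < P.q := by have := P.q_gt_one; linarith

/-- Hölder with the weight -/
theorem b3_wt_holder {p q b : ℝ} (hb : 0 ≤ b) (hpq : p.HolderConjugate q) {a c : E P.N → ℝ}
    (ha : AEStronglyMeasurable a volume) (hc : AEStronglyMeasurable c volume)
    (ha' : Integrable (fun x => |a x| ^ p)) (hc' : Integrable (fun x => |c x| ^ q)) :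
    Integrable (fun x => wt b x₀ r x * (|a x| * |c x|)) ∧
    ∫ x, wt b x₀ r x * (|a x| * |c x|) ≤
      (∫ x, wt b x₀ r x * |a x| ^ p) ^ (1 / p) * (∫ x, wt b x₀ r x * |c x| ^ q) ^ (1 / q) := by
  have hp0 : p ≠ 0 := hpq.ne_zero
  have hq0 : q ≠ 0 := hpq.symm.ne_zero
  refine b3_holder' hpq ((wt_int hb ha').aestronglyMeasurable)
    ((wt_int hb hc').aestronglyMeasurable)
    (fun x => mul_nonneg (wt_pos x).le (Real.rpow_nonneg (abs_nonneg _) _))
    (fun x => mul_nonneg (wt_pos x).le (Real.rpow_nonneg (abs_nonneg _) _))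
    (wt_int hb ha') (wt_int hb hc') fun x => ?_
  have hw := wt_pos (b := b) (x₀ := x₀) (r := r) x
  rw [Real.mul_rpow hw.le (Real.rpow_nonneg (abs_nonneg _) _),
    Real.mul_rpow hw.le (Real.rpow_nonneg (abs_nonneg _) _), ← Real.rpow_mul (abs_nonneg _),
    ← Real.rpow_mul (abs_nonneg _), one_div, one_div, mul_inv_cancel₀ hp0, mul_inv_cancel₀ hq0,
    Real.rpow_one, Real.rpow_one]
  have e : wt b x₀ r x ^ p⁻¹ * wt b x₀ r x ^ q⁻¹ = wt b x₀ r x := by
    rw [← Real.rpow_add hw, hpq.inv_add_inv_eq_one, Real.rpow_one]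
  calc wt b x₀ r x * (|a x| * |c x|)
      = (wt b x₀ r x ^ p⁻¹ * wt b x₀ r x ^ q⁻¹) * (|a x| * |c x|) := by rw [e]
    _ = _ := by ring

theorem I0_cs {a b : E P.N → ℝ} (ha : MemLp a 2 volume) (hb : MemLp b 2 volume) :
    I0 P x₀ r (fun x => |a x| * |b x|) ≤
      Real.sqrt (I0 P x₀ r (fun x => a x ^ 2)) * Real.sqrt (I0 P x₀ r (fun x => b x ^ 2)) := by
  have ea : ∀ a : E P.N → ℝ, (fun x => |a x| ^ (2 : ℝ)) = fun x => a x ^ 2 := by
    intro a
    funext x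
    rw [Real.rpow_two, sq_abs]
  have h := (b3_wt_holder (x₀ := x₀) (r := r) (b3_l0 P) Real.HolderConjugate.two_two
    ha.1 hb.1 (by rw [ea]; exact ha.integrable_sq) (by rw [ea]; exact hb.integrable_sq)).2
  simp only [Real.rpow_two, sq_abs] at h
  rw [← Real.sqrt_eq_rpow, ← Real.sqrt_eq_rpow] at h
  exact h

theorem I0_holder {a b : E P.N → ℝ} (ha : AEStronglyMeasurable a volume)
    (hb : AEStronglyMeasurable b volume) (ha' : Integrable (fun x => |a x| ^ P.q))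
    (hb' : Integrable (fun x => |b x| ^ P.p)) :
    I0 P x₀ r (fun x => |a x| * |b x|) ≤
      (I0 P x₀ r (fun x => |a x| ^ P.q)) ^ (1 / P.q) *
        (I0 P x₀ r (fun x => |b x| ^ P.p)) ^ (1 / P.p) :=
  (b3_wt_holder (x₀ := x₀) (r := r) (b3_l0 P) (b3_qp P) ha hb ha' hb').2

theorem b3_big (P : Par) : (P.N : ℝ) < P.lam' + 2 * P.s := by
  have h1 := P.lam_lt_lam'
  have h2 : P.lam = (P.N : ℝ) - 2 * P.s := rfl
  linarith

/-- `I2 w² ≤ C (r^λ)^(1/s) (I0 |w|^p)^(2/p)` -/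
theorem holder_two (P : Par) : ∃ C : ℝ, 0 < C ∧ ∀ (x₀ : E P.N) (r : ℝ), 0 < r →
    ∀ w : E P.N → ℝ, AEStronglyMeasurable w volume → Integrable (fun x => |w x| ^ P.p) →
    I2 P x₀ r (fun x => w x ^ 2) ≤
      C * (r ^ P.lam) ^ (1 / P.s) * (I0 P x₀ r (fun x => |w x| ^ P.p)) ^ (2 / P.p) := by
  obtain ⟨C, hC, hI⟩ := wt_integral P.N (P.lam' + 2 * P.s) (b3_big P)
  refine ⟨C ^ (1 / P.s), Real.rpow_pos_of_pos hC _, fun x₀ r hr w hw hwi => ?_⟩
  obtain ⟨hI1, hI2⟩ := hI x₀ r hr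
  have hp := P.two_lt_p
  have hs := P.s_gt_one
  have hs0 : P.s ≠ 0 := by positivity
  have hp0 : P.p ≠ 0 := by positivity
  have hinv : 1 / P.s = 1 - 2 / P.p := P.inv_s
  have hconj : P.s.HolderConjugate (P.p / 2) := by
    rw [Real.holderConjugate_iff]
    refine ⟨hs, ?_⟩
    rw [← one_div, hinv, inv_div]
    ring
  have h := (b3_holder' (μ := volume) hconj (u := wt (P.lam' + 2 * P.s) x₀ r)
    (v := fun x => wt P.lam' x₀ r x * |w x| ^ P.p)
    (w := fun x => wt (P.lam' + 2) x₀ r x * w x ^ 2) wt_cont.aestronglyMeasurable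
    (wt_int (b3_l0 P) hwi).aestronglyMeasurable (fun x => (wt_pos x).le)
    (fun x => mul_nonneg (wt_pos x).le (Real.rpow_nonneg (abs_nonneg _) _)) hI1
    (wt_int (b3_l0 P) hwi) ?_).2
  · have hr2 : r ^ (-2 : ℝ) = (r ^ 2)⁻¹ := by
      rw [Real.rpow_neg hr.le, Real.rpow_two]
    have e1 : (1 : ℝ) / (P.p / 2) = 2 / P.p := by rw [one_div, inv_div]
    rw [e1, hI2, Real.mul_rpow hC.le (Real.rpow_nonneg hr.le _)] at h
    unfold I2 I0
    calc (∫ x, wt (P.lam' + 2) x₀ r x * w x ^ 2) / r ^ 2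
        = r ^ (-2 : ℝ) * ∫ x, wt (P.lam' + 2) x₀ r x * w x ^ 2 := by rw [hr2]; ring
      _ ≤ r ^ (-2 : ℝ) * (C ^ (1 / P.s) * (r ^ (P.N : ℝ)) ^ (1 / P.s) *
            (∫ x, wt P.lam' x₀ r x * |w x| ^ P.p) ^ (2 / P.p)) :=
          mul_le_mul_of_nonneg_left h (Real.rpow_nonneg hr.le _)
      _ = C ^ (1 / P.s) * (r ^ (-2 : ℝ) * (r ^ (P.N : ℝ)) ^ (1 / P.s)) *
            (∫ x, wt P.lam' x₀ r x * |w x| ^ P.p) ^ (2 / P.p) := by ring
      _ = _ := by rw [Par.r_count_two hr]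
  · intro x
    have hw0 := wt_pos (b := P.lam') (x₀ := x₀) (r := r) x
    have e1 : (1 : ℝ) / (P.p / 2) = 2 / P.p := by rw [one_div, inv_div]
    rw [e1, Real.mul_rpow hw0.le (Real.rpow_nonneg (abs_nonneg _) _), wt_rpow, wt_rpow,
      ← Real.rpow_mul (abs_nonneg _), mul_div_cancel₀ _ hp0, ← mul_assoc, wt_mul,
      Real.rpow_two, sq_abs]
    congr 2
    rw [add_mul, mul_assoc 2 P.s, mul_one_div_cancel hs0, hinv]
    ring

theorem b3_qs (P : Par) : P.q * (2 / (2 - P.q)) = 2 * P.s := by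
  rw [P.two_sub_q, ← P.β_mul_q]
  have : P.β ≠ 0 := by have := P.β_gt_one; positivity
  field_simp

/-- `r^(-q) ∫ wt (λ'+q) |V|^q ≤ C (r^λ)^(1-q/2) (I0 |V|²)^(q/2)` -/
theorem holder_q (P : Par) : ∃ C : ℝ, 0 < C ∧ ∀ (x₀ : E P.N) (r : ℝ), 0 < r →
    ∀ V : E P.N → E P.N, MemLp V 2 volume →
    Integrable (fun x => wt (P.lam' + P.q) x₀ r x * ‖V x‖ ^ P.q) ∧
    r ^ (-P.q) * ∫ x, wt (P.lam' + P.q) x₀ r x * ‖V x‖ ^ P.q ≤
      C * (r ^ P.lam) ^ (1 - P.q / 2) * (I0 P x₀ r (fun x => ‖V x‖ ^ 2)) ^ (P.q / 2) := by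
  obtain ⟨C, hC, hI⟩ := wt_integral P.N (P.lam' + 2 * P.s) (b3_big P)
  refine ⟨C ^ (1 - P.q / 2), Real.rpow_pos_of_pos hC _, fun x₀ r hr V hV => ?_⟩
  obtain ⟨hI1, hI2⟩ := hI x₀ r hr
  have hq1 := P.q_gt_one
  have hq2 := P.q_lt_two
  have hq0 : P.q ≠ 0 := by positivity
  have hq3 : (2 : ℝ) - P.q ≠ 0 := by linarith
  have hV2 : Integrable (fun x => ‖V x‖ ^ 2) := (memLp_two_iff_integrable_sq_norm hV.1).1 hV
  have ea : (1 : ℝ) / (2 / (2 - P.q)) = 1 - P.q / 2 := by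
    rw [one_div, inv_div]
    ring
  have eb : (1 : ℝ) / (2 / P.q) = P.q / 2 := by rw [one_div, inv_div]
  have hconj : (2 / (2 - P.q)).HolderConjugate (2 / P.q) := by
    rw [Real.holderConjugate_iff]
    refine ⟨?_, ?_⟩
    · rw [one_lt_div (by linarith)]
      linarith
    · rw [← one_div, ← one_div, ea, eb]
      ring
  have h := (b3_holder' (μ := volume) hconj (u := wt (P.lam' + 2 * P.s) x₀ r)
    (v := fun x => wt P.lam' x₀ r x * ‖V x‖ ^ 2)
    (w := fun x => wt (P.lam' + P.q) x₀ r x * ‖V x‖ ^ P.q) wt_cont.aestronglyMeasurable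
    (wt_int (b3_l0 P) hV2).aestronglyMeasurable (fun x => (wt_pos x).le)
    (fun x => mul_nonneg (wt_pos x).le (by positivity)) hI1
    (wt_int (b3_l0 P) hV2) ?_)
  · refine ⟨h.1, ?_⟩
    have h2 := h.2
    rw [ea, eb, hI2, Real.mul_rpow hC.le (Real.rpow_nonneg hr.le _)] at h2
    unfold I0
    calc r ^ (-P.q) * ∫ x, wt (P.lam' + P.q) x₀ r x * ‖V x‖ ^ P.q
        ≤ r ^ (-P.q) * (C ^ (1 - P.q / 2) * (r ^ (P.N : ℝ)) ^ (1 - P.q / 2) *
            (∫ x, wt P.lam' x₀ r x * ‖V x‖ ^ 2) ^ (P.q / 2)) :=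
          mul_le_mul_of_nonneg_left h2 (Real.rpow_nonneg hr.le _)
      _ = C ^ (1 - P.q / 2) * (r ^ (-P.q) * (r ^ (P.N : ℝ)) ^ (1 - P.q / 2)) *
            (∫ x, wt P.lam' x₀ r x * ‖V x‖ ^ 2) ^ (P.q / 2) := by ring
      _ = _ := by rw [Par.r_count_q hr]
  · intro x
    have hw0 := wt_pos (b := P.lam') (x₀ := x₀) (r := r) x
    have en : (‖V x‖ ^ 2) ^ (P.q / 2) = ‖V x‖ ^ P.q := by
      rw [← Real.rpow_natCast, ← Real.rpow_mul (norm_nonneg _)]
      congr 1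
      push_cast
      ring
    rw [ea, eb, Real.mul_rpow hw0.le (by positivity), wt_rpow, wt_rpow, en, ← mul_assoc, wt_mul]
    congr 2
    have := b3_qs P
    have h3 : 2 * P.s * (1 - P.q / 2) = P.q := by
      rw [← this]
      field_simp
    rw [add_mul, h3]
    ring

/-- from weights at admissible places to all balls -/
theorem ball_of_wt {b μ Q R : ℝ} (hb : 0 ≤ b) (hμ : 0 ≤ μ) (hQ : 0 ≤ Q) (hR : 0 < R)
    {w : E P.N → ℝ} (hw : Integrable w) (h0 : ∀ x, 0 ≤ w x)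
    (hs : ∀ᵐ x, x ∉ Metric.ball (0 : E P.N) R → w x = 0)
    (h : ∀ x₀ r, Adm R x₀ r → ∫ x, wt b x₀ r x * w x ≤ Q * r ^ μ) (x₀ : E P.N) {r : ℝ}
    (hr : 0 < r) : ∫ x in Metric.ball x₀ r, w x ≤ (2 : ℝ) ^ (b / 2) * Q * r ^ μ := by
  obtain ⟨x₁, r₁, hA, hr1, hsub⟩ := ball_adm (x₀ := x₀) (r := r) hR hr
  have hr10 : 0 < r₁ := hA.2.1
  have h2 : (0 : ℝ) < 2 ^ (b / 2) := Real.rpow_pos_of_pos two_pos _
  have s1 : ∫ x in Metric.ball x₀ r, w x ≤ ∫ x, (2 : ℝ) ^ (b / 2) * (wt b x₁ r₁ x * w x) := by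
    rw [← integral_indicator measurableSet_ball]
    refine integral_mono_ae (hw.indicator measurableSet_ball) ((wt_int hb hw).const_mul _) ?_
    filter_upwards [hs] with x hx
    by_cases h1 : x ∈ Metric.ball x₀ r
    · rw [Set.indicator_of_mem h1]
      by_cases h3 : x ∈ Metric.ball (0 : E P.N) R
      · have := mul_le_mul_of_nonneg_right (wt_ball hb hr10 (hsub ⟨h1, h3⟩)) (h0 x)
        rw [one_mul] at this
        calc w x ≤ _ := this
          _ = _ := by ring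
      · rw [hx h3]
        simp
    · rw [Set.indicator_of_notMem h1]
      exact mul_nonneg h2.le (mul_nonneg (wt_pos x).le (h0 x))
  rw [integral_const_mul] at s1
  calc _ ≤ _ := s1
    _ ≤ (2 : ℝ) ^ (b / 2) * (Q * r₁ ^ μ) := mul_le_mul_of_nonneg_left (h x₁ r₁ hA) h2.le
    _ ≤ (2 : ℝ) ^ (b / 2) * (Q * r ^ μ) := by
        refine mul_le_mul_of_nonneg_left (mul_le_mul_of_nonneg_left ?_ hQ) h2.le
        exact Real.rpow_le_rpow hr10.le hr1 hμ
    _ = _ := by ring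

theorem ball_of_I0 {Q R : ℝ} (hQ : 0 ≤ Q) (hR : 0 < R)
    {w : E P.N → ℝ} (hw : Integrable w) (h0 : ∀ x, 0 ≤ w x)
    (hs : ∀ᵐ x, x ∉ Metric.ball (0 : E P.N) R → w x = 0)
    (h : ∀ x₀ r, Adm R x₀ r → I0 P x₀ r w ≤ Q * r ^ P.lam) (x₀ : E P.N) {r : ℝ}
    (hr : 0 < r) : ∫ x in Metric.ball x₀ r, w x ≤ (2 : ℝ) ^ (P.lam' / 2) * Q * r ^ P.lam :=
  ball_of_wt (b3_l0 P) P.lam_pos.le hQ hR hw h0 hs h x₀ hr

theorem ball_of_I2 {Q R : ℝ} (hQ : 0 ≤ Q) (hR : 0 < R)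
    {w : E P.N → ℝ} (hw : Integrable w) (h0 : ∀ x, 0 ≤ w x)
    (hs : ∀ᵐ x, x ∉ Metric.ball (0 : E P.N) R → w x = 0)
    (h : ∀ x₀ r, Adm R x₀ r → I2 P x₀ r w ≤ Q * r ^ P.lam) (x₀ : E P.N) {r : ℝ}
    (hr : 0 < r) :
    ∫ x in Metric.ball x₀ r, w x ≤ (2 : ℝ) ^ (P.lam' / 2 + 1) * Q * r ^ (P.lam + 2) := by
  have e : P.lam' / 2 + 1 = (P.lam' + 2) / 2 := by ring
  rw [e]
  refine ball_of_wt (b3_l2 P) (by have := P.lam_pos; linarith) hQ hR hw h0 hs
    (fun x₁ r₁ hA => ?_) x₀ hr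
  have hr1 : 0 < r₁ := hA.2.1
  have := h x₁ r₁ hA
  unfold I2 at this
  rw [div_le_iff₀ (by positivity)] at this
  calc _ ≤ _ := this
    _ = _ := by
      rw [Real.rpow_add hr1, Real.rpow_two]
      ring

/-- `L¹` averages on balls from `L^p` (with `r^λ`) -/
theorem ball_one (P : Par) : ∃ C : ℝ, 0 < C ∧ ∀ (w : E P.N → ℝ),
    AEStronglyMeasurable w volume → Integrable (fun x => |w x| ^ P.p) →
    ∀ (Q : ℝ), 0 ≤ Q → ∀ (x₀ : E P.N) (r : ℝ), 0 < r →
    ∫ x in Metric.ball x₀ r, |w x| ^ P.p ≤ Q * r ^ P.lam →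
    ∫ x in Metric.ball x₀ r, |w x| ≤ C * Q ^ (1 / P.p) * r ^ ((P.N : ℝ) - P.γ) := by
  obtain ⟨C, hC, hV⟩ := vol_ball P.N
  refine ⟨C ^ (1 - 1 / P.p), Real.rpow_pos_of_pos hC _, fun w hw hwi Q hQ x₀ r hr h => ?_⟩
  have hp := b3_pos_p P
  have hp0 : P.p ≠ 0 := hp.ne'
  have hfin : IsFiniteMeasure (volume.restrict (Metric.ball x₀ r)) :=
    ⟨by simpa using measure_ball_lt_top⟩
  have e : 1 / P.q = 1 - 1 / P.p := by
    have := P.holder.inv_add_inv_eq_one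
    rw [one_div, one_div]
    linarith
  have hh := (b3_holder' (μ := volume.restrict (Metric.ball x₀ r)) P.holder
    (u := fun x => |w x| ^ P.p) (v := fun _ => (1 : ℝ)) (w := fun x => |w x|)
    hwi.aestronglyMeasurable.restrict aestronglyMeasurable_const
    (fun x => Real.rpow_nonneg (abs_nonneg _) _) (fun _ => zero_le_one) hwi.restrict
    (integrable_const _) (fun x => by
      rw [← Real.rpow_mul (abs_nonneg _), mul_one_div_cancel hp0, Real.one_rpow, Real.rpow_one,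
        mul_one])).2
  have hvol : ∫ _ in Metric.ball x₀ r, (1 : ℝ) = C * r ^ (P.N : ℝ) := by
    rw [setIntegral_const, smul_eq_mul, mul_one, measureReal_def]
    exact hV x₀ r hr
  rw [hvol, e] at hh
  have h0 : 0 ≤ ∫ x in Metric.ball x₀ r, |w x| ^ P.p :=
    integral_nonneg fun x => Real.rpow_nonneg (abs_nonneg _) _
  calc _ ≤ _ := hh
    _ ≤ (Q * r ^ P.lam) ^ (1 / P.p) * (C * r ^ (P.N : ℝ)) ^ (1 - 1 / P.p) := by
        refine mul_le_mul_of_nonneg_right ?_ (Real.rpow_nonneg (by positivity) _)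
        exact Real.rpow_le_rpow h0 h (by positivity)
    _ = C ^ (1 - 1 / P.p) * Q ^ (1 / P.p) *
          ((r ^ (P.N : ℝ)) ^ (1 - 1 / P.p) * (r ^ P.lam) ^ (1 / P.p)) := by
        rw [Real.mul_rpow hQ (Real.rpow_nonneg hr.le _),
          Real.mul_rpow hC.le (Real.rpow_nonneg hr.le _)]
        ring
    _ = _ := by rw [Par.r_count_one hr]

/-- `L¹` averages on balls from `L²` (with `r^(λ+2)`) -/
theorem ball_two (P : Par) : ∃ C : ℝ, 0 < C ∧ ∀ (w : E P.N → ℝ), MemLp w 2 volume →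
    ∀ (Q : ℝ), 0 ≤ Q → ∀ (x₀ : E P.N) (r : ℝ), 0 < r →
    ∫ x in Metric.ball x₀ r, w x ^ 2 ≤ Q * r ^ (P.lam + 2) →
    ∫ x in Metric.ball x₀ r, |w x| ≤ C * Real.sqrt Q * r ^ ((P.N : ℝ) - P.γ) := by
  obtain ⟨C, hC, hV⟩ := vol_ball P.N
  refine ⟨C ^ (1 / 2 : ℝ), Real.rpow_pos_of_pos hC _, fun w hw Q hQ x₀ r hr h => ?_⟩
  have hfin : IsFiniteMeasure (volume.restrict (Metric.ball x₀ r)) :=
    ⟨by simpa using measure_ball_lt_top⟩
  have hwi : Integrable (fun x => w x ^ 2) := hw.integrable_sq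
  have hh := (b3_holder' (μ := volume.restrict (Metric.ball x₀ r)) Real.HolderConjugate.two_two
    (u := fun x => w x ^ 2) (v := fun _ => (1 : ℝ)) (w := fun x => |w x|)
    hwi.aestronglyMeasurable.restrict aestronglyMeasurable_const
    (fun x => sq_nonneg _) (fun _ => zero_le_one) hwi.restrict
    (integrable_const _) (fun x => by
      rw [← Real.sqrt_eq_rpow, Real.sqrt_sq_eq_abs, Real.one_rpow, mul_one])).2
  have hvol : ∫ _ in Metric.ball x₀ r, (1 : ℝ) = C * r ^ (P.N : ℝ) := by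
    rw [setIntegral_const, smul_eq_mul, mul_one, measureReal_def]
    exact hV x₀ r hr
  rw [hvol] at hh
  have h0 : 0 ≤ ∫ x in Metric.ball x₀ r, w x ^ 2 := integral_nonneg fun x => sq_nonneg _
  calc _ ≤ _ := hh
    _ ≤ (Q * r ^ (P.lam + 2)) ^ (1 / 2 : ℝ) * (C * r ^ (P.N : ℝ)) ^ (1 / 2 : ℝ) := by
        refine mul_le_mul_of_nonneg_right ?_ (Real.rpow_nonneg (by positivity) _)
        exact Real.rpow_le_rpow h0 h (by positivity)
    _ = C ^ (1 / 2 : ℝ) * Real.sqrt Q *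
          ((r ^ (P.N : ℝ)) ^ (1 / 2 : ℝ) * (r ^ (P.lam + 2)) ^ (1 / 2 : ℝ)) := by
        rw [Real.mul_rpow hQ (Real.rpow_nonneg hr.le _),
          Real.mul_rpow hC.le (Real.rpow_nonneg hr.le _), ← Real.sqrt_eq_rpow Q]
        ring
    _ = _ := by rw [Par.r_count_half hr]
end integrals

end Pool.Agent.H15.Hx
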