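import Pool.Agent.H15.Hx.M03b_WtInt

/-! M04: the weighted Hardy inequality (integration by parts against `∇G`). -/

set_option autoImplicit false

open MeasureTheory Set Filter Topology
open scoped RealInnerProductSpace
open Pool.Agent.H25.HX (E g Tst H10)

noncomputable section

namespace Pool.Agent.H15.Hx

/-- a `C¹` extension to the whole line of `s ↦ κ (1 + s/ρ)^(-k)` -/
theorem hardy_ext (κ k ρ : ℝ) (hρ : 0 < ρ) : ∃ a : ℝ → ℝ, ContDiff ℝ 1 a ∧
    (∀ s, 0 ≤ s → a s = κ * (1 + s / ρ) ^ (-k)) ∧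
    (∀ s, 0 ≤ s → HasDerivAt a (κ * (-(k / ρ)) * (1 + s / ρ) ^ (-k - 1)) s) := by
  set d : ℝ → ℝ := fun t => κ * (-(k / ρ)) * (1 + max t 0 / ρ) ^ (-k - 1) with hd
  have hpos : ∀ t : ℝ, 0 < 1 + max t 0 / ρ := fun t => by
    have : 0 ≤ max t 0 / ρ := div_nonneg (le_max_right _ _) hρ.le
    linarith
  have hdc : Continuous d := by
    refine continuous_const.mul ?_
    refine Continuous.rpow_const ?_ fun t => Or.inl (hpos t).ne'
    exact continuous_const.add ((continuous_id.max continuous_const).div_const _)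
  set a : ℝ → ℝ := fun s => κ + ∫ t in (0 : ℝ)..s, d t with ha
  have hda : ∀ s, HasDerivAt a (d s) s := by
    intro s
    have := (hdc.integral_hasStrictDerivAt 0 s).hasDerivAt
    exact this.const_add κ
  have hdm : ∀ s, 0 ≤ s → d s = κ * (-(k / ρ)) * (1 + s / ρ) ^ (-k - 1) := by
    intro s hs
    simp only [hd, max_eq_left hs]
  refine ⟨a, ?_, ?_, ?_⟩
  · rw [contDiff_one_iff_deriv]
    refine ⟨fun s => (hda s).differentiableAt, ?_⟩
    have : deriv a = d := funext fun s => (hda s).deriv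
    rw [this]
    exact hdc
  · intro s hs
    have h1 : ∀ t ∈ Set.uIcc (0 : ℝ) s,
        HasDerivAt (fun t => κ * (1 + t / ρ) ^ (-k)) (d t) t := by
      intro t ht
      rw [Set.uIcc_of_le hs] at ht
      have hp : 0 < 1 + t / ρ := by
        have : 0 ≤ t / ρ := div_nonneg ht.1 hρ.le
        linarith
      have h2 : HasDerivAt (fun t : ℝ => 1 + t / ρ) (1 / ρ) t :=
        ((hasDerivAt_id t).div_const ρ).const_add 1
      have h3 := (h2.rpow_const (p := -k) (Or.inl hp.ne')).const_mul κ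
      rw [hdm t ht.1]
      refine h3.congr_deriv ?_
      ring
    have h4 := intervalIntegral.integral_eq_sub_of_hasDerivAt h1 (hdc.intervalIntegrable _ _)
    simp only [ha]
    rw [h4]
    simp
  · intro s hs
    rw [← hdm s hs]
    exact hda s

/-- `∫ u ∇G·Du ≥ c I2 u²` -/
theorem hardy_id (P : Par) : ∃ c : ℝ, 0 < c ∧ ∀ (Ω : Set (E P.N)) (u : E P.N → ℝ)
    (U : E P.N → E P.N), H10 Ω u U → ∀ (x₀ : E P.N) (r : ℝ), 0 < r →
    c * I2 P x₀ r (fun x => u x ^ 2) ≤ ∫ x, u x * ⟪gradient (wt P.lam' x₀ r) x, U x⟫ := by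
  have hl0 : 0 < P.lam' := P.lam'_pos
  have hl1 : 0 < (P.N : ℝ) - 2 - P.lam' := by linarith [P.lam'_lt]
  refine ⟨P.lam' * ((P.N : ℝ) - 2 - P.lam') / 2, by positivity, ?_⟩
  intro Ω u U h x₀ r hr
  set L : ℝ := P.lam' with hL
  set Nn : ℝ := (P.N : ℝ) with hNn
  have hr2 : 0 < r ^ 2 := by positivity
  obtain ⟨a, ac, a0, a1⟩ := hardy_ext (-(L / r ^ 2)) (L / 2 + 1) (r ^ 2) hr2
  set a' : ℝ → ℝ := fun s => -(L / r ^ 2) * (-((L / 2 + 1) / r ^ 2)) *
    (1 + s / r ^ 2) ^ (-(L / 2 + 1) - 1) with ha'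
  have hbase : ∀ s : ℝ, 0 ≤ s → 1 ≤ 1 + s / r ^ 2 := fun s hs => by
    have : 0 ≤ s / r ^ 2 := div_nonneg hs hr2.le
    linarith
  have hsplit : ∀ s : ℝ, 0 ≤ s → (1 + s / r ^ 2) ^ (-(L / 2 + 1)) =
      (1 + s / r ^ 2) ^ (-(L / 2 + 1) - 1) * (1 + s / r ^ 2) := by
    intro s hs
    have h1 : 0 < 1 + s / r ^ 2 := by linarith [hbase s hs]
    rw [← Real.rpow_add_one h1.ne']
    congr 1
    ring
  -- the divergence
  have hdiv : ∀ s : ℝ, 0 ≤ s → Nn * a s + 2 * s * a' s = -(L / r ^ 2) *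
      (1 + s / r ^ 2) ^ (-(L / 2 + 1) - 1) * (Nn + (Nn - 2 - L) * (s / r ^ 2)) := by
    intro s hs
    rw [a0 s hs, hsplit s hs]
    simp only [ha']
    field_simp
    ring
  have hw0 : ∀ s : ℝ, 0 ≤ s → 0 < (1 + s / r ^ 2) ^ (-(L / 2 + 1) - 1) := fun s hs =>
    Real.rpow_pos_of_pos (by linarith [hbase s hs]) _
  have hw1 : ∀ s : ℝ, 0 ≤ s → (1 + s / r ^ 2) ^ (-(L / 2 + 1)) ≤ 1 := fun s hs =>
    Real.rpow_le_one_of_one_le_of_nonpos (hbase s hs) (by linarith)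
  have hw2 : ∀ s : ℝ, 0 ≤ s → 0 < (1 + s / r ^ 2) ^ (-(L / 2 + 1)) := fun s hs =>
    Real.rpow_pos_of_pos (by linarith [hbase s hs]) _
  have hN3 : (3 : ℝ) ≤ Nn := P.N_ge
  have hLr : 0 < L / r ^ 2 := by positivity
  set C : ℝ := L / r ^ 2 * (Nn + 1 + r) with hC
  have b1 : ∀ s, 0 ≤ s → |a s| * (1 + Real.sqrt s) ≤ C := by
    intro s hs
    rw [a0 s hs, abs_mul, abs_neg, abs_of_pos hLr, abs_of_pos (hw2 s hs)]
    have h3 : (1 + s / r ^ 2) ^ (-(L / 2 + 1)) * Real.sqrt s ≤ r := by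
      have h4 : (1 + s / r ^ 2) ^ (-(L / 2 + 1)) ≤ (1 + s / r ^ 2) ^ (-(1 : ℝ)) :=
        Real.rpow_le_rpow_of_exponent_le (hbase s hs) (by linarith)
      rw [Real.rpow_neg_one] at h4
      have h5 : 0 < 1 + s / r ^ 2 := by linarith [hbase s hs]
      have h6 : Real.sqrt s ≤ r * (1 + s / r ^ 2) := by
        have h7 : Real.sqrt s ^ 2 = s := Real.sq_sqrt hs
        have h8 : r * (1 + s / r ^ 2) = (r ^ 2 + Real.sqrt s ^ 2) / r := by
          rw [h7]
          field_simp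
        rw [h8, le_div_iff₀ hr]
        nlinarith [sq_nonneg (r - Real.sqrt s), Real.sqrt_nonneg s, mul_nonneg hr.le (Real.sqrt_nonneg s)]
      calc (1 + s / r ^ 2) ^ (-(L / 2 + 1)) * Real.sqrt s
          ≤ (1 + s / r ^ 2)⁻¹ * (r * (1 + s / r ^ 2)) :=
            mul_le_mul h4 h6 (Real.sqrt_nonneg s) (by positivity)
        _ = r := by field_simp
    have h9 := hw1 s hs
    rw [hC]
    rw [mul_assoc]
    refine mul_le_mul_of_nonneg_left ?_ hLr.le
    rw [mul_add, mul_one]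
    linarith
  have b2 : ∀ s, 0 ≤ s → |Nn * a s + 2 * s * a' s| ≤ C := by
    intro s hs
    rw [hdiv s hs]
    have h3 : 0 ≤ s / r ^ 2 := div_nonneg hs hr2.le
    have h4 : 0 ≤ Nn + (Nn - 2 - L) * (s / r ^ 2) := by
      have := mul_nonneg hl1.le h3
      linarith
    rw [abs_mul, abs_mul, abs_neg, abs_of_pos hLr, abs_of_pos (hw0 s hs), abs_of_nonneg h4]
    have h5 : (1 + s / r ^ 2) ^ (-(L / 2 + 1) - 1) * (Nn + (Nn - 2 - L) * (s / r ^ 2)) ≤
        Nn := by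
      have h6 : Nn + (Nn - 2 - L) * (s / r ^ 2) ≤ Nn * (1 + s / r ^ 2) := by
        have := mul_nonneg (by linarith : (0 : ℝ) ≤ 2 + L) h3
        nlinarith
      calc (1 + s / r ^ 2) ^ (-(L / 2 + 1) - 1) * (Nn + (Nn - 2 - L) * (s / r ^ 2))
          ≤ (1 + s / r ^ 2) ^ (-(L / 2 + 1) - 1) * (Nn * (1 + s / r ^ 2)) :=
            mul_le_mul_of_nonneg_left h6 (hw0 s hs).le
        _ = Nn * (1 + s / r ^ 2) ^ (-(L / 2 + 1)) := by rw [hsplit s hs]; ring
        _ ≤ Nn * 1 := mul_le_mul_of_nonneg_left (hw1 s hs) (by linarith)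
        _ = Nn := mul_one _
    rw [mul_assoc, hC]
    refine mul_le_mul_of_nonneg_left ?_ hLr.le
    linarith
  have key := h.radial x₀ ac a1 b1 b2
  -- rewrite the right-hand side
  have hrhs : ∀ x, u x * (a (‖x - x₀‖ ^ 2) * ⟪x - x₀, U x⟫) =
      u x * ⟪gradient (wt L x₀ r) x, U x⟫ := by
    intro x
    rw [wt_grad hr, real_inner_smul_left, a0 _ (by positivity)]
    have : wt (L + 2) x₀ r x = (1 + ‖x - x₀‖ ^ 2 / r ^ 2) ^ (-(L / 2 + 1)) := by
      simp only [wt]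
      congr 1
      ring
    rw [this]
  simp only [hrhs] at key
  -- the left-hand side
  have hsq : Integrable (fun x => u x ^ 2) := by
    have := Pool.Agent.H25.HX.sq_norm_integrable h.1
    simpa using this
  have hle : ∫ x, u x ^ 2 * (Nn * a (‖x - x₀‖ ^ 2) + 2 * ‖x - x₀‖ ^ 2 * a' (‖x - x₀‖ ^ 2)) ≤
      ∫ x, (-(L * (Nn - 2 - L)) / r ^ 2) * (wt (L + 2) x₀ r x * u x ^ 2) := by
    have hcn : Continuous fun x : E P.N => ‖x - x₀‖ ^ 2 :=
      ((continuous_id.sub continuous_const).norm).pow 2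
    have hθ : Continuous (fun x : E P.N => Nn * a (‖x - x₀‖ ^ 2) +
        2 * ‖x - x₀‖ ^ 2 * a' (‖x - x₀‖ ^ 2)) := by
      have h1 : Continuous (fun x : E P.N => a (‖x - x₀‖ ^ 2)) := ac.continuous.comp hcn
      have h2 : Continuous (fun x : E P.N => a' (‖x - x₀‖ ^ 2)) := by
        simp only [ha']
        refine continuous_const.mul ?_
        refine Continuous.rpow_const (continuous_const.add (hcn.div_const _)) fun x => ?_
        left
        have := hbase (‖x - x₀‖ ^ 2) (by positivity)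
        linarith
      exact (continuous_const.mul h1).add ((continuous_const.mul hcn).mul h2)
    refine integral_mono ?_ ?_ ?_
    · have hb : ∀ᵐ x : E P.N, ‖Nn * a (‖x - x₀‖ ^ 2) +
          2 * ‖x - x₀‖ ^ 2 * a' (‖x - x₀‖ ^ 2)‖ ≤ C :=
        ae_of_all _ fun x => b2 _ (by positivity)
      have := hsq.bdd_mul hθ.aestronglyMeasurable hb
      refine this.congr (ae_of_all _ fun x => ?_)
      simp only
      ring
    · exact (wt_int (by linarith) hsq).const_mul _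
    · intro x
      simp only
      have hs : (0 : ℝ) ≤ ‖x - x₀‖ ^ 2 := by positivity
      rw [hdiv _ hs]
      have : wt (L + 2) x₀ r x = (1 + ‖x - x₀‖ ^ 2 / r ^ 2) ^ (-(L / 2 + 1) - 1) *
          (1 + ‖x - x₀‖ ^ 2 / r ^ 2) := by
        rw [← hsplit _ hs]
        simp only [wt]
        congr 1
        ring
      rw [this]
      set w : ℝ := (1 + ‖x - x₀‖ ^ 2 / r ^ 2) ^ (-(L / 2 + 1) - 1) with hw
      have hw' : 0 < w := hw0 _ hs
      set t : ℝ := ‖x - x₀‖ ^ 2 / r ^ 2 with ht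
      have e1 : u x ^ 2 * (-(L / r ^ 2) * w * (Nn + (Nn - 2 - L) * t)) =
          -(L / r ^ 2 * w * u x ^ 2) * (Nn + (Nn - 2 - L) * t) := by ring
      have e2 : -(L * (Nn - 2 - L)) / r ^ 2 * (w * (1 + t) * u x ^ 2) =
          -(L / r ^ 2 * w * u x ^ 2) * ((Nn - 2 - L) * (1 + t)) := by ring
      rw [e1, e2]
      have e3 : 0 ≤ L / r ^ 2 * w * u x ^ 2 := by positivity
      have e4 : (Nn - 2 - L) * (1 + t) ≤ Nn + (Nn - 2 - L) * t := by nlinarith
      nlinarith [mul_le_mul_of_nonneg_left e4 e3]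
  rw [integral_const_mul] at hle
  have hI2 : I2 P x₀ r (fun x => u x ^ 2) = (∫ x, wt (L + 2) x₀ r x * u x ^ 2) / r ^ 2 := rfl
  rw [hI2]
  rw [key] at hle
  have e5 : L * (Nn - 2 - L) / 2 * ((∫ x, wt (L + 2) x₀ r x * u x ^ 2) / r ^ 2) =
      -(-(L * (Nn - 2 - L)) / r ^ 2 * (∫ x, wt (L + 2) x₀ r x * u x ^ 2)) / 2 := by ring
  rw [e5]
  linarith

/-- Hardy's inequality `I2 u² ≤ C I0 |Du|²` -/
theorem hardy (P : Par) : ∃ C : ℝ, 0 < C ∧ ∀ (Ω : Set (E P.N)) (u : E P.N → ℝ)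
    (U : E P.N → E P.N), H10 Ω u U → ∀ (x₀ : E P.N) (r : ℝ), 0 < r →
    I2 P x₀ r (fun x => u x ^ 2) ≤ C * I0 P x₀ r (fun x => ‖U x‖ ^ 2) := by
  obtain ⟨c, hc, H⟩ := hardy_id P
  have hl0 : 0 < P.lam' := P.lam'_pos
  refine ⟨(P.lam' / c) ^ 2, by positivity, ?_⟩
  intro Ω u U h x₀ r hr
  set L : ℝ := P.lam' with hL
  have h1 := H Ω u U h x₀ r hr
  have hsq : Integrable (fun x => u x ^ 2) := by
    have := Pool.Agent.H25.HX.sq_norm_integrable h.1
    simpa using this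
  have hSq : Integrable (fun x => ‖U x‖ ^ 2) := Pool.Agent.H25.HX.sq_norm_integrable h.2.1
  have A1 : Integrable (fun x => wt (L + 2) x₀ r x * u x ^ 2) := wt_int (by linarith) hsq
  have A2 : Integrable (fun x => wt L x₀ r x * ‖U x‖ ^ 2) := wt_int hl0.le hSq
  set I : ℝ := I2 P x₀ r (fun x => u x ^ 2) with hI
  set J : ℝ := I0 P x₀ r (fun x => ‖U x‖ ^ 2) with hJ
  have hIe : I = (∫ x, wt (L + 2) x₀ r x * u x ^ 2) / r ^ 2 := rfl
  have hJe : J = ∫ x, wt L x₀ r x * ‖U x‖ ^ 2 := rfl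
  have hI0 : 0 ≤ I := I2_nonneg fun x => by positivity
  have hJ0 : 0 ≤ J := I0_nonneg fun x => by positivity
  -- pointwise Young inequality
  have hyoung : ∀ (ε : ℝ), 0 < ε → c * I ≤ ε * I / 2 + L ^ 2 * J / (2 * ε) := by
    intro ε hε
    refine h1.trans ?_
    have h2 : ∀ x, u x * ⟪gradient (wt L x₀ r) x, U x⟫ ≤
        ε / (2 * r ^ 2) * (wt (L + 2) x₀ r x * u x ^ 2) +
          L ^ 2 / (2 * ε) * (wt L x₀ r x * ‖U x‖ ^ 2) := by
      intro x
      have g1 : |⟪gradient (wt L x₀ r) x, U x⟫| ≤ ‖gradient (wt L x₀ r) x‖ * ‖U x‖ :=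
        abs_real_inner_le_norm _ _
      have g2 := wt_grad_le (x₀ := x₀) hl0.le hr x
      set w0 : ℝ := Real.sqrt (wt L x₀ r x) with hw0
      set w2 : ℝ := Real.sqrt (wt (L + 2) x₀ r x) with hw2
      have q0 : w0 ^ 2 = wt L x₀ r x := Real.sq_sqrt (wt_pos x).le
      have q2 : w2 ^ 2 = wt (L + 2) x₀ r x := Real.sq_sqrt (wt_pos x).le
      have q1 : w0 * w2 = wt (L + 1) x₀ r x := by
        rw [hw0, hw2, ← Real.sqrt_mul (wt_pos x).le, wt_mul]
        have : wt (L + (L + 2)) x₀ r x = wt (L + 1) x₀ r x ^ 2 := by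
          rw [sq, wt_mul]
          congr 1
          ring
        rw [this, Real.sqrt_sq (wt_pos x).le]
      have g3 : u x * ⟪gradient (wt L x₀ r) x, U x⟫ ≤
          |u x| * (L / r * (w0 * w2) * ‖U x‖) := by
        calc u x * ⟪gradient (wt L x₀ r) x, U x⟫
            ≤ |u x * ⟪gradient (wt L x₀ r) x, U x⟫| := le_abs_self _
          _ = |u x| * |⟪gradient (wt L x₀ r) x, U x⟫| := abs_mul _ _
          _ ≤ |u x| * (L / r * (w0 * w2) * ‖U x‖) := by
              refine mul_le_mul_of_nonneg_left (g1.trans ?_) (abs_nonneg _)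
              rw [q1]
              exact mul_le_mul_of_nonneg_right g2 (norm_nonneg _)
      refine g3.trans ?_
      rw [← q0, ← q2]
      have g4 : |u x| ^ 2 = u x ^ 2 := sq_abs _
      rw [← g4]
      set A : ℝ := w2 * |u x| / r with hA
      set B : ℝ := L * w0 * ‖U x‖ with hB
      have g5 : |u x| * (L / r * (w0 * w2) * ‖U x‖) = A * B := by
        rw [hA, hB]; ring
      have g6 : ε / (2 * r ^ 2) * (w2 ^ 2 * |u x| ^ 2) + L ^ 2 / (2 * ε) * (w0 ^ 2 * ‖U x‖ ^ 2)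
          = ε * A ^ 2 / 2 + B ^ 2 / (2 * ε) := by
        rw [hA, hB]; field_simp
      rw [g5, g6]
      have g7 : ε * A ^ 2 / 2 + B ^ 2 / (2 * ε) - A * B = (ε * A - B) ^ 2 / (2 * ε) := by
        field_simp
        ring
      have g8 : 0 ≤ (ε * A - B) ^ 2 / (2 * ε) := by positivity
      linarith
    have h3 : ∫ x, u x * ⟪gradient (wt L x₀ r) x, U x⟫ ≤
        ∫ x, (ε / (2 * r ^ 2) * (wt (L + 2) x₀ r x * u x ^ 2) +
          L ^ 2 / (2 * ε) * (wt L x₀ r x * ‖U x‖ ^ 2)) := by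
      by_cases hint : Integrable (fun x => u x * ⟪gradient (wt L x₀ r) x, U x⟫)
      · exact integral_mono hint ((A1.const_mul _).add (A2.const_mul _)) h2
      · rw [integral_undef hint]
        refine integral_nonneg fun x => ?_
        have := (wt_pos (b := L) (x₀ := x₀) (r := r) x).le
        have := (wt_pos (b := L + 2) (x₀ := x₀) (r := r) x).le
        simp only [Pi.zero_apply]
        positivity
    refine h3.trans (le_of_eq ?_)
    rw [integral_add (A1.const_mul _) (A2.const_mul _), integral_const_mul, integral_const_mul,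
      hIe, hJe]
    ring
  have h4 := hyoung c hc
  have h5 : c * I / 2 ≤ L ^ 2 * J / (2 * c) := by linarith
  rw [div_pow]
  rw [div_le_div_iff₀ (by norm_num) (by positivity)] at h5
  have h6 : c ^ 2 * I ≤ L ^ 2 * J := by nlinarith
  rw [div_mul_eq_mul_div, le_div_iff₀ (by positivity)]
  linarith

end Pool.Agent.H15.Hx
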