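import Pool.Agent.H15.Hx.M03b_WtInt
import Pool.Agent.H25.HX.ImpSob

/-! M05: the improved Sobolev inequality. -/

set_option autoImplicit false

open MeasureTheory Set Filter Topology
open scoped RealInnerProductSpace
open Pool.Agent.H25.HX (E g Tst H10)

noncomputable section

namespace Pool.Agent.H15.Hx

/-- translations of `H¹₀` functions -/
theorem transl_le {N : ℕ} {Ω : Set (E N)} {u : E N → ℝ} {U : E N → E N} (h : H10 Ω u U)
    (y : E N) : ∫ x, (u (x + y) - u x) ^ 2 ≤ ‖y‖ ^ 2 * ∫ x, ‖U x‖ ^ 2 :=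
  Pool.Agent.H25.HX.H10.trans h y

/-- the improved Sobolev inequality `∫ |u|^p ≤ C B^(p-2) ∫ |Du|²` when
`∫_{B(x,r)} |u| ≤ B r^(N-γ)`, `γ = 2/(p-2)`. -/
theorem isob (P : Par) : ∃ C : ℝ, 0 < C ∧ ∀ (Ω : Set (E P.N)) (u : E P.N → ℝ)
    (U : E P.N → E P.N), Bornology.IsBounded Ω → H10 Ω u U →
    Integrable (fun x => |u x| ^ P.p) → ∀ B : ℝ, 0 ≤ B →
    (∀ (x : E P.N) (r : ℝ), 0 < r → ∫ y in Metric.ball x r, |u y| ≤ B * r ^ ((P.N : ℝ) - P.γ)) →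
    ∫ x, |u x| ^ P.p ≤ C * B ^ (P.p - 2) * ∫ x, ‖U x‖ ^ 2 := by
  have hN : 3 ≤ P.N := P.hN
  have hp : 2 < P.p := by
    have h1 : (3 : ℝ) ≤ P.N := by exact_mod_cast hN
    have h2 := P.hp
    have h3 : 2 < 2 * (P.N : ℝ) / ((P.N : ℝ) - 2) := by
      rw [lt_div_iff₀ (by linarith)]
      linarith
    linarith
  obtain ⟨C, hC, h⟩ := Pool.Agent.H25.HX.imp_sob (by omega : 1 ≤ P.N) hp
  refine ⟨C, hC, ?_⟩
  intro Ω u U _ hu _ B hB hav
  exact (h Ω u U B hu hB hav).2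

end Pool.Agent.H15.Hx
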