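import Pool.Agent.H15.Hx.M05_ISob

/-! M06: the weighted improved Sobolev inequality (dyadic cutoffs). -/

set_option autoImplicit false

open MeasureTheory Set Filter Topology
open scoped RealInnerProductSpace
open Pool.Agent.H25.HX (E g Tst H10)

noncomputable section

namespace Pool.Agent.H15.Hx

/-- the sum over the scales which see the point `y` -/
theorem m06_sum {b : ℝ} (hb : 0 < b) {y : ℝ} (hy : 0 ≤ y) (K : ℕ) :
    ∑ k ∈ Finset.range K, (if y ≤ 2 * 2 ^ k then ((2 : ℝ) ^ (-b)) ^ k else 0) ≤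
      (5 : ℝ) ^ (b / 2) / (1 - (2 : ℝ) ^ (-b)) * (1 + y ^ 2) ^ (-(b / 2)) := by
  set a : ℝ := (2 : ℝ) ^ (-b) with ha
  have ha0 : 0 < a := by positivity
  have ha1 : a < 1 := by
    rw [ha]; exact Real.rpow_lt_one_of_one_lt_of_neg (by norm_num) (by linarith)
  have hex : ∃ m : ℕ, y ≤ 2 * 2 ^ m := by
    obtain ⟨m, hm⟩ := pow_unbounded_of_one_lt y (by norm_num : (1 : ℝ) < 2)
    exact ⟨m, by linarith [pow_pos (by norm_num : (0 : ℝ) < 2) m]⟩
  classical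
  set m := Nat.find hex with hm
  have h1 : y ≤ 2 * 2 ^ m := Nat.find_spec hex
  have h2 : ∑ k ∈ Finset.range K, (if y ≤ 2 * 2 ^ k then a ^ k else 0) ≤
      ∑ k ∈ Finset.Ico m K, a ^ k := by
    rw [← Finset.sum_filter]
    apply Finset.sum_le_sum_of_subset_of_nonneg
    · intro k hk
      simp only [Finset.mem_filter, Finset.mem_range] at hk
      rw [Finset.mem_Ico]
      exact ⟨Nat.find_min' hex hk.2, hk.1⟩
    · intros; positivity
  have h3 : ∑ k ∈ Finset.Ico m K, a ^ k ≤ a ^ m / (1 - a) := geom_sum_Ico_le_of_lt_one ha0.le ha1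
  have h4 : a ^ m ≤ 5 ^ (b / 2) * (1 + y ^ 2) ^ (-(b / 2)) := by
    have h5 : (1 + y ^ 2) ≤ 5 * 4 ^ m := by
      have h6 : y ^ 2 ≤ (2 * 2 ^ m) ^ 2 := pow_le_pow_left₀ hy h1 2
      have h7 : ((2 : ℝ) * 2 ^ m) ^ 2 = 4 * 4 ^ m := by
        rw [mul_pow, ← pow_mul, mul_comm m 2, pow_mul]; norm_num
      have h8 : (1 : ℝ) ≤ 4 ^ m := one_le_pow₀ (by norm_num)
      linarith
    have h8 : (5 * (4 : ℝ) ^ m) ^ (-(b / 2)) ≤ (1 + y ^ 2) ^ (-(b / 2)) :=
      Real.rpow_le_rpow_of_nonpos (by positivity) h5 (by linarith)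
    have h9 : (5 : ℝ) ^ (b / 2) * (5 * (4 : ℝ) ^ m) ^ (-(b / 2)) = a ^ m := by
      rw [Real.mul_rpow (by norm_num) (by positivity), ← mul_assoc, ← Real.rpow_add (by norm_num),
        add_neg_cancel, Real.rpow_zero, one_mul, ← Real.rpow_natCast, ← Real.rpow_natCast, ha,
        ← Real.rpow_mul (by norm_num), ← Real.rpow_mul (by norm_num),
        show (4 : ℝ) = 2 ^ (2 : ℝ) by norm_num, ← Real.rpow_mul (by norm_num)]
      congr 1
      ring
    rw [← h9]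
    exact mul_le_mul_of_nonneg_left h8 (by positivity)
  have h10 : 0 < 1 - a := by linarith
  calc _ ≤ _ := h2
    _ ≤ _ := h3
    _ ≤ 5 ^ (b / 2) * (1 + y ^ 2) ^ (-(b / 2)) / (1 - a) := by gcongr
    _ = _ := by ring

/-- the scale at which the point is just seen -/
theorem m06_scale {b : ℝ} (hb : 0 ≤ b) {y : ℝ} (_hy : 0 ≤ y) {K : ℕ} (hK : y ≤ 2 ^ K) :
    ∃ k ∈ Finset.range (K + 1), y ≤ 2 ^ k ∧
      (1 + y ^ 2) ^ (-(b / 2)) ≤ (2 : ℝ) ^ b * ((2 : ℝ) ^ (-b)) ^ k := by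
  have hex : ∃ m : ℕ, y ≤ 2 ^ m := ⟨K, hK⟩
  classical
  set m := Nat.find hex with hm
  have h1 : y ≤ 2 ^ m := Nat.find_spec hex
  refine ⟨m, ?_, h1, ?_⟩
  · rw [Finset.mem_range]
    exact Nat.lt_succ_of_le (Nat.find_min' hex hK)
  · rcases Nat.eq_zero_or_pos m with h0 | h0
    · rw [h0, pow_zero, mul_one]
      calc (1 + y ^ 2) ^ (-(b / 2)) ≤ 1 :=
            Real.rpow_le_one_of_one_le_of_nonpos (by nlinarith [sq_nonneg y]) (by linarith)
        _ ≤ 2 ^ b := Real.one_le_rpow (by norm_num) hb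
    · obtain ⟨j, hj⟩ : ∃ j, m = j + 1 := ⟨m - 1, by omega⟩
      have h2 : ¬ (y ≤ 2 ^ j) := Nat.find_min hex (by omega)
      have h3 : (4 : ℝ) ^ j ≤ 1 + y ^ 2 := by
        have h4 : ((2 : ℝ) ^ j) ^ 2 ≤ y ^ 2 := pow_le_pow_left₀ (by positivity) (not_le.1 h2).le 2
        have h5 : ((2 : ℝ) ^ j) ^ 2 = 4 ^ j := by
          rw [← pow_mul, mul_comm j 2, pow_mul]; norm_num
        linarith
      calc (1 + y ^ 2) ^ (-(b / 2)) ≤ ((4 : ℝ) ^ j) ^ (-(b / 2)) :=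
            Real.rpow_le_rpow_of_nonpos (by positivity) h3 (by linarith)
        _ = (2 : ℝ) ^ b * ((2 : ℝ) ^ (-b)) ^ m := by
            rw [hj, ← Real.rpow_natCast, ← Real.rpow_natCast, ← Real.rpow_mul (by norm_num),
              ← Real.rpow_mul (by norm_num), ← Real.rpow_add (by norm_num),
              show (4 : ℝ) = 2 ^ (2 : ℝ) by norm_num, ← Real.rpow_mul (by norm_num)]
            congr 1
            push_cast
            ring

theorem m06_st : ∃ M : ℝ, 0 < M ∧ (∀ s, |deriv Real.smoothTransition s| ≤ M) ∧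
    ∀ s < 0, deriv Real.smoothTransition s = 0 := by
  have hc : Continuous (deriv Real.smoothTransition) :=
    (Real.smoothTransition.contDiff (n := 1)).continuous_deriv (by norm_num)
  have h0 : ∀ s < 0, deriv Real.smoothTransition s = 0 := by
    intro s hs
    have h1 : Real.smoothTransition =ᶠ[𝓝 s] fun _ => 0 := by
      filter_upwards [Iio_mem_nhds hs] with t ht
      exact Real.smoothTransition.zero_of_nonpos (le_of_lt ht)
    rw [h1.deriv_eq]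
    simp
  have h1 : ∀ s > 1, deriv Real.smoothTransition s = 0 := by
    intro s hs
    have h1 : Real.smoothTransition =ᶠ[𝓝 s] fun _ => 1 := by
      filter_upwards [Ioi_mem_nhds hs] with t ht
      exact Real.smoothTransition.one_of_one_le (le_of_lt ht)
    rw [h1.deriv_eq]
    simp
  obtain ⟨M, hM⟩ := (isCompact_Icc (a := (0 : ℝ)) (b := 1)).exists_bound_of_continuousOn
    hc.continuousOn
  refine ⟨|M| + 1, by positivity, fun s => ?_, h0⟩
  rcases lt_or_ge s 0 with h | h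
  · rw [h0 s h, abs_zero]; positivity
  · rcases lt_or_ge 1 s with h' | h'
    · rw [h1 s h', abs_zero]; positivity
    · have := hM s ⟨h, h'⟩
      rw [Real.norm_eq_abs] at this
      linarith [le_abs_self M]

/-- the cutoff function -/
def m06_eta {N : ℕ} (x₀ : E N) (ρ : ℝ) (x : E N) : ℝ :=
  Real.smoothTransition (2 - ‖x - x₀‖ ^ 2 / ρ ^ 2)

theorem m06_eta_cd {N : ℕ} (x₀ : E N) (ρ : ℝ) : ContDiff ℝ 1 (m06_eta x₀ ρ) := by
  unfold m06_eta
  apply Real.smoothTransition.contDiff.comp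
  exact contDiff_const.sub ((contDiff_id.sub contDiff_const).norm_sq ℝ |>.div_const _)

theorem m06_eta_nonneg {N : ℕ} (x₀ : E N) (ρ : ℝ) (x : E N) : 0 ≤ m06_eta x₀ ρ x :=
  Real.smoothTransition.nonneg _

theorem m06_eta_le {N : ℕ} (x₀ : E N) (ρ : ℝ) (x : E N) : m06_eta x₀ ρ x ≤ 1 :=
  Real.smoothTransition.le_one _

theorem m06_eta_one {N : ℕ} (x₀ : E N) {ρ : ℝ} (hρ : 0 < ρ) {x : E N} (hx : ‖x - x₀‖ ≤ ρ) :
    m06_eta x₀ ρ x = 1 := by
  apply Real.smoothTransition.one_of_one_le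
  have : ‖x - x₀‖ ^ 2 / ρ ^ 2 ≤ 1 := by
    rw [div_le_one (by positivity)]
    exact pow_le_pow_left₀ (norm_nonneg _) hx 2
  linarith

theorem m06_arg {N : ℕ} {x₀ : E N} {ρ : ℝ} (hρ : 0 < ρ) {x : E N} (hx : 2 * ρ < ‖x - x₀‖) :
    2 - ‖x - x₀‖ ^ 2 / ρ ^ 2 < 0 := by
  have h1 : (2 * ρ) ^ 2 < ‖x - x₀‖ ^ 2 := pow_lt_pow_left₀ hx (by positivity) (by norm_num)
  have h2 : 4 < ‖x - x₀‖ ^ 2 / ρ ^ 2 := by
    rw [lt_div_iff₀ (by positivity)]
    linarith
  linarith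

theorem m06_eta_zero {N : ℕ} (x₀ : E N) {ρ : ℝ} (hρ : 0 < ρ) {x : E N}
    (hx : 2 * ρ < ‖x - x₀‖) : m06_eta x₀ ρ x = 0 :=
  Real.smoothTransition.zero_of_nonpos (m06_arg hρ hx).le

theorem m06_eta_grad {N : ℕ} (x₀ : E N) (ρ : ℝ) (x : E N) :
    gradient (m06_eta x₀ ρ) x =
      (deriv Real.smoothTransition (2 - ‖x - x₀‖ ^ 2 / ρ ^ 2) * (-(2 / ρ ^ 2))) • (x - x₀) := by
  have h1 : HasFDerivAt (fun x : E N => 2 - ‖x - x₀‖ ^ 2 / ρ ^ 2)
      ((-(2 / ρ ^ 2)) • (innerSL ℝ (x - x₀))) x := by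
    have h2 : HasFDerivAt (fun x : E N => ‖x - x₀‖ ^ 2) (2 • (innerSL ℝ (x - x₀))) x := by
      have := ((hasFDerivAt_id x).sub_const x₀).norm_sq
      simpa using this
    have h3 := (h2.mul_const (1 / ρ ^ 2)).const_sub 2
    refine (h3.congr_fderiv ?_).congr_of_eventuallyEq ?_
    · ext v
      simp
      ring
    · filter_upwards with y
      ring
  have h2 : HasDerivAt Real.smoothTransition
      (deriv Real.smoothTransition (2 - ‖x - x₀‖ ^ 2 / ρ ^ 2)) (2 - ‖x - x₀‖ ^ 2 / ρ ^ 2) :=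
    (((Real.smoothTransition.contDiff (n := 1)).differentiable (by norm_num)) _).hasDerivAt
  have h3 := h2.comp_hasFDerivAt x h1
  have h4 : HasGradientAt (m06_eta x₀ ρ)
      ((deriv Real.smoothTransition (2 - ‖x - x₀‖ ^ 2 / ρ ^ 2) * (-(2 / ρ ^ 2))) • (x - x₀)) x := by
    rw [hasGradientAt_iff_hasFDerivAt]
    refine h3.congr_fderiv ?_
    ext v
    simp [mul_assoc]
  exact h4.gradient

theorem m06_grad : ∃ M : ℝ, 0 < M ∧ ∀ (N : ℕ) (x₀ : E N) (ρ : ℝ), 0 < ρ → ∀ x : E N,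
    ‖gradient (m06_eta x₀ ρ) x‖ ≤ M / ρ ∧
      (2 * ρ < ‖x - x₀‖ → gradient (m06_eta x₀ ρ) x = 0) := by
  obtain ⟨M, hM, h1, h2⟩ := m06_st
  refine ⟨4 * M, by positivity, fun N x₀ ρ hρ x => ?_⟩
  have h3 : 2 * ρ < ‖x - x₀‖ → gradient (m06_eta x₀ ρ) x = 0 := by
    intro hx
    rw [m06_eta_grad, h2 _ (m06_arg hρ hx)]
    simp
  refine ⟨?_, h3⟩
  rcases lt_or_ge (2 * ρ) ‖x - x₀‖ with h | h
  · rw [h3 h, norm_zero]; positivity
  · rw [m06_eta_grad, norm_smul, Real.norm_eq_abs, abs_mul, abs_neg, abs_of_pos (by positivity :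
      (0 : ℝ) < 2 / ρ ^ 2)]
    calc |deriv Real.smoothTransition (2 - ‖x - x₀‖ ^ 2 / ρ ^ 2)| * (2 / ρ ^ 2) * ‖x - x₀‖
        ≤ M * (2 / ρ ^ 2) * (2 * ρ) := by
          gcongr
          exact h1 _
      _ = 4 * M / ρ := by
          field_simp
          ring

theorem m06_lam_pos (P : Par) : 0 < P.lam' := by
  have hN : (3 : ℝ) ≤ P.N := by exact_mod_cast P.hN
  have hN2 : (0 : ℝ) < (P.N : ℝ) - 2 := by linarith
  have hp := P.hp
  have h1 : 2 < P.p := by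
    refine lt_trans ?_ hp
    rw [lt_div_iff₀ hN2]
    linarith
  have h2 : 0 < P.p - 2 := by linarith
  have h3 : P.s < P.N / 2 := by
    unfold Par.s
    rw [div_lt_div_iff₀ h2 (by norm_num)]
    rw [div_lt_iff₀ hN2] at hp
    nlinarith
  unfold Par.lam' Par.lam
  linarith

theorem wsob (P : Par) : ∃ C : ℝ, 0 < C ∧ ∀ (Ω : Set (E P.N)) (u : E P.N → ℝ)
    (U : E P.N → E P.N), Bornology.IsBounded Ω → H10 Ω u U →
    Integrable (fun x => |u x| ^ P.p) → ∀ B : ℝ, 0 ≤ B →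
    (∀ (x : E P.N) (r : ℝ), 0 < r → ∫ y in Metric.ball x r, |u y| ≤ B * r ^ ((P.N : ℝ) - P.γ)) →
    ∀ (x₀ : E P.N) (r : ℝ), 0 < r →
    I0 P x₀ r (fun x => |u x| ^ P.p) ≤ C * B ^ (P.p - 2) *
      (I0 P x₀ r (fun x => ‖U x‖ ^ 2) + I2 P x₀ r (fun x => u x ^ 2)) := by
  obtain ⟨C0, hC0, iso⟩ := isob P
  obtain ⟨M, hM, hgr⟩ := m06_grad
  have hl : 0 < P.lam' := m06_lam_pos P
  have hp2 : 2 < P.p := by
    have hN : (3 : ℝ) ≤ P.N := by exact_mod_cast P.hN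
    have hN2 : (0 : ℝ) < (P.N : ℝ) - 2 := by linarith
    refine lt_trans ?_ P.hp
    rw [lt_div_iff₀ hN2]
    linarith
  have hb1 : (2 : ℝ) ^ (-P.lam') < 1 :=
    Real.rpow_lt_one_of_one_lt_of_neg (by norm_num) (by linarith)
  have hb2 : (2 : ℝ) ^ (-(P.lam' + 2)) < 1 :=
    Real.rpow_lt_one_of_one_lt_of_neg (by norm_num) (by linarith)
  obtain ⟨c1, hc1⟩ : ∃ c1 : ℝ, c1 = (5 : ℝ) ^ (P.lam' / 2) / (1 - (2 : ℝ) ^ (-P.lam')) := ⟨_, rfl⟩
  obtain ⟨c2, hc2⟩ : ∃ c2 : ℝ, c2 = (5 : ℝ) ^ ((P.lam' + 2) / 2) /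
    (1 - (2 : ℝ) ^ (-(P.lam' + 2))) := ⟨_, rfl⟩
  have hc1p : 0 < c1 := by
    rw [hc1]; exact div_pos (by positivity) (by linarith)
  have hc2p : 0 < c2 := by
    rw [hc2]; exact div_pos (by positivity) (by linarith)
  refine ⟨2 ^ P.lam' * C0 * (2 * c1 + 2 * M ^ 2 * c2), by positivity, ?_⟩
  intro Ω u U hΩ hu hup B hB hball x₀ r hr
  obtain ⟨R, hR⟩ := hΩ.subset_closedBall x₀
  obtain ⟨K, hK⟩ := pow_unbounded_of_one_lt (R / r) (by norm_num : (1 : ℝ) < 2)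
  obtain ⟨a, ha⟩ : ∃ a : ℝ, a = (2 : ℝ) ^ (-P.lam') := ⟨_, rfl⟩
  have ha0 : 0 < a := by rw [ha]; positivity
  obtain ⟨ρ, hρ⟩ : ∃ ρ : ℕ → ℝ, ∀ k, ρ k = 2 ^ k * r := ⟨_, fun _ => rfl⟩
  have hρ0 : ∀ k, 0 < ρ k := fun k => by rw [hρ]; positivity
  obtain ⟨v, hvdef⟩ : ∃ v : ℕ → E P.N → ℝ, ∀ k x, v k x = m06_eta x₀ (ρ k) x * u x :=
    ⟨_, fun _ _ => rfl⟩
  obtain ⟨V, hVdef⟩ : ∃ V : ℕ → E P.N → E P.N, ∀ k x, V k x =
      m06_eta x₀ (ρ k) x • U x + u x • gradient (m06_eta x₀ (ρ k)) x := ⟨_, fun _ _ => rfl⟩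
  have hv : ∀ k, H10 Ω (v k) (V k) := by
    intro k
    have h1 := hu.mul (m06_eta_cd x₀ (ρ k)) (C := max 1 (M / ρ k))
      (fun x => by
        rw [abs_of_nonneg (m06_eta_nonneg _ _ _)]
        exact (m06_eta_le _ _ _).trans (le_max_left _ _))
      (fun x => ((hgr P.N x₀ (ρ k) (hρ0 k) x).1).trans (le_max_right _ _))
    have e1 : v k = fun x => m06_eta x₀ (ρ k) x * u x := funext (hvdef k)
    have e2 : V k = fun x => m06_eta x₀ (ρ k) x • U x + u x • gradient (m06_eta x₀ (ρ k)) x :=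
      funext (hVdef k)
    rw [e1, e2]
    exact h1
  have hvle : ∀ k x, |v k x| ≤ |u x| := by
    intro k x
    rw [hvdef, abs_mul, abs_of_nonneg (m06_eta_nonneg _ _ _)]
    exact mul_le_of_le_one_left (abs_nonneg _) (m06_eta_le _ _ _)
  have hvp : ∀ k, Integrable (fun x => |v k x| ^ P.p) := by
    intro k
    refine hup.mono' ?_ ?_
    · exact ((hv k).1.1.norm.aemeasurable.pow_const P.p).aestronglyMeasurable.congr
        (ae_of_all _ fun x => by simp [Real.norm_eq_abs])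
    · refine ae_of_all _ fun x => ?_
      rw [Real.norm_eq_abs, abs_of_nonneg (by positivity)]
      exact Real.rpow_le_rpow (abs_nonneg _) (hvle k x) (by linarith)
  have hloc : ∀ (w : E P.N → ℝ), MemLp w 2 volume → ∀ (x : E P.N) (s : ℝ),
      IntegrableOn (fun y => |w y|) (Metric.ball x s) volume := by
    intro w hw x s
    have h1 : MemLp w 1 (volume.restrict (Metric.ball x s)) := by
      have : IsFiniteMeasure (volume.restrict (Metric.ball x s)) :=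
        ⟨by rw [Measure.restrict_apply_univ]; exact measure_ball_lt_top⟩
      exact (hw.restrict _).mono_exponent (by norm_num)
    have := (memLp_one_iff_integrable.1 h1).abs
    exact this
  have hvb : ∀ k (x : E P.N) (s : ℝ), 0 < s →
      ∫ y in Metric.ball x s, |v k y| ≤ B * s ^ ((P.N : ℝ) - P.γ) := by
    intro k x s hs
    refine le_trans ?_ (hball x s hs)
    exact setIntegral_mono (hloc _ (hv k).1 x s) (hloc _ hu.1 x s) (fun y => hvle k y)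
  have hiso : ∀ k, ∫ x, |v k x| ^ P.p ≤ C0 * B ^ (P.p - 2) * ∫ x, ‖V k x‖ ^ 2 := fun k =>
    iso Ω (v k) (V k) hΩ (hv k) (hvp k) B hB (hvb k)
  have hy : ∀ x : E P.N, (‖x - x₀‖ / r) ^ 2 = ‖x - x₀‖ ^ 2 / r ^ 2 := fun x => by rw [div_pow]
  -- lower bound
  have hlow : I0 P x₀ r (fun x => |u x| ^ P.p) ≤
      2 ^ P.lam' * ∑ k ∈ Finset.range (K + 1), a ^ k * ∫ x, |v k x| ^ P.p := by
    have e1 : 2 ^ P.lam' * ∑ k ∈ Finset.range (K + 1), a ^ k * ∫ x, |v k x| ^ P.p =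
        ∫ x, 2 ^ P.lam' * ∑ k ∈ Finset.range (K + 1), a ^ k * |v k x| ^ P.p := by
      rw [integral_const_mul, integral_finsetSum _ fun k _ => (hvp k).const_mul _]
      simp only [integral_const_mul]
    rw [e1]
    unfold I0
    refine integral_mono_ae (wt_int hl.le hup) ?_ ?_
    · exact (integrable_finsetSum _ fun k _ => (hvp k).const_mul _).const_mul _
    · have hoff := (Pool.Agent.H25.HX.H10.off hu).1
      filter_upwards [hoff] with x hx
      by_cases hxΩ : x ∈ Ω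
      · have h1 : ‖x - x₀‖ ≤ R := by
          have := hR hxΩ
          rwa [Metric.mem_closedBall, dist_eq_norm] at this
        have h2 : ‖x - x₀‖ / r ≤ 2 ^ K := by
          refine le_trans ?_ hK.le
          gcongr
        obtain ⟨k, hk, h3, h4⟩ := m06_scale (b := P.lam') hl.le
          (div_nonneg (norm_nonneg (x - x₀)) hr.le) h2
        have h5 : v k x = u x := by
          rw [hvdef, m06_eta_one x₀ (hρ0 k), one_mul]
          rw [hρ]
          rwa [div_le_iff₀ hr] at h3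
        have h6 : wt P.lam' x₀ r x ≤ 2 ^ P.lam' * a ^ k := by
          unfold wt
          rw [← hy, ha]
          exact h4
        calc wt P.lam' x₀ r x * |u x| ^ P.p ≤ (2 ^ P.lam' * a ^ k) * |u x| ^ P.p := by
              gcongr
          _ = 2 ^ P.lam' * (a ^ k * |v k x| ^ P.p) := by rw [h5]; ring
          _ ≤ 2 ^ P.lam' * ∑ k ∈ Finset.range (K + 1), a ^ k * |v k x| ^ P.p := by
              gcongr
              exact Finset.single_le_sum (f := fun k => a ^ k * |v k x| ^ P.p)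
                (fun i _ => by positivity) hk
      · rw [hx hxΩ, abs_zero, Real.zero_rpow (by linarith), mul_zero]
        positivity
  -- upper bound
  have hupper : ∑ k ∈ Finset.range (K + 1), a ^ k * ∫ x, ‖V k x‖ ^ 2 ≤
      2 * c1 * I0 P x₀ r (fun x => ‖U x‖ ^ 2) + 2 * M ^ 2 * c2 *
        I2 P x₀ r (fun x => u x ^ 2) := by
    have iU : Integrable (fun x => ‖U x‖ ^ 2) := Pool.Agent.H25.HX.sq_norm_integrable hu.2.1
    have iu : Integrable (fun x => u x ^ 2) := by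
      have := Pool.Agent.H25.HX.sq_norm_integrable hu.1
      simpa [Real.norm_eq_abs, sq_abs] using this
    have iV : ∀ k, Integrable (fun x => ‖V k x‖ ^ 2) := fun k =>
      Pool.Agent.H25.HX.sq_norm_integrable (hv k).2.1
    have e1 : ∑ k ∈ Finset.range (K + 1), a ^ k * ∫ x, ‖V k x‖ ^ 2 =
        ∫ x, ∑ k ∈ Finset.range (K + 1), a ^ k * ‖V k x‖ ^ 2 := by
      rw [integral_finsetSum _ fun k _ => (iV k).const_mul _]
      simp only [integral_const_mul]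
    have j1 := (wt_int (P := P) (x₀ := x₀) (r := r) hl.le iU).const_mul (2 * c1)
    have j2 := (wt_int (P := P) (x₀ := x₀) (r := r) (b := P.lam' + 2) (by linarith) iu).const_mul
      (2 * M ^ 2 * c2 / r ^ 2)
    have e2 : 2 * c1 * I0 P x₀ r (fun x => ‖U x‖ ^ 2) + 2 * M ^ 2 * c2 *
        I2 P x₀ r (fun x => u x ^ 2) = ∫ x, ((2 * c1) * (wt P.lam' x₀ r x * ‖U x‖ ^ 2) +
          (2 * M ^ 2 * c2 / r ^ 2) * (wt (P.lam' + 2) x₀ r x * u x ^ 2)) := by
      rw [integral_add j1 j2, integral_const_mul, integral_const_mul]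
      unfold I0 I2
      ring
    rw [e1, e2]
    refine integral_mono (integrable_finsetSum _ fun k _ => (iV k).const_mul _) (j1.add j2) ?_
    intro x
    have hpt : ∀ k, a ^ k * ‖V k x‖ ^ 2 ≤
        2 * ‖U x‖ ^ 2 * (if ‖x - x₀‖ / r ≤ 2 * 2 ^ k then a ^ k else 0) +
        2 * M ^ 2 / r ^ 2 * u x ^ 2 *
          (if ‖x - x₀‖ / r ≤ 2 * 2 ^ k then ((2 : ℝ) ^ (-(P.lam' + 2))) ^ k else 0) := by
      intro k
      by_cases hk : ‖x - x₀‖ / r ≤ 2 * 2 ^ k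
      · rw [if_pos hk, if_pos hk]
        have h1 : ‖V k x‖ ^ 2 ≤ 2 * ‖U x‖ ^ 2 + 2 * (u x ^ 2 * (M / ρ k) ^ 2) := by
          have h2 : ‖V k x‖ ≤ ‖U x‖ + |u x| * (M / ρ k) := by
            rw [hVdef]
            refine (norm_add_le _ _).trans ?_
            rw [norm_smul, norm_smul, Real.norm_eq_abs, Real.norm_eq_abs,
              abs_of_nonneg (m06_eta_nonneg _ _ _)]
            gcongr
            · exact mul_le_of_le_one_left (norm_nonneg _) (m06_eta_le _ _ _)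
            · exact (hgr P.N x₀ (ρ k) (hρ0 k) x).1
          have h3 : ‖V k x‖ ^ 2 ≤ (‖U x‖ + |u x| * (M / ρ k)) ^ 2 :=
            pow_le_pow_left₀ (norm_nonneg _) h2 2
          have h4 : (|u x| * (M / ρ k)) ^ 2 = u x ^ 2 * (M / ρ k) ^ 2 := by
            rw [mul_pow, sq_abs]
          nlinarith [sq_nonneg (‖U x‖ - |u x| * (M / ρ k))]
        have h5 : a ^ k * (M / ρ k) ^ 2 = M ^ 2 / r ^ 2 * ((2 : ℝ) ^ (-(P.lam' + 2))) ^ k := by
          have h6 : (2 : ℝ) ^ (-(P.lam' + 2)) = a * (1 / 4) := by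
            rw [neg_add, Real.rpow_add (by norm_num), ← ha, Real.rpow_neg (by norm_num)]
            norm_num
          have h7 : ((2 : ℝ) ^ k) ^ 2 = 4 ^ k := by
            rw [← pow_mul, mul_comm k 2, pow_mul]; norm_num
          rw [h6, mul_pow a, hρ, div_pow, mul_pow, h7, one_div, inv_pow]
          field_simp
        calc a ^ k * ‖V k x‖ ^ 2 ≤ a ^ k * (2 * ‖U x‖ ^ 2 + 2 * (u x ^ 2 * (M / ρ k) ^ 2)) := by
              gcongr
          _ = 2 * ‖U x‖ ^ 2 * a ^ k + 2 * u x ^ 2 * (a ^ k * (M / ρ k) ^ 2) := by ring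
          _ = _ := by rw [h5]; ring
      · rw [if_neg hk, if_neg hk]
        have h1 : 2 * ρ k < ‖x - x₀‖ := by
          rw [not_le, lt_div_iff₀ hr] at hk
          rw [hρ]
          linarith
        rw [hVdef, m06_eta_zero x₀ (hρ0 k) h1, (hgr P.N x₀ (ρ k) (hρ0 k) x).2 h1]
        simp
    have hy0 : 0 ≤ ‖x - x₀‖ / r := by positivity
    have s1 := m06_sum hl hy0 (K + 1)
    have s2 := m06_sum (b := P.lam' + 2) (by linarith) hy0 (K + 1)
    rw [hy, ← hc1, ← ha] at s1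
    rw [hy, ← hc2] at s2
    calc ∑ k ∈ Finset.range (K + 1), a ^ k * ‖V k x‖ ^ 2
        ≤ ∑ k ∈ Finset.range (K + 1), (2 * ‖U x‖ ^ 2 *
            (if ‖x - x₀‖ / r ≤ 2 * 2 ^ k then a ^ k else 0) + 2 * M ^ 2 / r ^ 2 * u x ^ 2 *
          (if ‖x - x₀‖ / r ≤ 2 * 2 ^ k then ((2 : ℝ) ^ (-(P.lam' + 2))) ^ k else 0)) :=
          Finset.sum_le_sum fun k _ => hpt k
      _ = 2 * ‖U x‖ ^ 2 * ∑ k ∈ Finset.range (K + 1),
            (if ‖x - x₀‖ / r ≤ 2 * 2 ^ k then a ^ k else 0) + 2 * M ^ 2 / r ^ 2 * u x ^ 2 *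
          ∑ k ∈ Finset.range (K + 1),
            (if ‖x - x₀‖ / r ≤ 2 * 2 ^ k then ((2 : ℝ) ^ (-(P.lam' + 2))) ^ k else 0) := by
          rw [Finset.sum_add_distrib, Finset.mul_sum, Finset.mul_sum]
      _ ≤ 2 * ‖U x‖ ^ 2 * (c1 * (1 + ‖x - x₀‖ ^ 2 / r ^ 2) ^ (-(P.lam' / 2))) +
          2 * M ^ 2 / r ^ 2 * u x ^ 2 *
            (c2 * (1 + ‖x - x₀‖ ^ 2 / r ^ 2) ^ (-((P.lam' + 2) / 2))) := by
          gcongr
      _ = _ := by
          unfold wt
          ring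
  have n0 : 0 ≤ I0 P x₀ r (fun x => ‖U x‖ ^ 2) := I0_nonneg fun x => by positivity
  have n2 : 0 ≤ I2 P x₀ r (fun x => u x ^ 2) := I2_nonneg fun x => by positivity
  have hBp : 0 ≤ B ^ (P.p - 2) := Real.rpow_nonneg hB _
  calc I0 P x₀ r (fun x => |u x| ^ P.p)
      ≤ 2 ^ P.lam' * ∑ k ∈ Finset.range (K + 1), a ^ k * ∫ x, |v k x| ^ P.p := hlow
    _ ≤ 2 ^ P.lam' * ∑ k ∈ Finset.range (K + 1),
          a ^ k * (C0 * B ^ (P.p - 2) * ∫ x, ‖V k x‖ ^ 2) := by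
        gcongr with k hk
        exact hiso k
    _ = 2 ^ P.lam' * (C0 * B ^ (P.p - 2)) *
          ∑ k ∈ Finset.range (K + 1), a ^ k * ∫ x, ‖V k x‖ ^ 2 := by
        rw [Finset.mul_sum, Finset.mul_sum]
        refine Finset.sum_congr rfl fun k _ => ?_
        ring
    _ ≤ 2 ^ P.lam' * (C0 * B ^ (P.p - 2)) * (2 * c1 * I0 P x₀ r (fun x => ‖U x‖ ^ 2) +
          2 * M ^ 2 * c2 * I2 P x₀ r (fun x => u x ^ 2)) := by
        gcongr
    _ ≤ 2 ^ P.lam' * (C0 * B ^ (P.p - 2)) * ((2 * c1 + 2 * M ^ 2 * c2) *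
          (I0 P x₀ r (fun x => ‖U x‖ ^ 2) + I2 P x₀ r (fun x => u x ^ 2))) := by
        gcongr
        have m1 : 0 ≤ 2 * M ^ 2 * c2 * I0 P x₀ r (fun x => ‖U x‖ ^ 2) := by positivity
        have m2 : 0 ≤ 2 * c1 * I2 P x₀ r (fun x => u x ^ 2) := by positivity
        linarith
    _ = _ := by ring

end Pool.Agent.H15.Hx
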