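import Pool.Agent.H15.Hx.M04_Hardy
import Pool.Agent.H15.Hx.M06_WSob

/-! M07: Adams type bounds in the Morrey class with the critical exponent `λ`. -/

set_option autoImplicit false

open MeasureTheory Set Filter Topology
open scoped RealInnerProductSpace
open Pool.Agent.H25.HX (E g Tst H10)

noncomputable section

namespace Pool.Agent.H15.Hx

theorem m07_off {P : Par} {Ω : Set (E P.N)} {R : ℝ} (hΩ : Ω ⊆ Metric.ball 0 R)
    {u : E P.N → ℝ} {U : E P.N → E P.N} (h : H10 Ω u U) :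
    ∀ᵐ x, x ∉ Metric.ball (0 : E P.N) R → u x = 0 := by
  filter_upwards [h.off.1] with x hx hxR
  exact hx (fun h' => hxR (hΩ h'))

theorem m07_pow {c κ p : ℝ} (hc : 0 ≤ c) (hκ : 0 ≤ κ) (hp : 2 < p) :
    Real.sqrt (c * κ) ^ (p - 2) * κ = c ^ ((p - 2) / 2) * κ ^ (p / 2) := by
  rw [Real.sqrt_eq_rpow, ← Real.rpow_mul (by positivity), Real.mul_rpow hc hκ]
  have h1 : (1 / 2 : ℝ) * (p - 2) = (p - 2) / 2 := by ring
  rw [h1]
  have h2 : p / 2 = (p - 2) / 2 + 1 := by ring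
  rw [h2, Real.rpow_add_one' hκ (by linarith)]
  ring

theorem adams (P : Par) : ∃ C : ℝ, 0 < C ∧ ∀ (Ω : Set (E P.N)) (R : ℝ), 0 < R →
    Ω ⊆ Metric.ball 0 R → ∀ (u : E P.N → ℝ) (U : E P.N → E P.N), H10 Ω u U →
    Integrable (fun x => |u x| ^ P.p) → ∀ κ : ℝ, 0 ≤ κ →
    (∀ x₀ r, Adm R x₀ r → I0 P x₀ r (fun x => ‖U x‖ ^ 2) ≤ κ * r ^ P.lam) →
    ∀ x₀ r, Adm R x₀ r → I2 P x₀ r (fun x => u x ^ 2) ≤ C * κ * r ^ P.lam ∧
      I0 P x₀ r (fun x => |u x| ^ P.p) ≤ C * κ ^ (P.p / 2) * r ^ P.lam := by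
  obtain ⟨CH, hCH, hardyH⟩ := hardy P
  obtain ⟨C2, hC2, two⟩ := ball_two P
  obtain ⟨CS, hCS, sob⟩ := wsob P
  have hp := P.two_lt_p
  set c0 : ℝ := (2 : ℝ) ^ (P.lam' / 2 + 1) * CH with hc0
  have hc0p : 0 < c0 := by positivity
  set D : ℝ := CS * C2 ^ (P.p - 2) * c0 ^ ((P.p - 2) / 2) * (1 + CH) with hD
  have hDp : 0 < D := by positivity
  refine ⟨max CH D, lt_max_of_lt_left hCH, ?_⟩
  intro Ω R hR hΩ u U hu hup κ hκ hU
  have hb : Bornology.IsBounded Ω := Metric.isBounded_ball.subset hΩ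
  have h2 : ∀ x₀ r, Adm R x₀ r → I2 P x₀ r (fun x => u x ^ 2) ≤ CH * κ * r ^ P.lam := by
    intro x₀ r hr
    calc I2 P x₀ r (fun x => u x ^ 2) ≤ CH * I0 P x₀ r (fun x => ‖U x‖ ^ 2) :=
          hardyH Ω u U hu x₀ r hr.2.1
      _ ≤ CH * (κ * r ^ P.lam) := by gcongr; exact hU x₀ r hr
      _ = CH * κ * r ^ P.lam := by ring
  have hu2 : Integrable (fun x => u x ^ 2) := hu.1.integrable_sq
  have hs : ∀ᵐ x, x ∉ Metric.ball (0 : E P.N) R → u x ^ 2 = 0 := by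
    filter_upwards [m07_off hΩ hu] with x hx hxR
    rw [hx hxR]; norm_num
  have hball : ∀ (x : E P.N) (r : ℝ), 0 < r → ∫ y in Metric.ball x r, u y ^ 2 ≤
      (c0 * κ) * r ^ (P.lam + 2) := by
    intro x r hr
    have := ball_of_I2 (P := P) (Q := CH * κ) (R := R) (by positivity) hR hu2
      (fun x => sq_nonneg _) hs h2 x hr
    rw [hc0]
    linarith [this]
  have hone : ∀ (x : E P.N) (r : ℝ), 0 < r → ∫ y in Metric.ball x r, |u y| ≤
      (C2 * Real.sqrt (c0 * κ)) * r ^ ((P.N : ℝ) - P.γ) := by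
    intro x r hr
    exact two u hu.1 (c0 * κ) (by positivity) x r hr (hball x r hr)
  intro x₀ r hr
  have hrp : 0 ≤ r ^ P.lam := Real.rpow_nonneg hr.2.1.le _
  refine ⟨(h2 x₀ r hr).trans ?_, ?_⟩
  · gcongr
    exact le_max_left _ _
  · have h3 := sob Ω u U hb hu hup (C2 * Real.sqrt (c0 * κ)) (by positivity) hone x₀ r hr.2.1
    have h4 : I0 P x₀ r (fun x => ‖U x‖ ^ 2) + I2 P x₀ r (fun x => u x ^ 2) ≤
        (1 + CH) * (κ * r ^ P.lam) := by
      have := hU x₀ r hr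
      have := h2 x₀ r hr
      linarith
    calc I0 P x₀ r (fun x => |u x| ^ P.p) ≤ _ := h3
      _ ≤ CS * (C2 * Real.sqrt (c0 * κ)) ^ (P.p - 2) * ((1 + CH) * (κ * r ^ P.lam)) := by
          gcongr
      _ = CS * C2 ^ (P.p - 2) * (1 + CH) * (Real.sqrt (c0 * κ) ^ (P.p - 2) * κ) *
            r ^ P.lam := by
          rw [Real.mul_rpow hC2.le (Real.sqrt_nonneg _)]; ring
      _ = D * κ ^ (P.p / 2) * r ^ P.lam := by
          rw [m07_pow hc0p.le hκ hp, hD]; ring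
      _ ≤ max CH D * κ ^ (P.p / 2) * r ^ P.lam := by
          gcongr
          exact le_max_right _ _

/-- the weighted improved Sobolev inequality for a function with `L^p` Morrey bounds -/
theorem wsob_p (P : Par) : ∃ C : ℝ, 0 < C ∧ ∀ (Ω : Set (E P.N)) (R : ℝ), 0 < R →
    Ω ⊆ Metric.ball 0 R → ∀ (u : E P.N → ℝ) (U : E P.N → E P.N), H10 Ω u U →
    Integrable (fun x => |u x| ^ P.p) → ∀ X : ℝ, 0 ≤ X →
    (∀ x₀ r, Adm R x₀ r → I0 P x₀ r (fun x => |u x| ^ P.p) ≤ X * r ^ P.lam) →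
    ∀ x₀ r, 0 < r →
      I0 P x₀ r (fun x => |u x| ^ P.p) ≤ C * X ^ (1 / P.s) *
        (I0 P x₀ r (fun x => ‖U x‖ ^ 2) + I2 P x₀ r (fun x => u x ^ 2)) := by
  obtain ⟨C1, hC1, one⟩ := ball_one P
  obtain ⟨CS, hCS, sob⟩ := wsob P
  have hp := P.two_lt_p
  set c0 : ℝ := (2 : ℝ) ^ (P.lam' / 2) with hc0
  have hc0p : 0 < c0 := by positivity
  refine ⟨CS * C1 ^ (P.p - 2) * c0 ^ (1 / P.s), by positivity, ?_⟩
  intro Ω R hR hΩ u U hu hup X hX hI x₀ r hr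
  have hb : Bornology.IsBounded Ω := Metric.isBounded_ball.subset hΩ
  have hs : ∀ᵐ x, x ∉ Metric.ball (0 : E P.N) R → |u x| ^ P.p = 0 := by
    filter_upwards [m07_off hΩ hu] with x hx hxR
    rw [hx hxR, abs_zero, Real.zero_rpow (by linarith)]
  have hball : ∀ (x : E P.N) (r : ℝ), 0 < r → ∫ y in Metric.ball x r, |u y| ^ P.p ≤
      (c0 * X) * r ^ P.lam := by
    intro x r hr
    exact ball_of_I0 (P := P) (Q := X) (R := R) hX hR hup
      (fun x => Real.rpow_nonneg (abs_nonneg _) _) hs hI x hr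
  have hone : ∀ (x : E P.N) (r : ℝ), 0 < r → ∫ y in Metric.ball x r, |u y| ≤
      (C1 * (c0 * X) ^ (1 / P.p)) * r ^ ((P.N : ℝ) - P.γ) := by
    intro x r hr
    exact one u hu.1.1 hup (c0 * X) (by positivity) x r hr (hball x r hr)
  have h3 := sob Ω u U hb hu hup (C1 * (c0 * X) ^ (1 / P.p)) (by positivity) hone x₀ r hr
  refine h3.trans (le_of_eq ?_)
  rw [Real.mul_rpow hC1.le (by positivity), Par.X_B (by positivity),
    Real.mul_rpow hc0p.le hX]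
  ring

end Pool.Agent.H15.Hx
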