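import Pool.Agent.H15.Hx.M02_Avg

/-! M08: facts on `g` and Young's inequality. -/

set_option autoImplicit false

open Pool.Agent.H25.HX (g)

noncomputable section

namespace Pool.Agent.H15.Hx

section gaux
variable {p : ℝ}

theorem m08_mul_self (hp : 2 < p) (a : ℝ) : g p a * a = |a| ^ p := by
  unfold g
  rcases eq_or_ne a 0 with rfl | ha
  · rw [abs_zero, Real.zero_rpow (by linarith : p ≠ 0), mul_zero]
  · have h : 0 < |a| := abs_pos.2 ha
    have h1 : |a| ^ p = |a| ^ (p - 2) * (|a| ^ (2 : ℕ)) := by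
      rw [← Real.rpow_natCast |a| 2, ← Real.rpow_add h]
      norm_num
    rw [h1, sq_abs]
    ring

theorem m08_abs (hp : 2 < p) (a : ℝ) : |g p a| = |a| ^ (p - 1) := by
  unfold g
  rcases eq_or_ne a 0 with rfl | ha
  · rw [mul_zero, abs_zero, Real.zero_rpow (by linarith : p - 1 ≠ 0)]
  · have h : 0 < |a| := abs_pos.2 ha
    rw [abs_mul, abs_of_nonneg (Real.rpow_nonneg (abs_nonneg a) _)]
    have h1 : |a| ^ (p - 1) = |a| ^ (p - 2) * |a| := by
      rw [← Real.rpow_add_one h.ne']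
      congr 1
      ring
    rw [h1]

theorem m08_neg (a : ℝ) : g p (-a) = - g p a := by
  unfold g
  rw [abs_neg]
  ring

theorem m08_identity (a b : ℝ) : (g p a - g p b) * (a - b) =
    1 / 2 * (|a| ^ (p - 2) + |b| ^ (p - 2)) * (a - b) ^ 2 +
      1 / 2 * ((|a| ^ (p - 2) - |b| ^ (p - 2)) * (a ^ 2 - b ^ 2)) := by
  unfold g
  ring

theorem m08_cross (hp : 2 < p) (a b : ℝ) :
    0 ≤ (|a| ^ (p - 2) - |b| ^ (p - 2)) * (a ^ 2 - b ^ 2) := by
  rcases le_total |a| |b| with h | h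
  · have h1 : |a| ^ (p - 2) ≤ |b| ^ (p - 2) :=
      Real.rpow_le_rpow (abs_nonneg a) h (by linarith)
    have h2 : a ^ 2 ≤ b ^ 2 := sq_le_sq.2 h
    nlinarith
  · have h1 : |b| ^ (p - 2) ≤ |a| ^ (p - 2) :=
      Real.rpow_le_rpow (abs_nonneg b) h (by linarith)
    have h2 : b ^ 2 ≤ a ^ 2 := sq_le_sq.2 h
    nlinarith

theorem m08_half (hp : 2 < p) (a b : ℝ) :
    1 / 2 * (|a| ^ (p - 2) + |b| ^ (p - 2)) * (a - b) ^ 2 ≤ (g p a - g p b) * (a - b) := by
  rw [m08_identity]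
  have := m08_cross hp a b
  linarith

theorem m08_mono (hp : 2 < p) (a b : ℝ) : 0 ≤ (g p a - g p b) * (a - b) := by
  refine le_trans ?_ (m08_half hp a b)
  have h1 : 0 ≤ |a| ^ (p - 2) := Real.rpow_nonneg (abs_nonneg a) _
  have h2 : 0 ≤ |b| ^ (p - 2) := Real.rpow_nonneg (abs_nonneg b) _
  positivity

theorem m08_strong (hp : 2 < p) (a b : ℝ) :
    (1 / (2 * (2 : ℝ) ^ (p - 2))) * |a - b| ^ p ≤ (g p a - g p b) * (a - b) := by
  refine le_trans ?_ (m08_half hp a b)
  have h2pos : 0 < (2 : ℝ) ^ (p - 2) := Real.rpow_pos_of_pos (by norm_num) _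
  have hpow : |a - b| ^ p = |a - b| ^ (p - 2) * (a - b) ^ 2 := by
    rw [← m08_mul_self hp (a - b)]
    unfold g
    ring
  have hm : |a - b| ^ (p - 2) ≤ (2 : ℝ) ^ (p - 2) * (|a| ^ (p - 2) + |b| ^ (p - 2)) := by
    have hA : 0 ≤ |a| ^ (p - 2) := Real.rpow_nonneg (abs_nonneg a) _
    have hB : 0 ≤ |b| ^ (p - 2) := Real.rpow_nonneg (abs_nonneg b) _
    have h1 : |a - b| ≤ 2 * max |a| |b| := by
      have := abs_sub a b
      have h3 := le_max_left |a| |b|
      have h4 := le_max_right |a| |b|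
      linarith
    have h2 : |a - b| ^ (p - 2) ≤ (2 * max |a| |b|) ^ (p - 2) :=
      Real.rpow_le_rpow (abs_nonneg _) h1 (by linarith)
    rw [Real.mul_rpow (by norm_num) (le_max_of_le_left (abs_nonneg a))] at h2
    refine h2.trans (mul_le_mul_of_nonneg_left ?_ h2pos.le)
    rcases le_total |a| |b| with h | h
    · rw [max_eq_right h]; linarith
    · rw [max_eq_left h]; linarith
  rw [hpow]
  have hsq : 0 ≤ (a - b) ^ 2 := sq_nonneg _
  have hkey := mul_le_mul_of_nonneg_right hm hsq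
  have : 1 / (2 * (2 : ℝ) ^ (p - 2)) * (|a - b| ^ (p - 2) * (a - b) ^ 2) ≤
      1 / (2 * (2 : ℝ) ^ (p - 2)) * ((2 : ℝ) ^ (p - 2) * (|a| ^ (p - 2) + |b| ^ (p - 2)) *
        (a - b) ^ 2) :=
    mul_le_mul_of_nonneg_left hkey (by positivity)
  refine this.trans (le_of_eq ?_)
  field_simp

theorem m08_lip_pos (hp : 2 < p) {a b : ℝ} (hb : 0 ≤ b) (hab : b ≤ a) :
    g p a - g p b ≤ (p - 1) * a ^ (p - 2) * (a - b) := by
  have ha : 0 ≤ a := hb.trans hab
  rcases eq_or_lt_of_le ha with h0 | h0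
  · have hb0 : b = 0 := le_antisymm (by rw [h0]; exact hab) hb
    rw [← h0, hb0]
    simp
  · have hs : -1 ≤ b / a - 1 := by
      have : 0 ≤ b / a := div_nonneg hb ha
      linarith
    have h1 := one_add_mul_self_le_rpow_one_add hs (p := p - 1) (by linarith)
    have e1 : (1 : ℝ) + (b / a - 1) = b / a := by ring
    rw [e1, Real.div_rpow hb ha] at h1
    have hap : 0 < a ^ (p - 1) := Real.rpow_pos_of_pos h0 _
    rw [le_div_iff₀ hap] at h1
    have e2 : a ^ (p - 1) = a ^ (p - 2) * a := by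
      rw [← Real.rpow_add_one h0.ne']
      congr 1
      ring
    have ga : g p a = a ^ (p - 1) := by
      unfold g
      rw [abs_of_nonneg ha, e2]
    have gb : g p b = b ^ (p - 1) := by
      have h := m08_abs hp b
      rw [abs_of_nonneg hb] at h
      rw [← h, abs_of_nonneg]
      unfold g
      exact mul_nonneg (Real.rpow_nonneg (abs_nonneg b) _) hb
    rw [ga, gb]
    have e3 : (1 + (p - 1) * (b / a - 1)) * a ^ (p - 1) =
        a ^ (p - 1) - (p - 1) * a ^ (p - 2) * (a - b) := by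
      rw [e2]
      field_simp
      ring
    rw [e3] at h1
    linarith

theorem m08_lip_opp (hp : 2 < p) {a b : ℝ} (ha : 0 ≤ a) (hb : b ≤ 0) :
    |g p a - g p b| ≤ (p - 1) * (|a| + |b|) ^ (p - 2) * |a - b| := by
  have hA : |a| ^ (p - 2) ≤ (|a| + |b|) ^ (p - 2) :=
    Real.rpow_le_rpow (abs_nonneg a) (by linarith [abs_nonneg b]) (by linarith)
  have hB : |b| ^ (p - 2) ≤ (|a| + |b|) ^ (p - 2) :=
    Real.rpow_le_rpow (abs_nonneg b) (by linarith [abs_nonneg a]) (by linarith)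
  have hS : 0 ≤ (|a| + |b|) ^ (p - 2) := Real.rpow_nonneg (by positivity) _
  have hd : |a - b| = |a| + |b| := by
    rw [abs_of_nonneg (by linarith : 0 ≤ a - b), abs_of_nonneg ha, abs_of_nonpos hb]
    ring
  have h1 : |g p a - g p b| ≤ |a| ^ (p - 2) * |a| + |b| ^ (p - 2) * |b| := by
    unfold g
    refine (abs_sub _ _).trans ?_
    rw [abs_mul, abs_mul, abs_of_nonneg (Real.rpow_nonneg (abs_nonneg a) _),
      abs_of_nonneg (Real.rpow_nonneg (abs_nonneg b) _)]
  rw [hd]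
  have h2 : |a| ^ (p - 2) * |a| + |b| ^ (p - 2) * |b| ≤ (|a| + |b|) ^ (p - 2) * (|a| + |b|) := by
    have e1 := mul_le_mul_of_nonneg_right hA (abs_nonneg a)
    have e2 := mul_le_mul_of_nonneg_right hB (abs_nonneg b)
    linarith
  have h3 : (|a| + |b|) ^ (p - 2) * (|a| + |b|) ≤
      (p - 1) * (|a| + |b|) ^ (p - 2) * (|a| + |b|) := by
    have : 0 ≤ (|a| + |b|) ^ (p - 2) * (|a| + |b|) := by positivity
    nlinarith
  linarith

theorem m08_lip_same (hp : 2 < p) {a b : ℝ} (hb : 0 ≤ b) (hab : b ≤ a) :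
    |g p a - g p b| ≤ (p - 1) * (|a| + |b|) ^ (p - 2) * |a - b| := by
  have ha : 0 ≤ a := hb.trans hab
  have h0 : 0 ≤ g p a - g p b := by
    rcases eq_or_lt_of_le hab with h | h
    · rw [h, sub_self]
    · have := m08_mono hp a b
      exact nonneg_of_mul_nonneg_left this (by linarith)
  rw [abs_of_nonneg h0, abs_of_nonneg (by linarith : 0 ≤ a - b)]
  refine (m08_lip_pos hp hb hab).trans ?_
  have hA : a ^ (p - 2) ≤ (|a| + |b|) ^ (p - 2) := by
    rw [abs_of_nonneg ha]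
    exact Real.rpow_le_rpow ha (by linarith [abs_nonneg b]) (by linarith)
  have h1 : 0 ≤ a - b := by linarith
  have h2 : (p - 1) * a ^ (p - 2) ≤ (p - 1) * (|a| + |b|) ^ (p - 2) :=
    mul_le_mul_of_nonneg_left hA (by linarith)
  exact mul_le_mul_of_nonneg_right h2 h1

theorem m08_lip_nonneg (hp : 2 < p) {a b : ℝ} (ha : 0 ≤ a) (hb : 0 ≤ b) :
    |g p a - g p b| ≤ (p - 1) * (|a| + |b|) ^ (p - 2) * |a - b| := by
  rcases le_total b a with h | h
  · exact m08_lip_same hp hb h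
  · have := m08_lip_same hp ha h
    rw [abs_sub_comm (g p a), abs_sub_comm a, add_comm |a|]
    exact this

theorem m08_lip (hp : 2 < p) (a b : ℝ) :
    |g p a - g p b| ≤ (p - 1) * (|a| + |b|) ^ (p - 2) * |a - b| := by
  rcases le_total 0 a with ha | ha
  · rcases le_total 0 b with hb | hb
    · exact m08_lip_nonneg hp ha hb
    · exact m08_lip_opp hp ha hb
  · rcases le_total 0 b with hb | hb
    · have := m08_lip_opp hp hb ha
      rw [abs_sub_comm (g p a), abs_sub_comm a, add_comm |a|]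
      exact this
    · have := m08_lip_nonneg hp (neg_nonneg.2 ha) (neg_nonneg.2 hb)
      rw [m08_neg, m08_neg, abs_neg, abs_neg] at this
      have e1 : |(-g p a - -g p b)| = |g p a - g p b| := by
        rw [← abs_neg]
        congr 1
        ring
      have e2 : |(-a - -b)| = |a - b| := by
        rw [← abs_neg]
        congr 1
        ring
      rw [e1, e2] at this
      exact this

end gaux

section gfacts
variable {P : Par}

theorem g_mul_self (a : ℝ) : g P.p a * a = |a| ^ P.p := m08_mul_self P.two_lt_p a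

theorem abs_g (a : ℝ) : |g P.p a| = |a| ^ (P.p - 1) := m08_abs P.two_lt_p a

theorem abs_g_q (a : ℝ) : |g P.p a| ^ P.q = |a| ^ P.p := by
  rw [abs_g, ← Real.rpow_mul (abs_nonneg a), mul_comm (P.p - 1), P.q_mul]

theorem g_cont : Continuous (g P.p) := by
  have h := P.two_lt_p
  unfold g
  exact (continuous_abs.rpow_const fun _ => Or.inr (by linarith)).mul continuous_id

theorem g_mono (a b : ℝ) : 0 ≤ (g P.p a - g P.p b) * (a - b) := m08_mono P.two_lt_p a b

theorem g_strong (P : Par) : ∃ c : ℝ, 0 < c ∧ ∀ a b : ℝ,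
    c * |a - b| ^ P.p ≤ (g P.p a - g P.p b) * (a - b) :=
  ⟨1 / (2 * (2 : ℝ) ^ (P.p - 2)), by positivity, fun a b => m08_strong P.two_lt_p a b⟩

theorem g_lip (P : Par) : ∀ a b : ℝ,
    (g P.p a - g P.p b) ^ 2 ≤
      (P.p - 1) * (|a| + |b|) ^ (P.p - 2) * ((g P.p a - g P.p b) * (a - b)) := by
  intro a b
  have h1 := m08_lip P.two_lt_p a b
  have h2 := m08_mono P.two_lt_p a b
  have h3 : (g P.p a - g P.p b) * (a - b) = |g P.p a - g P.p b| * |a - b| := by
    rw [← abs_mul, abs_of_nonneg h2]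
  rw [h3, ← sq_abs]
  have h4 := mul_le_mul_of_nonneg_left h1 (abs_nonneg (g P.p a - g P.p b))
  calc |g P.p a - g P.p b| ^ 2 = |g P.p a - g P.p b| * |g P.p a - g P.p b| := by ring
    _ ≤ |g P.p a - g P.p b| * ((P.p - 1) * (|a| + |b|) ^ (P.p - 2) * |a - b|) := h4
    _ = _ := by ring

/-- Young with a small constant on the `p` side -/
theorem young_p (P : Par) {ε : ℝ} (hε : 0 < ε) : ∃ C : ℝ, 0 < C ∧ ∀ a b : ℝ,
    |a| * |b| ≤ ε * |a| ^ P.p + C * |b| ^ P.q := by
  have hp := P.two_lt_p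
  have hq := P.q_gt_one
  set t : ℝ := ε ^ (1 / P.p) with ht
  have htpos : 0 < t := Real.rpow_pos_of_pos hε _
  have htp : t ^ P.p = ε := by
    rw [ht, ← Real.rpow_mul hε.le, one_div_mul_cancel (by linarith), Real.rpow_one]
  refine ⟨(t⁻¹) ^ P.q, Real.rpow_pos_of_pos (inv_pos.2 htpos) _, fun a b => ?_⟩
  have hy := Real.young_inequality_of_nonneg (a := t * |a|) (b := t⁻¹ * |b|)
    (by positivity) (by positivity) P.holder
  have e1 : t * |a| * (t⁻¹ * |b|) = |a| * |b| := by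
    field_simp
  rw [e1, Real.mul_rpow htpos.le (abs_nonneg a), htp,
    Real.mul_rpow (inv_nonneg.2 htpos.le) (abs_nonneg b)] at hy
  refine hy.trans ?_
  have h1 : ε * |a| ^ P.p / P.p ≤ ε * |a| ^ P.p :=
    div_le_self (by positivity) (by linarith)
  have h2 : t⁻¹ ^ P.q * |b| ^ P.q / P.q ≤ t⁻¹ ^ P.q * |b| ^ P.q :=
    div_le_self (by positivity) (by linarith)
  linarith

/-- Young with a small constant on the `q` side -/
theorem young_q (P : Par) {ε : ℝ} (hε : 0 < ε) : ∃ C : ℝ, 0 < C ∧ ∀ a b : ℝ,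
    |a| * |b| ≤ C * |a| ^ P.p + ε * |b| ^ P.q := by
  have hp := P.two_lt_p
  have hq := P.q_gt_one
  set t : ℝ := ε ^ (1 / P.q) with ht
  have htpos : 0 < t := Real.rpow_pos_of_pos hε _
  have htq : t ^ P.q = ε := by
    rw [ht, ← Real.rpow_mul hε.le, one_div_mul_cancel (by linarith), Real.rpow_one]
  refine ⟨(t⁻¹) ^ P.p, Real.rpow_pos_of_pos (inv_pos.2 htpos) _, fun a b => ?_⟩
  have hy := Real.young_inequality_of_nonneg (a := t⁻¹ * |a|) (b := t * |b|)
    (by positivity) (by positivity) P.holder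
  have e1 : t⁻¹ * |a| * (t * |b|) = |a| * |b| := by
    field_simp
  rw [e1, Real.mul_rpow (inv_nonneg.2 htpos.le) (abs_nonneg a),
    Real.mul_rpow htpos.le (abs_nonneg b), htq] at hy
  refine hy.trans ?_
  have h1 : t⁻¹ ^ P.p * |a| ^ P.p / P.p ≤ t⁻¹ ^ P.p * |a| ^ P.p :=
    div_le_self (by positivity) (by linarith)
  have h2 : ε * |b| ^ P.q / P.q ≤ ε * |b| ^ P.q :=
    div_le_self (by positivity) (by linarith)
  linarith

theorem abs_add_rpow {m : ℝ} (hm : 1 ≤ m) (a b : ℝ) :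
    |a + b| ^ m ≤ (2 : ℝ) ^ (m - 1) * (|a| ^ m + |b| ^ m) := by
  have h1 : |a + b| ^ m ≤ (|a| + |b|) ^ m :=
    Real.rpow_le_rpow (abs_nonneg _) (abs_add_le a b) (by linarith)
  refine h1.trans ?_
  have h2 := NNReal.rpow_add_le_mul_rpow_add_rpow ⟨|a|, abs_nonneg a⟩ ⟨|b|, abs_nonneg b⟩ hm
  exact_mod_cast h2

theorem abs_sub_rpow {m : ℝ} (hm : 1 ≤ m) (a b : ℝ) :
    |a - b| ^ m ≤ (2 : ℝ) ^ (m - 1) * (|a| ^ m + |b| ^ m) := by
  have h := abs_add_rpow hm a (-b)
  rw [abs_neg, ← sub_eq_add_neg] at h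
  exact h
end gfacts

end Pool.Agent.H15.Hx
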