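import Pool.Agent.H15.Hx.M08_G

/-! M08b: pointwise inequalities for averaged sequences. -/

set_option autoImplicit false

open Pool.Agent.H25.HX (g)

noncomputable section

namespace Pool.Agent.H15.Hx

section seq
variable (P : Par) {δ h : ℝ}

/-- averages along a real sequence -/
def za (δ h : ℝ) (a : ℕ → ℝ) (n : ℕ) : ℝ := avg δ h a n
def ga (δ h : ℝ) (a : ℕ → ℝ) (n : ℕ) : ℝ := avg δ h (fun m => g P.p (a m)) n
def pa (δ h : ℝ) (a : ℕ → ℝ) (n : ℕ) : ℝ := avg δ h (fun m => |a m| ^ P.p) n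
def ca (δ h : ℝ) (a : ℕ → ℝ) (n : ℕ) : ℝ := pa P δ h a n - ga P δ h a n * za δ h a n

theorem pt_pa_nonneg (hδ : 0 < δ) (hh : 0 < h) (a : ℕ → ℝ) (n : ℕ) : 0 ≤ pa P δ h a n :=
  avg_nonneg hδ hh fun _ _ _ => Real.rpow_nonneg (abs_nonneg _) _

theorem pt_za (hδ : 0 < δ) (hh : 0 < h) (a : ℕ → ℝ) (n : ℕ) :
    |za δ h a n| ^ P.p ≤ pa P δ h a n :=
  abs_avg_rpow_le hδ hh (by have := P.two_lt_p; linarith) a

theorem pt_za_sq (hδ : 0 < δ) (hh : 0 < h) (a : ℕ → ℝ) (n : ℕ) :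
    za δ h a n ^ 2 ≤ avg δ h (fun m => a m ^ 2) n := by
  have h1 := abs_avg_rpow_le (n := n) hδ hh (r := 2) (by norm_num) a
  simp only [Real.rpow_two, sq_abs] at h1
  exact h1

theorem pt_ga (hδ : 0 < δ) (hh : 0 < h) (a : ℕ → ℝ) (n : ℕ) :
    |ga P δ h a n| ^ P.q ≤ pa P δ h a n := by
  have h1 := abs_avg_rpow_le (n := n) hδ hh P.q_gt_one.le (fun m => g P.p (a m))
  simp only [abs_g_q] at h1
  exact h1

theorem m08_prod (hδ : 0 < δ) (hh : 0 < h) (a : ℕ → ℝ) (n : ℕ) :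
    |ga P δ h a n| * |za δ h a n| ≤ pa P δ h a n := by
  have h1 := Real.young_inequality_of_nonneg (abs_nonneg (za δ h a n))
    (abs_nonneg (ga P δ h a n)) P.holder
  have h2 := pt_za P hδ hh a n
  have h3 := pt_ga P hδ hh a n
  have hp := P.two_lt_p
  have hq := P.q_gt_one
  have hs := P.holder.inv_add_inv_eq_one
  have h4 : |za δ h a n| ^ P.p / P.p ≤ pa P δ h a n / P.p :=
    div_le_div_of_nonneg_right h2 (by linarith)
  have h5 : |ga P δ h a n| ^ P.q / P.q ≤ pa P δ h a n / P.q :=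
    div_le_div_of_nonneg_right h3 (by linarith)
  have h6 : pa P δ h a n / P.p + pa P δ h a n / P.q = pa P δ h a n := by
    rw [div_eq_mul_inv, div_eq_mul_inv, ← mul_add, hs, mul_one]
  rw [mul_comm]
  linarith

theorem pt_ca_nonneg (hδ : 0 < δ) (hh : 0 < h) (a : ℕ → ℝ) (n : ℕ) : 0 ≤ ca P δ h a n := by
  have h1 := m08_prod P hδ hh a n
  rw [← abs_mul] at h1
  have h2 := le_abs_self (ga P δ h a n * za δ h a n)
  unfold ca
  linarith

theorem pt_ca_le (hδ : 0 < δ) (hh : 0 < h) (a : ℕ → ℝ) (n : ℕ) :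
    ca P δ h a n ≤ 2 * pa P δ h a n := by
  have h1 := m08_prod P hδ hh a n
  rw [← abs_mul] at h1
  have h2 := neg_abs_le (ga P δ h a n * za δ h a n)
  unfold ca
  linarith

theorem m08_avg_const (hδ : 0 < δ) (hh : 0 < h) (c : ℝ) (n : ℕ) :
    avg δ h (fun _ => c) n = (1 - (h / (h + δ)) ^ n) * c := by
  induction n with
  | zero => simp
  | succ n ih =>
    have hne : h + δ ≠ 0 := by positivity
    rw [avg_succ, ih, smul_eq_mul, smul_eq_mul, pow_succ]
    field_simp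
    ring

/-- `Za ≤ C (Cv + |ζ|^p)` -/
theorem pt_pa_le : ∃ C : ℝ, 0 < C ∧ ∀ (δ h : ℝ), 0 < δ → 0 < h → ∀ (a : ℕ → ℝ) (n : ℕ),
    pa P δ h a n ≤ C * (ca P δ h a n + |za δ h a n| ^ P.p) := by
  obtain ⟨C, hC, hY⟩ := young_q P (ε := 1 / 2) (by norm_num)
  refine ⟨2 * (1 + C), by positivity, fun δ h hδ hh a n => ?_⟩
  set z : ℝ := za δ h a n with hz
  have hz0 : 0 ≤ |z| ^ P.p := Real.rpow_nonneg (abs_nonneg _) _
  -- pointwise
  have hpt : ∀ m, 1 ≤ m → m ≤ n → |a m| ^ P.p ≤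
      (|a m| ^ P.p - z * g P.p (a m)) + (C * |z| ^ P.p + 1 / 2 * |a m| ^ P.p) := by
    intro m _ _
    have h1 := hY z (g P.p (a m))
    rw [abs_g_q, ← abs_mul] at h1
    have h2 := le_abs_self (z * g P.p (a m))
    linarith
  have h1 := avg_mono hδ hh hpt
  rw [avg_add, avg_sub, avg_mul_left z, avg_add, avg_mul_left (1 / 2 : ℝ)] at h1
  have h2 : avg δ h (fun _ => C * |z| ^ P.p) n ≤ C * |z| ^ P.p :=
    avg_const_le hδ hh (by positivity)
  have h3 : avg δ h (fun m => |a m| ^ P.p) n = pa P δ h a n := rfl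
  have h4 : avg δ h (fun m => g P.p (a m)) n = ga P δ h a n := rfl
  rw [h3, h4] at h1
  have h5 : ca P δ h a n = pa P δ h a n - ga P δ h a n * z := rfl
  have h6 := pt_ca_nonneg P hδ hh a n
  nlinarith

/-- first power form of `pt_gz` with upper bounds `A`, `B` -/
theorem m08_gz_aux (hδ : 0 < δ) (hh : 0 < h) (a : ℕ → ℝ) (n : ℕ) {A B : ℝ} (hA : 0 < A)
    (hB : 0 < B) (hAU : (2 : ℝ) ^ P.p * pa P δ h a n ≤ A) (hBD : ca P δ h a n ≤ B) :
    |g P.p (za δ h a n) - ga P δ h a n| ≤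
      Real.sqrt (P.p - 1) * (A ^ ((P.p - 2) / (2 * P.p)) * B ^ (1 / 2 : ℝ)) := by
  have hp := P.two_lt_p
  set z : ℝ := za δ h a n with hz
  set x : ℝ := (P.p - 2) / (2 * P.p) with hx
  have hx0 : 0 < x := div_pos (by linarith) (by linarith)
  have hx1 : x + 1 / 2 ≤ 1 := by
    rw [hx]
    have : (P.p - 2) / (2 * P.p) ≤ 1 / 2 := by
      rw [div_le_div_iff₀ (by linarith) (by norm_num)]
      linarith
    linarith
  set K : ℝ := Real.sqrt (P.p - 1) * (A ^ x * B ^ (1 / 2 : ℝ)) with hK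
  have hK0 : 0 ≤ K := by positivity
  -- the pointwise inequality
  have hpt : ∀ b : ℝ, |g P.p z - g P.p b| ≤
      K * (x * ((|z| + |b|) ^ P.p / A) + 1 / 2 * (((g P.p z - g P.p b) * (z - b)) / B) +
        (1 - x - 1 / 2)) := by
    intro b
    have h1 := g_lip P z b
    have hD := g_mono (P := P) z b
    set D : ℝ := (g P.p z - g P.p b) * (z - b) with hDdef
    set U : ℝ := (|z| + |b|) ^ P.p with hU
    have hzb : 0 ≤ |z| + |b| := by positivity
    have hU0 : 0 ≤ U := Real.rpow_nonneg hzb _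
    have h2 : |g P.p z - g P.p b| ≤
        Real.sqrt (P.p - 1) * (U ^ x * D ^ (1 / 2 : ℝ)) := by
      have h3 : |g P.p z - g P.p b| = Real.sqrt ((g P.p z - g P.p b) ^ 2) :=
        (Real.sqrt_sq_eq_abs _).symm
      rw [h3]
      refine (Real.sqrt_le_sqrt h1).trans (le_of_eq ?_)
      have hp1 : 0 ≤ P.p - 1 := by linarith
      rw [Real.sqrt_mul (mul_nonneg hp1 (Real.rpow_nonneg hzb _)), Real.sqrt_mul hp1, mul_assoc]
      congr 1
      rw [Real.sqrt_eq_rpow, Real.sqrt_eq_rpow, ← Real.rpow_mul hzb, hU, ← Real.rpow_mul hzb]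
      congr 2
      rw [hx]
      field_simp
    refine h2.trans ?_
    have hgm := Real.geom_mean_le_arith_mean3_weighted (w₁ := x) (w₂ := 1 / 2)
      (w₃ := 1 - x - 1 / 2) (p₁ := U / A) (p₂ := D / B) (p₃ := 1) hx0.le (by norm_num)
      (by linarith) (by positivity) (by positivity) (by norm_num) (by ring)
    rw [Real.one_rpow, mul_one, mul_one, Real.div_rpow hU0 hA.le, Real.div_rpow hD hB.le] at hgm
    have hAx : 0 < A ^ x := Real.rpow_pos_of_pos hA _
    have hBx : 0 < B ^ (1 / 2 : ℝ) := Real.rpow_pos_of_pos hB _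
    have h4 : U ^ x * D ^ (1 / 2 : ℝ) =
        (A ^ x * B ^ (1 / 2 : ℝ)) * (U ^ x / A ^ x * (D ^ (1 / 2 : ℝ) / B ^ (1 / 2 : ℝ))) := by
      field_simp
    rw [h4, ← mul_assoc, ← hK]
    exact mul_le_mul_of_nonneg_left hgm hK0
  -- the remaining weight
  set ρ : ℝ := (h / (h + δ)) ^ n with hρ
  have hρ0 : 0 ≤ ρ := by positivity
  have hρ1 : ρ ≤ 1 := by
    apply pow_le_one₀ (by positivity)
    rw [div_le_one (by positivity)]
    linarith
  have hg0 : g P.p (0 : ℝ) = 0 := by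
    unfold Pool.Agent.H25.HX.g
    rw [mul_zero]
  -- step 1
  have s1 : g P.p z - ga P δ h a n =
      avg δ h (fun m => g P.p z - g P.p (a m)) n + ρ * g P.p z := by
    rw [avg_sub, m08_avg_const hδ hh]
    unfold ga
    ring
  have s2 : |avg δ h (fun m => g P.p z - g P.p (a m)) n| ≤
      avg δ h (fun m => |g P.p z - g P.p (a m)|) n := by
    have := abs_avg_rpow_le (n := n) hδ hh (r := 1) le_rfl (fun m => g P.p z - g P.p (a m))
    simpa only [Real.rpow_one] using this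
  have s3 : avg δ h (fun m => |g P.p z - g P.p (a m)|) n ≤
      avg δ h (fun m => K * (x / A * (|z| + |a m|) ^ P.p +
        (1 / 2 / B * ((g P.p z - g P.p (a m)) * (z - a m)) + (1 - x - 1 / 2)))) n := by
    apply avg_mono hδ hh
    intro m _ _
    refine (hpt (a m)).trans (le_of_eq ?_)
    ring
  have s4 : ρ * |g P.p z| ≤ ρ * (K * (x / A * |z| ^ P.p +
        (1 / 2 / B * |z| ^ P.p + (1 - x - 1 / 2)))) := by
    apply mul_le_mul_of_nonneg_left _ hρ0
    have := hpt 0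
    rw [hg0, sub_zero, sub_zero, abs_zero, add_zero, g_mul_self] at this
    refine this.trans (le_of_eq ?_)
    ring
  rw [avg_mul_left, avg_add, avg_mul_left, avg_add, avg_mul_left, m08_avg_const hδ hh] at s3
  -- the terms
  have hz0 : 0 ≤ |z| ^ P.p := Real.rpow_nonneg (abs_nonneg _) _
  have hzpa : |z| ^ P.p ≤ pa P δ h a n := pt_za P hδ hh a n
  have hpa0 := pt_pa_nonneg P hδ hh a n
  have t1 : avg δ h (fun m => (|z| + |a m|) ^ P.p) n + ρ * |z| ^ P.p ≤ A := by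
    have h1 : avg δ h (fun m => (|z| + |a m|) ^ P.p) n ≤
        avg δ h (fun m => (2 : ℝ) ^ (P.p - 1) * |z| ^ P.p +
          (2 : ℝ) ^ (P.p - 1) * |a m| ^ P.p) n := by
      apply avg_mono hδ hh
      intro m _ _
      have h2 := abs_add_rpow (m := P.p) (by linarith) |z| |a m|
      rw [abs_abs, abs_abs, abs_of_nonneg (by positivity : 0 ≤ |z| + |a m|)] at h2
      linarith
    rw [avg_add, avg_mul_left _ (fun m => |a m| ^ P.p),
      m08_avg_const hδ hh ((2 : ℝ) ^ (P.p - 1) * |z| ^ P.p)] at h1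
    have h3 : avg δ h (fun m => |a m| ^ P.p) n = pa P δ h a n := rfl
    rw [h3] at h1
    have h4 : (1 : ℝ) ≤ (2 : ℝ) ^ (P.p - 1) :=
      Real.one_le_rpow (by norm_num) (by linarith)
    have h5 : (2 : ℝ) ^ P.p = 2 * (2 : ℝ) ^ (P.p - 1) := by
      rw [← Real.rpow_one_add' (by norm_num) (by linarith)]
      congr 1
      ring
    rw [h5] at hAU
    have h6 : ρ * |z| ^ P.p ≤ ρ * ((2 : ℝ) ^ (P.p - 1) * |z| ^ P.p) := by
      apply mul_le_mul_of_nonneg_left _ hρ0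
      nlinarith
    have h7 : (2 : ℝ) ^ (P.p - 1) * |z| ^ P.p ≤ (2 : ℝ) ^ (P.p - 1) * pa P δ h a n :=
      mul_le_mul_of_nonneg_left hzpa (by linarith)
    have h8 : (1 - (h / (h + δ)) ^ n) * ((2 : ℝ) ^ (P.p - 1) * |z| ^ P.p) =
        (2 : ℝ) ^ (P.p - 1) * |z| ^ P.p - ρ * ((2 : ℝ) ^ (P.p - 1) * |z| ^ P.p) := by
      rw [← hρ]
      ring
    rw [h8] at h1
    linarith
  have t2 : avg δ h (fun m => (g P.p z - g P.p (a m)) * (z - a m)) n + ρ * |z| ^ P.p =
      ca P δ h a n := by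
    have e1 : ∀ m, (g P.p z - g P.p (a m)) * (z - a m) =
        (|z| ^ P.p - g P.p z * a m) - (z * g P.p (a m) - |a m| ^ P.p) := by
      intro m
      rw [← g_mul_self (P := P) z, ← g_mul_self (P := P) (a m)]
      ring
    simp only [e1]
    rw [avg_sub, avg_sub, avg_sub, avg_mul_left, avg_mul_left, m08_avg_const hδ hh]
    have h3 : avg δ h (fun m => |a m| ^ P.p) n = pa P δ h a n := rfl
    have h4 : avg δ h (fun m => g P.p (a m)) n = ga P δ h a n := rfl
    have h5 : avg δ h (fun m => a m) n = z := rfl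
    rw [h3, h4, h5, ← hρ, g_mul_self]
    unfold ca
    rw [← hz]
    ring
  -- conclusion
  have u1 : x / A * (avg δ h (fun m => (|z| + |a m|) ^ P.p) n + ρ * |z| ^ P.p) ≤ x := by
    have := mul_le_mul_of_nonneg_left t1 (by positivity : 0 ≤ x / A)
    refine this.trans (le_of_eq ?_)
    field_simp
  have u2 : 1 / 2 / B * (avg δ h (fun m => (g P.p z - g P.p (a m)) * (z - a m)) n +
      ρ * |z| ^ P.p) ≤ 1 / 2 := by
    rw [t2]
    have := mul_le_mul_of_nonneg_left hBD (by positivity : 0 ≤ 1 / 2 / B)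
    refine this.trans (le_of_eq ?_)
    field_simp
  have v1 : |g P.p z - ga P δ h a n| ≤
      avg δ h (fun m => |g P.p z - g P.p (a m)|) n + ρ * |g P.p z| := by
    rw [s1]
    refine (abs_add_le _ _).trans ?_
    rw [abs_mul, abs_of_nonneg hρ0]
    linarith
  have v2 : avg δ h (fun m => |g P.p z - g P.p (a m)|) n + ρ * |g P.p z| ≤
      K * (x / A * (avg δ h (fun m => (|z| + |a m|) ^ P.p) n + ρ * |z| ^ P.p) +
        1 / 2 / B * (avg δ h (fun m => (g P.p z - g P.p (a m)) * (z - a m)) n +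
          ρ * |z| ^ P.p) + (1 - x - 1 / 2)) := by
    refine (add_le_add s3 s4).trans (le_of_eq ?_)
    rw [← hρ]
    ring
  refine v1.trans (v2.trans ?_)
  have w1 : x / A * (avg δ h (fun m => (|z| + |a m|) ^ P.p) n + ρ * |z| ^ P.p) +
        1 / 2 / B * (avg δ h (fun m => (g P.p z - g P.p (a m)) * (z - a m)) n +
          ρ * |z| ^ P.p) + (1 - x - 1 / 2) ≤ 1 := by
    linarith
  calc _ ≤ K * 1 := mul_le_mul_of_nonneg_left w1 hK0
    _ = K := mul_one K

/-- `|g ζ - Γ|^q ≤ C Za^(1-q/2) Cv^(q/2)` -/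
theorem pt_gz : ∃ C : ℝ, 0 < C ∧ ∀ (δ h : ℝ), 0 < δ → 0 < h → ∀ (a : ℕ → ℝ) (n : ℕ),
    |g P.p (za δ h a n) - ga P δ h a n| ^ P.q ≤
      C * pa P δ h a n ^ (1 - P.q / 2) * ca P δ h a n ^ (P.q / 2) := by
  have hp := P.two_lt_p
  have hq := P.q_gt_one
  have hq2 := P.q_lt_two
  set x : ℝ := (P.p - 2) / (2 * P.p) with hx
  have hx0 : 0 < x := div_pos (by linarith) (by linarith)
  refine ⟨(Real.sqrt (P.p - 1)) ^ P.q * ((2 : ℝ) ^ P.p) ^ (1 - P.q / 2),
    mul_pos (Real.rpow_pos_of_pos (Real.sqrt_pos.2 (by linarith)) _) (by positivity), ?_⟩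
  intro δ h hδ hh a n
  have hpa0 := pt_pa_nonneg P hδ hh a n
  have hca0 := pt_ca_nonneg P hδ hh a n
  have h1 : |g P.p (za δ h a n) - ga P δ h a n| ≤
      Real.sqrt (P.p - 1) * (((2 : ℝ) ^ P.p * pa P δ h a n) ^ x *
        (ca P δ h a n) ^ (1 / 2 : ℝ)) := by
    have hlim : Filter.Tendsto (fun ε : ℝ => Real.sqrt (P.p - 1) *
        (((2 : ℝ) ^ P.p * pa P δ h a n + ε) ^ x * (ca P δ h a n + ε) ^ (1 / 2 : ℝ)))
        (nhdsWithin 0 (Set.Ioi 0)) (nhds (Real.sqrt (P.p - 1) *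
        (((2 : ℝ) ^ P.p * pa P δ h a n + 0) ^ x * (ca P δ h a n + 0) ^ (1 / 2 : ℝ)))) := by
      apply Filter.Tendsto.mono_left _ nhdsWithin_le_nhds
      apply Continuous.tendsto
      apply continuous_const.mul
      apply Continuous.mul
      · exact (continuous_const.add continuous_id).rpow_const fun _ => Or.inr hx0.le
      · exact (continuous_const.add continuous_id).rpow_const fun _ => Or.inr (by norm_num)
    rw [add_zero, add_zero] at hlim
    refine ge_of_tendsto hlim ?_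
    filter_upwards [self_mem_nhdsWithin] with ε hε
    have hε' : 0 < ε := hε
    exact m08_gz_aux P hδ hh a n (by positivity) (by positivity) (by linarith) (by linarith)
  have hqx : x * P.q = 1 - P.q / 2 := by
    rw [hx]
    unfold Par.q
    have : P.p - 1 ≠ 0 := by linarith
    have : P.p ≠ 0 := by linarith
    field_simp
    ring
  have h2 := Real.rpow_le_rpow (abs_nonneg _) h1 (by linarith : 0 ≤ P.q)
  refine h2.trans (le_of_eq ?_)
  rw [Real.mul_rpow (Real.sqrt_nonneg _) (by positivity),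
    Real.mul_rpow (by positivity) (by positivity), ← Real.rpow_mul (by positivity),
    ← Real.rpow_mul hca0, hqx, Real.mul_rpow (by positivity) hpa0]
  rw [show (1 / 2 : ℝ) * P.q = P.q / 2 by ring]
  ring

/-- evolution of the covariance -/
theorem pt_ca_step (hδ : 0 < δ) (hh : 0 < h) (a : ℕ → ℝ) (n : ℕ) :
    h * ((ca P δ h a (n + 1) - ca P δ h a n) / δ) + ca P δ h a (n + 1) =
      (h + δ) / h * ((g P.p (a (n + 1)) - ga P δ h a (n + 1)) *
        (a (n + 1) - za δ h a (n + 1))) := by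
  have e1 : pa P δ h a (n + 1) = h / (h + δ) * pa P δ h a n +
      δ / (h + δ) * (g P.p (a (n + 1)) * a (n + 1)) := by
    rw [g_mul_self]
    rfl
  have e2 : ga P δ h a (n + 1) = h / (h + δ) * ga P δ h a n + δ / (h + δ) * g P.p (a (n + 1)) :=
    rfl
  have e3 : za δ h a (n + 1) = h / (h + δ) * za δ h a n + δ / (h + δ) * a (n + 1) := rfl
  unfold ca
  rw [e1, e2, e3]
  have hne : h + δ ≠ 0 := by positivity
  field_simp
  ring

/-- the damping term tested with `z` -/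
theorem pt_pa_step (hδ : 0 < δ) (hh : 0 < h) (a : ℕ → ℝ) (n : ℕ) :
    h / P.q * ((pa P δ h a (n + 1) - pa P δ h a n) / δ) ≤
      (g P.p (a (n + 1)) - ga P δ h a (n + 1)) * a (n + 1) := by
  have hp := P.two_lt_p
  have hq := P.q_gt_one
  have h1 : pa P δ h a (n + 1) - pa P δ h a n =
      δ / h * (|a (n + 1)| ^ P.p - pa P δ h a (n + 1)) :=
    avg_step hδ hh (fun m => |a m| ^ P.p) n
  rw [h1]
  have e1 : h / P.q * (δ / h * (|a (n + 1)| ^ P.p - pa P δ h a (n + 1)) / δ) =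
      |a (n + 1)| ^ P.p / P.q - pa P δ h a (n + 1) / P.q := by
    field_simp
  rw [e1, sub_mul, g_mul_self]
  have h2 := Real.young_inequality_of_nonneg (abs_nonneg (a (n + 1)))
    (abs_nonneg (ga P δ h a (n + 1))) P.holder
  have h3 := pt_ga P hδ hh a (n + 1)
  have h4 : |ga P δ h a (n + 1)| ^ P.q / P.q ≤ pa P δ h a (n + 1) / P.q :=
    div_le_div_of_nonneg_right h3 (by linarith)
  have h5 : ga P δ h a (n + 1) * a (n + 1) ≤ |a (n + 1)| * |ga P δ h a (n + 1)| := by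
    rw [mul_comm |a (n + 1)|, ← abs_mul]
    exact le_abs_self _
  have h6 : |a (n + 1)| ^ P.p / P.p + |a (n + 1)| ^ P.p / P.q = |a (n + 1)| ^ P.p := by
    rw [div_eq_mul_inv, div_eq_mul_inv, ← mul_add, P.holder.inv_add_inv_eq_one, mul_one]
  linarith
end seq

end Pool.Agent.H15.Hx
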