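import Pool.Agent.H15.Hx.M03b_WtInt
import Pool.Agent.H15.Hx.M08b_Seq

/-! M09: integrability facts for solutions of the scheme. -/

set_option autoImplicit false

open MeasureTheory Set Filter Topology
open scoped RealInnerProductSpace
open Pool.Agent.H25.HX (E g Tst H10)

noncomputable section

namespace Pool.Agent.H15.Hx

/-! auxiliary facts on averages of sequences of functions -/

theorem m09_meas {N : ℕ} {δ h : ℝ} {w : ℕ → E N → ℝ}
    (hw : ∀ m, AEStronglyMeasurable (w m) volume) (n : ℕ) :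
    AEStronglyMeasurable (fun x => avg δ h (fun m => w m x) n) volume := by
  induction n with
  | zero => exact aestronglyMeasurable_const
  | succ n ih => exact (ih.const_smul (h / (h + δ))).add ((hw (n + 1)).const_smul (δ / (h + δ)))

theorem m09_int {N : ℕ} {δ h : ℝ} {w : ℕ → E N → ℝ} (hw : ∀ m, Integrable (w m)) (n : ℕ) :
    Integrable (fun x => avg δ h (fun m => w m x) n) := by
  induction n with
  | zero => exact integrable_zero _ _ _
  | succ n ih => exact (ih.smul (h / (h + δ))).add ((hw (n + 1)).smul (δ / (h + δ)))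

theorem m09_mem {N : ℕ} {F : Type} [NormedAddCommGroup F] [NormedSpace ℝ F] {δ h : ℝ}
    {w : ℕ → E N → F} (hw : ∀ m, MemLp (w m) 2 volume) (n : ℕ) :
    MemLp (fun x => avg δ h (fun m => w m x) n) 2 volume := by
  induction n with
  | zero => exact MemLp.zero
  | succ n ih => exact (ih.const_smul (h / (h + δ))).add ((hw (n + 1)).const_smul (δ / (h + δ)))

theorem m09_rpow_add {N : ℕ} {m : ℝ} (hm : 1 ≤ m) {a b : E N → ℝ}
    (ha : AEStronglyMeasurable a volume) (hb : AEStronglyMeasurable b volume)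
    (ha' : Integrable (fun x => |a x| ^ m)) (hb' : Integrable (fun x => |b x| ^ m)) :
    Integrable (fun x => |a x + b x| ^ m) := by
  refine ((ha'.add hb').const_mul ((2 : ℝ) ^ (m - 1))).mono' ?_ (ae_of_all _ fun x => ?_)
  · have h1 : AEStronglyMeasurable (fun x => |a x + b x|) volume := by
      simpa [Real.norm_eq_abs] using (ha.add hb).norm
    have h2 : Continuous (fun t : ℝ => t ^ m) := Real.continuous_rpow_const (by linarith)
    exact h2.comp_aestronglyMeasurable h1
  · rw [Real.norm_eq_abs, abs_of_nonneg (by positivity)]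
    exact abs_add_rpow hm (a x) (b x)

theorem m09_rpow_mul {N : ℕ} {m : ℝ} (c : ℝ) {a : E N → ℝ}
    (ha' : Integrable (fun x => |a x| ^ m)) : Integrable (fun x => |c * a x| ^ m) := by
  refine (ha'.const_mul (|c| ^ m)).congr (ae_of_all _ fun x => ?_)
  simp only
  rw [abs_mul, Real.mul_rpow (abs_nonneg _) (abs_nonneg _)]

theorem m09_rpow_avg {N : ℕ} {δ h m : ℝ} (hm : 1 ≤ m) {w : ℕ → E N → ℝ}
    (hw : ∀ k, AEStronglyMeasurable (w k) volume) (hw' : ∀ k, Integrable (fun x => |w k x| ^ m))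
    (n : ℕ) : Integrable (fun x => |avg δ h (fun k => w k x) n| ^ m) := by
  induction n with
  | zero =>
    have h1 : (fun x : E N => |avg δ h (fun k => w k x) 0| ^ m) = fun _ => 0 := by
      funext x
      rw [avg_zero', abs_zero, Real.zero_rpow (by linarith)]
    rw [h1]
    exact integrable_zero _ _ _
  | succ n ih =>
    exact m09_rpow_add hm ((m09_meas hw n).const_smul (h / (h + δ)))
      ((hw (n + 1)).const_smul (δ / (h + δ))) (m09_rpow_mul _ ih) (m09_rpow_mul _ (hw' (n + 1)))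

theorem m09_rpow_off {N : ℕ} {m : ℝ} (hm : 0 < m) (hm2 : m ≤ 2) {w : E N → ℝ}
    (hw : MemLp w 2 volume) {R : ℝ} (hs : ∀ᵐ x, x ∉ Metric.ball (0 : E N) R → w x = 0) :
    Integrable (fun x => |w x| ^ m) := by
  have h1 : Integrable ((Metric.ball (0 : E N) R).indicator (fun _ => (1 : ℝ))) := by
    rw [integrable_indicator_iff Metric.isOpen_ball.measurableSet]
    exact integrableOn_const (measure_ball_lt_top (μ := volume)).ne
  have h2 : Integrable (fun x => w x ^ 2) := hw.integrable_sq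
  refine (h1.add h2).mono' ?_ ?_
  · have h3 : AEStronglyMeasurable (fun x => |w x|) volume := by
      simpa [Real.norm_eq_abs] using hw.1.norm
    exact (Real.continuous_rpow_const hm.le).comp_aestronglyMeasurable h3
  · filter_upwards [hs] with x hx
    rw [Real.norm_eq_abs, abs_of_nonneg (by positivity)]
    simp only [Pi.add_apply]
    by_cases hxb : x ∈ Metric.ball (0 : E N) R
    · rw [Set.indicator_of_mem hxb]
      rcases le_total |w x| 1 with h4 | h4
      · have h5 : |w x| ^ m ≤ 1 := Real.rpow_le_one (abs_nonneg _) h4 hm.le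
        nlinarith [sq_nonneg (w x)]
      · have h5 : |w x| ^ m ≤ |w x| ^ (2 : ℝ) := Real.rpow_le_rpow_of_exponent_le h4 hm2
        rw [Real.rpow_two, sq_abs] at h5
        linarith
    · rw [hx hxb, abs_zero, Real.zero_rpow hm.ne', Set.indicator_of_notMem hxb]
      norm_num

theorem m09_avg_zero {V : Type*} [AddCommGroup V] [Module ℝ V] {δ h : ℝ} {q : ℕ → V} {n : ℕ}
    (H : ∀ m, q m = 0) : avg δ h q n = 0 := by
  induction n with
  | zero => rfl
  | succ n ih => rw [avg_succ, ih, H, smul_zero, smul_zero, add_zero]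

namespace Sol
variable {P : Par} {Ω : Set (E P.N)} (S : Sol P Ω) (h : ℝ) (n : ℕ)

/-- every member of `L²` here vanishes a.e. outside `Ω` -/
def Off (Ω : Set (E P.N)) (w : E P.N → ℝ) : Prop := ∀ᵐ x, x ∉ Ω → w x = 0

theorem zp : Integrable (fun x => |S.z n x| ^ P.p) := by
  have h1 := (S.hg n).integrable_mul (S.hz n).1
  refine h1.congr (ae_of_all _ fun x => ?_)
  simp only [Pi.mul_apply]
  exact g_mul_self _

theorem z_off : Off (P := P) Ω (S.z n) := (S.hz n).off.1

theorem hu : H10 Ω (S.u n) (S.Du n) := by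
  induction n with
  | zero =>
    exact H10.zero.congr (ae_of_all _ fun x => (S.u_zero x).symm)
      (ae_of_all _ fun x => (S.Du_zero x).symm)
  | succ n ih =>
    exact (ih.add ((S.hz (n + 1)).smul S.δ)).congr (ae_of_all _ fun x => (S.u_succ n x).symm)
      (ae_of_all _ fun x => (S.Du_succ n x).symm)

theorem up : Integrable (fun x => |S.u n x| ^ P.p) := by
  induction n with
  | zero =>
    have h1 : (fun x : E P.N => |S.u 0 x| ^ P.p) = fun _ => 0 := by
      funext x
      rw [S.u_zero, abs_zero, Real.zero_rpow P.m01_p0.ne']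
    rw [h1]
    exact integrable_zero _ _ _
  | succ n ih =>
    have h1 := m09_rpow_add (m := P.p) (by linarith [P.two_lt_p]) (S.hu n).1.1
      ((S.hz (n + 1)).1.1.const_mul S.δ) ih (m09_rpow_mul S.δ (S.zp (n + 1)))
    refine h1.congr (ae_of_all _ fun x => ?_)
    simp only
    rw [S.u_succ]

theorem hζ : H10 Ω (S.ζ h n) (S.Dζ h n) := by
  induction n with
  | zero => exact H10.zero
  | succ n ih => exact (ih.smul (h / (h + S.δ))).add ((S.hz (n + 1)).smul (S.δ / (h + S.δ)))

theorem ζp (hh : 0 < h) : Integrable (fun x => |S.ζ h n x| ^ P.p) :=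
  m09_rpow_avg (by linarith [P.two_lt_p]) (fun k => (S.hz k).1.1) (fun k => S.zp k) n

theorem ζ_off : Off (P := P) Ω (S.ζ h n) := (S.hζ h n).off.1

theorem hΓ : MemLp (S.Γ h n) 2 volume := m09_mem (fun m => S.hg m) n

theorem gq : Integrable (fun x => |g P.p (S.z n x)| ^ P.q) := by
  refine (S.zp n).congr (ae_of_all _ fun x => ?_)
  exact (abs_g_q _).symm

theorem Γq (hh : 0 < h) : Integrable (fun x => |S.Γ h n x| ^ P.q) :=
  m09_rpow_avg P.q_gt_one.le (fun k => (S.hg k).1) (fun k => S.gq k) n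

theorem Za_int : Integrable (S.Za h n) := m09_int (fun m => S.zp m) n

theorem Za_nonneg (hh : 0 < h) (x : E P.N) : 0 ≤ S.Za h n x :=
  avg_nonneg S.δ_pos hh fun _ _ _ => by positivity

theorem Cv_int (hh : 0 < h) : Integrable (S.Cv h n) :=
  (S.Za_int h n).sub ((S.hΓ h n).integrable_mul (S.hζ h n).1)

theorem hfa : MemLp (S.fa h n) 2 volume := m09_mem (fun m => S.hf m) n

theorem f_off : Off (P := P) Ω (S.f n) := ae_of_all _ fun x hx => S.hfs n x hx

theorem fa_off : Off (P := P) Ω (S.fa h n) :=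
  ae_of_all _ fun x hx => m09_avg_zero fun m => S.hfs m x hx

theorem fq {R : ℝ} (hΩ : Ω ⊆ Metric.ball 0 R) : Integrable (fun x => |S.f n x| ^ P.q) :=
  m09_rpow_off (by linarith [P.q_gt_one]) P.q_lt_two.le (S.hf n)
    (ae_of_all _ fun x hx => S.hfs n x fun h => hx (hΩ h))

theorem faq (hh : 0 < h) {R : ℝ} (hΩ : Ω ⊆ Metric.ball 0 R) :
    Integrable (fun x => |S.fa h n x| ^ P.q) :=
  m09_rpow_avg P.q_gt_one.le (fun k => (S.hf k).1) (fun k => S.fq k hΩ) n

theorem ffaq (hh : 0 < h) {R : ℝ} (hΩ : Ω ⊆ Metric.ball 0 R) :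
    Integrable (fun x => |S.f n x - S.fa h n x| ^ P.q) := by
  have h1 := m09_rpow_add (m := P.q) P.q_gt_one.le (S.hf n).1 ((S.hfa h n).1.const_mul (-1))
    (S.fq n hΩ) (m09_rpow_mul (-1) (S.faq h n hh hΩ))
  refine h1.congr (ae_of_all _ fun x => ?_)
  simp only
  congr 2
  ring

theorem ζt_mem : MemLp (S.ζt h n) 2 volume := by
  have h1 := ((S.hz n).1.sub (S.hζ h n).1).const_mul h⁻¹
  refine (memLp_congr_ae (ae_of_all _ fun x => ?_)).1 h1
  simp only [Pi.sub_apply]
  unfold ζt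
  ring

theorem zζp (hh : 0 < h) : Integrable (fun x => |S.z n x - S.ζ h n x| ^ P.p) := by
  have h1 := m09_rpow_add (m := P.p) (by linarith [P.two_lt_p]) (S.hz n).1.1
    ((S.hζ h n).1.1.const_mul (-1)) (S.zp n) (m09_rpow_mul (-1) (S.ζp h n hh))
  refine h1.congr (ae_of_all _ fun x => ?_)
  simp only
  congr 2
  ring

/-- products of `L²` functions are integrable -/
theorem mul_int {a b : E P.N → ℝ} (ha : MemLp a 2 volume) (hb : MemLp b 2 volume) :
    Integrable (fun x => a x * b x) := ha.integrable_mul hb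

theorem sq_int {a : E P.N → ℝ} (ha : MemLp a 2 volume) : Integrable (fun x => a x ^ 2) :=
  ha.integrable_sq

theorem vsq_int {a : E P.N → E P.N} (ha : MemLp a 2 volume) :
    Integrable (fun x => ‖a x‖ ^ 2) := by
  have := ha.integrable_norm_pow (by norm_num : (2 : ℕ) ≠ 0)
  simpa using this

/-- `ζ_{n+1} - ζ_n = δ ζt_{n+1}` -/
theorem ζ_step (hh : 0 < h) (x : E P.N) :
    S.ζ h (n + 1) x = S.ζ h n x + S.δ * S.ζt h (n + 1) x := by
  have h1 := avg_step S.δ_pos hh (fun m => S.z m x) n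
  rw [smul_eq_mul] at h1
  unfold ζt ζ
  linear_combination h1

/-- `Dz = Dζ + h (Dζ_{n+1} - Dζ_n)/δ` -/
theorem Dζ_step (hh : 0 < h) (x : E P.N) :
    S.Dz (n + 1) x = S.Dζ h (n + 1) x + (h / S.δ) • (S.Dζ h (n + 1) x - S.Dζ h n x) := by
  have h1 := avg_step S.δ_pos hh (fun m => S.Dz m x) n
  unfold Dζ
  rw [h1, smul_smul, div_mul_div_cancel₀' (ne_of_gt hh), div_self S.δ_pos.ne', one_smul]
  abel

theorem z_eq (hh : 0 < h) (x : E P.N) : S.z n x = S.ζ h n x + h * S.ζt h n x := by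
  unfold ζt
  field_simp
  ring

/-- `(u - avg u)/h = ζ` -/
theorem u_avg (hh : 0 < h) (x : E P.N) :
    S.u n x - avg S.δ h (fun m => S.u m x) n = h * S.ζ h n x := by
  have h1 := avg_dq S.δ_pos hh (fun m => S.u m x) (S.u_zero x) n
  have h2 : avg S.δ h (fun m => (S.δ)⁻¹ • (S.u m x - S.u (m - 1) x)) n = S.ζ h n x := by
    unfold ζ
    refine avg_congr fun m hm _ => ?_
    obtain ⟨k, rfl⟩ : ∃ k, m = k + 1 := ⟨m - 1, by omega⟩
    have hδ := S.δ_pos.ne'
    rw [Nat.add_sub_cancel, S.u_succ, smul_eq_mul]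
    field_simp
    ring
  rw [h2, smul_eq_mul] at h1
  rw [h1]
  field_simp

theorem Du_avg (hh : 0 < h) (x : E P.N) :
    S.Du n x - avg S.δ h (fun m => S.Du m x) n = h • S.Dζ h n x := by
  have h1 := avg_dq S.δ_pos hh (fun m => S.Du m x) (S.Du_zero x) n
  have h2 : avg S.δ h (fun m => (S.δ)⁻¹ • (S.Du m x - S.Du (m - 1) x)) n = S.Dζ h n x := by
    unfold Dζ
    refine avg_congr fun m hm _ => ?_
    obtain ⟨k, rfl⟩ : ∃ k, m = k + 1 := ⟨m - 1, by omega⟩
    have hδ := S.δ_pos.ne'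
    rw [Nat.add_sub_cancel, S.Du_succ, add_sub_cancel_left, smul_smul, inv_mul_cancel₀ hδ,
      one_smul]
  rw [h2] at h1
  rw [h1, smul_smul, mul_inv_cancel₀ hh.ne', one_smul]

/-- everything vanishes at `n = 0` -/
theorem Y_zero (x₀ : E P.N) (r : ℝ) : S.Y h x₀ r 0 = 0 := by
  have h1 : S.Za h 0 = fun _ => 0 := by
    funext x
    exact avg_zero' _
  have h2 : ∀ x, S.Dζ h 0 x = 0 := fun x => avg_zero' _
  have h3 : ∀ x, S.ζ h 0 x = 0 := fun x => avg_zero' _
  have h4 : ∀ x, S.ζt h 0 x = 0 := by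
    intro x
    unfold ζt
    rw [h3, S.z_zero]
    simp
  unfold Y I0
  simp only [h1, h2, h3, h4]
  simp

theorem Rr_nonneg (hh : 0 < h) (x₀ : E P.N) (r : ℝ) : 0 ≤ S.Rr h x₀ r n := by
  unfold Rr
  have h1 : 0 ≤ I2 P x₀ r (fun x => (S.z n x - S.ζ h n x) ^ 2) := I2_nonneg fun x => sq_nonneg _
  have h2 : 0 ≤ I0 P x₀ r (fun x => |S.ζt h (n - 1) x| * |S.ζt h n x|) :=
    I0_nonneg fun x => by positivity
  have h3 : 0 ≤ I0 P x₀ r (fun x => |S.f n x - S.fa h n x| * |S.z n x|) :=
    I0_nonneg fun x => by positivity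
  positivity

theorem Eg_zero (x₀ : E P.N) (r : ℝ) : S.Eg 0 x₀ r = 0 := by
  unfold Eg I0
  simp only [S.Du_zero, S.z_zero]
  simp

theorem Eg_nonneg (x₀ : E P.N) (r : ℝ) : 0 ≤ S.Eg n x₀ r :=
  I0_nonneg fun x => by positivity
end Sol

end Pool.Agent.H15.Hx
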