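import Pool.Agent.H15.Hx.M09_Int

/-! M10: weighted test functions and the averaged equation. -/

set_option autoImplicit false

open MeasureTheory Set Filter Topology
open scoped RealInnerProductSpace
open Pool.Agent.H25.HX (E g Tst H10)

noncomputable section

namespace Pool.Agent.H15.Hx

namespace Sol
variable {P : Par} {Ω : Set (E P.N)} (S : Sol P Ω)

theorem m10_inner_int {a b : E P.N → E P.N} (ha : MemLp a 2 volume) (hb : MemLp b 2 volume) :
    Integrable (fun x => ⟪a x, b x⟫) := by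
  have h1 : Integrable (fun x => ‖a x‖ * ‖b x‖) := ha.norm.integrable_mul hb.norm
  refine h1.mono' (ha.1.inner hb.1) (ae_of_all _ fun x => ?_)
  exact norm_inner_le_norm (a x) (b x)

theorem m10_wt_bd (x₀ : E P.N) {r : ℝ} (hr : 0 < r) : ∃ C : ℝ,
    (∀ x, |wt P.lam' x₀ r x| ≤ C) ∧ ∀ x, ‖gradient (wt P.lam' x₀ r) x‖ ≤ C := by
  have hl : 0 ≤ P.lam' := b3_l0 P
  refine ⟨max 1 (P.lam' / r), fun x => ?_, fun x => ?_⟩
  · rw [abs_of_pos (wt_pos x)]
    exact (wt_le_one hl x).trans (le_max_left _ _)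
  · have h1 := wt_grad_le (x₀ := x₀) hl hr x
    have h2 : wt (P.lam' + 1) x₀ r x ≤ 1 := wt_le_one (by linarith) x
    have h3 : 0 ≤ P.lam' / r := by positivity
    calc _ ≤ P.lam' / r * wt (P.lam' + 1) x₀ r x := h1
      _ ≤ P.lam' / r * 1 := mul_le_mul_of_nonneg_left h2 h3
      _ ≤ _ := by rw [mul_one]; exact le_max_right _ _

/-- testing with `G w`, abstract version -/
theorem m10_test {V : E P.N → E P.N} {F : E P.N → ℝ} (hV : MemLp V 2 volume)
    (H : ∀ (ψ : E P.N → ℝ) (Ψ : E P.N → E P.N), H10 Ω ψ Ψ →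
      ∫ x, ⟪V x, Ψ x⟫ = ∫ x, F x * ψ x)
    {w : E P.N → ℝ} {W : E P.N → E P.N} (hw : H10 Ω w W) (x₀ : E P.N) {r : ℝ}
    (hr : 0 < r) :
    (∫ x, wt P.lam' x₀ r x * ⟪V x, W x⟫) +
      (∫ x, w x * ⟪gradient (wt P.lam' x₀ r) x, V x⟫) =
      ∫ x, wt P.lam' x₀ r x * (F x * w x) := by
  obtain ⟨C, c1, c2⟩ := m10_wt_bd (P := P) x₀ hr
  have h1 := H _ _ (hw.mul (wt_contDiff (b := P.lam') (x₀ := x₀) (r := r)) c1 c2)
  have i1 : Integrable (fun x => wt P.lam' x₀ r x * ⟪V x, W x⟫) := by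
    have := m10_inner_int hV hw.2.1
    exact wt_int (b3_l0 P) this
  have i2 : Integrable (fun x => w x * ⟪gradient (wt P.lam' x₀ r) x, V x⟫) := by
    have m : MemLp (fun x => w x • gradient (wt P.lam' x₀ r) x) 2 volume := by
      refine MemLp.of_le_mul (c := C) hw.1 (hw.1.1.smul
        (Pool.Agent.H25.HX.Tst.grad_cont wt_contDiff).aestronglyMeasurable)
        (ae_of_all _ fun x => ?_)
      rw [norm_smul, mul_comm]
      exact mul_le_mul_of_nonneg_right (c2 x) (norm_nonneg _)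
    refine (m10_inner_int m hV).congr (ae_of_all _ fun x => ?_)
    simp only [inner_smul_left, RCLike.conj_to_real]
  have e1 : ∫ x, ⟪V x, wt P.lam' x₀ r x • W x + w x • gradient (wt P.lam' x₀ r) x⟫ =
      (∫ x, wt P.lam' x₀ r x * ⟪V x, W x⟫) +
      (∫ x, w x * ⟪gradient (wt P.lam' x₀ r) x, V x⟫) := by
    rw [← integral_add i1 i2]
    refine integral_congr_ae (ae_of_all _ fun x => ?_)
    simp only [inner_add_right, inner_smul_right]
    rw [real_inner_comm (V x) (gradient (wt P.lam' x₀ r) x)]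
  rw [← e1, h1]
  refine integral_congr_ae (ae_of_all _ fun x => ?_)
  simp only
  ring

/-- the equation tested with `G w` -/
theorem testG (n : ℕ) {w : E P.N → ℝ} {W : E P.N → E P.N} (hw : H10 Ω w W) (x₀ : E P.N) {r : ℝ}
    (hr : 0 < r) :
    (∫ x, wt P.lam' x₀ r x * ⟪S.Du (n + 1) x, W x⟫) +
      (∫ x, w x * ⟪gradient (wt P.lam' x₀ r) x, S.Du (n + 1) x⟫) =
      ∫ x, wt P.lam' x₀ r x *
        ((S.f (n + 1) x - g P.p (S.z (n + 1) x) - (S.z (n + 1) x - S.z n x) / S.δ) * w x) :=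
  m10_test (S.hu (n + 1)).2.1 (S.eqn n) hw x₀ hr

/-- the averaged equation -/
theorem avg_eqn {h : ℝ} (hh : 0 < h) (n : ℕ) {w : E P.N → ℝ} {W : E P.N → E P.N}
    (hw : H10 Ω w W) :
    ∫ x, ⟪S.Dζ h (n + 1) x, W x⟫ =
      ∫ x, ((S.f (n + 1) x - S.fa h (n + 1) x) / h -
        (g P.p (S.z (n + 1) x) - S.Γ h (n + 1) x) / h -
        (S.ζt h (n + 1) x - S.ζt h n x) / S.δ) * w x := by
  have hδ := S.δ_pos
  have hh' : h ≠ 0 := hh.ne'
  have hδ' : S.δ ≠ 0 := hδ.ne'
  -- the two sides of the equation for every index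
  have hmz : ∀ m, MemLp (S.z m) 2 volume := fun m => (S.hz m).1
  have hB : ∀ m, MemLp (fun x => S.f m x - g P.p (S.z m x) - (S.z m x - S.z (m - 1) x) / S.δ)
      2 volume := by
    intro m
    have h1 := ((hmz m).sub (hmz (m - 1))).const_mul S.δ⁻¹
    have h2 := ((S.hf m).sub (S.hg m)).sub h1
    refine (memLp_congr_ae (ae_of_all _ fun x => ?_)).1 h2
    simp only [Pi.sub_apply]
    ring
  have key : ∀ m, ∫ x, ⟪S.Du m x, W x⟫ =
      ∫ x, (S.f m x - g P.p (S.z m x) - (S.z m x - S.z (m - 1) x) / S.δ) * w x := by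
    intro m
    rcases m with _ | m
    · simp [S.Du_zero, S.f_zero, S.z_zero, g]
    · exact S.eqn m w W hw
  have iA : ∀ m, Integrable (fun x => ⟪S.Du m x, W x⟫) := fun m =>
    m10_inner_int (S.hu m).2.1 hw.2.1
  have iB : ∀ m, Integrable (fun x =>
      (S.f m x - g P.p (S.z m x) - (S.z m x - S.z (m - 1) x) / S.δ) * w x) := fun m =>
    (hB m).integrable_mul hw.1
  obtain ⟨a1, a2⟩ := b3_avg_int (δ := S.δ) (h := h) iA (n + 1)
  obtain ⟨b1, b2⟩ := b3_avg_int (δ := S.δ) (h := h) iB (n + 1)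
  have key2 : ∫ x, avg S.δ h (fun m => ⟪S.Du m x, W x⟫) (n + 1) =
      ∫ x, avg S.δ h (fun m =>
        (S.f m x - g P.p (S.z m x) - (S.z m x - S.z (m - 1) x) / S.δ) * w x) (n + 1) := by
    rw [a2, b2]
    congr 1
    exact funext key
  -- pointwise identities
  have p1 : ∀ x, ⟪S.Dζ h (n + 1) x, W x⟫ =
      h⁻¹ * (⟪S.Du (n + 1) x, W x⟫ - avg S.δ h (fun m => ⟪S.Du m x, W x⟫) (n + 1)) := by
    intro x
    have e1 : avg S.δ h (fun m => ⟪S.Du m x, W x⟫) (n + 1) =
        ⟪avg S.δ h (fun m => S.Du m x) (n + 1), W x⟫ := by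
      have := avg_map (δ := S.δ) (h := h) (innerₗ (E P.N) (W x)) (fun m => S.Du m x) (n + 1)
      simp only [innerₗ_apply_apply] at this
      rw [real_inner_comm, ← this]
      congr 1
      funext m
      exact real_inner_comm _ _
    rw [e1, ← inner_sub_left, S.Du_avg h (n + 1) hh x, inner_smul_left, RCLike.conj_to_real]
    field_simp
  have p2 : ∀ x, ((S.f (n + 1) x - S.fa h (n + 1) x) / h -
        (g P.p (S.z (n + 1) x) - S.Γ h (n + 1) x) / h -
        (S.ζt h (n + 1) x - S.ζt h n x) / S.δ) * w x =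
      h⁻¹ * ((S.f (n + 1) x - g P.p (S.z (n + 1) x) - (S.z (n + 1) x - S.z n x) / S.δ) * w x -
        avg S.δ h (fun m =>
          (S.f m x - g P.p (S.z m x) - (S.z m x - S.z (m - 1) x) / S.δ) * w x) (n + 1)) := by
    intro x
    have e1 : avg S.δ h (fun m =>
          (S.f m x - g P.p (S.z m x) - (S.z m x - S.z (m - 1) x) / S.δ) * w x) (n + 1) =
        (S.fa h (n + 1) x - S.Γ h (n + 1) x - S.ζt h (n + 1) x) * w x := by
      have c1 : (fun m => (S.f m x - g P.p (S.z m x) - (S.z m x - S.z (m - 1) x) / S.δ) * w x) =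
          fun m => w x • ((S.f m x - g P.p (S.z m x)) -
            S.δ⁻¹ • (S.z m x - S.z (m - 1) x)) := by
        funext m
        simp only [smul_eq_mul]
        ring
      rw [c1, avg_smul, avg_sub, avg_sub,
        avg_dq (δ := S.δ) hδ hh (fun m => S.z m x) (S.z_zero x) (n + 1)]
      simp only [Sol.fa, Sol.Γ, Sol.ζt, Sol.ζ, smul_eq_mul]
      ring
    have e2 := S.ζ_step h n hh x
    have e3 := S.z_eq h (n + 1) hh x
    have e4 := S.z_eq h n hh x
    rw [e1]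
    rw [e3, e4, e2]
    field_simp
    ring
  have iBn : Integrable (fun x => (S.f (n + 1) x - g P.p (S.z (n + 1) x) -
      (S.z (n + 1) x - S.z n x) / S.δ) * w x) := iB (n + 1)
  rw [integral_congr_ae (ae_of_all _ p1), integral_congr_ae (ae_of_all _ p2),
    integral_const_mul, integral_const_mul, integral_sub (iA (n + 1)) a1,
    integral_sub iBn b1, S.eqn n w W hw, key2]

/-- the averaged equation tested with `G w` -/
theorem avg_testG {h : ℝ} (hh : 0 < h) (n : ℕ) {w : E P.N → ℝ} {W : E P.N → E P.N}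
    (hw : H10 Ω w W) (x₀ : E P.N) {r : ℝ} (hr : 0 < r) :
    (∫ x, wt P.lam' x₀ r x * ⟪S.Dζ h (n + 1) x, W x⟫) +
      (∫ x, w x * ⟪gradient (wt P.lam' x₀ r) x, S.Dζ h (n + 1) x⟫) =
      ∫ x, wt P.lam' x₀ r x * (((S.f (n + 1) x - S.fa h (n + 1) x) / h -
        (g P.p (S.z (n + 1) x) - S.Γ h (n + 1) x) / h -
        (S.ζt h (n + 1) x - S.ζt h n x) / S.δ) * w x) :=
  m10_test (S.hζ h (n + 1)).2.1 (fun _ _ hψ => S.avg_eqn hh n hψ) hw x₀ hr
end Sol

end Pool.Agent.H15.Hx
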