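import Pool.Agent.H15.Hx.M04_Hardy
import Pool.Agent.H15.Hx.M10_AvgEq

/-! M11: the weighted energy inequality and the first estimates. -/

set_option autoImplicit false

open MeasureTheory Set Filter Topology
open scoped RealInnerProductSpace
open Pool.Agent.H25.HX (E g Tst H10)

noncomputable section

namespace Pool.Agent.H15.Hx

section m11aux
variable {P : Par} {x₀ : E P.N} {r : ℝ}

theorem m11_inner_int {a b : E P.N → E P.N} (ha : MemLp a 2 volume) (hb : MemLp b 2 volume) :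
    Integrable (fun x => ⟪a x, b x⟫) := by
  refine Integrable.mono' ((Sol.vsq_int ha).add (Sol.vsq_int hb)) (ha.1.inner hb.1) ?_
  filter_upwards with x
  have h1 := norm_inner_le_norm (𝕜 := ℝ) (a x) (b x)
  have h2 := sq_nonneg (‖a x‖ - ‖b x‖)
  have h3 := sq_nonneg ‖a x‖
  have h4 := sq_nonneg ‖b x‖
  simp only [Pi.add_apply]
  nlinarith

theorem m11_div {w : E P.N → ℝ} (hw : MemLp w 2 volume) (c : ℝ) :
    MemLp (fun x => w x / c) 2 volume := by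
  have h := hw.const_mul c⁻¹
  refine (memLp_congr_ae (ae_of_all _ fun x => ?_)).1 h
  simp only [div_eq_inv_mul]

theorem m11_inner_ge {u v w : E P.N} {δ : ℝ} (hδ : 0 < δ) (h : u = v + δ • w) :
    (‖u‖ ^ 2 - ‖v‖ ^ 2) / (2 * δ) ≤ ⟪u, w⟫ := by
  have e : w = δ⁻¹ • (u - v) := by
    rw [h]
    simp [smul_smul, inv_mul_cancel₀ hδ.ne']
  rw [e, real_inner_smul_right, inner_sub_right, real_inner_self_eq_norm_sq]
  have h1 : ⟪u, v⟫ ≤ ‖u‖ * ‖v‖ := real_inner_le_norm u v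
  have h2 := sq_nonneg (‖u‖ - ‖v‖)
  rw [div_le_iff₀ (by positivity)]
  have h3 : δ⁻¹ * (‖u‖ ^ 2 - ⟪u, v⟫) * (2 * δ) = 2 * (‖u‖ ^ 2 - ⟪u, v⟫) := by
    field_simp
  rw [h3]
  nlinarith

theorem m11_expo (P : Par) : (P.lam' * (1 - 1 / P.p) + 1) * P.q = P.lam' + P.q := by
  have h := P.holder.inv_add_inv_eq_one
  have hq := b3_pos_q P
  have h1 : 1 - 1 / P.p = P.q⁻¹ := by
    rw [one_div]
    linarith
  rw [h1, add_mul, one_mul, mul_assoc, inv_mul_cancel₀ hq.ne', mul_one]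

/-- the flux term, pointwise -/
theorem m11_flux {C1 : ℝ}
    (hY : ∀ a b : ℝ, |a| * |b| ≤ 1 / 4 * |a| ^ P.p + C1 * |b| ^ P.q) (hr : 0 < r) (z : ℝ)
    (V : E P.N) (x : E P.N) :
    |z| * (‖gradient (wt P.lam' x₀ r) x‖ * ‖V‖) ≤
      1 / 4 * (wt P.lam' x₀ r x * |z| ^ P.p) +
        C1 * P.lam' ^ P.q * (r ^ (-P.q) * (wt (P.lam' + P.q) x₀ r x * ‖V‖ ^ P.q)) := by
  have hl := P.lam'_pos
  have hG := wt_pos (b := P.lam') (x₀ := x₀) (r := r) x
  have hp := b3_pos_p P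
  have hq := b3_pos_q P
  have h1 := wt_grad_le (b := P.lam') (x₀ := x₀) hl.le hr x
  have h2 : ‖gradient (wt P.lam' x₀ r) x‖ * ‖V‖ ≤
      P.lam' / r * wt (P.lam' + 1) x₀ r x * ‖V‖ :=
    mul_le_mul_of_nonneg_right h1 (norm_nonneg _)
  have h3 := mul_le_mul_of_nonneg_left h2 (abs_nonneg z)
  refine h3.trans ?_
  have hy := hY (wt (P.lam' / P.p) x₀ r x * |z|)
    (wt (-(P.lam' / P.p)) x₀ r x * (P.lam' / r * wt (P.lam' + 1) x₀ r x * ‖V‖))
  have w1 := wt_pos (b := P.lam' / P.p) (x₀ := x₀) (r := r) x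
  have w2 := wt_pos (b := -(P.lam' / P.p)) (x₀ := x₀) (r := r) x
  have w3 := wt_pos (b := P.lam' + 1) (x₀ := x₀) (r := r) x
  have hb0 : 0 ≤ P.lam' / r * wt (P.lam' + 1) x₀ r x * ‖V‖ := by positivity
  rw [abs_of_nonneg (mul_nonneg w1.le (abs_nonneg z)), abs_of_nonneg (mul_nonneg w2.le hb0)] at hy
  have e0 : wt (P.lam' / P.p) x₀ r x * wt (-(P.lam' / P.p)) x₀ r x = 1 := by
    rw [wt_mul, add_neg_cancel]
    simp [wt]
  have e1 : (wt (P.lam' / P.p) x₀ r x * |z|) ^ P.p = wt P.lam' x₀ r x * |z| ^ P.p := by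
    rw [Real.mul_rpow w1.le (abs_nonneg z), wt_rpow, div_mul_cancel₀ _ hp.ne']
  have e2 : (wt (-(P.lam' / P.p)) x₀ r x * (P.lam' / r * wt (P.lam' + 1) x₀ r x * ‖V‖)) ^ P.q =
      P.lam' ^ P.q * (r ^ (-P.q) * (wt (P.lam' + P.q) x₀ r x * ‖V‖ ^ P.q)) := by
    have e3 : wt (-(P.lam' / P.p)) x₀ r x * (P.lam' / r * wt (P.lam' + 1) x₀ r x * ‖V‖) =
        P.lam' * (r⁻¹ * (wt (P.lam' * (1 - 1 / P.p) + 1) x₀ r x * ‖V‖)) := by
      have e4 : wt (P.lam' * (1 - 1 / P.p) + 1) x₀ r x =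
          wt (-(P.lam' / P.p)) x₀ r x * wt (P.lam' + 1) x₀ r x := by
        rw [wt_mul]
        congr 1
        ring
      rw [e4]
      ring
    have w4 := wt_pos (b := P.lam' * (1 - 1 / P.p) + 1) (x₀ := x₀) (r := r) x
    rw [e3, Real.mul_rpow hl.le (by positivity), Real.mul_rpow (by positivity) (by positivity),
      Real.mul_rpow w4.le (norm_nonneg _), wt_rpow, m11_expo, Real.inv_rpow hr.le,
      Real.rpow_neg hr.le]
  rw [e1, e2] at hy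
  calc |z| * (P.lam' / r * wt (P.lam' + 1) x₀ r x * ‖V‖)
      = (wt (P.lam' / P.p) x₀ r x * wt (-(P.lam' / P.p)) x₀ r x) *
          (|z| * (P.lam' / r * wt (P.lam' + 1) x₀ r x * ‖V‖)) := by rw [e0, one_mul]
    _ = (wt (P.lam' / P.p) x₀ r x * |z|) *
          (wt (-(P.lam' / P.p)) x₀ r x * (P.lam' / r * wt (P.lam' + 1) x₀ r x * ‖V‖)) := by ring
    _ ≤ _ := hy
    _ = _ := by ring

end m11aux

/-- weighted energy inequality (test with `G z`) -/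
theorem energy_step (P : Par) : ∃ C : ℝ, 0 < C ∧ ∀ (Ω : Set (E P.N)) (R : ℝ),
    Ω ⊆ Metric.ball 0 R → ∀ (S : Sol P Ω) (n : ℕ) (x₀ : E P.N) (r : ℝ), 0 < r →
    S.Eg (n + 1) x₀ r + S.δ * I0 P x₀ r (fun x => |S.z (n + 1) x| ^ P.p) ≤
      S.Eg n x₀ r + C * S.δ * (I0 P x₀ r (fun x => |S.f (n + 1) x| ^ P.q) +
        (r ^ P.lam) ^ (1 - P.q / 2) * (S.Eg (n + 1) x₀ r) ^ (P.q / 2)) := by
  obtain ⟨C1, hC1, hY⟩ := young_p P (ε := 1 / 4) (by norm_num)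
  obtain ⟨C2, hC2, hH⟩ := holder_q P
  have hl := P.lam'_pos
  have hLq : 0 < P.lam' ^ P.q := Real.rpow_pos_of_pos hl _
  refine ⟨2 * C1 + 2 * C1 * P.lam' ^ P.q * C2, by positivity, ?_⟩
  intro Ω R hΩ S n x₀ r hr
  have hδ := S.δ_pos
  have key := S.testG n (S.hz (n + 1)) x₀ hr
  have hDu1 := (S.hu (n + 1)).2.1
  have hDu0 := (S.hu n).2.1
  have hz1 := (S.hz (n + 1)).1
  have hz0 := (S.hz n).1
  have hDz1 := (S.hz (n + 1)).2.1
  obtain ⟨hQi, hQ⟩ := hH x₀ r hr (S.Du (n + 1)) hDu1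
  have hPi := wt_int (x₀ := x₀) (r := r) (b3_l0 P) (S.zp (n + 1))
  have hFi := wt_int (x₀ := x₀) (r := r) (b3_l0 P) (S.fq (n + 1) hΩ)
  -- names for the integrals
  set U1 := ∫ x, wt P.lam' x₀ r x * ‖S.Du (n + 1) x‖ ^ 2 with hU1
  set U0 := ∫ x, wt P.lam' x₀ r x * ‖S.Du n x‖ ^ 2 with hU0
  set Z1 := ∫ x, wt P.lam' x₀ r x * S.z (n + 1) x ^ 2 with hZ1
  set Z0 := ∫ x, wt P.lam' x₀ r x * S.z n x ^ 2 with hZ0
  set PP := ∫ x, wt P.lam' x₀ r x * |S.z (n + 1) x| ^ P.p with hPP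
  set FQ := ∫ x, wt P.lam' x₀ r x * |S.f (n + 1) x| ^ P.q with hFQ
  set DQ := ∫ x, wt (P.lam' + P.q) x₀ r x * ‖S.Du (n + 1) x‖ ^ P.q with hDQ
  have iU1 := wt_int (x₀ := x₀) (r := r) (b3_l0 P) (Sol.vsq_int hDu1)
  have iU0 := wt_int (x₀ := x₀) (r := r) (b3_l0 P) (Sol.vsq_int hDu0)
  have iZ1 := wt_int (x₀ := x₀) (r := r) (b3_l0 P) (Sol.sq_int hz1)
  have iZ0 := wt_int (x₀ := x₀) (r := r) (b3_l0 P) (Sol.sq_int hz0)
  have eE1 : S.Eg (n + 1) x₀ r = U1 + Z1 := by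
    unfold Sol.Eg
    rw [I0_add (Sol.vsq_int hDu1) (Sol.sq_int hz1)]
    rfl
  have eE0 : S.Eg n x₀ r = U0 + Z0 := by
    unfold Sol.Eg
    rw [I0_add (Sol.vsq_int hDu0) (Sol.sq_int hz0)]
    rfl
  -- first term
  have t1 : (U1 - U0) / (2 * S.δ) ≤ ∫ x, wt P.lam' x₀ r x * ⟪S.Du (n + 1) x, S.Dz (n + 1) x⟫ := by
    have iU : Integrable (fun x => (wt P.lam' x₀ r x * ‖S.Du (n + 1) x‖ ^ 2 -
        wt P.lam' x₀ r x * ‖S.Du n x‖ ^ 2) / (2 * S.δ)) := (iU1.sub iU0).div_const _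
    rw [hU1, hU0, ← integral_sub iU1 iU0, ← integral_div]
    refine integral_mono iU
      (wt_int (b3_l0 P) (m11_inner_int hDu1 hDz1)) fun x => ?_
    have h1 := m11_inner_ge hδ (S.Du_succ n x)
    have h2 := mul_le_mul_of_nonneg_left h1 (wt_pos (b := P.lam') (x₀ := x₀) (r := r) x).le
    calc _ = _ := by ring
      _ ≤ _ := h2
  -- flux
  have t2 : |∫ x, S.z (n + 1) x * ⟪gradient (wt P.lam' x₀ r) x, S.Du (n + 1) x⟫| ≤
      1 / 4 * PP + C1 * P.lam' ^ P.q * (r ^ (-P.q) * DQ) := by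
    have h1 : 1 / 4 * PP + C1 * P.lam' ^ P.q * (r ^ (-P.q) * DQ) =
        ∫ x, (1 / 4 * (wt P.lam' x₀ r x * |S.z (n + 1) x| ^ P.p) + C1 * P.lam' ^ P.q *
          (r ^ (-P.q) * (wt (P.lam' + P.q) x₀ r x * ‖S.Du (n + 1) x‖ ^ P.q))) := by
      rw [integral_add (hPi.const_mul _) ((hQi.const_mul _).const_mul _), integral_const_mul,
        integral_const_mul, integral_const_mul]
    rw [h1, ← Real.norm_eq_abs]
    refine norm_integral_le_of_norm_le ((hPi.const_mul _).add ((hQi.const_mul _).const_mul _))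
      (ae_of_all _ fun x => ?_)
    refine le_trans ?_ (m11_flux hY hr (S.z (n + 1) x) (S.Du (n + 1) x) x)
    rw [norm_mul, Real.norm_eq_abs]
    exact mul_le_mul_of_nonneg_left (norm_inner_le_norm _ _) (abs_nonneg _)
  -- right side
  have iA : Integrable (fun x => 1 / 4 * (wt P.lam' x₀ r x * |S.z (n + 1) x| ^ P.p)) :=
    hPi.const_mul _
  have iB : Integrable (fun x => C1 * (wt P.lam' x₀ r x * |S.f (n + 1) x| ^ P.q)) :=
    hFi.const_mul _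
  have iAB : Integrable (fun x => 1 / 4 * (wt P.lam' x₀ r x * |S.z (n + 1) x| ^ P.p) +
      C1 * (wt P.lam' x₀ r x * |S.f (n + 1) x| ^ P.q)) := iA.add iB
  have iABP : Integrable (fun x => 1 / 4 * (wt P.lam' x₀ r x * |S.z (n + 1) x| ^ P.p) +
      C1 * (wt P.lam' x₀ r x * |S.f (n + 1) x| ^ P.q) -
        wt P.lam' x₀ r x * |S.z (n + 1) x| ^ P.p) := iAB.sub hPi
  have iZZ : Integrable (fun x => wt P.lam' x₀ r x * S.z (n + 1) x ^ 2 -
      wt P.lam' x₀ r x * S.z n x ^ 2) := iZ1.sub iZ0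
  have iZD : Integrable (fun x => (wt P.lam' x₀ r x * S.z (n + 1) x ^ 2 -
      wt P.lam' x₀ r x * S.z n x ^ 2) / (2 * S.δ)) := iZZ.div_const _
  have t3 : ∫ x, wt P.lam' x₀ r x * ((S.f (n + 1) x - g P.p (S.z (n + 1) x) -
      (S.z (n + 1) x - S.z n x) / S.δ) * S.z (n + 1) x) ≤
      1 / 4 * PP + C1 * FQ - PP - (Z1 - Z0) / (2 * S.δ) := by
    have h1 : 1 / 4 * PP + C1 * FQ - PP - (Z1 - Z0) / (2 * S.δ) =
        ∫ x, (1 / 4 * (wt P.lam' x₀ r x * |S.z (n + 1) x| ^ P.p) +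
          C1 * (wt P.lam' x₀ r x * |S.f (n + 1) x| ^ P.q) -
          wt P.lam' x₀ r x * |S.z (n + 1) x| ^ P.p -
          (wt P.lam' x₀ r x * S.z (n + 1) x ^ 2 - wt P.lam' x₀ r x * S.z n x ^ 2) /
            (2 * S.δ)) := by
      rw [integral_sub iABP iZD, integral_sub iAB hPi,
        integral_add iA iB, integral_const_mul, integral_const_mul,
        integral_div, integral_sub iZ1 iZ0]
    rw [h1]
    refine integral_mono (wt_int (b3_l0 P) (Sol.mul_int (((S.hf (n + 1)).sub (S.hg (n + 1))).sub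
      (m11_div (hz1.sub hz0) S.δ)) hz1)) (iABP.sub iZD)
      fun x => ?_
    have hG := wt_pos (b := P.lam') (x₀ := x₀) (r := r) x
    have y1 := hY (S.z (n + 1) x) (S.f (n + 1) x)
    have y2 : S.f (n + 1) x * S.z (n + 1) x ≤ |S.z (n + 1) x| * |S.f (n + 1) x| := by
      rw [← abs_mul, mul_comm]
      exact le_abs_self _
    have y3 := g_mul_self (P := P) (S.z (n + 1) x)
    have y4 : (S.z (n + 1) x ^ 2 - S.z n x ^ 2) / (2 * S.δ) ≤
        (S.z (n + 1) x - S.z n x) / S.δ * S.z (n + 1) x := by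
      rw [div_mul_eq_mul_div, div_le_div_iff₀ (by positivity) hδ]
      nlinarith [sq_nonneg (S.z (n + 1) x - S.z n x)]
    have y5 : (S.f (n + 1) x - g P.p (S.z (n + 1) x) - (S.z (n + 1) x - S.z n x) / S.δ) *
        S.z (n + 1) x ≤ 1 / 4 * |S.z (n + 1) x| ^ P.p + C1 * |S.f (n + 1) x| ^ P.q -
          |S.z (n + 1) x| ^ P.p - (S.z (n + 1) x ^ 2 - S.z n x ^ 2) / (2 * S.δ) := by
      rw [sub_mul, sub_mul, y3]
      linarith
    calc _ ≤ _ := mul_le_mul_of_nonneg_left y5 hG.le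
      _ = _ := by ring
  have t2' := (abs_le.1 t2).1
  have hmain : (U1 - U0) / (2 * S.δ) ≤ 1 / 4 * PP + C1 * FQ - PP - (Z1 - Z0) / (2 * S.δ) +
      (1 / 4 * PP + C1 * P.lam' ^ P.q * (r ^ (-P.q) * DQ)) := by linarith
  have hE1n : 0 ≤ Z1 := integral_nonneg fun x => mul_nonneg (wt_pos x).le (sq_nonneg _)
  have hU1n : 0 ≤ U1 := integral_nonneg fun x => mul_nonneg (wt_pos x).le (sq_nonneg _)
  have hFQn : 0 ≤ FQ := integral_nonneg fun x => mul_nonneg (wt_pos x).le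
    (Real.rpow_nonneg (abs_nonneg _) _)
  have hQ2 : r ^ (-P.q) * DQ ≤ C2 * ((r ^ P.lam) ^ (1 - P.q / 2) * (U1 + Z1) ^ (P.q / 2)) := by
    refine hQ.trans ?_
    rw [mul_assoc]
    refine mul_le_mul_of_nonneg_left (mul_le_mul_of_nonneg_left ?_
      (Real.rpow_nonneg (Real.rpow_nonneg hr.le _) _)) hC2.le
    refine Real.rpow_le_rpow hU1n ?_ (by have := b3_pos_q P; positivity)
    change U1 ≤ U1 + Z1
    linarith
  rw [eE1, eE0]
  change U1 + Z1 + S.δ * PP ≤ U0 + Z0 + (2 * C1 + 2 * C1 * P.lam' ^ P.q * C2) * S.δ *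
    (FQ + (r ^ P.lam) ^ (1 - P.q / 2) * (U1 + Z1) ^ (P.q / 2))
  set T := (r ^ P.lam) ^ (1 - P.q / 2) * (U1 + Z1) ^ (P.q / 2) with hT
  have hT0 : 0 ≤ T := by positivity
  have h5 : U1 + Z1 + S.δ * PP ≤ U0 + Z0 + 2 * S.δ * (C1 * FQ +
      C1 * P.lam' ^ P.q * (r ^ (-P.q) * DQ)) := by
    have h6 := mul_le_mul_of_nonneg_left hmain (by positivity : 0 ≤ 2 * S.δ)
    have h7 : 2 * S.δ * ((U1 - U0) / (2 * S.δ)) = U1 - U0 := by field_simp
    have h8 : 2 * S.δ * (1 / 4 * PP + C1 * FQ - PP - (Z1 - Z0) / (2 * S.δ) +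
      (1 / 4 * PP + C1 * P.lam' ^ P.q * (r ^ (-P.q) * DQ))) =
        -(S.δ * PP) - (Z1 - Z0) + 2 * S.δ * (C1 * FQ +
      C1 * P.lam' ^ P.q * (r ^ (-P.q) * DQ)) := by
      field_simp
      ring
    rw [h7, h8] at h6
    linarith
  have h9 : C1 * P.lam' ^ P.q * (r ^ (-P.q) * DQ) ≤ C1 * P.lam' ^ P.q * (C2 * T) :=
    mul_le_mul_of_nonneg_left hQ2 (by positivity)
  have h10 : 2 * S.δ * (C1 * FQ + C1 * P.lam' ^ P.q * (r ^ (-P.q) * DQ)) ≤
      2 * S.δ * (C1 * FQ + C1 * P.lam' ^ P.q * (C2 * T)) :=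
    mul_le_mul_of_nonneg_left (by linarith) (by positivity)
  have h11 : (2 * C1 + 2 * C1 * P.lam' ^ P.q * C2) * S.δ * (FQ + T) =
      2 * S.δ * (C1 * FQ + C1 * P.lam' ^ P.q * (C2 * T)) +
        S.δ * (2 * C1 * T + 2 * C1 * P.lam' ^ P.q * C2 * FQ) := by ring
  have h12 : 0 ≤ S.δ * (2 * C1 * T + 2 * C1 * P.lam' ^ P.q * C2 * FQ) := by positivity
  linarith

section m11h
variable {P : Par} {Ω : Set (E P.N)} {S : Sol P Ω} {R : ℝ} {n1 : ℕ} {τ A εf : ℝ} {X : ℕ → ℝ}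

theorem m11_X_nonneg (H : Hyp S R n1 τ A εf X) : ∀ n ≤ n1, 0 ≤ X n := fun n hn =>
  (Real.rpow_nonneg (by linarith [H.τ1]) _).trans (H.X_lb n hn)

theorem m11_avg_X (H : Hyp S R n1 τ A εf X) {n : ℕ} (hn : n ≤ n1) {c ρ : ℝ} (hc : 0 ≤ c)
    (hρ : 0 ≤ ρ) : avg S.δ τ (fun m => c * X m * ρ) n ≤ 2 * c * X n * ρ := by
  have hτ : 0 < τ := by linarith [H.τ1]
  have h1 := avg_slow_le S.δ_pos hτ (B := A * τ) (by nlinarith [H.hA]) (m11_X_nonneg H)
    H.X_slow n hn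
  have e : (fun m => c * X m * ρ) = fun m => (c * ρ) * X m := by
    funext m
    ring
  rw [e, avg_mul_left]
  calc _ ≤ c * ρ * (2 * X n) := mul_le_mul_of_nonneg_left h1 (by positivity)
    _ = _ := by ring

theorem m11_avg2 (S : Sol P Ω) {h : ℝ} (hh : 0 < h) (hτ : 2 * h ≤ τ) {n : ℕ}
    {q : ℕ → ℝ} (hq : ∀ m, 0 ≤ q m) {c : ℝ} (hc : avg S.δ τ q n ≤ c) :
    avg S.δ τ (fun m => avg S.δ h q m) n ≤ 2 * c := by
  have h1 := avg_avg_le (n := n) S.δ_pos hh hτ (q := q) (fun m _ _ => hq m)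
  have e : (fun m => avg S.δ h q m) = avg S.δ h q := rfl
  rw [e]
  linarith
end m11h

theorem est1 (P : Par) : ∃ C : ℝ, 0 < C ∧ ∀ (Ω : Set (E P.N)) (S : Sol P Ω) (R : ℝ) (n1 : ℕ)
    (τ A εf : ℝ) (X : ℕ → ℝ), Hyp S R n1 τ A εf X → ∀ n ≤ n1, ∀ x₀ r, Adm R x₀ r →
    avg S.δ τ (fun m => I0 P x₀ r (fun x => |S.z m x| ^ P.p)) n ≤ C * X n * r ^ P.lam ∧
    avg S.δ τ (fun m => I2 P x₀ r (fun x => S.z m x ^ 2)) n ≤ C * (X n / τ) * r ^ P.lam ∧
    avg S.δ τ (fun m => I0 P x₀ r (fun x => |S.f m x| ^ P.q)) n ≤ 2 * εf * X n * r ^ P.lam := by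
  obtain ⟨C0, hC0, hE⟩ := energy_step P
  obtain ⟨C2, hC2, hH⟩ := holder_two P
  set C1 : ℝ := 2 + 4 * C0 with hC1d
  have hC1 : 0 < C1 := by positivity
  set C3 : ℝ := C2 * C1 ^ (2 / P.p) with hC3d
  have hC3 : 0 < C3 := mul_pos hC2 (Real.rpow_pos_of_pos hC1 _)
  refine ⟨C1 + C3, by positivity, ?_⟩
  intro Ω S R n1 τ A εf X H n hn x₀ r hA
  have hr : 0 < r := hA.2.1
  have hτ1 := H.τ1
  have hτ : 0 < τ := by linarith
  have hδ := S.δ_pos
  have hX := m11_X_nonneg H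
  have hrl : 0 < r ^ P.lam := Real.rpow_pos_of_pos hr _
  have hp := b3_pos_p P
  -- part 1
  have p1 : avg S.δ τ (fun m => I0 P x₀ r (fun x => |S.z m x| ^ P.p)) n ≤
      C1 * X n * r ^ P.lam := by
    have hstep : ∀ m < n1, (S.Eg (m + 1) x₀ r - S.Eg m x₀ r) / S.δ +
        I0 P x₀ r (fun x => |S.z (m + 1) x| ^ P.p) ≤ 2 * C0 * X (m + 1) * r ^ P.lam := by
      intro m hm
      have h1 := hE Ω R H.hΩ S m x₀ r hr
      have hm1 : m + 1 ≤ n1 := hm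
      have h2 := H.fK (m + 1) hm1 x₀ r hA
      have h3 := H.eK (m + 1) hm1 x₀ r hA
      have hXm := hX (m + 1) hm1
      have h4 : (r ^ P.lam) ^ (1 - P.q / 2) * (S.Eg (m + 1) x₀ r) ^ (P.q / 2) ≤
          X (m + 1) * r ^ P.lam := by
        have h5 : (S.Eg (m + 1) x₀ r) ^ (P.q / 2) ≤ (τ * X (m + 1) * r ^ P.lam) ^ (P.q / 2) :=
          Real.rpow_le_rpow (S.Eg_nonneg (m + 1) x₀ r) h3 (by have := b3_pos_q P; positivity)
        rw [Real.mul_rpow (by positivity) hrl.le] at h5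
        have h6 := Par.tauX_half_q (P := P) hτ1 (H.X_lb (m + 1) hm1)
        calc _ ≤ (r ^ P.lam) ^ (1 - P.q / 2) *
              ((τ * X (m + 1)) ^ (P.q / 2) * (r ^ P.lam) ^ (P.q / 2)) :=
              mul_le_mul_of_nonneg_left h5 (Real.rpow_nonneg hrl.le _)
          _ = (τ * X (m + 1)) ^ (P.q / 2) *
                ((r ^ P.lam) ^ (1 - P.q / 2) * (r ^ P.lam) ^ (P.q / 2)) := by ring
          _ = (τ * X (m + 1)) ^ (P.q / 2) * r ^ P.lam := by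
              rw [← Real.rpow_add hrl, sub_add_cancel, Real.rpow_one]
          _ ≤ _ := mul_le_mul_of_nonneg_right h6 hrl.le
      have h7 : I0 P x₀ r (fun x => |S.f (m + 1) x| ^ P.q) ≤ X (m + 1) * r ^ P.lam := by
        refine h2.trans ?_
        have : εf * X (m + 1) ≤ 1 * X (m + 1) := mul_le_mul_of_nonneg_right H.εf1 hXm
        rw [one_mul] at this
        exact mul_le_mul_of_nonneg_right this hrl.le
      have h8 : C0 * S.δ * (I0 P x₀ r (fun x => |S.f (m + 1) x| ^ P.q) +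
          (r ^ P.lam) ^ (1 - P.q / 2) * (S.Eg (m + 1) x₀ r) ^ (P.q / 2)) ≤
          C0 * S.δ * (2 * (X (m + 1) * r ^ P.lam)) :=
        mul_le_mul_of_nonneg_left (by linarith) (by positivity)
      have h9 : (S.Eg (m + 1) x₀ r - S.Eg m x₀ r) / S.δ =
          (S.Eg (m + 1) x₀ r - S.Eg m x₀ r) * S.δ⁻¹ := div_eq_mul_inv _ _
      have h10 : S.Eg (m + 1) x₀ r - S.Eg m x₀ r ≤
          (2 * C0 * X (m + 1) * r ^ P.lam - I0 P x₀ r (fun x => |S.z (m + 1) x| ^ P.p)) *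
            S.δ := by linarith
      have h11 := (div_le_iff₀ hδ).2 h10
      linarith
    have h1 := avg_ineq hδ hτ (Y := fun m => S.Eg m x₀ r)
      (A := fun m => I0 P x₀ r (fun x => |S.z m x| ^ P.p))
      (B := fun m => 2 * C0 * X m * r ^ P.lam) (S.Eg_zero x₀ r) hstep n hn
    have h2 : avg S.δ τ (fun m => S.Eg m x₀ r) n ≤ 2 * τ * X n * r ^ P.lam :=
      (avg_mono hδ hτ fun m _ hm => H.eK m (hm.trans hn) x₀ r hA).trans
        (m11_avg_X H hn hτ.le hrl.le)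
    have h3 := m11_avg_X H hn (c := 2 * C0) (by positivity) hrl.le
    have h4 := S.Eg_nonneg n x₀ r
    have h5 : τ * avg S.δ τ (fun m => 2 * C0 * X m * r ^ P.lam) n ≤
        τ * (2 * (2 * C0) * X n * r ^ P.lam) := mul_le_mul_of_nonneg_left h3 hτ.le
    have h6 : τ * avg S.δ τ (fun m => I0 P x₀ r (fun x => |S.z m x| ^ P.p)) n ≤
        τ * (C1 * X n * r ^ P.lam) := by
      have e : τ * (C1 * X n * r ^ P.lam) = 2 * τ * X n * r ^ P.lam +
          τ * (2 * (2 * C0) * X n * r ^ P.lam) := by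
        rw [hC1d]
        ring
      rw [e]
      linarith
    exact le_of_mul_le_mul_left h6 hτ
  have p2 : avg S.δ τ (fun m => I2 P x₀ r (fun x => S.z m x ^ 2)) n ≤
      C3 * (X n / τ) * r ^ P.lam := by
    have hI0 : ∀ m, 0 ≤ I0 P x₀ r (fun x => |S.z m x| ^ P.p) := fun m =>
      I0_nonneg fun x => Real.rpow_nonneg (abs_nonneg _) _
    have h1 : avg S.δ τ (fun m => I2 P x₀ r (fun x => S.z m x ^ 2)) n ≤
        avg S.δ τ (fun m => C2 * (r ^ P.lam) ^ (1 / P.s) *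
          (I0 P x₀ r (fun x => |S.z m x| ^ P.p)) ^ (2 / P.p)) n :=
      avg_mono hδ hτ fun m _ _ => hH x₀ r hr (S.z m) (S.hz m).1.1 (S.zp m)
    rw [avg_mul_left] at h1
    have h2p : 2 / P.p ≤ 1 := by
      rw [div_le_one hp]
      exact P.two_lt_p.le
    have h2 := avg_rpow_le (n := n) hδ hτ (r := 2 / P.p) (by positivity) h2p hI0
    have h3 : 0 ≤ avg S.δ τ (fun m => I0 P x₀ r (fun x => |S.z m x| ^ P.p)) n :=
      avg_nonneg hδ hτ fun m _ _ => hI0 m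
    have h4 := Real.rpow_le_rpow h3 p1 (by positivity : 0 ≤ 2 / P.p)
    have h5 : (C1 * X n * r ^ P.lam) ^ (2 / P.p) =
        C1 ^ (2 / P.p) * X n ^ (2 / P.p) * (r ^ P.lam) ^ (2 / P.p) := by
      rw [Real.mul_rpow (mul_nonneg hC1.le (hX n hn)) hrl.le, Real.mul_rpow hC1.le (hX n hn)]
    have h6 : X n ^ (2 / P.p) ≤ X n / τ := Par.X_two_p (P := P) hτ1 (H.X_lb n hn)
    have hc : 0 ≤ C2 * (r ^ P.lam) ^ (1 / P.s) := mul_nonneg hC2.le (Real.rpow_nonneg hrl.le _)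
    have h7 : (r ^ P.lam) ^ (1 / P.s) * (r ^ P.lam) ^ (2 / P.p) = r ^ P.lam := by
      rw [← Real.rpow_add hrl, P.inv_s, sub_add_cancel, Real.rpow_one]
    calc _ ≤ _ := h1
      _ ≤ C2 * (r ^ P.lam) ^ (1 / P.s) *
            (C1 ^ (2 / P.p) * X n ^ (2 / P.p) * (r ^ P.lam) ^ (2 / P.p)) :=
          mul_le_mul_of_nonneg_left (h2.trans (h4.trans h5.le)) hc
      _ = C3 * X n ^ (2 / P.p) * ((r ^ P.lam) ^ (1 / P.s) * (r ^ P.lam) ^ (2 / P.p)) := by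
          rw [hC3d]
          ring
      _ = C3 * X n ^ (2 / P.p) * r ^ P.lam := by rw [h7]
      _ ≤ _ := mul_le_mul_of_nonneg_right (mul_le_mul_of_nonneg_left h6 hC3.le) hrl.le
  have hXn := hX n hn
  refine ⟨?_, ?_, ?_⟩
  · refine p1.trans ?_
    have : 0 ≤ C3 * X n * r ^ P.lam := by positivity
    linarith
  · refine p2.trans ?_
    have : 0 ≤ C1 * (X n / τ) * r ^ P.lam := by positivity
    linarith
  · exact (avg_mono hδ hτ fun m _ hm => H.fK m (hm.trans hn) x₀ r hA).trans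
        (m11_avg_X H hn H.εf0 hrl.le)

theorem est1b (P : Par) : ∃ C : ℝ, 0 < C ∧ ∀ (Ω : Set (E P.N)) (S : Sol P Ω) (R : ℝ) (n1 : ℕ)
    (τ A εf : ℝ) (X : ℕ → ℝ), Hyp S R n1 τ A εf X → ∀ h : ℝ, 0 < h → 2 * h ≤ τ →
    ∀ n ≤ n1, ∀ x₀ r, Adm R x₀ r →
    avg S.δ τ (fun m => I0 P x₀ r (S.Za h m)) n ≤ C * X n * r ^ P.lam ∧
    avg S.δ τ (fun m => I0 P x₀ r (fun x => |S.Γ h m x| ^ P.q)) n ≤ C * X n * r ^ P.lam ∧
    avg S.δ τ (fun m => I0 P x₀ r (fun x => |S.z m x - S.ζ h m x| ^ P.p)) n ≤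
      C * X n * r ^ P.lam ∧
    avg S.δ τ (fun m => I0 P x₀ r (fun x => |S.f m x - S.fa h m x| ^ P.q)) n ≤
      C * εf * X n * r ^ P.lam ∧
    avg S.δ τ (fun m => I2 P x₀ r (fun x => S.ζ h m x ^ 2)) n ≤ C * (X n / τ) * r ^ P.lam ∧
    avg S.δ τ (fun m => I2 P x₀ r (fun x => (S.z m x - S.ζ h m x) ^ 2)) n ≤
      C * (X n / τ) * r ^ P.lam := by
  obtain ⟨C1, hC1, hE⟩ := est1 P
  set Kp : ℝ := (2 : ℝ) ^ (P.p - 1) with hKp
  set Kq : ℝ := (2 : ℝ) ^ (P.q - 1) with hKq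
  have hKp0 : 0 < Kp := Real.rpow_pos_of_pos two_pos _
  have hKq0 : 0 < Kq := Real.rpow_pos_of_pos two_pos _
  refine ⟨6 * C1 + Kp * (3 * C1) + Kq * 6, by positivity, ?_⟩
  intro Ω S R n1 τ A εf X H h hh hhτ n hn x₀ r hA
  obtain ⟨a1, a2, a3⟩ := hE Ω S R n1 τ A εf X H n hn x₀ r hA
  have hr : 0 < r := hA.2.1
  have hτ1 := H.τ1
  have hτ : 0 < τ := by linarith
  have hδ := S.δ_pos
  have hXn := m11_X_nonneg H n hn
  have hrl : 0 < r ^ P.lam := Real.rpow_pos_of_pos hr _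
  have hεf := H.εf0
  have b1 : avg S.δ τ (fun m => I0 P x₀ r (S.Za h m)) n ≤ 2 * (C1 * X n * r ^ P.lam) := by
    have e : (fun m => I0 P x₀ r (S.Za h m)) =
        fun m => avg S.δ h (fun k => I0 P x₀ r (fun x => |S.z k x| ^ P.p)) m := by
      funext m
      exact I0_avg (w := fun k x => |S.z k x| ^ P.p) (fun k => S.zp k) m
    rw [e]
    exact m11_avg2 S hh hhτ (fun k => I0_nonneg fun x => Real.rpow_nonneg (abs_nonneg _) _) a1
  have b2 : avg S.δ τ (fun m => I0 P x₀ r (fun x => |S.Γ h m x| ^ P.q)) n ≤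
      2 * (C1 * X n * r ^ P.lam) := by
    refine (avg_mono hδ hτ fun m _ _ => ?_).trans b1
    exact I0_mono (S.Γq h m hh) (S.Za_int h m)
      (ae_of_all _ fun x => pt_ga P hδ hh (fun k => S.z k x) m)
  have b3 : avg S.δ τ (fun m => I0 P x₀ r (fun x => |S.z m x - S.ζ h m x| ^ P.p)) n ≤
      Kp * (3 * (C1 * X n * r ^ P.lam)) := by
    have h1 : avg S.δ τ (fun m => I0 P x₀ r (fun x => |S.z m x - S.ζ h m x| ^ P.p)) n ≤
        avg S.δ τ (fun m => Kp * (I0 P x₀ r (fun x => |S.z m x| ^ P.p) +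
          I0 P x₀ r (S.Za h m))) n := by
      refine avg_mono hδ hτ fun m _ _ => ?_
      rw [← I0_add (S.zp m) (S.Za_int h m), ← I0_mul]
      refine I0_mono (S.zζp h m hh) (((S.zp m).add (S.Za_int h m)).const_mul _)
        (ae_of_all _ fun x => ?_)
      have h2 := abs_sub_rpow (m := P.p) (by have := P.two_lt_p; linarith) (S.z m x) (S.ζ h m x)
      have h3 : |S.ζ h m x| ^ P.p ≤ S.Za h m x := pt_za P hδ hh (fun k => S.z k x) m
      exact h2.trans (mul_le_mul_of_nonneg_left (by linarith) hKp0.le)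
    rw [avg_mul_left, avg_add] at h1
    exact h1.trans (mul_le_mul_of_nonneg_left (by linarith) hKp0.le)
  have b4 : avg S.δ τ (fun m => I0 P x₀ r (fun x => |S.f m x - S.fa h m x| ^ P.q)) n ≤
      Kq * (3 * (2 * εf * X n * r ^ P.lam)) := by
    have e : ∀ m, I0 P x₀ r (fun x => avg S.δ h (fun k => |S.f k x| ^ P.q) m) =
        avg S.δ h (fun k => I0 P x₀ r (fun x => |S.f k x| ^ P.q)) m := fun m =>
      I0_avg (w := fun k x => |S.f k x| ^ P.q) (fun k => S.fq k H.hΩ) m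
    have hfai : ∀ m, Integrable (fun x => avg S.δ h (fun k => |S.f k x| ^ P.q) m) := fun m =>
      (b3_avg_int (fun k => S.fq k H.hΩ) m).1
    have h1 : avg S.δ τ (fun m => I0 P x₀ r (fun x => |S.f m x - S.fa h m x| ^ P.q)) n ≤
        avg S.δ τ (fun m => Kq * (I0 P x₀ r (fun x => |S.f m x| ^ P.q) +
          avg S.δ h (fun k => I0 P x₀ r (fun x => |S.f k x| ^ P.q)) m)) n := by
      refine avg_mono hδ hτ fun m _ _ => ?_
      rw [← e, ← I0_add (S.fq m H.hΩ) (hfai m), ← I0_mul]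
      refine I0_mono (S.ffaq h m hh H.hΩ) (((S.fq m H.hΩ).add (hfai m)).const_mul _)
        (ae_of_all _ fun x => ?_)
      have h2 := abs_sub_rpow (m := P.q) P.q_gt_one.le (S.f m x) (S.fa h m x)
      have h3 : |S.fa h m x| ^ P.q ≤ avg S.δ h (fun k => |S.f k x| ^ P.q) m :=
        abs_avg_rpow_le hδ hh P.q_gt_one.le _
      exact h2.trans (mul_le_mul_of_nonneg_left (by linarith) hKq0.le)
    rw [avg_mul_left, avg_add] at h1
    have h4 := m11_avg2 S hh hhτ (fun k => I0_nonneg (P := P) (x₀ := x₀) (r := r)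
      fun x => Real.rpow_nonneg (abs_nonneg (S.f k x)) P.q) a3
    exact h1.trans (mul_le_mul_of_nonneg_left (by linarith) hKq0.le)
  have b5 : avg S.δ τ (fun m => I2 P x₀ r (fun x => S.ζ h m x ^ 2)) n ≤
      2 * (C1 * (X n / τ) * r ^ P.lam) := by
    have e : ∀ m, I2 P x₀ r (fun x => avg S.δ h (fun k => S.z k x ^ 2) m) =
        avg S.δ h (fun k => I2 P x₀ r (fun x => S.z k x ^ 2)) m := fun m =>
      I2_avg (w := fun k x => S.z k x ^ 2) (fun k => Sol.sq_int (S.hz k).1) m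
    have hai : ∀ m, Integrable (fun x => avg S.δ h (fun k => S.z k x ^ 2) m) := fun m =>
      (b3_avg_int (fun k => Sol.sq_int (S.hz k).1) m).1
    have h4 := m11_avg2 S hh hhτ (fun k => I2_nonneg (P := P) (x₀ := x₀) (r := r)
      fun x => sq_nonneg (S.z k x)) a2
    refine (avg_mono hδ hτ fun m _ _ => ?_).trans h4
    rw [← e]
    exact I2_mono (Sol.sq_int (S.hζ h m).1) (hai m)
      (ae_of_all _ fun x => pt_za_sq hδ hh (fun k => S.z k x) m)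
  have b6 : avg S.δ τ (fun m => I2 P x₀ r (fun x => (S.z m x - S.ζ h m x) ^ 2)) n ≤
      6 * (C1 * (X n / τ) * r ^ P.lam) := by
    have h1 : avg S.δ τ (fun m => I2 P x₀ r (fun x => (S.z m x - S.ζ h m x) ^ 2)) n ≤
        avg S.δ τ (fun m => 2 * (I2 P x₀ r (fun x => S.z m x ^ 2) +
          I2 P x₀ r (fun x => S.ζ h m x ^ 2))) n := by
      refine avg_mono hδ hτ fun m _ _ => ?_
      have i1 := Sol.sq_int (S.hz m).1
      have i2 := Sol.sq_int (S.hζ h m).1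
      rw [← I2_add i1 i2, ← I2_mul]
      refine I2_mono (Sol.sq_int ((S.hz m).1.sub (S.hζ h m).1)) ((i1.add i2).const_mul _)
        (ae_of_all _ fun x => ?_)
      nlinarith [sq_nonneg (S.z m x + S.ζ h m x)]
    rw [avg_mul_left, avg_add] at h1
    linarith
  have hT : 0 ≤ X n * r ^ P.lam := by positivity
  have hT2 : 0 ≤ (X n / τ) * r ^ P.lam := by positivity
  have hT3 : 0 ≤ εf * X n * r ^ P.lam := by positivity
  refine ⟨b1.trans ?_, b2.trans ?_, b3.trans ?_, b4.trans ?_, b5.trans ?_, b6.trans ?_⟩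
  · have : 0 ≤ (4 * C1 + Kp * (3 * C1) + Kq * 6) * (X n * r ^ P.lam) := by positivity
    linarith
  · have : 0 ≤ (4 * C1 + Kp * (3 * C1) + Kq * 6) * (X n * r ^ P.lam) := by positivity
    linarith
  · have : 0 ≤ (6 * C1 + Kq * 6) * (X n * r ^ P.lam) := by positivity
    linarith
  · have : 0 ≤ (6 * C1 + Kp * (3 * C1)) * (εf * X n * r ^ P.lam) := by positivity
    linarith
  · have : 0 ≤ (4 * C1 + Kp * (3 * C1) + Kq * 6) * ((X n / τ) * r ^ P.lam) := by positivity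
    linarith
  · have : 0 ≤ (Kp * (3 * C1) + Kq * 6) * ((X n / τ) * r ^ P.lam) := by positivity
    linarith

/-- versions with `I0` (losing `R²`), and with the index shifted -/
theorem est1c (P : Par) : ∃ C : ℝ, 0 < C ∧ ∀ (Ω : Set (E P.N)) (S : Sol P Ω) (R : ℝ) (n1 : ℕ)
    (τ A εf : ℝ) (X : ℕ → ℝ), Hyp S R n1 τ A εf X → ∀ h : ℝ, 0 < h → 2 * h ≤ τ →
    ∀ n ≤ n1, ∀ x₀ r, Adm R x₀ r →
    avg S.δ τ (fun m => I0 P x₀ r (fun x => S.z m x ^ 2)) n ≤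
      C * R ^ 2 * (X n / τ) * r ^ P.lam ∧
    avg S.δ τ (fun m => I0 P x₀ r (fun x => S.ζ h m x ^ 2)) n ≤
      C * R ^ 2 * (X n / τ) * r ^ P.lam ∧
    avg S.δ τ (fun m => I0 P x₀ r (fun x => S.ζt h m x ^ 2)) n ≤
      C * R ^ 2 / h ^ 2 * (X n / τ) * r ^ P.lam ∧
    avg S.δ τ (fun m => I0 P x₀ r (fun x => |S.ζt h (m - 1) x| * |S.ζt h m x|)) n ≤
      C * R ^ 2 / h ^ 2 * (X n / τ) * r ^ P.lam ∧
    avg S.δ τ (fun m => I0 P x₀ r (fun x => |S.z (m - 1) x| * |S.z m x|)) n ≤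
      C * R ^ 2 * (X n / τ) * r ^ P.lam := by
  obtain ⟨C1, hC1, hE1⟩ := est1 P
  obtain ⟨C2, hC2, hE2⟩ := est1b P
  refine ⟨10 * (C1 + C2), by positivity, ?_⟩
  intro Ω S R n1 τ A εf X H h hh hhτ n hn x₀ r hA
  obtain ⟨-, a2, -⟩ := hE1 Ω S R n1 τ A εf X H n hn x₀ r hA
  obtain ⟨-, -, -, -, b5, b6⟩ := hE2 Ω S R n1 τ A εf X H h hh hhτ n hn x₀ r hA
  have hr : 0 < r := hA.2.1
  have hR : 0 < R := lt_of_lt_of_le hr hA.2.2
  have hτ1 := H.τ1
  have hτ : 0 < τ := by linarith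
  have hδ := S.δ_pos
  have hXn := m11_X_nonneg H n hn
  have hrl : 0 < r ^ P.lam := Real.rpow_pos_of_pos hr _
  have hT : 0 ≤ (X n / τ) * r ^ P.lam := by positivity
  have off : ∀ w : E P.N → ℝ, Sol.Off (P := P) Ω w →
      ∀ᵐ x, x ∉ Metric.ball (0 : E P.N) R → w x = 0 := by
    intro w hw
    filter_upwards [hw] with x hx hx2
    exact hx fun h => hx2 (H.hΩ h)
  -- passage from `I2` to `I0`
  have key : ∀ (w : ℕ → E P.N → ℝ), (∀ m, MemLp (w m) 2 volume) →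
      (∀ m, Sol.Off (P := P) Ω (w m)) → ∀ c : ℝ,
      avg S.δ τ (fun m => I2 P x₀ r (fun x => w m x ^ 2)) n ≤ c →
      avg S.δ τ (fun m => I0 P x₀ r (fun x => w m x ^ 2)) n ≤ 5 * R ^ 2 * c := by
    intro w hw ho c hc
    have h1 : avg S.δ τ (fun m => I0 P x₀ r (fun x => w m x ^ 2)) n ≤
        avg S.δ τ (fun m => 5 * R ^ 2 * I2 P x₀ r (fun x => w m x ^ 2)) n := by
      refine avg_mono hδ hτ fun m _ _ => I0_le_I2 hA (Sol.sq_int (hw m)) (fun x => sq_nonneg _) ?_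
      filter_upwards [off _ (ho m)] with x hx hx2
      rw [hx hx2]
      norm_num
    rw [avg_mul_left] at h1
    exact h1.trans (mul_le_mul_of_nonneg_left hc (by positivity))
  -- products with the index shifted
  have shift : ∀ (w : ℕ → E P.N → ℝ), (∀ m, MemLp (w m) 2 volume) → (∀ x, w 0 x = 0) →
      ∀ c : ℝ, avg S.δ τ (fun m => I0 P x₀ r (fun x => w m x ^ 2)) n ≤ c →
      avg S.δ τ (fun m => I0 P x₀ r (fun x => |w (m - 1) x| * |w m x|)) n ≤ 2 * c := by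
    intro w hw h0 c hc
    have hq0 : ∀ m, 0 ≤ I0 P x₀ r (fun x => w m x ^ 2) := fun m => I0_nonneg fun x => sq_nonneg _
    have h1 : avg S.δ τ (fun m => I0 P x₀ r (fun x => |w (m - 1) x| * |w m x|)) n ≤
        avg S.δ τ (fun m => (1 / 2) * (I0 P x₀ r (fun x => w (m - 1) x ^ 2) +
          I0 P x₀ r (fun x => w m x ^ 2))) n := by
      refine avg_mono hδ hτ fun m _ _ => ?_
      have i1 := Sol.sq_int (hw (m - 1))
      have i2 := Sol.sq_int (hw m)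
      rw [← I0_add i1 i2, ← I0_mul]
      refine I0_mono (Sol.mul_int (hw (m - 1)).abs (hw m).abs) ((i1.add i2).const_mul _)
        (ae_of_all _ fun x => ?_)
      have := sq_nonneg (|w (m - 1) x| - |w m x|)
      rw [sub_sq, sq_abs, sq_abs] at this
      linarith
    rw [avg_mul_left, avg_add] at h1
    have h2 := avg_shift (n := n) hδ hτ (q := fun m => I0 P x₀ r (fun x => w m x ^ 2))
      (by simp [I0, h0]) hq0
    have h3 : 0 ≤ avg S.δ τ (fun m => I0 P x₀ r (fun x => w m x ^ 2)) n :=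
      avg_nonneg hδ hτ fun m _ _ => hq0 m
    have h4 : S.δ / τ ≤ 1 := by
      rw [div_le_one hτ]
      linarith [S.δ_le]
    have h5 : (1 + S.δ / τ) * avg S.δ τ (fun m => I0 P x₀ r (fun x => w m x ^ 2)) n ≤
        2 * avg S.δ τ (fun m => I0 P x₀ r (fun x => w m x ^ 2)) n :=
      mul_le_mul_of_nonneg_right (by linarith) h3
    linarith
  have hzm : ∀ m, MemLp (S.z m) 2 volume := fun m => (S.hz m).1
  have hζm : ∀ m, MemLp (S.ζ h m) 2 volume := fun m => (S.hζ h m).1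
  have hdo : ∀ m, Sol.Off (P := P) Ω (fun x => S.z m x - S.ζ h m x) := by
    intro m
    filter_upwards [S.z_off m, S.ζ_off h m] with x h1 h2 hx
    rw [h1 hx, h2 hx, sub_zero]
  have c1 := key (fun m => S.z m) hzm (fun m => S.z_off m) _ a2
  have c2 := key (fun m => S.ζ h m) hζm (fun m => S.ζ_off h m) _ b5
  have c3 := key (fun m x => S.z m x - S.ζ h m x) (fun m => (hzm m).sub (hζm m)) hdo _ b6
  have c4 : avg S.δ τ (fun m => I0 P x₀ r (fun x => S.ζt h m x ^ 2)) n ≤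
      5 * R ^ 2 * (C2 * (X n / τ) * r ^ P.lam) / h ^ 2 := by
    have e : (fun m => I0 P x₀ r (fun x => S.ζt h m x ^ 2)) =
        fun m => (h ^ 2)⁻¹ * I0 P x₀ r (fun x => (S.z m x - S.ζ h m x) ^ 2) := by
      funext m
      rw [← I0_mul]
      congr 1
      funext x
      unfold Sol.ζt
      rw [div_pow, div_eq_inv_mul]
    rw [e, avg_mul_left, div_eq_inv_mul]
    exact mul_le_mul_of_nonneg_left c3 (by positivity)
  have c5 := shift (fun m => S.ζt h m) (fun m => S.ζt_mem h m)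
    (fun x => by
      have h0 : S.ζ h 0 x = 0 := rfl
      simp [Sol.ζt, S.z_zero, h0]) _ c4
  have c6 := shift (fun m => S.z m) hzm S.z_zero _ c1
  have hR2 : 0 ≤ R ^ 2 * ((X n / τ) * r ^ P.lam) := by positivity
  refine ⟨c1.trans ?_, c2.trans ?_, c4.trans ?_, c5.trans ?_, c6.trans ?_⟩
  · have : 0 ≤ (5 * C1 + 10 * C2) * (R ^ 2 * ((X n / τ) * r ^ P.lam)) := by positivity
    linarith
  · have : 0 ≤ (10 * C1 + 5 * C2) * (R ^ 2 * ((X n / τ) * r ^ P.lam)) := by positivity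
    linarith
  · have : 0 ≤ (10 * C1 + 5 * C2) * (R ^ 2 * ((X n / τ) * r ^ P.lam)) / h ^ 2 := by positivity
    have e : 10 * (C1 + C2) * R ^ 2 / h ^ 2 * (X n / τ) * r ^ P.lam =
        5 * R ^ 2 * (C2 * (X n / τ) * r ^ P.lam) / h ^ 2 +
          (10 * C1 + 5 * C2) * (R ^ 2 * ((X n / τ) * r ^ P.lam)) / h ^ 2 := by ring
    rw [e]
    linarith
  · have : 0 ≤ (10 * C1) * (R ^ 2 * ((X n / τ) * r ^ P.lam)) / h ^ 2 := by positivity
    have e : 10 * (C1 + C2) * R ^ 2 / h ^ 2 * (X n / τ) * r ^ P.lam =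
        2 * (5 * R ^ 2 * (C2 * (X n / τ) * r ^ P.lam) / h ^ 2) +
          (10 * C1) * (R ^ 2 * ((X n / τ) * r ^ P.lam)) / h ^ 2 := by ring
    rw [e]
    linarith
  · have : 0 ≤ (10 * C2) * (R ^ 2 * ((X n / τ) * r ^ P.lam)) := by positivity
    linarith

end Pool.Agent.H15.Hx
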