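import Pool.Agent.H15.Hx.M11_Energy

/-! M12: the gradient of the average (test with Gζ). -/

set_option autoImplicit false

open MeasureTheory Set Filter Topology
open scoped RealInnerProductSpace
open Pool.Agent.H25.HX (E g Tst H10)

noncomputable section

namespace Pool.Agent.H15.Hx

namespace Est2

variable {P : Par} {Ω : Set (E P.N)} (S : Sol P Ω)

theorem hz_mem (n : ℕ) : MemLp (S.z n) 2 volume := (S.hz n).1

theorem hζ_mem (h : ℝ) (n : ℕ) : MemLp (S.ζ h n) 2 volume := (S.hζ h n).1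

theorem hD_mem (h : ℝ) (n : ℕ) : MemLp (S.Dζ h n) 2 volume := (S.hζ h n).2.1

theorem abs_mem {a : E P.N → ℝ} (ha : MemLp a 2 volume) : MemLp (fun x => |a x|) 2 volume := by
  simpa [Real.norm_eq_abs] using ha.norm

theorem abs_mul_int {a b : E P.N → ℝ} (ha : MemLp a 2 volume) (hb : MemLp b 2 volume) :
    Integrable (fun x => |a x| * |b x|) := Sol.mul_int (abs_mem ha) (abs_mem hb)

theorem gm (n : ℕ) : MemLp (fun x => g P.p (S.z n x)) 2 volume := S.hg n

theorem gG (h : ℝ) (n : ℕ) : MemLp (fun x => g P.p (S.z n x) - S.Γ h n x) 2 volume :=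
  (gm S n).sub (S.hΓ h n)

theorem ff (h : ℝ) (n : ℕ) : MemLp (fun x => S.f n x - S.fa h n x) 2 volume :=
  (S.hf n).sub (S.hfa h n)

/-- the equation tested with `G ζ` -/
theorem step {h : ℝ} (hh : 0 < h) {x₀ : E P.N} {r : ℝ} (hr : 0 < r) {c : ℝ} (hc : 0 < c)
    (hardy : ∀ (Ω : Set (E P.N)) (u : E P.N → ℝ)
    (U : E P.N → E P.N), H10 Ω u U → ∀ (x₀ : E P.N) (r : ℝ), 0 < r →
    c * I2 P x₀ r (fun x => u x ^ 2) ≤ ∫ x, u x * ⟪gradient (wt P.lam' x₀ r) x, U x⟫) (m : ℕ) :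
    I0 P x₀ r (fun x => ‖S.Dζ h (m + 1) x‖ ^ 2) ≤
      (1 / h) * I0 P x₀ r (fun x => |S.f (m + 1) x - S.fa h (m + 1) x| * |S.ζ h (m + 1) x|) +
      (1 / h) * I0 P x₀ r (fun x => |g P.p (S.z (m + 1) x) - S.Γ h (m + 1) x| *
        |S.ζ h (m + 1) x|) +
      I0 P x₀ r (fun x => |S.ζt h m x| * |S.ζt h (m + 1) x|) -
      (I0 P x₀ r (fun x => S.ζ h (m + 1) x * S.ζt h (m + 1) x) -
        I0 P x₀ r (fun x => S.ζ h m x * S.ζt h m x)) / S.δ := by
  have hδ := S.δ_pos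
  have hz1 := hζ_mem S h (m + 1)
  have hz0 := hζ_mem S h m
  have ht1 := S.ζt_mem h (m + 1)
  have ht0 := S.ζt_mem h m
  have hf1 := ff S h (m + 1)
  have hg1 := gG S h (m + 1)
  have key := S.avg_testG hh m (S.hζ h (m + 1)) x₀ hr
  have hpos := hardy Ω _ _ (S.hζ h (m + 1)) x₀ r hr
  have hI2 : 0 ≤ I2 P x₀ r (fun x => S.ζ h (m + 1) x ^ 2) := I2_nonneg fun x => sq_nonneg _
  have h1 : (∫ x, wt P.lam' x₀ r x * ⟪S.Dζ h (m + 1) x, S.Dζ h (m + 1) x⟫) =
      I0 P x₀ r (fun x => ‖S.Dζ h (m + 1) x‖ ^ 2) := by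
    unfold I0
    congr 1
    ext x
    rw [real_inner_self_eq_norm_sq]
  rw [h1] at key
  have h2 : (∫ x, wt P.lam' x₀ r x * (((S.f (m + 1) x - S.fa h (m + 1) x) / h -
        (g P.p (S.z (m + 1) x) - S.Γ h (m + 1) x) / h -
        (S.ζt h (m + 1) x - S.ζt h m x) / S.δ) * S.ζ h (m + 1) x)) ≤
      I0 P x₀ r (fun x => (((1 / h) * (|S.f (m + 1) x - S.fa h (m + 1) x| * |S.ζ h (m + 1) x|) +
      (1 / h) * (|g P.p (S.z (m + 1) x) - S.Γ h (m + 1) x| *
        |S.ζ h (m + 1) x|)) + |S.ζt h m x| * |S.ζt h (m + 1) x|) -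
      (1 / S.δ) * (S.ζ h (m + 1) x * S.ζt h (m + 1) x - S.ζ h m x * S.ζt h m x)) := by
    apply I0_mono
    · have e1 : MemLp (fun x => (S.f (m + 1) x - S.fa h (m + 1) x) / h -
        (g P.p (S.z (m + 1) x) - S.Γ h (m + 1) x) / h -
        (S.ζt h (m + 1) x - S.ζt h m x) / S.δ) 2 volume := by
        have e2 := ((hf1.const_mul (1 / h)).sub (hg1.const_mul (1 / h))).sub
          ((ht1.sub ht0).const_mul (1 / S.δ))
        convert e2 using 1
        ext x
        simp only [Pi.sub_apply]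
        ring
      exact Sol.mul_int e1 hz1
    · exact (((((abs_mul_int hf1 hz1).const_mul _).add ((abs_mul_int hg1 hz1).const_mul _)).add
        (abs_mul_int ht0 ht1)).sub (((Sol.mul_int hz1 ht1).sub (Sol.mul_int hz0 ht0)).const_mul _))
    · refine Filter.Eventually.of_forall fun x => ?_
      have hs := S.ζ_step h m hh x
      set a := S.ζ h (m + 1) x with ha
      set b := S.ζ h m x
      set F := S.f (m + 1) x - S.fa h (m + 1) x
      set K := g P.p (S.z (m + 1) x) - S.Γ h (m + 1) x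
      set t1 := S.ζt h (m + 1) x
      set t0 := S.ζt h m x
      have e1 : F * a ≤ |F| * |a| := by rw [← abs_mul]; exact le_abs_self _
      have e2 : -(K * a) ≤ |K| * |a| := by rw [← abs_mul]; exact neg_le_abs _
      have e3 : t0 * t1 ≤ |t0| * |t1| := by rw [← abs_mul]; exact le_abs_self _
      have e4 : (F / h - K / h - (t1 - t0) / S.δ) * a =
          (1 / h) * (F * a) + (1 / h) * (-(K * a)) + t0 * t1 -
            (1 / S.δ) * (a * t1 - b * t0) := by
        have : b = a - S.δ * t1 := by linarith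
        rw [this]
        field_simp
        ring
      rw [e4]
      have hh' : 0 ≤ 1 / h := by positivity
      have := mul_le_mul_of_nonneg_left e1 hh'
      have := mul_le_mul_of_nonneg_left e2 hh'
      linarith
  have h3 : I0 P x₀ r (fun x => (((1 / h) * (|S.f (m + 1) x - S.fa h (m + 1) x| *
        |S.ζ h (m + 1) x|) +
      (1 / h) * (|g P.p (S.z (m + 1) x) - S.Γ h (m + 1) x| *
        |S.ζ h (m + 1) x|)) + |S.ζt h m x| * |S.ζt h (m + 1) x|) -
      (1 / S.δ) * (S.ζ h (m + 1) x * S.ζt h (m + 1) x - S.ζ h m x * S.ζt h m x)) =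
      (1 / h) * I0 P x₀ r (fun x => |S.f (m + 1) x - S.fa h (m + 1) x| * |S.ζ h (m + 1) x|) +
      (1 / h) * I0 P x₀ r (fun x => |g P.p (S.z (m + 1) x) - S.Γ h (m + 1) x| *
        |S.ζ h (m + 1) x|) +
      I0 P x₀ r (fun x => |S.ζt h m x| * |S.ζt h (m + 1) x|) -
      (I0 P x₀ r (fun x => S.ζ h (m + 1) x * S.ζt h (m + 1) x) -
        I0 P x₀ r (fun x => S.ζ h m x * S.ζt h m x)) / S.δ := by
    have i1 : Integrable (fun x => (1 / h) * (|S.f (m + 1) x - S.fa h (m + 1) x| *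
        |S.ζ h (m + 1) x|)) := (abs_mul_int hf1 hz1).const_mul _
    have i2 : Integrable (fun x => (1 / h) * (|g P.p (S.z (m + 1) x) - S.Γ h (m + 1) x| *
        |S.ζ h (m + 1) x|)) := (abs_mul_int hg1 hz1).const_mul _
    have i3 : Integrable (fun x => |S.ζt h m x| * |S.ζt h (m + 1) x|) := abs_mul_int ht0 ht1
    have i4 : Integrable (fun x => S.ζ h (m + 1) x * S.ζt h (m + 1) x) := Sol.mul_int hz1 ht1
    have i5 : Integrable (fun x => S.ζ h m x * S.ζt h m x) := Sol.mul_int hz0 ht0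
    have i6 : Integrable (fun x => (1 / S.δ) * (S.ζ h (m + 1) x * S.ζt h (m + 1) x -
        S.ζ h m x * S.ζt h m x)) := (i4.sub i5).const_mul _
    have i12 : Integrable (fun x => (1 / h) * (|S.f (m + 1) x - S.fa h (m + 1) x| *
        |S.ζ h (m + 1) x|) + (1 / h) * (|g P.p (S.z (m + 1) x) - S.Γ h (m + 1) x| *
        |S.ζ h (m + 1) x|)) := i1.add i2
    have i123 : Integrable (fun x => ((1 / h) * (|S.f (m + 1) x - S.fa h (m + 1) x| *
        |S.ζ h (m + 1) x|) + (1 / h) * (|g P.p (S.z (m + 1) x) - S.Γ h (m + 1) x| *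
        |S.ζ h (m + 1) x|)) + |S.ζt h m x| * |S.ζt h (m + 1) x|) := i12.add i3
    rw [I0_sub i123 i6, I0_add i12 i3, I0_add i1 i2,
      I0_mul, I0_mul, I0_mul, I0_sub i4 i5]
    ring
  have hc2 : 0 ≤ c * I2 P x₀ r (fun x => S.ζ h (m + 1) x ^ 2) := by positivity
  linarith [h2, h3.le, h3.ge]

/-- `I0 z²` is at most the energy -/
theorem z_sq_le {x₀ : E P.N} {r : ℝ} (m : ℕ) :
    I0 P x₀ r (fun x => S.z m x ^ 2) ≤ S.Eg m x₀ r := by
  unfold Sol.Eg
  have h1 : MemLp (S.Du m) 2 volume := (S.hu m).2.1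
  apply I0_mono (Sol.sq_int (hz_mem S m)) ((Sol.vsq_int h1).add (Sol.sq_int (hz_mem S m)))
  refine Filter.Eventually.of_forall fun x => ?_
  have := sq_nonneg ‖S.Du m x‖
  simp only [Pi.add_apply]
  linarith

section
variable {R : ℝ} {n1 : ℕ} {τ A εf : ℝ} {X : ℕ → ℝ}

theorem X_nonneg (H : Hyp S R n1 τ A εf X) {m : ℕ} (hm : m ≤ n1) : 0 ≤ X m :=
  le_trans (Real.rpow_nonneg (by linarith [H.τ1]) _) (H.X_lb m hm)

theorem slow (H : Hyp S R n1 τ A εf X) {h : ℝ} (hh : 0 < h) (h2 : 2 * h ≤ A * τ) {m : ℕ}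
    (hm : m ≤ n1) : avg S.δ h X m ≤ 2 * X m :=
  avg_slow_le S.δ_pos hh h2 (fun k hk => X_nonneg S H hk) H.X_slow m hm

/-- `I0 ζ² ≤ 2 τ X r^λ` -/
theorem ζ_sq_le (H : Hyp S R n1 τ A εf X) {h : ℝ} (hh : 0 < h) (h2 : 2 * h ≤ A * τ) {m : ℕ}
    (hm : m ≤ n1) {x₀ : E P.N} {r : ℝ} (hA : Adm R x₀ r) :
    I0 P x₀ r (fun x => S.ζ h m x ^ 2) ≤ 2 * (τ * X m * r ^ P.lam) := by
  have hδ := S.δ_pos
  have h1 : I0 P x₀ r (fun x => S.ζ h m x ^ 2) ≤
      I0 P x₀ r (fun x => avg S.δ h (fun k => S.z k x ^ 2) m) := by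
    apply I0_mono (Sol.sq_int (hζ_mem S h m))
    · have : (fun x => avg S.δ h (fun k => S.z k x ^ 2) m) =
        avg S.δ h (fun k => fun x => S.z k x ^ 2) m := by
        ext x
        rw [avg_apply]
      rw [this]
      clear this
      induction m with
      | zero => exact integrable_zero _ _ _
      | succ k ih =>
        rw [avg_succ]
        exact ((ih (by omega)).smul _).add ((Sol.sq_int (hz_mem S (k + 1))).smul _)
    · exact Filter.Eventually.of_forall fun x => pt_za_sq hδ hh (fun k => S.z k x) m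
  rw [I0_avg (fun k => Sol.sq_int (hz_mem S k))] at h1
  have h3 : avg S.δ h (fun k => I0 P x₀ r (fun x => S.z k x ^ 2)) m ≤
      avg S.δ h (fun k => (τ * r ^ P.lam) * X k) m := by
    apply avg_mono hδ hh
    intro k hk1 hk
    have := (z_sq_le S (x₀ := x₀) (r := r) k).trans (H.eK k (by omega) x₀ r hA)
    linarith
  rw [avg_mul_left] at h3
  have h4 := slow S H hh h2 hm
  have hr : 0 ≤ r ^ P.lam := Real.rpow_nonneg hA.2.1.le _
  have hτ : 0 ≤ τ := by linarith [H.τ1]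
  have := mul_le_mul_of_nonneg_left h4 (mul_nonneg hτ hr)
  linarith

/-- `|I0 (ζ ζt)| ≤ (4/h) τ X r^λ` -/
theorem F_le (H : Hyp S R n1 τ A εf X) {h : ℝ} (hh : 0 < h) (h2 : 2 * h ≤ A * τ) {m : ℕ}
    (hm : m ≤ n1) {x₀ : E P.N} {r : ℝ} (hA : Adm R x₀ r) :
    |I0 P x₀ r (fun x => S.ζ h m x * S.ζt h m x)| ≤ 4 / h * (τ * X m * r ^ P.lam) := by
  have hz := hζ_mem S h m
  have hz0 := hz_mem S m
  have ht := S.ζt_mem h m
  have e1 := ζ_sq_le S H hh h2 hm hA
  have e2 := (z_sq_le S (x₀ := x₀) (r := r) m).trans (H.eK m hm x₀ r hA)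
  have i1 : Integrable (fun x => S.ζ h m x * S.ζt h m x) := Sol.mul_int hz ht
  have i2 : Integrable (fun x => S.ζ h m x ^ 2) := Sol.sq_int hz
  have i3 : Integrable (fun x => S.z m x ^ 2) := Sol.sq_int hz0
  have i4 : Integrable (fun x => (3 / (2 * h)) * S.ζ h m x ^ 2 + (1 / (2 * h)) * S.z m x ^ 2) :=
    (i2.const_mul _).add (i3.const_mul _)
  have e3 : I0 P x₀ r (fun x => (3 / (2 * h)) * S.ζ h m x ^ 2 + (1 / (2 * h)) * S.z m x ^ 2) =
      (3 / (2 * h)) * I0 P x₀ r (fun x => S.ζ h m x ^ 2) +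
      (1 / (2 * h)) * I0 P x₀ r (fun x => S.z m x ^ 2) := by
    rw [I0_add (i2.const_mul _) (i3.const_mul _), I0_mul, I0_mul]
  have e4 : I0 P x₀ r (fun x => (3 / (2 * h)) * S.ζ h m x ^ 2 + (1 / (2 * h)) * S.z m x ^ 2) ≤
      4 / h * (τ * X m * r ^ P.lam) := by
    rw [e3]
    have a1 : (3 / (2 * h)) * I0 P x₀ r (fun x => S.ζ h m x ^ 2) ≤
        (3 / (2 * h)) * (2 * (τ * X m * r ^ P.lam)) :=
      mul_le_mul_of_nonneg_left e1 (by positivity)
    have a2 : (1 / (2 * h)) * I0 P x₀ r (fun x => S.z m x ^ 2) ≤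
        (1 / (2 * h)) * (τ * X m * r ^ P.lam) :=
      mul_le_mul_of_nonneg_left e2 (by positivity)
    have a3 : 0 ≤ τ * X m * r ^ P.lam := by
      have := H.τ1
      have := X_nonneg S H hm
      have := Real.rpow_nonneg hA.2.1.le P.lam
      positivity
    have a4 : (3 / (2 * h)) * (2 * (τ * X m * r ^ P.lam)) +
        (1 / (2 * h)) * (τ * X m * r ^ P.lam) = (7 / 2) / h * (τ * X m * r ^ P.lam) := by
      field_simp
      ring
    have a5 : (7 / 2) / h * (τ * X m * r ^ P.lam) ≤ 4 / h * (τ * X m * r ^ P.lam) := by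
      apply mul_le_mul_of_nonneg_right _ a3
      apply div_le_div_of_nonneg_right (by norm_num) hh.le
    linarith
  have pt : ∀ x, |S.ζ h m x * S.ζt h m x| ≤
      (3 / (2 * h)) * S.ζ h m x ^ 2 + (1 / (2 * h)) * S.z m x ^ 2 := by
    intro x
    unfold Sol.ζt
    rw [abs_mul, abs_div, abs_of_pos hh]
    have b1 : |S.z m x - S.ζ h m x| ≤ |S.z m x| + |S.ζ h m x| := abs_sub _ _
    have b2 := abs_nonneg (S.ζ h m x)
    have b3 := abs_nonneg (S.z m x)
    rw [← sq_abs (S.ζ h m x), ← sq_abs (S.z m x)]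
    have b4 : |S.ζ h m x| * (|S.z m x - S.ζ h m x| / h) =
      (1 / (2 * h)) * (2 * (|S.ζ h m x| * |S.z m x - S.ζ h m x|)) := by
      field_simp
    have b5 : 3 / (2 * h) * |S.ζ h m x| ^ 2 + 1 / (2 * h) * |S.z m x| ^ 2 =
      (1 / (2 * h)) * (3 * |S.ζ h m x| ^ 2 + |S.z m x| ^ 2) := by
      field_simp
    rw [b4, b5]
    apply mul_le_mul_of_nonneg_left _ (by positivity)
    nlinarith [sq_nonneg (|S.ζ h m x| - |S.z m x|), mul_le_mul_of_nonneg_left b1 b2]
  rw [abs_le]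
  constructor
  · have : I0 P x₀ r (fun x => (-1) * (S.ζ h m x * S.ζt h m x)) ≤ _ :=
      (I0_mono (i1.const_mul _) i4 (Filter.Eventually.of_forall fun x => by
        have := (neg_le_abs (S.ζ h m x * S.ζt h m x)).trans (pt x)
        linarith)).trans e4
    rw [I0_mul] at this
    linarith
  · exact (I0_mono i1 i4 (Filter.Eventually.of_forall fun x =>
      (le_abs_self _).trans (pt x))).trans e4

end

end Est2

theorem est2 (P : Par) : ∃ C : ℝ, 0 < C ∧ ∀ (Ω : Set (E P.N)) (S : Sol P Ω) (R : ℝ) (n1 : ℕ)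
    (τ A εf θ : ℝ) (X : ℕ → ℝ), Hyp S R n1 τ A εf X → Small R τ εf θ →
    ∀ n ≤ n1, ∀ x₀ r, Adm R x₀ r →
    avg S.δ τ (fun m => I0 P x₀ r (fun x => ‖S.Dζ (θ * τ) m x‖ ^ 2)) n ≤
      C / θ * (X n / τ) * r ^ P.lam := by
  obtain ⟨c, hc, hardyc⟩ := hardy_id P
  obtain ⟨C0, hC0, e1⟩ := est1 P
  obtain ⟨C1, hC1, e1b⟩ := est1b P
  obtain ⟨C2, hC2, e1c⟩ := est1c P
  obtain ⟨CY, hCY, young⟩ := young_q P (ε := 1) one_pos
  have hq1 := P.q_gt_one
  have hq2 := P.q_lt_two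
  refine ⟨(CY * C1 + C1) + (CY * C1 + 2 * (C0 + C1)) + C2 + 12, by positivity, ?_⟩
  intro Ω S R n1 τ A εf θ X H hs n hn x₀ r hA
  have hδ := S.δ_pos
  have hτ1 := H.τ1
  have hτ : 0 < τ := by linarith
  have hθ := hs.θ0
  have hh : 0 < θ * τ := by positivity
  have h2τ : 2 * (θ * τ) ≤ τ := by nlinarith [hs.θ1]
  have hAτ : 4 * τ ≤ A * τ := mul_le_mul_of_nonneg_right H.hA hτ.le
  have h2A : 2 * (θ * τ) ≤ A * τ := by linarith
  set h := θ * τ with hdef
  have hX : 0 ≤ X n := Est2.X_nonneg S H hn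
  have hr : 0 ≤ r ^ P.lam := Real.rpow_nonneg hA.2.1.le _
  obtain ⟨a1, -, -⟩ := e1 Ω S R n1 τ A εf X H n hn x₀ r hA
  obtain ⟨b1, b2, -, b4, -, -⟩ := e1b Ω S R n1 τ A εf X H h hh h2τ n hn x₀ r hA
  obtain ⟨-, -, -, c4, -⟩ := e1c Ω S R n1 τ A εf X H h hh h2τ n hn x₀ r hA
  -- notation
  set Q : ℕ → ℝ := fun m => I0 P x₀ r (fun x => ‖S.Dζ h m x‖ ^ 2) with hQ
  set F : ℕ → ℝ := fun m => I0 P x₀ r (fun x => S.ζ h m x * S.ζt h m x) with hF
  set B1 : ℕ → ℝ := fun m => I0 P x₀ r (fun x => |S.f m x - S.fa h m x| * |S.ζ h m x|) with hB1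
  set B2 : ℕ → ℝ := fun m => I0 P x₀ r (fun x => |g P.p (S.z m x) - S.Γ h m x| *
        |S.ζ h m x|) with hB2
  set B3 : ℕ → ℝ := fun m => I0 P x₀ r (fun x => |S.ζt h (m - 1) x| * |S.ζt h m x|) with hB3
  have hF0 : F 0 = 0 := by
    simp only [hF]
    unfold I0
    simp [Sol.ζ]
  have main : avg S.δ τ Q n ≤ avg S.δ τ (fun m => (1 / h) * B1 m + (1 / h) * B2 m + B3 m -
      (F m - F (m - 1)) / S.δ) n := by
    apply avg_mono hδ hτ
    intro m hm1 hm
    obtain ⟨k, rfl⟩ : ∃ k, m = k + 1 := ⟨m - 1, by omega⟩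
    exact Est2.step S hh hA.2.1 hc hardyc k (x₀ := x₀)
  rw [avg_sub, avg_D hδ hτ hF0, avg_add, avg_add, avg_mul_left, avg_mul_left] at main
  -- the boundary term
  have hFn := Est2.F_le S H hh h2A hn hA
  have hFa : avg S.δ τ F n ≤ (4 / h * (τ * r ^ P.lam)) * (2 * X n) := by
    have s1 : avg S.δ τ F n ≤ avg S.δ τ (fun m => (4 / h * (τ * r ^ P.lam)) * X m) n := by
      apply avg_mono hδ hτ
      intro m _ hm
      have := (le_abs_self _).trans (Est2.F_le S H hh h2A (hm.trans hn) hA)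
      simp only [hF]
      linarith
    rw [avg_mul_left] at s1
    have s2 := Est2.slow S H hτ (by linarith) hn
    exact s1.trans (mul_le_mul_of_nonneg_left s2 (by positivity))
  have hFF : -((F n - avg S.δ τ F n) / τ) ≤ 12 / θ * (X n / τ) * r ^ P.lam := by
    have s1 := (neg_le_abs (F n)).trans hFn
    have s2 : -((F n - avg S.δ τ F n) / τ) ≤
      (4 / h * (τ * X n * r ^ P.lam) + (4 / h * (τ * r ^ P.lam)) * (2 * X n)) / τ := by
      rw [← neg_div]
      apply div_le_div_of_nonneg_right _ hτ.le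
      linarith
    refine s2.trans (le_of_eq ?_)
    rw [hdef]
    field_simp
    ring
  -- Young
  have hζp : avg S.δ τ (fun m => I0 P x₀ r (fun x => |S.ζ h m x| ^ P.p)) n ≤
      C1 * X n * r ^ P.lam := by
    refine le_trans ?_ b1
    apply avg_mono hδ hτ
    intro m _ _
    exact I0_mono (S.ζp h m hh) (S.Za_int h m) (Filter.Eventually.of_forall fun x =>
      pt_za P hδ hh (fun k => S.z k x) m)
  have y1 : avg S.δ τ B1 n ≤ (CY * C1 + C1) * X n * r ^ P.lam := by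
    have s1 : avg S.δ τ B1 n ≤ avg S.δ τ (fun m => CY * I0 P x₀ r (fun x => |S.ζ h m x| ^ P.p) +
        I0 P x₀ r (fun x => |S.f m x - S.fa h m x| ^ P.q)) n := by
      apply avg_mono hδ hτ
      intro m _ _
      have i1 : Integrable (fun x => CY * |S.ζ h m x| ^ P.p) := (S.ζp h m hh).const_mul _
      have i2 := S.ffaq h m hh H.hΩ
      have i3 : Integrable (fun x => CY * |S.ζ h m x| ^ P.p + |S.f m x - S.fa h m x| ^ P.q) :=
        i1.add i2
      have := I0_mono (P := P) (x₀ := x₀) (r := r)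
        (Est2.abs_mul_int (Est2.ff S h m) (Est2.hζ_mem S h m)) i3
        (Filter.Eventually.of_forall fun x => by
          have := young (S.ζ h m x) (S.f m x - S.fa h m x)
          linarith)
      rw [I0_add i1 i2, I0_mul] at this
      exact this
    rw [avg_add, avg_mul_left] at s1
    have s2 : C1 * εf * X n * r ^ P.lam ≤ C1 * X n * r ^ P.lam := by
      have : 0 ≤ C1 * X n * r ^ P.lam := by positivity
      nlinarith [H.εf1]
    have s3 := mul_le_mul_of_nonneg_left hζp hCY.le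
    linarith
  have y2 : avg S.δ τ B2 n ≤ (CY * C1 + 2 * (C0 + C1)) * X n * r ^ P.lam := by
    have s1 : avg S.δ τ B2 n ≤ avg S.δ τ (fun m => CY * I0 P x₀ r (fun x => |S.ζ h m x| ^ P.p) +
        2 * (I0 P x₀ r (fun x => |S.z m x| ^ P.p) +
          I0 P x₀ r (fun x => |S.Γ h m x| ^ P.q))) n := by
      apply avg_mono hδ hτ
      intro m _ _
      have i1 : Integrable (fun x => CY * |S.ζ h m x| ^ P.p) := (S.ζp h m hh).const_mul _
      have i2 := S.zp m
      have i2' := S.Γq h m hh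
      have i23 : Integrable (fun x => |S.z m x| ^ P.p + |S.Γ h m x| ^ P.q) := i2.add i2'
      have i24 : Integrable (fun x => 2 * (|S.z m x| ^ P.p + |S.Γ h m x| ^ P.q)) :=
        i23.const_mul _
      have i3 : Integrable (fun x => CY * |S.ζ h m x| ^ P.p +
          2 * (|S.z m x| ^ P.p + |S.Γ h m x| ^ P.q)) := i1.add i24
      have := I0_mono (P := P) (x₀ := x₀) (r := r)
        (Est2.abs_mul_int (Est2.gG S h m) (Est2.hζ_mem S h m)) i3
        (Filter.Eventually.of_forall fun x => by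
          have t1 := young (S.ζ h m x) (g P.p (S.z m x) - S.Γ h m x)
          have t2 := abs_sub_rpow hq1.le (g P.p (S.z m x)) (S.Γ h m x)
          rw [abs_g_q] at t2
          have t3 : (2 : ℝ) ^ (P.q - 1) ≤ 2 := by
            calc (2 : ℝ) ^ (P.q - 1) ≤ (2 : ℝ) ^ (1 : ℝ) :=
                Real.rpow_le_rpow_of_exponent_le (by norm_num) (by linarith)
              _ = 2 := Real.rpow_one 2
          have t4 : 0 ≤ |S.z m x| ^ P.p + |S.Γ h m x| ^ P.q := by positivity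
          have t5 := mul_le_mul_of_nonneg_right t3 t4
          linarith)
      rw [I0_add i1 i24, I0_mul, I0_mul, I0_add i2 i2'] at this
      exact this
    rw [avg_add, avg_mul_left, avg_mul_left, avg_add] at s1
    have s3 := mul_le_mul_of_nonneg_left hζp hCY.le
    linarith
  -- the inertia
  have y3 : avg S.δ τ B3 n ≤ C2 / θ * (X n / τ) * r ^ P.lam := by
    refine c4.trans ?_
    apply mul_le_mul_of_nonneg_right _ hr
    apply mul_le_mul_of_nonneg_right _ (by positivity)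
    have s1 : R ^ 2 / h ^ 2 ≤ 1 / θ := by
      rw [div_le_div_iff₀ (by positivity) hθ, one_mul]
      have := hs.hτ
      have k1 : R ^ 2 * θ ≤ θ ^ 4 * τ * θ := mul_le_mul_of_nonneg_right this hθ.le
      have k2 : θ ^ 4 * τ * θ ≤ h ^ 2 := by
        rw [hdef]
        have k3 : θ ^ 3 ≤ 1 := pow_le_one₀ hθ.le (by linarith [hs.θ1])
        have k4 : θ ^ 4 * τ * θ = (θ ^ 2 * τ) * θ ^ 3 := by ring
        have k5 : (θ * τ) ^ 2 = (θ ^ 2 * τ) * τ := by ring
        rw [k4, k5]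
        apply mul_le_mul_of_nonneg_left _ (by positivity)
        linarith
      linarith
    calc C2 * R ^ 2 / h ^ 2 = C2 * (R ^ 2 / h ^ 2) := by ring
      _ ≤ C2 * (1 / θ) := mul_le_mul_of_nonneg_left s1 hC2.le
      _ = C2 / θ := by ring
  have z1 : (1 / h) * avg S.δ τ B1 n ≤ (CY * C1 + C1) / θ * (X n / τ) * r ^ P.lam := by
    refine (mul_le_mul_of_nonneg_left y1 (by positivity)).trans (le_of_eq ?_)
    rw [hdef]
    field_simp
  have z2 : (1 / h) * avg S.δ τ B2 n ≤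
      (CY * C1 + 2 * (C0 + C1)) / θ * (X n / τ) * r ^ P.lam := by
    refine (mul_le_mul_of_nonneg_left y2 (by positivity)).trans (le_of_eq ?_)
    rw [hdef]
    field_simp
  have fin : ((CY * C1 + C1) + (CY * C1 + 2 * (C0 + C1)) + C2 + 12) / θ * (X n / τ) * r ^ P.lam =
      (CY * C1 + C1) / θ * (X n / τ) * r ^ P.lam +
      (CY * C1 + 2 * (C0 + C1)) / θ * (X n / τ) * r ^ P.lam +
      C2 / θ * (X n / τ) * r ^ P.lam + 12 / θ * (X n / τ) * r ^ P.lam := by
    field_simp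
  rw [fin]
  linarith

end Pool.Agent.H15.Hx
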