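import Pool.Agent.H15.Hx.M12_Est2

/-! M13: the covariance and the oscillation are small (test with G (z - ζ)). -/

set_option autoImplicit false

open MeasureTheory Set Filter Topology
open scoped RealInnerProductSpace
open Pool.Agent.H25.HX (E g Tst H10)

noncomputable section

namespace Pool.Agent.H15.Hx

namespace M13

/-- elementary consequences of the smallness hypotheses -/
theorem small_facts {P : Par} {Ω : Set (E P.N)} {S : Sol P Ω} {R : ℝ} {n1 : ℕ}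
    {τ A εf θ : ℝ} {X : ℕ → ℝ} (H : Hyp S R n1 τ A εf X) (K : Small R τ εf θ) :
    0 < τ ∧ 0 < θ * τ ∧ 2 * (θ * τ) ≤ τ ∧ 1 ≤ θ * τ := by
  have h0 := K.θ0
  have h1 := K.θ1
  have h2 := H.τ1
  have hτ : 0 < τ := by linarith
  refine ⟨hτ, by positivity, by nlinarith, ?_⟩
  have h3 : (1:ℝ) ≤ R ^ 2 := by nlinarith [H.hR]
  have h4 : θ ^ 4 ≤ θ := by
    have h5 : θ ^ 3 ≤ 1 := pow_le_one₀ h0.le (by linarith)
    nlinarith
  have h6 : θ ^ 4 * τ ≤ θ * τ := mul_le_mul_of_nonneg_right h4 hτ.le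
  linarith [K.hτ]

theorem X_pos {P : Par} {Ω : Set (E P.N)} {S : Sol P Ω} {R : ℝ} {n1 : ℕ}
    {τ A εf : ℝ} {X : ℕ → ℝ} (H : Hyp S R n1 τ A εf X) {n : ℕ} (hn : n ≤ n1) : 0 < X n := by
  have h1 := H.X_lb n hn
  have h2 : 0 < τ ^ P.s := Real.rpow_pos_of_pos (by linarith [H.τ1]) _
  linarith

/-- Cauchy-Schwarz for the commutator with the weight -/
theorem grad_cs {P : Par} (x₀ : E P.N) {r : ℝ} (hr : 0 < r) {w : E P.N → ℝ}
    {V : E P.N → E P.N} (hw : MemLp w 2 volume) (hV : MemLp V 2 volume) :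
    |∫ x, w x * ⟪gradient (wt P.lam' x₀ r) x, V x⟫| ≤
      P.lam' * (Real.sqrt (I2 P x₀ r (fun x => w x ^ 2)) *
        Real.sqrt (I0 P x₀ r (fun x => ‖V x‖ ^ 2))) := by
  have hl := P.lam'_pos
  have hwt : ∀ c : ℝ, 0 ≤ c → ∀ x, |wt c x₀ r x| ≤ 1 := by
    intro c hc x
    rw [abs_of_pos (wt_pos x)]
    exact wt_le_one hc x
  have ham : MemLp (fun x => wt ((P.lam' + 2) / 2) x₀ r x • |w x|) 2 volume :=
    Pool.Agent.H25.HX.bdd_mem wt_cont (hwt _ (by positivity)) hw.norm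
  have hbm : MemLp (fun x => wt (P.lam' / 2) x₀ r x • ‖V x‖) 2 volume :=
    Pool.Agent.H25.HX.bdd_mem wt_cont (hwt _ (by positivity)) hV.norm
  have hab : Integrable fun x => (wt ((P.lam' + 2) / 2) x₀ r x • |w x|) *
      (wt (P.lam' / 2) x₀ r x • ‖V x‖) := ham.integrable_mul hbm
  have h1 := Pool.Agent.H25.HX.int_inner_sq_le ham hbm
  have ea : ∀ x, ‖wt ((P.lam' + 2) / 2) x₀ r x • |w x|‖ ^ 2 =
      wt (P.lam' + 2) x₀ r x * w x ^ 2 := by
    intro x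
    rw [smul_eq_mul, Real.norm_eq_abs, sq_abs, mul_pow, sq_abs, sq, wt_mul]
    congr 2
    ring
  have eb : ∀ x, ‖wt (P.lam' / 2) x₀ r x • ‖V x‖‖ ^ 2 = wt P.lam' x₀ r x * ‖V x‖ ^ 2 := by
    intro x
    rw [smul_eq_mul, Real.norm_eq_abs, sq_abs, mul_pow, sq, wt_mul]
    congr 2
    ring
  have eab : ∀ x, ⟪wt ((P.lam' + 2) / 2) x₀ r x • |w x|, wt (P.lam' / 2) x₀ r x • ‖V x‖⟫ =
      wt (P.lam' + 1) x₀ r x * (|w x| * ‖V x‖) := by
    intro x
    have : wt (P.lam' + 1) x₀ r x = wt ((P.lam' + 2) / 2) x₀ r x * wt (P.lam' / 2) x₀ r x := by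
      rw [wt_mul]
      congr 1
      ring
    rw [this]
    simp only [smul_eq_mul, RCLike.inner_apply, conj_trivial]
    ring
  simp only [ea, eb, eab] at h1
  have h2 : ∫ x, wt (P.lam' + 1) x₀ r x * (|w x| * ‖V x‖) ≤
      (r * Real.sqrt (I2 P x₀ r (fun x => w x ^ 2))) *
        Real.sqrt (I0 P x₀ r (fun x => ‖V x‖ ^ 2)) := by
    have hI0 : 0 ≤ ∫ x, wt P.lam' x₀ r x * ‖V x‖ ^ 2 :=
      integral_nonneg fun x => mul_nonneg (wt_pos x).le (by positivity)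
    have e2 : r * Real.sqrt (I2 P x₀ r (fun x => w x ^ 2)) =
        Real.sqrt (∫ x, wt (P.lam' + 2) x₀ r x * w x ^ 2) := by
      unfold I2
      rw [Real.sqrt_div' _ (by positivity), Real.sqrt_sq hr.le]
      field_simp
    rw [e2, I0, ← Real.sqrt_mul' _ hI0]
    exact Real.le_sqrt_of_sq_le h1
  have h3 : |∫ x, w x * ⟪gradient (wt P.lam' x₀ r) x, V x⟫| ≤
      ∫ x, P.lam' / r * (wt (P.lam' + 1) x₀ r x * (|w x| * ‖V x‖)) := by
    rw [← Real.norm_eq_abs]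
    apply norm_integral_le_of_norm_le
    · apply Integrable.const_mul
      refine hab.congr (ae_of_all _ fun x => ?_)
      have := eab x
      simp only [RCLike.inner_apply, conj_trivial] at this
      simp only
      rw [← this]
      ring
    · refine ae_of_all _ fun x => ?_
      rw [norm_mul, Real.norm_eq_abs, Real.norm_eq_abs]
      have h4 := abs_real_inner_le_norm (gradient (wt P.lam' x₀ r) x) (V x)
      have h5 := wt_grad_le (x₀ := x₀) hl.le hr x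
      calc |w x| * |⟪gradient (wt P.lam' x₀ r) x, V x⟫|
          ≤ |w x| * (P.lam' / r * wt (P.lam' + 1) x₀ r x * ‖V x‖) := by
            apply mul_le_mul_of_nonneg_left _ (abs_nonneg _)
            exact h4.trans (mul_le_mul_of_nonneg_right h5 (norm_nonneg _))
        _ = _ := by ring
  rw [integral_const_mul] at h3
  refine h3.trans ((mul_le_mul_of_nonneg_left h2 (by positivity)).trans (le_of_eq ?_))
  field_simp

section step
variable {P : Par} {Ω : Set (E P.N)} (S : Sol P Ω) (h : ℝ) (x₀ : E P.N) (r : ℝ)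

/-- the kinetic functional of the averages -/
def Ph (n : ℕ) : ℝ := h ^ 2 / 2 * (I0 P x₀ r (fun x => ‖S.Dζ h n x‖ ^ 2) +
  I0 P x₀ r (fun x => S.ζt h n x ^ 2))

/-- `∫ G (g z - Γ)(z - ζ)` -/
def AA (n : ℕ) : ℝ := I0 P x₀ r (fun x => (g P.p (S.z n x) - S.Γ h n x) *
  (S.z n x - S.ζ h n x))

/-- right side -/
def BB (n : ℕ) : ℝ := I0 P x₀ r (fun x => |S.f n x - S.fa h n x| * |S.z n x - S.ζ h n x|) +
  h * P.lam' * (Real.sqrt (I2 P x₀ r (fun x => (S.z n x - S.ζ h n x) ^ 2)) *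
    Real.sqrt (I0 P x₀ r (fun x => ‖S.Dζ h n x‖ ^ 2)))

theorem step_ineq (hh : 0 < h) (hr : 0 < r) (n : ℕ) :
    (Ph S h x₀ r (n + 1) - Ph S h x₀ r n) / S.δ + AA S h x₀ r (n + 1) ≤ BB S h x₀ r (n + 1) := by
  have hδ := S.δ_pos
  have hw : H10 Ω (fun x => S.z (n + 1) x - S.ζ h (n + 1) x)
      (fun x => S.Dz (n + 1) x - S.Dζ h (n + 1) x) := (S.hz (n + 1)).sub (S.hζ h (n + 1))
  have hwm : MemLp (fun x => S.z (n + 1) x - S.ζ h (n + 1) x) 2 volume := hw.1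
  have hgm : MemLp (fun x => g P.p (S.z (n + 1) x) - S.Γ h (n + 1) x) 2 volume :=
    (S.hg (n + 1)).sub (S.hΓ h (n + 1))
  have hfm : MemLp (fun x => S.f (n + 1) x - S.fa h (n + 1) x) 2 volume :=
    (S.hf (n + 1)).sub (S.hfa h (n + 1))
  have htm : MemLp (fun x => S.ζt h (n + 1) x - S.ζt h n x) 2 volume :=
    (S.ζt_mem h (n + 1)).sub (S.ζt_mem h n)
  have hF1 := Sol.mul_int hfm hwm
  have hF2 := Sol.mul_int hgm hwm
  have hF3 := Sol.mul_int htm hwm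
  have key := S.avg_testG hh n hw x₀ hr
  -- the right side
  have e1 : (∫ x, wt P.lam' x₀ r x * (((S.f (n + 1) x - S.fa h (n + 1) x) / h -
        (g P.p (S.z (n + 1) x) - S.Γ h (n + 1) x) / h -
        (S.ζt h (n + 1) x - S.ζt h n x) / S.δ) * (S.z (n + 1) x - S.ζ h (n + 1) x))) =
      h⁻¹ * I0 P x₀ r (fun x => (S.f (n + 1) x - S.fa h (n + 1) x) *
        (S.z (n + 1) x - S.ζ h (n + 1) x)) - h⁻¹ * AA S h x₀ r (n + 1) -
      S.δ⁻¹ * I0 P x₀ r (fun x => (S.ζt h (n + 1) x - S.ζt h n x) *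
        (S.z (n + 1) x - S.ζ h (n + 1) x)) := by
    unfold AA
    have hs : Integrable (fun x => h⁻¹ * ((S.f (n + 1) x - S.fa h (n + 1) x) *
        (S.z (n + 1) x - S.ζ h (n + 1) x)) - h⁻¹ * ((g P.p (S.z (n + 1) x) - S.Γ h (n + 1) x) *
        (S.z (n + 1) x - S.ζ h (n + 1) x))) := (hF1.const_mul _).sub (hF2.const_mul _)
    rw [← I0_mul, ← I0_mul, ← I0_mul, ← I0_sub (hF1.const_mul _) (hF2.const_mul _),
      ← I0_sub hs (hF3.const_mul _)]
    unfold I0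
    apply integral_congr_ae
    refine ae_of_all _ fun x => ?_
    simp only
    ring
  -- force
  have b1 : I0 P x₀ r (fun x => (S.f (n + 1) x - S.fa h (n + 1) x) *
        (S.z (n + 1) x - S.ζ h (n + 1) x)) ≤
      I0 P x₀ r (fun x => |S.f (n + 1) x - S.fa h (n + 1) x| *
        |S.z (n + 1) x - S.ζ h (n + 1) x|) := by
    apply I0_mono hF1
    · exact Sol.mul_int hfm.abs hwm.abs
    · refine ae_of_all _ fun x => ?_
      rw [← abs_mul]
      exact le_abs_self _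
  -- inertia
  have b3 : h / 2 * (I0 P x₀ r (fun x => S.ζt h (n + 1) x ^ 2) -
      I0 P x₀ r (fun x => S.ζt h n x ^ 2)) ≤
      I0 P x₀ r (fun x => (S.ζt h (n + 1) x - S.ζt h n x) *
        (S.z (n + 1) x - S.ζ h (n + 1) x)) := by
    have s1 := Sol.sq_int (S.ζt_mem h (n + 1))
    have s2 := Sol.sq_int (S.ζt_mem h n)
    have s12 : Integrable (fun x => S.ζt h (n + 1) x ^ 2 - S.ζt h n x ^ 2) := s1.sub s2
    rw [← I0_sub s1 s2, ← I0_mul]
    apply I0_mono (s12.const_mul _) hF3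
    refine ae_of_all _ fun x => ?_
    have e := S.z_eq h (n + 1) hh x
    have e' : S.z (n + 1) x - S.ζ h (n + 1) x = h * S.ζt h (n + 1) x := by linarith
    rw [e']
    nlinarith [mul_nonneg hh.le (sq_nonneg (S.ζt h (n + 1) x - S.ζt h n x))]
  -- gradient
  have hD1 := (S.hζ h (n + 1)).2.1
  have hD0 := (S.hζ h n).2.1
  have s1 := Sol.vsq_int hD1
  have s2 := Sol.vsq_int hD0
  have b4 : h / (2 * S.δ) * (I0 P x₀ r (fun x => ‖S.Dζ h (n + 1) x‖ ^ 2) -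
      I0 P x₀ r (fun x => ‖S.Dζ h n x‖ ^ 2)) ≤
      ∫ x, wt P.lam' x₀ r x * ⟪S.Dζ h (n + 1) x, S.Dz (n + 1) x - S.Dζ h (n + 1) x⟫ := by
    rw [← I0_sub s1 s2, ← I0_mul]
    have s12 : Integrable (fun x => ‖S.Dζ h (n + 1) x‖ ^ 2 - ‖S.Dζ h n x‖ ^ 2) := s1.sub s2
    have hint : Integrable fun x => ⟪S.Dζ h (n + 1) x, S.Dz (n + 1) x - S.Dζ h (n + 1) x⟫ := by
      refine (hD1.norm.integrable_mul hw.2.1.norm).mono' (hD1.1.inner hw.2.1.1)
        (ae_of_all _ fun x => ?_)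
      rw [Real.norm_eq_abs]
      exact abs_real_inner_le_norm _ _
    change _ ≤ I0 P x₀ r (fun x => ⟪S.Dζ h (n + 1) x, S.Dz (n + 1) x - S.Dζ h (n + 1) x⟫)
    apply I0_mono (s12.const_mul _) hint
    refine ae_of_all _ fun x => ?_
    rw [S.Dζ_step h n hh x, add_sub_cancel_left, inner_smul_right, inner_sub_right,
      real_inner_self_eq_norm_sq]
    have h6 := norm_sub_sq_real (S.Dζ h (n + 1) x) (S.Dζ h n x)
    have h7 : 0 ≤ ‖S.Dζ h (n + 1) x - S.Dζ h n x‖ ^ 2 := by positivity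
    have h8 : h / (2 * S.δ) = h / S.δ * (1 / 2) := by field_simp
    rw [h8, mul_assoc]
    apply mul_le_mul_of_nonneg_left _ (by positivity)
    linarith
  -- commutator
  have b5 := grad_cs x₀ hr hwm hD1
  rw [e1] at key
  unfold BB Ph
  have b5' := neg_le_of_abs_le b5
  set I1 := I0 P x₀ r (fun x => ‖S.Dζ h (n + 1) x‖ ^ 2)
  set I1' := I0 P x₀ r (fun x => ‖S.Dζ h n x‖ ^ 2)
  set T1 := I0 P x₀ r (fun x => S.ζt h (n + 1) x ^ 2)
  set T1' := I0 P x₀ r (fun x => S.ζt h n x ^ 2)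
  set F3 := I0 P x₀ r (fun x => (S.ζt h (n + 1) x - S.ζt h n x) *
        (S.z (n + 1) x - S.ζ h (n + 1) x))
  set F1 := I0 P x₀ r (fun x => (S.f (n + 1) x - S.fa h (n + 1) x) *
        (S.z (n + 1) x - S.ζ h (n + 1) x))
  set GI := ∫ x, wt P.lam' x₀ r x * ⟪S.Dζ h (n + 1) x, S.Dz (n + 1) x - S.Dζ h (n + 1) x⟫
  set CI := ∫ x, (S.z (n + 1) x - S.ζ h (n + 1) x) *
    ⟪gradient (wt P.lam' x₀ r) x, S.Dζ h (n + 1) x⟫
  set SS := Real.sqrt (I2 P x₀ r (fun x => (S.z (n + 1) x - S.ζ h (n + 1) x) ^ 2)) *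
    Real.sqrt I1
  set FA := I0 P x₀ r (fun x => |S.f (n + 1) x - S.fa h (n + 1) x| *
        |S.z (n + 1) x - S.ζ h (n + 1) x|)
  set AN := AA S h x₀ r (n + 1)
  have k1 : AN = F1 - h / S.δ * F3 - h * GI - h * CI := by
    have : h * (GI + CI) = F1 - AN - h / S.δ * F3 := by
      rw [key]
      field_simp
    linarith
  have k2 : h / S.δ * (h / 2 * (T1 - T1')) ≤ h / S.δ * F3 :=
    mul_le_mul_of_nonneg_left b3 (by positivity)
  have k3 : h * (h / (2 * S.δ) * (I1 - I1')) ≤ h * GI := mul_le_mul_of_nonneg_left b4 hh.le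
  have k4 : h * (-(P.lam' * SS)) ≤ h * CI := mul_le_mul_of_nonneg_left b5' hh.le
  have k5 : (h ^ 2 / 2 * (I1 + T1) - h ^ 2 / 2 * (I1' + T1')) / S.δ =
      h / S.δ * (h / 2 * (T1 - T1')) + h * (h / (2 * S.δ) * (I1 - I1')) := by
    field_simp
    ring
  rw [k5]
  linarith

end step

/-! ### numerical part -/

theorem num1 {θ τ R Q C2 C3 : ℝ} (θ0 : 0 < θ) (θ1 : θ ≤ 1 / 8) (hτ : 1 ≤ τ)
    (hR : R ^ 2 ≤ θ ^ 4 * τ) (hQ : 0 ≤ Q) (hC2 : 0 < C2) (hC3 : 0 < C3) :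
    (1 / τ) * ((θ * τ) ^ 2 / 2 * (C3 / θ * Q + C2 * R ^ 2 / (θ * τ) ^ 2 * Q)) ≤
      (C3 / 2 + C2 / 2) * Real.sqrt θ * (τ * Q) := by
  have hτ0 : 0 < τ := by linarith
  have hs : Real.sqrt θ ^ 2 = θ := Real.sq_sqrt θ0.le
  have hs0 : 0 < Real.sqrt θ := Real.sqrt_pos.2 θ0
  have hs1 : Real.sqrt θ ≤ 1 := Real.sqrt_le_one.2 (by linarith)
  have hθs : θ ≤ Real.sqrt θ := by nlinarith
  have e : (1 / τ) * ((θ * τ) ^ 2 / 2 * (C3 / θ * Q + C2 * R ^ 2 / (θ * τ) ^ 2 * Q)) =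
      C3 / 2 * θ * (τ * Q) + C2 / 2 * (R ^ 2 / τ) * Q := by
    field_simp
  rw [e]
  have h1 : R ^ 2 / τ ≤ θ ^ 4 := by
    rw [div_le_iff₀ hτ0]
    exact hR
  have h2 : θ ^ 4 ≤ θ := by
    have h5 : θ ^ 3 ≤ 1 := pow_le_one₀ θ0.le (by linarith)
    nlinarith
  have h3 : R ^ 2 / τ ≤ Real.sqrt θ := by linarith
  have h4 : Q ≤ τ * Q := by nlinarith
  have h5 : C3 / 2 * θ * (τ * Q) ≤ C3 / 2 * Real.sqrt θ * (τ * Q) := by gcongr
  have h6 : C2 / 2 * (R ^ 2 / τ) * Q ≤ C2 / 2 * Real.sqrt θ * (τ * Q) := by gcongr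
  nlinarith

theorem num2 {p q θ εf C1 W : ℝ} (hpq : q.HolderConjugate p) (hq2 : q < 2) (θ0 : 0 < θ)
    (θ1 : θ ≤ 1 / 8) (hε0 : 0 ≤ εf) (hε : εf ≤ θ ^ 4) (hW : 0 ≤ W) (hC1 : 0 < C1) :
    (C1 * εf * W) ^ (1 / q) * (C1 * W) ^ (1 / p) ≤ C1 * Real.sqrt θ * W := by
  have hq0 : 0 < q := hpq.pos
  have hs : Real.sqrt θ ^ 2 = θ := Real.sq_sqrt θ0.le
  have hs0 : 0 < Real.sqrt θ := Real.sqrt_pos.2 θ0
  have hs1 : Real.sqrt θ ≤ 1 := Real.sqrt_le_one.2 (by linarith)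
  have e : (C1 * εf * W) ^ (1 / q) * (C1 * W) ^ (1 / p) = εf ^ (1 / q) * (C1 * W) := by
    rw [show C1 * εf * W = εf * (C1 * W) by ring, Real.mul_rpow hε0 (by positivity), mul_assoc,
      ← Real.rpow_add_of_nonneg (by positivity) (by positivity)
        (one_div_nonneg.2 hpq.symm.pos.le), one_div, one_div, hpq.inv_add_inv_eq_one, Real.rpow_one]
  rw [e]
  have h1 : εf ^ (1 / q) ≤ θ := by
    have h2 : εf ^ (1 / q) ≤ (θ ^ 4) ^ (1 / q) := Real.rpow_le_rpow hε0 hε (by positivity)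
    refine h2.trans ?_
    rw [← Real.rpow_natCast, ← Real.rpow_mul θ0.le]
    have h3 : (1:ℝ) ≤ ((4 : ℕ) : ℝ) * (1 / q) := by
      rw [mul_one_div, le_div_iff₀ hq0]
      push_cast
      linarith
    calc θ ^ (((4 : ℕ) : ℝ) * (1 / q)) ≤ θ ^ (1:ℝ) :=
          Real.rpow_le_rpow_of_exponent_ge θ0 (by linarith) h3
      _ = θ := Real.rpow_one θ
  have h4 : θ ≤ Real.sqrt θ := by nlinarith
  calc εf ^ (1 / q) * (C1 * W) ≤ Real.sqrt θ * (C1 * W) :=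
        mul_le_mul_of_nonneg_right (h1.trans h4) (by positivity)
    _ = _ := by ring

theorem num3 {θ τ Q C1 C3 l : ℝ} (θ0 : 0 < θ) (hQ : 0 ≤ Q) (hC1 : 0 < C1) (hC3 : 0 < C3) :
    θ * τ * l * (Real.sqrt (C1 * Q) * Real.sqrt (C3 / θ * Q)) =
      l * Real.sqrt (C1 * C3) * Real.sqrt θ * (τ * Q) := by
  have hs : Real.sqrt θ ^ 2 = θ := Real.sq_sqrt θ0.le
  have hs0 : 0 < Real.sqrt θ := Real.sqrt_pos.2 θ0
  have e : Real.sqrt (C1 * Q) * Real.sqrt (C3 / θ * Q) = Real.sqrt (C1 * C3) / Real.sqrt θ * Q := by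
    rw [← Real.sqrt_mul (by positivity), show C1 * Q * (C3 / θ * Q) = C1 * C3 / θ * Q ^ 2 by ring,
      Real.sqrt_mul (by positivity), Real.sqrt_sq hQ, Real.sqrt_div (by positivity)]
  rw [e]
  field_simp
  rw [hs]
  ring

end M13

theorem est3 (P : Par) : ∃ C : ℝ, 0 < C ∧ ∀ (Ω : Set (E P.N)) (S : Sol P Ω) (R : ℝ) (n1 : ℕ)
    (τ A εf θ : ℝ) (X : ℕ → ℝ), Hyp S R n1 τ A εf X → Small R τ εf θ →
    ∀ n ≤ n1, ∀ x₀ r, Adm R x₀ r →
    avg S.δ τ (fun m => I0 P x₀ r (fun x => (g P.p (S.z m x) - S.Γ (θ * τ) m x) *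
      (S.z m x - S.ζ (θ * τ) m x))) n ≤ C * θ ^ (1 / 2 : ℝ) * X n * r ^ P.lam ∧
    avg S.δ τ (fun m => I0 P x₀ r (S.Cv (θ * τ) m)) n ≤
      C * θ ^ (1 / 2 : ℝ) * X n * r ^ P.lam := by
  obtain ⟨C1, hC1, E1⟩ := est1b P
  obtain ⟨C2, hC2, E2⟩ := est1c P
  obtain ⟨C3, hC3, E3⟩ := est2 P
  have hl := P.lam'_pos
  set D : ℝ := C3 / 2 + C2 / 2 + C1 + P.lam' * Real.sqrt (C1 * C3) with hD
  have hD0 : 0 < D := by positivity
  refine ⟨4 * D, by positivity, ?_⟩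
  intro Ω S R n1 τ A εf θ X H K n hn x₀ r hr
  obtain ⟨hτ, hh, h2h, h1h⟩ := M13.small_facts H K
  have hδ := S.δ_pos
  have hδ1 := S.δ_le
  have hX := M13.X_pos H hn
  have hrl : 0 < r ^ P.lam := Real.rpow_pos_of_pos hr.2.1 _
  have hθ0 := K.θ0
  have hs0 : 0 < Real.sqrt θ := Real.sqrt_pos.2 hθ0
  set Q : ℝ := X n / τ * r ^ P.lam with hQ
  have hQ0 : 0 < Q := by positivity
  have hWQ : X n * r ^ P.lam = τ * Q := by
    rw [hQ]
    field_simp
  obtain ⟨_, _, b1, b2, _, b3⟩ := E1 Ω S R n1 τ A εf X H (θ * τ) hh h2h n hn x₀ r hr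
  obtain ⟨_, _, b4, _, _⟩ := E2 Ω S R n1 τ A εf X H (θ * τ) hh h2h n hn x₀ r hr
  have b5 := E3 Ω S R n1 τ A εf θ X H K n hn x₀ r hr
  -- average of the kinetic functional
  have hPh : avg S.δ τ (M13.Ph S (θ * τ) x₀ r) n ≤
      (θ * τ) ^ 2 / 2 * (C3 / θ * Q + C2 * R ^ 2 / (θ * τ) ^ 2 * Q) := by
    unfold M13.Ph
    rw [avg_mul_left, avg_add]
    apply mul_le_mul_of_nonneg_left _ (by positivity)
    apply add_le_add
    · calc _ ≤ _ := b5
        _ = _ := by rw [hQ]; ring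
    · calc _ ≤ _ := b4
        _ = _ := by rw [hQ]; ring
  -- average of the right side
  have hBB : avg S.δ τ (M13.BB S (θ * τ) x₀ r) n ≤ C1 * Real.sqrt θ * (τ * Q) +
      P.lam' * Real.sqrt (C1 * C3) * Real.sqrt θ * (τ * Q) := by
    unfold M13.BB
    rw [avg_add, avg_mul_left]
    apply add_le_add
    · have i0 : ∀ m, 0 ≤ I0 P x₀ r (fun x => |S.f m x - S.fa (θ * τ) m x| ^ P.q) :=
        fun m => I0_nonneg fun x => by positivity
      have i1 : ∀ m, 0 ≤ I0 P x₀ r (fun x => |S.z m x - S.ζ (θ * τ) m x| ^ P.p) :=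
        fun m => I0_nonneg fun x => by positivity
      have j1 : ∀ m, I0 P x₀ r (fun x => |S.f m x - S.fa (θ * τ) m x| *
          |S.z m x - S.ζ (θ * τ) m x|) ≤
          (I0 P x₀ r (fun x => |S.f m x - S.fa (θ * τ) m x| ^ P.q)) ^ (1 / P.q) *
          (I0 P x₀ r (fun x => |S.z m x - S.ζ (θ * τ) m x| ^ P.p)) ^ (1 / P.p) := fun m =>
        I0_holder ((S.hf m).sub (S.hfa _ m)).1 ((S.hz m).1.sub (S.hζ _ m).1).1
          (S.ffaq (θ * τ) m hh H.hΩ) (S.zζp (θ * τ) m hh)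
      refine (avg_mono hδ hτ fun m _ _ => j1 m).trans ?_
      refine (avg_holder hδ hτ P.holder.symm i0 i1).trans ?_
      have k1 : avg S.δ τ (fun m => I0 P x₀ r
          (fun x => |S.f m x - S.fa (θ * τ) m x| ^ P.q)) n ≤ C1 * εf * (τ * Q) := by
        rw [← hWQ, ← mul_assoc]
        exact b2
      have k2 : avg S.δ τ (fun m => I0 P x₀ r
          (fun x => |S.z m x - S.ζ (θ * τ) m x| ^ P.p)) n ≤ C1 * (τ * Q) := by
        rw [← hWQ, ← mul_assoc]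
        exact b1
      have hq0 : 0 < P.q := by linarith [P.q_gt_one]
      have hp0 : 0 < P.p := by linarith [P.two_lt_p]
      refine le_trans (mul_le_mul (Real.rpow_le_rpow (avg_nonneg hδ hτ fun m _ _ => i0 m) k1
        (by positivity)) (Real.rpow_le_rpow (avg_nonneg hδ hτ fun m _ _ => i1 m) k2
        (by positivity)) (Real.rpow_nonneg (avg_nonneg hδ hτ fun m _ _ => i1 m) _)
        (Real.rpow_nonneg ?_ _)) ?_
      · have := H.εf0
        positivity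
      · exact M13.num2 P.holder.symm P.q_lt_two hθ0 K.θ1 H.εf0 K.hε (by positivity) hC1
    · have i0 : ∀ m, 0 ≤ I2 P x₀ r (fun x => (S.z m x - S.ζ (θ * τ) m x) ^ 2) :=
        fun m => I2_nonneg fun x => by positivity
      have i1 : ∀ m, 0 ≤ I0 P x₀ r (fun x => ‖S.Dζ (θ * τ) m x‖ ^ 2) :=
        fun m => I0_nonneg fun x => by positivity
      have j1 := avg_cs (n := n) hδ hτ i0 i1
      have k1 : avg S.δ τ (fun m => I2 P x₀ r (fun x => (S.z m x - S.ζ (θ * τ) m x) ^ 2)) n ≤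
          C1 * Q := by
        rw [hQ, ← mul_assoc]
        exact b3
      have k2 : avg S.δ τ (fun m => I0 P x₀ r (fun x => ‖S.Dζ (θ * τ) m x‖ ^ 2)) n ≤
          C3 / θ * Q := by
        rw [hQ, ← mul_assoc]
        exact b5
      rw [← M13.num3 (τ := τ) hθ0 hQ0.le hC1 hC3]
      apply mul_le_mul_of_nonneg_left _ (by positivity)
      refine j1.trans ?_
      exact mul_le_mul (Real.sqrt_le_sqrt k1) (Real.sqrt_le_sqrt k2) (Real.sqrt_nonneg _)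
        (Real.sqrt_nonneg _)
  -- the averaged inequality
  have hPh0 : M13.Ph S (θ * τ) x₀ r 0 = 0 := by
    have e1 : ∀ x, S.Dζ (θ * τ) 0 x = 0 := fun x => rfl
    have e2 : ∀ x, S.ζt (θ * τ) 0 x = 0 := fun x => by
      unfold Sol.ζt
      rw [S.z_zero x]
      have : S.ζ (θ * τ) 0 x = 0 := rfl
      rw [this]
      simp
    unfold M13.Ph
    simp only [e1, e2]
    simp [I0]
  have hPhn : 0 ≤ M13.Ph S (θ * τ) x₀ r n := by
    unfold M13.Ph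
    have i1 : 0 ≤ I0 P x₀ r (fun x => ‖S.Dζ (θ * τ) n x‖ ^ 2) :=
      I0_nonneg fun x => by positivity
    have i2 : 0 ≤ I0 P x₀ r (fun x => S.ζt (θ * τ) n x ^ 2) :=
      I0_nonneg fun x => by positivity
    positivity
  have hav := avg_ineq (n1 := n1) (A := M13.AA S (θ * τ) x₀ r) (B := M13.BB S (θ * τ) x₀ r)
    hδ hτ hPh0 (fun m _ => M13.step_ineq S (θ * τ) x₀ r hh hr.2.1 m) n hn
  have hAA : avg S.δ τ (M13.AA S (θ * τ) x₀ r) n ≤ D * Real.sqrt θ * (τ * Q) := by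
    have h1 : τ * avg S.δ τ (M13.AA S (θ * τ) x₀ r) n ≤
        avg S.δ τ (M13.Ph S (θ * τ) x₀ r) n + τ * avg S.δ τ (M13.BB S (θ * τ) x₀ r) n := by
      linarith
    have h2 : avg S.δ τ (M13.AA S (θ * τ) x₀ r) n ≤
        (1 / τ) * avg S.δ τ (M13.Ph S (θ * τ) x₀ r) n +
          avg S.δ τ (M13.BB S (θ * τ) x₀ r) n := by
      have h3 : (1 / τ) * (τ * avg S.δ τ (M13.AA S (θ * τ) x₀ r) n) ≤
          (1 / τ) * (avg S.δ τ (M13.Ph S (θ * τ) x₀ r) n +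
            τ * avg S.δ τ (M13.BB S (θ * τ) x₀ r) n) :=
        mul_le_mul_of_nonneg_left h1 (by positivity)
      have e3 : (1 / τ) * (τ * avg S.δ τ (M13.AA S (θ * τ) x₀ r) n) =
          avg S.δ τ (M13.AA S (θ * τ) x₀ r) n := by field_simp
      have e4 : (1 / τ) * (avg S.δ τ (M13.Ph S (θ * τ) x₀ r) n +
            τ * avg S.δ τ (M13.BB S (θ * τ) x₀ r) n) =
          (1 / τ) * avg S.δ τ (M13.Ph S (θ * τ) x₀ r) n +
            avg S.δ τ (M13.BB S (θ * τ) x₀ r) n := by field_simp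
      rw [e3, e4] at h3
      exact h3
    have h4 : (1 / τ) * avg S.δ τ (M13.Ph S (θ * τ) x₀ r) n ≤
        (C3 / 2 + C2 / 2) * Real.sqrt θ * (τ * Q) :=
      (mul_le_mul_of_nonneg_left hPh (by positivity)).trans
        (M13.num1 hθ0 K.θ1 H.τ1 K.hτ hQ0.le hC2 hC3)
    rw [hD]
    nlinarith
  rw [← Real.sqrt_eq_rpow]
  have hfin : D * Real.sqrt θ * (τ * Q) = D * Real.sqrt θ * X n * r ^ P.lam := by
    rw [← hWQ]
    ring
  constructor
  · refine (le_trans hAA ?_)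
    rw [hfin]
    have : 0 < D * Real.sqrt θ * X n * r ^ P.lam := by positivity
    nlinarith
  · -- the covariance
    set V : ℕ → ℝ := fun m => I0 P x₀ r (S.Cv (θ * τ) m) with hV
    have hV0 : V 0 = 0 := by
      have e1 : ∀ x, S.Cv (θ * τ) 0 x = 0 := fun x => by
        unfold Sol.Cv
        have a1 : S.Za (θ * τ) 0 x = 0 := rfl
        have a2 : S.Γ (θ * τ) 0 x = 0 := rfl
        rw [a1, a2]
        simp
      simp only [hV, I0]
      simp [e1]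
    have hVn : ∀ m, 0 ≤ V m := fun m => I0_nonneg fun x =>
      pt_ca_nonneg P hδ hh (fun k => S.z k x) m
    have hstep : ∀ m, θ * τ * ((V (m + 1) - V m) / S.δ) + V (m + 1) =
        (θ * τ + S.δ) / (θ * τ) * M13.AA S (θ * τ) x₀ r (m + 1) := by
      intro m
      have c1 := S.Cv_int (θ * τ) (m + 1) hh
      have c0 := S.Cv_int (θ * τ) m hh
      have ci : Integrable (fun x => S.Cv (θ * τ) (m + 1) x - S.Cv (θ * τ) m x) := c1.sub c0
      have hpt : ∀ x, θ * τ / S.δ * (S.Cv (θ * τ) (m + 1) x - S.Cv (θ * τ) m x) +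
          S.Cv (θ * τ) (m + 1) x = (θ * τ + S.δ) / (θ * τ) *
          ((g P.p (S.z (m + 1) x) - S.Γ (θ * τ) (m + 1) x) *
            (S.z (m + 1) x - S.ζ (θ * τ) (m + 1) x)) := by
        intro x
        have := pt_ca_step P hδ hh (fun k => S.z k x) m
        have e : θ * τ / S.δ * (S.Cv (θ * τ) (m + 1) x - S.Cv (θ * τ) m x) =
            θ * τ * ((S.Cv (θ * τ) (m + 1) x - S.Cv (θ * τ) m x) / S.δ) := by ring
        rw [e]
        exact this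
      have e1 : θ * τ * ((V (m + 1) - V m) / S.δ) + V (m + 1) =
          I0 P x₀ r (fun x => θ * τ / S.δ * (S.Cv (θ * τ) (m + 1) x - S.Cv (θ * τ) m x) +
          S.Cv (θ * τ) (m + 1) x) := by
        rw [I0_add (ci.const_mul _) c1, I0_mul, I0_sub c1 c0]
        simp only [hV]
        ring
      rw [e1]
      unfold M13.AA
      rw [← I0_mul]
      congr 1
      funext x
      exact hpt x
    have hav2 : avg S.δ τ (fun m => θ * τ * ((V m - V (m - 1)) / S.δ) + V m) n =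
        (θ * τ + S.δ) / (θ * τ) * avg S.δ τ (M13.AA S (θ * τ) x₀ r) n := by
      rw [← avg_mul_left]
      apply avg_congr
      intro m hm _
      obtain ⟨k, rfl⟩ : ∃ k, m = k + 1 := ⟨m - 1, by omega⟩
      rw [Nat.add_sub_cancel]
      exact hstep k
    rw [avg_add, avg_mul_left, avg_D hδ hτ hV0] at hav2
    have hratio : (θ * τ + S.δ) / (θ * τ) ≤ 2 := by
      rw [div_le_iff₀ hh]
      linarith
    have hratio0 : 0 ≤ (θ * τ + S.δ) / (θ * τ) := by positivity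
    have hDpos : 0 ≤ D * Real.sqrt θ * (τ * Q) := by positivity
    have h5 : (θ * τ + S.δ) / (θ * τ) * avg S.δ τ (M13.AA S (θ * τ) x₀ r) n ≤
        2 * (D * Real.sqrt θ * (τ * Q)) :=
      (mul_le_mul_of_nonneg_left hAA hratio0).trans (mul_le_mul_of_nonneg_right hratio hDpos)
    have e5 : θ * τ * ((V n - avg S.δ τ V n) / τ) = θ * V n - θ * avg S.δ τ V n := by
      field_simp
    rw [e5] at hav2
    have hVn' := hVn n
    have hθ1 := K.θ1
    have h6 : (1 - θ) * avg S.δ τ V n ≤ 2 * (D * Real.sqrt θ * (τ * Q)) := by nlinarith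
    have hVa : 0 ≤ avg S.δ τ V n := avg_nonneg hδ hτ fun m _ _ => hVn m
    have h7 : avg S.δ τ V n ≤ 4 * (D * Real.sqrt θ * (τ * Q)) := by nlinarith
    refine h7.trans (le_of_eq ?_)
    rw [hfin]
    ring

namespace M13

/-- pointwise bound of the oscillation -/
theorem pt_osc (P : Par) : ∃ C : ℝ, 0 < C ∧ ∀ (δ h : ℝ), 0 < δ → 0 < h → ∀ (a : ℕ → ℝ) (n : ℕ)
    (θ : ℝ), 0 < θ → θ ≤ 1 →
    |a n - za δ h a n| ^ P.p ≤ C * ((g P.p (a n) - ga P δ h a n) * (a n - za δ h a n) +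
      C * (θ ^ (1 / 4 : ℝ) * pa P δ h a n +
        θ ^ (1 / 4 : ℝ) * (θ ^ (-(1 / 2) : ℝ) * ca P δ h a n))) := by
  obtain ⟨c, hc, h1⟩ := g_strong P
  obtain ⟨C1, hC1, h2⟩ := young_p P (ε := c / 2) (by positivity)
  obtain ⟨C2, hC2, h3⟩ := pt_gz P
  have hq1 := P.q_gt_one
  have hq2 := P.q_lt_two
  set C : ℝ := 2 / c + C1 * C2 with hC
  have hC0 : 0 < C := by positivity
  refine ⟨C, hC0, ?_⟩
  intro δ h hδ hh a n θ hθ hθ1
  have k1 := h1 (a n) (za δ h a n)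
  have k2 := h2 (a n - za δ h a n) (g P.p (za δ h a n) - ga P δ h a n)
  have k3 := h3 δ h hδ hh a n
  have hca := pt_ca_nonneg P hδ hh a n
  have hpa : 0 ≤ pa P δ h a n := by
    have := pt_ca_le P hδ hh a n
    linarith
  -- Young
  have k4 : pa P δ h a n ^ (1 - P.q / 2) * ca P δ h a n ^ (P.q / 2) ≤
      θ ^ (1 / 4 : ℝ) * pa P δ h a n + θ ^ (1 / 4 : ℝ) * (θ ^ (-(1 / 2) : ℝ) * ca P δ h a n) := by
    set t := P.q / 2 with ht
    have ht0 : 1 / 2 < t := by linarith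
    have ht1 : t < 1 := by linarith
    have y1 := Real.geom_mean_le_arith_mean2_weighted (w₁ := 1 - t) (w₂ := t)
      (p₁ := θ ^ (1 / 2 : ℝ) * pa P δ h a n) (p₂ := ca P δ h a n) (by linarith) (by linarith)
      (by positivity) hca (by ring)
    have e1 : pa P δ h a n ^ (1 - t) * ca P δ h a n ^ t =
        θ ^ (-((1 - t) / 2)) * ((θ ^ (1 / 2 : ℝ) * pa P δ h a n) ^ (1 - t) *
          ca P δ h a n ^ t) := by
      rw [Real.mul_rpow (by positivity) hpa, ← Real.rpow_mul hθ.le, ← mul_assoc, ← mul_assoc,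
        ← Real.rpow_add hθ]
      have : -((1 - t) / 2) + 1 / 2 * (1 - t) = 0 := by ring
      rw [this, Real.rpow_zero, one_mul]
    have e2 : θ ^ (-((1 - t) / 2)) * ((1 - t) * (θ ^ (1 / 2 : ℝ) * pa P δ h a n) +
        t * ca P δ h a n) ≤ θ ^ (-((1 - t) / 2)) * (θ ^ (1 / 2 : ℝ) * pa P δ h a n +
        ca P δ h a n) := by
      apply mul_le_mul_of_nonneg_left _ (by positivity)
      have : 0 ≤ θ ^ (1 / 2 : ℝ) * pa P δ h a n := by positivity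
      nlinarith
    have e3 : θ ^ (-((1 - t) / 2)) * (θ ^ (1 / 2 : ℝ) * pa P δ h a n + ca P δ h a n) =
        θ ^ (t / 2) * pa P δ h a n + θ ^ (t / 2) * (θ ^ (-(1 / 2) : ℝ) * ca P δ h a n) := by
      rw [mul_add, ← mul_assoc, ← mul_assoc, ← Real.rpow_add hθ, ← Real.rpow_add hθ]
      congr 3 <;> ring
    have e4 : θ ^ (t / 2) ≤ θ ^ (1 / 4 : ℝ) :=
      Real.rpow_le_rpow_of_exponent_ge hθ hθ1 (by linarith)
    rw [e1]
    refine (mul_le_mul_of_nonneg_left y1 (by positivity)).trans (e2.trans ?_)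
    rw [e3]
    have : 0 ≤ θ ^ (-(1 / 2) : ℝ) * ca P δ h a n := by positivity
    exact add_le_add (mul_le_mul_of_nonneg_right e4 hpa) (mul_le_mul_of_nonneg_right e4 this)
  set Z := |a n - za δ h a n| ^ P.p with hZ
  set F := (g P.p (a n) - ga P δ h a n) * (a n - za δ h a n) with hF
  set Y := θ ^ (1 / 4 : ℝ) * pa P δ h a n +
    θ ^ (1 / 4 : ℝ) * (θ ^ (-(1 / 2) : ℝ) * ca P δ h a n) with hY
  have k5 : (g P.p (a n) - g P.p (za δ h a n)) * (a n - za δ h a n) =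
      F - (g P.p (za δ h a n) - ga P δ h a n) * (a n - za δ h a n) := by
    rw [hF]
    ring
  have k6 : -((g P.p (za δ h a n) - ga P δ h a n) * (a n - za δ h a n)) ≤
      |a n - za δ h a n| * |g P.p (za δ h a n) - ga P δ h a n| := by
    rw [← abs_mul, mul_comm (a n - za δ h a n)]
    exact neg_le_abs _
  have k7 : |g P.p (za δ h a n) - ga P δ h a n| ^ P.q ≤ C2 * Y := by
    refine k3.trans ?_
    rw [mul_assoc]
    exact mul_le_mul_of_nonneg_left k4 hC2.le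
  have k8 : c / 2 * Z ≤ F + C1 * C2 * Y := by
    have : C1 * |g P.p (za δ h a n) - ga P δ h a n| ^ P.q ≤ C1 * (C2 * Y) :=
      mul_le_mul_of_nonneg_left k7 hC1.le
    rw [k5] at k1
    linarith
  have hY0 : 0 ≤ Y := by positivity
  have hZ0 : 0 ≤ Z := by positivity
  have k9 : Z ≤ 2 / c * (F + C1 * C2 * Y) := by
    rw [div_mul_eq_mul_div, le_div_iff₀ hc]
    linarith
  have hFC : 0 ≤ F + C * Y := by
    have : C1 * C2 * Y ≤ C * Y := by
      apply mul_le_mul_of_nonneg_right _ hY0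
      rw [hC]
      have : 0 < 2 / c := by positivity
      linarith
    have : 0 ≤ c / 2 * Z := by positivity
    linarith
  have k10 : 2 / c * (F + C1 * C2 * Y) ≤ 2 / c * (F + C * Y) := by
    apply mul_le_mul_of_nonneg_left _ (by positivity)
    have : C1 * C2 * Y ≤ C * Y := by
      apply mul_le_mul_of_nonneg_right _ hY0
      rw [hC]
      have : 0 < 2 / c := by positivity
      linarith
    linarith
  have k11 : 2 / c * (F + C * Y) ≤ C * (F + C * Y) := by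
    apply mul_le_mul_of_nonneg_right _ hFC
    rw [hC]
    have : 0 < C1 * C2 := by positivity
    linarith
  linarith

end M13

theorem est4 (P : Par) : ∃ C : ℝ, 0 < C ∧ ∀ (Ω : Set (E P.N)) (S : Sol P Ω) (R : ℝ) (n1 : ℕ)
    (τ A εf θ : ℝ) (X : ℕ → ℝ), Hyp S R n1 τ A εf X → Small R τ εf θ →
    ∀ n ≤ n1, ∀ x₀ r, Adm R x₀ r →
    avg S.δ τ (fun m => I0 P x₀ r (fun x => |S.z m x - S.ζ (θ * τ) m x| ^ P.p)) n ≤
      C * θ ^ (1 / 4 : ℝ) * X n * r ^ P.lam ∧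
    avg S.δ τ (fun m => I2 P x₀ r (fun x => (S.z m x - S.ζ (θ * τ) m x) ^ 2)) n ≤
      C * θ ^ (1 / (2 * P.p)) * (X n / τ) * r ^ P.lam := by
  obtain ⟨C1, hC1, E1⟩ := est1b P
  obtain ⟨C2, hC2, E2⟩ := est3 P
  obtain ⟨C3, hC3, E3⟩ := M13.pt_osc P
  obtain ⟨C4, hC4, E4⟩ := holder_two P
  have hp2 := P.two_lt_p
  have hp0 : 0 < P.p := by linarith
  set D : ℝ := C3 * (C2 + C3 * (C1 + C2)) with hD
  have hD0 : 0 < D := by positivity
  set D2 : ℝ := C4 * D ^ (2 / P.p) with hD2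
  have hD20 : 0 < D2 := by positivity
  refine ⟨D + D2, by positivity, ?_⟩
  intro Ω S R n1 τ A εf θ X H K n hn x₀ r hr
  obtain ⟨hτ, hh, h2h, h1h⟩ := M13.small_facts H K
  have hδ := S.δ_pos
  have hX := M13.X_pos H hn
  have hrl : 0 < r ^ P.lam := Real.rpow_pos_of_pos hr.2.1 _
  have hθ0 := K.θ0
  have hθ1 : θ ≤ 1 := by linarith [K.θ1]
  obtain ⟨a1, _, _, _, _, _⟩ := E1 Ω S R n1 τ A εf X H (θ * τ) hh h2h n hn x₀ r hr
  obtain ⟨a2, a3⟩ := E2 Ω S R n1 τ A εf θ X H K n hn x₀ r hr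
  have hpt : ∀ m x, |S.z m x - S.ζ (θ * τ) m x| ^ P.p ≤
      C3 * ((g P.p (S.z m x) - S.Γ (θ * τ) m x) * (S.z m x - S.ζ (θ * τ) m x) +
      C3 * (θ ^ (1 / 4 : ℝ) * S.Za (θ * τ) m x +
        θ ^ (1 / 4 : ℝ) * (θ ^ (-(1 / 2) : ℝ) * S.Cv (θ * τ) m x))) :=
    fun m x => E3 S.δ (θ * τ) hδ hh (fun k => S.z k x) m θ hθ0 hθ1
  have hI : ∀ m, I0 P x₀ r (fun x => |S.z m x - S.ζ (θ * τ) m x| ^ P.p) ≤
      C3 * (I0 P x₀ r (fun x => (g P.p (S.z m x) - S.Γ (θ * τ) m x) *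
        (S.z m x - S.ζ (θ * τ) m x)) + C3 * (θ ^ (1 / 4 : ℝ) * I0 P x₀ r (S.Za (θ * τ) m) +
        θ ^ (1 / 4 : ℝ) * (θ ^ (-(1 / 2) : ℝ) * I0 P x₀ r (S.Cv (θ * τ) m)))) := by
    intro m
    have i1 : Integrable (fun x => (g P.p (S.z m x) - S.Γ (θ * τ) m x) *
        (S.z m x - S.ζ (θ * τ) m x)) :=
      Sol.mul_int ((S.hg m).sub (S.hΓ _ m)) ((S.hz m).1.sub (S.hζ _ m).1)
    have i2 : Integrable (fun x => θ ^ (1 / 4 : ℝ) * S.Za (θ * τ) m x) :=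
      (S.Za_int (θ * τ) m).const_mul _
    have i3 : Integrable (fun x => θ ^ (-(1 / 2) : ℝ) * S.Cv (θ * τ) m x) :=
      (S.Cv_int (θ * τ) m hh).const_mul _
    have i4 : Integrable (fun x => θ ^ (1 / 4 : ℝ) * (θ ^ (-(1 / 2) : ℝ) * S.Cv (θ * τ) m x)) :=
      i3.const_mul _
    have i5 : Integrable (fun x => θ ^ (1 / 4 : ℝ) * S.Za (θ * τ) m x +
        θ ^ (1 / 4 : ℝ) * (θ ^ (-(1 / 2) : ℝ) * S.Cv (θ * τ) m x)) := i2.add i4
    have i6 : Integrable (fun x => C3 * (θ ^ (1 / 4 : ℝ) * S.Za (θ * τ) m x +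
        θ ^ (1 / 4 : ℝ) * (θ ^ (-(1 / 2) : ℝ) * S.Cv (θ * τ) m x))) := i5.const_mul _
    have e : C3 * (I0 P x₀ r (fun x => (g P.p (S.z m x) - S.Γ (θ * τ) m x) *
        (S.z m x - S.ζ (θ * τ) m x)) + C3 * (θ ^ (1 / 4 : ℝ) * I0 P x₀ r (S.Za (θ * τ) m) +
        θ ^ (1 / 4 : ℝ) * (θ ^ (-(1 / 2) : ℝ) * I0 P x₀ r (S.Cv (θ * τ) m)))) =
      I0 P x₀ r (fun x => C3 * ((g P.p (S.z m x) - S.Γ (θ * τ) m x) *
        (S.z m x - S.ζ (θ * τ) m x) +
      C3 * (θ ^ (1 / 4 : ℝ) * S.Za (θ * τ) m x +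
        θ ^ (1 / 4 : ℝ) * (θ ^ (-(1 / 2) : ℝ) * S.Cv (θ * τ) m x)))) := by
      rw [I0_mul, I0_add i1 i6, I0_mul, I0_add i2 i4, I0_mul, I0_mul, I0_mul]
    rw [e]
    have i7 : Integrable (fun x => (g P.p (S.z m x) - S.Γ (θ * τ) m x) *
        (S.z m x - S.ζ (θ * τ) m x) +
      C3 * (θ ^ (1 / 4 : ℝ) * S.Za (θ * τ) m x +
        θ ^ (1 / 4 : ℝ) * (θ ^ (-(1 / 2) : ℝ) * S.Cv (θ * τ) m x))) := i1.add i6
    exact I0_mono (S.zζp (θ * τ) m hh) (i7.const_mul _) (ae_of_all _ fun x => hpt m x)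
  have hmain : avg S.δ τ (fun m => I0 P x₀ r (fun x => |S.z m x - S.ζ (θ * τ) m x| ^ P.p)) n ≤
      D * θ ^ (1 / 4 : ℝ) * X n * r ^ P.lam := by
    refine (avg_mono hδ hτ fun m _ _ => hI m).trans ?_
    rw [avg_mul_left, avg_add, avg_mul_left, avg_add, avg_mul_left, avg_mul_left, avg_mul_left]
    have e1 : θ ^ (1 / 2 : ℝ) ≤ θ ^ (1 / 4 : ℝ) :=
      Real.rpow_le_rpow_of_exponent_ge hθ0 hθ1 (by norm_num)
    have e2 : θ ^ (-(1 / 2) : ℝ) * θ ^ (1 / 2 : ℝ) = 1 := by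
      rw [← Real.rpow_add hθ0]
      norm_num
    have hW : 0 < X n * r ^ P.lam := by positivity
    have f1 : avg S.δ τ (fun m => I0 P x₀ r (fun x => (g P.p (S.z m x) - S.Γ (θ * τ) m x) *
      (S.z m x - S.ζ (θ * τ) m x))) n ≤ C2 * θ ^ (1 / 4 : ℝ) * (X n * r ^ P.lam) := by
      refine a2.trans ?_
      rw [mul_assoc]
      gcongr
    have f2 : θ ^ (1 / 4 : ℝ) * avg S.δ τ (fun m => I0 P x₀ r (S.Za (θ * τ) m)) n ≤
        C1 * θ ^ (1 / 4 : ℝ) * (X n * r ^ P.lam) := by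
      have := mul_le_mul_of_nonneg_left a1 (Real.rpow_nonneg hθ0.le (1 / 4 : ℝ))
      refine this.trans (le_of_eq ?_)
      ring
    have f3 : θ ^ (1 / 4 : ℝ) * (θ ^ (-(1 / 2) : ℝ) *
        avg S.δ τ (fun m => I0 P x₀ r (S.Cv (θ * τ) m)) n) ≤
        C2 * θ ^ (1 / 4 : ℝ) * (X n * r ^ P.lam) := by
      have h1 := mul_le_mul_of_nonneg_left a3 (Real.rpow_nonneg hθ0.le (-(1 / 2) : ℝ))
      have h2 : θ ^ (-(1 / 2) : ℝ) * (C2 * θ ^ (1 / 2 : ℝ) * X n * r ^ P.lam) =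
          C2 * (X n * r ^ P.lam) := by
        calc _ = (θ ^ (-(1 / 2) : ℝ) * θ ^ (1 / 2 : ℝ)) * (C2 * (X n * r ^ P.lam)) := by ring
          _ = _ := by rw [e2, one_mul]
      rw [h2] at h1
      have := mul_le_mul_of_nonneg_left h1 (Real.rpow_nonneg hθ0.le (1 / 4 : ℝ))
      refine this.trans (le_of_eq ?_)
      ring
    have f4 : D * θ ^ (1 / 4 : ℝ) * X n * r ^ P.lam =
        C3 * (C2 * θ ^ (1 / 4 : ℝ) * (X n * r ^ P.lam) +
          C3 * (C1 * θ ^ (1 / 4 : ℝ) * (X n * r ^ P.lam) +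
          C2 * θ ^ (1 / 4 : ℝ) * (X n * r ^ P.lam))) := by
      rw [hD]
      ring
    rw [f4]
    gcongr
  have hz0 : ∀ m, 0 ≤ I0 P x₀ r (fun x => |S.z m x - S.ζ (θ * τ) m x| ^ P.p) :=
    fun m => I0_nonneg fun x => by positivity
  constructor
  · refine hmain.trans ?_
    have : 0 ≤ θ ^ (1 / 4 : ℝ) * (X n * r ^ P.lam) := by positivity
    nlinarith
  · have g1 : ∀ m, I2 P x₀ r (fun x => (S.z m x - S.ζ (θ * τ) m x) ^ 2) ≤
        C4 * (r ^ P.lam) ^ (1 / P.s) *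
          (I0 P x₀ r (fun x => |S.z m x - S.ζ (θ * τ) m x| ^ P.p)) ^ (2 / P.p) := fun m =>
      E4 x₀ r hr.2.1 _ ((S.hz m).1.sub (S.hζ _ m).1).1 (S.zζp (θ * τ) m hh)
    refine (avg_mono hδ hτ fun m _ _ => g1 m).trans ?_
    rw [avg_mul_left]
    have hpow : (2 / P.p) ≤ 1 := by
      rw [div_le_one hp0]
      exact hp2.le
    have g2 := avg_rpow_le (n := n) hδ hτ (r := 2 / P.p) (by positivity) hpow hz0
    have g3 : (avg S.δ τ (fun m => I0 P x₀ r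
        (fun x => |S.z m x - S.ζ (θ * τ) m x| ^ P.p)) n) ^ (2 / P.p) ≤
        (D * θ ^ (1 / 4 : ℝ) * X n * r ^ P.lam) ^ (2 / P.p) :=
      Real.rpow_le_rpow (avg_nonneg hδ hτ fun m _ _ => hz0 m) hmain (by positivity)
    have g4 : (D * θ ^ (1 / 4 : ℝ) * X n * r ^ P.lam) ^ (2 / P.p) =
        D ^ (2 / P.p) * θ ^ (1 / (2 * P.p)) * X n ^ (2 / P.p) * (r ^ P.lam) ^ (2 / P.p) := by
      rw [Real.mul_rpow (by positivity) hrl.le, Real.mul_rpow (by positivity) hX.le,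
        Real.mul_rpow hD0.le (by positivity), ← Real.rpow_mul hθ0.le]
      congr 4
      field_simp
      norm_num
    have g5 : (r ^ P.lam) ^ (1 / P.s) * (r ^ P.lam) ^ (2 / P.p) = r ^ P.lam := by
      rw [← Real.rpow_add hrl, P.inv_s]
      simp
    have g6 := Par.X_two_p H.τ1 (H.X_lb n hn)
    calc C4 * (r ^ P.lam) ^ (1 / P.s) * avg S.δ τ (fun m => (I0 P x₀ r
          (fun x => |S.z m x - S.ζ (θ * τ) m x| ^ P.p)) ^ (2 / P.p)) n
        ≤ C4 * (r ^ P.lam) ^ (1 / P.s) *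
          (D ^ (2 / P.p) * θ ^ (1 / (2 * P.p)) * X n ^ (2 / P.p) * (r ^ P.lam) ^ (2 / P.p)) := by
          apply mul_le_mul_of_nonneg_left _ (by positivity)
          rw [← g4]
          exact g2.trans g3
      _ = D2 * θ ^ (1 / (2 * P.p)) * X n ^ (2 / P.p) *
          ((r ^ P.lam) ^ (1 / P.s) * (r ^ P.lam) ^ (2 / P.p)) := by
          rw [hD2]
          ring
      _ = D2 * θ ^ (1 / (2 * P.p)) * X n ^ (2 / P.p) * r ^ P.lam := by rw [g5]
      _ ≤ D2 * θ ^ (1 / (2 * P.p)) * (X n / τ) * r ^ P.lam := by gcongr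
      _ ≤ (D + D2) * θ ^ (1 / (2 * P.p)) * (X n / τ) * r ^ P.lam := by
          gcongr
          linarith

end Pool.Agent.H15.Hx
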