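import Pool.Agent.H15.Hx.M13_Est34

/-! M14: the averaged equation tested with G z. -/

set_option autoImplicit false

open MeasureTheory Set Filter Topology
open scoped RealInnerProductSpace
open Pool.Agent.H25.HX (E g Tst H10)

noncomputable section

namespace Pool.Agent.H15.Hx

theorem m14_flux_int {P : Par} {x₀ : E P.N} {r : ℝ} (hr : 0 < r) {w : E P.N → ℝ}
    {V : E P.N → E P.N} (hw : MemLp w 2 volume) (hV : MemLp V 2 volume) :
    Integrable (fun x => w x * ⟪gradient (wt P.lam' x₀ r) x, V x⟫) := by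
  have hl : 0 < P.lam' := P.lam'_pos
  have i1 : Integrable (fun x => w x ^ 2) := Sol.sq_int hw
  have i2 : Integrable (fun x => ‖V x‖ ^ 2) := Sol.vsq_int hV
  have hm : AEStronglyMeasurable (fun x => ⟪gradient (wt P.lam' x₀ r) x, V x⟫) volume :=
    (Pool.Agent.H25.HX.Tst.grad_cont (wt_contDiff (b := P.lam') (x₀ := x₀) (r := r))
      ).aestronglyMeasurable.inner hV.1
  refine ((i1.add i2).const_mul (P.lam' / r)).mono' (hw.1.mul hm) (ae_of_all _ fun x => ?_)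
  have h1 : ‖gradient (wt P.lam' x₀ r) x‖ ≤ P.lam' / r := by
    refine (wt_grad_le hl.le hr x).trans ?_
    have := wt_le_one (b := P.lam' + 1) (x₀ := x₀) (r := r) (by linarith) x
    have h2 : 0 ≤ P.lam' / r := by positivity
    nlinarith
  rw [norm_mul, Real.norm_eq_abs, Real.norm_eq_abs]
  have h3 := abs_real_inner_le_norm (gradient (wt P.lam' x₀ r) x) (V x)
  have h4 : |w x| * ‖V x‖ ≤ w x ^ 2 + ‖V x‖ ^ 2 := by
    nlinarith [sq_nonneg (|w x| - ‖V x‖), sq_abs (w x), sq_nonneg (w x), sq_nonneg ‖V x‖]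
  calc |w x| * |⟪gradient (wt P.lam' x₀ r) x, V x⟫|
      ≤ |w x| * (P.lam' / r * ‖V x‖) := by
        gcongr
        exact h3.trans (by gcongr)
    _ = P.lam' / r * (|w x| * ‖V x‖) := by ring
    _ ≤ P.lam' / r * (w x ^ 2 + ‖V x‖ ^ 2) := by gcongr

theorem m14_flux_ge {P : Par} {x₀ : E P.N} {r : ℝ} (hr : 0 < r) {w : E P.N → ℝ}
    {V : E P.N → E P.N} (hw : MemLp w 2 volume) (hV : MemLp V 2 volume) :
    -((1 / 2) * I0 P x₀ r (fun x => ‖V x‖ ^ 2) + P.lam' ^ 2 / 2 *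
      I2 P x₀ r (fun x => w x ^ 2)) ≤
      ∫ x, w x * ⟪gradient (wt P.lam' x₀ r) x, V x⟫ := by
  have hl : 0 < P.lam' := P.lam'_pos
  have i1 : Integrable (fun x => w x ^ 2) := Sol.sq_int hw
  have i2 : Integrable (fun x => ‖V x‖ ^ 2) := Sol.vsq_int hV
  have j1 := (wt_int (P := P) (x₀ := x₀) (r := r) hl.le i2).const_mul (1 / 2)
  have j2 := (wt_int (P := P) (x₀ := x₀) (r := r) (b := P.lam' + 2) (by linarith) i1).const_mul
    (P.lam' ^ 2 / 2 / r ^ 2)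
  have e : (1 / 2) * I0 P x₀ r (fun x => ‖V x‖ ^ 2) + P.lam' ^ 2 / 2 *
      I2 P x₀ r (fun x => w x ^ 2) = ∫ x, ((1 / 2) * (wt P.lam' x₀ r x * ‖V x‖ ^ 2) +
        P.lam' ^ 2 / 2 / r ^ 2 * (wt (P.lam' + 2) x₀ r x * w x ^ 2)) := by
    rw [integral_add j1 j2, integral_const_mul, integral_const_mul]
    unfold I0 I2
    ring
  rw [e, ← integral_neg]
  refine integral_mono (j1.add j2).neg (m14_flux_int hr hw hV) fun x => ?_
  have h1 : ‖gradient (wt P.lam' x₀ r) x‖ ≤ P.lam' / r * wt (P.lam' + 1) x₀ r x :=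
    wt_grad_le hl.le hr x
  have h3 := abs_real_inner_le_norm (gradient (wt P.lam' x₀ r) x) (V x)
  have h5 : wt P.lam' x₀ r x * wt (P.lam' + 2) x₀ r x = wt (P.lam' + 1) x₀ r x ^ 2 := by
    rw [wt_mul, sq, wt_mul]
    congr 1
    ring
  have p0 : 0 < wt P.lam' x₀ r x := wt_pos x
  have p1 : 0 < wt (P.lam' + 1) x₀ r x := wt_pos x
  have p2 : 0 < wt (P.lam' + 2) x₀ r x := wt_pos x
  have h6 : |w x| * (P.lam' / r * wt (P.lam' + 1) x₀ r x * ‖V x‖) ≤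
      (1 / 2) * (wt P.lam' x₀ r x * ‖V x‖ ^ 2) +
        P.lam' ^ 2 / 2 / r ^ 2 * (wt (P.lam' + 2) x₀ r x * w x ^ 2) := by
    have h7 : (Real.sqrt (wt P.lam' x₀ r x) * ‖V x‖) *
        (Real.sqrt (wt (P.lam' + 2) x₀ r x) * |w x| * (P.lam' / r)) =
        |w x| * (P.lam' / r * wt (P.lam' + 1) x₀ r x * ‖V x‖) := by
      have h8 : Real.sqrt (wt P.lam' x₀ r x) * Real.sqrt (wt (P.lam' + 2) x₀ r x) =
          wt (P.lam' + 1) x₀ r x := by
        rw [← Real.sqrt_mul p0.le, h5, Real.sqrt_sq p1.le]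
      calc _ = (Real.sqrt (wt P.lam' x₀ r x) * Real.sqrt (wt (P.lam' + 2) x₀ r x)) * (|w x| *
            (P.lam' / r) * ‖V x‖) := by ring
        _ = _ := by rw [h8]; ring
    rw [← h7]
    have h9 := two_mul_le_add_sq (Real.sqrt (wt P.lam' x₀ r x) * ‖V x‖)
        (Real.sqrt (wt (P.lam' + 2) x₀ r x) * |w x| * (P.lam' / r))
    have h10 : (Real.sqrt (wt P.lam' x₀ r x) * ‖V x‖) ^ 2 = wt P.lam' x₀ r x * ‖V x‖ ^ 2 := by
      rw [mul_pow, Real.sq_sqrt p0.le]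
    have h11 : (Real.sqrt (wt (P.lam' + 2) x₀ r x) * |w x| * (P.lam' / r)) ^ 2 =
        P.lam' ^ 2 / r ^ 2 * (wt (P.lam' + 2) x₀ r x * w x ^ 2) := by
      rw [mul_pow, mul_pow, Real.sq_sqrt p2.le, sq_abs, div_pow]
      ring
    rw [h10, h11] at h9
    have h12 : P.lam' ^ 2 / 2 / r ^ 2 * (wt (P.lam' + 2) x₀ r x * w x ^ 2) =
        (1 / 2) * (P.lam' ^ 2 / r ^ 2 * (wt (P.lam' + 2) x₀ r x * w x ^ 2)) := by ring
    rw [h12]
    linarith
  have h13 : |w x * ⟪gradient (wt P.lam' x₀ r) x, V x⟫| ≤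
      |w x| * (P.lam' / r * wt (P.lam' + 1) x₀ r x * ‖V x‖) := by
    rw [abs_mul]
    gcongr
    exact h3.trans (by gcongr)
  simp only
  linarith [neg_abs_le (w x * ⟪gradient (wt P.lam' x₀ r) x, V x⟫)]

theorem m14_inner_int {N : ℕ} {a b : E N → E N} (ha : MemLp a 2 volume)
    (hb : MemLp b 2 volume) : Integrable (fun x => ⟪a x, b x⟫) := by
  have i1 := Pool.Agent.H25.HX.sq_norm_integrable ha
  have i2 := Pool.Agent.H25.HX.sq_norm_integrable hb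
  refine (i1.add i2).mono' (ha.1.inner hb.1) (ae_of_all _ fun x => ?_)
  rw [Real.norm_eq_abs]
  refine (abs_real_inner_le_norm _ _).trans ?_
  simp only [Pi.add_apply]
  nlinarith [sq_nonneg (‖a x‖ - ‖b x‖), sq_nonneg ‖a x‖, sq_nonneg ‖b x‖]

theorem gz_ineq (P : Par) : ∃ C c : ℝ, 0 < C ∧ 0 < c ∧ ∀ (Ω : Set (E P.N)) (S : Sol P Ω)
    (h : ℝ), 0 < h → ∀ (n : ℕ) (x₀ : E P.N) (r : ℝ), 0 < r →
    (S.Y h x₀ r (n + 1) - S.Y h x₀ r n) / S.δ +
      ((1 / 2) * I0 P x₀ r (fun x => ‖S.Dζ h (n + 1) x‖ ^ 2) +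
        c * I2 P x₀ r (fun x => S.ζ h (n + 1) x ^ 2)) ≤ C * S.Rr h x₀ r (n + 1) := by
  obtain ⟨c, hc, hid⟩ := hardy_id P
  have hl : 0 < P.lam' := P.lam'_pos
  refine ⟨max 1 (P.lam' ^ 2 / 2), c, by positivity, hc, ?_⟩
  intro Ω S h hh n x₀ r hr
  have hδ := S.δ_pos
  have hq : 0 < P.q := by linarith [P.q_gt_one]
  -- integrability
  have iζ := S.hζ h (n + 1)
  have iζ0 := S.hζ h n
  have iz := S.hz (n + 1)
  have t1 := S.ζt_mem h (n + 1)
  have t0 := S.ζt_mem h n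
  have a1 : Integrable (fun x => ‖S.Dζ h (n + 1) x‖ ^ 2) := Sol.vsq_int iζ.2.1
  have a0 : Integrable (fun x => ‖S.Dζ h n x‖ ^ 2) := Sol.vsq_int iζ0.2.1
  have b1 : Integrable (fun x => S.ζt h (n + 1) x ^ 2) := Sol.sq_int t1
  have b0 : Integrable (fun x => S.ζt h n x ^ 2) := Sol.sq_int t0
  have c1 : Integrable (fun x => S.ζ h (n + 1) x * S.ζt h (n + 1) x) := Sol.mul_int iζ.1 t1
  have c0 : Integrable (fun x => S.ζ h n x * S.ζt h n x) := Sol.mul_int iζ0.1 t0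
  have d1 := S.Za_int h (n + 1)
  have d0 := S.Za_int h n
  have f1 : Integrable (fun x => |S.ζt h n x| * |S.ζt h (n + 1) x|) := by
    have := (Sol.mul_int t0 t1).abs
    simpa [abs_mul] using this
  have hf1 := S.hf (n + 1)
  have hfa1 := S.hfa h (n + 1)
  have k1 : Integrable (fun x => |S.f (n + 1) x - S.fa h (n + 1) x| * |S.z (n + 1) x|) := by
    have := (Sol.mul_int (hf1.sub hfa1) iz.1).abs
    simpa [abs_mul] using this
  have m1 : Integrable (fun x => ⟪S.Dζ h (n + 1) x, S.Dz (n + 1) x⟫) :=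
    m14_inner_int iζ.2.1 iz.2.1
  have hgm := S.hg (n + 1)
  have hΓ1 := S.hΓ h (n + 1)
  have t : MemLp (fun x => (S.f (n + 1) x - S.fa h (n + 1) x) / h -
        (g P.p (S.z (n + 1) x) - S.Γ h (n + 1) x) / h -
        (S.ζt h (n + 1) x - S.ζt h n x) / S.δ) 2 volume := by
    have e := (((hf1.sub hfa1).const_mul (1 / h)).sub ((hgm.sub hΓ1).const_mul (1 / h))).sub
      ((t1.sub t0).const_mul (1 / S.δ))
    refine (memLp_congr_ae (ae_of_all _ fun x => ?_)).1 e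
    simp only [Pi.sub_apply]
    ring
  have l1 := Sol.mul_int t iz.1
  have a10 : Integrable (fun x => ‖S.Dζ h (n + 1) x‖ ^ 2 - ‖S.Dζ h n x‖ ^ 2) := a1.sub a0
  have b10 : Integrable (fun x => S.ζt h (n + 1) x ^ 2 - S.ζt h n x ^ 2) := b1.sub b0
  have c10 : Integrable (fun x => S.ζ h (n + 1) x * S.ζt h (n + 1) x - S.ζ h n x * S.ζt h n x) :=
    c1.sub c0
  have d10 : Integrable (fun x => S.Za h (n + 1) x - S.Za h n x) := d1.sub d0
  have s1 : Integrable (fun x => (1 / h) * (|S.f (n + 1) x - S.fa h (n + 1) x| *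
      |S.z (n + 1) x|) + |S.ζt h n x| * |S.ζt h (n + 1) x|) := (k1.const_mul _).add f1
  have s2 : Integrable (fun x => ((1 / h) * (|S.f (n + 1) x - S.fa h (n + 1) x| *
      |S.z (n + 1) x|) + |S.ζt h n x| * |S.ζt h (n + 1) x|) -
      (1 / P.q / S.δ) * (S.Za h (n + 1) x - S.Za h n x)) := s1.sub (d10.const_mul _)
  have s3 : Integrable (fun x => (((1 / h) * (|S.f (n + 1) x - S.fa h (n + 1) x| *
      |S.z (n + 1) x|) + |S.ζt h n x| * |S.ζt h (n + 1) x|) -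
      (1 / P.q / S.δ) * (S.Za h (n + 1) x - S.Za h n x)) -
      (h / 2 / S.δ) * (S.ζt h (n + 1) x ^ 2 - S.ζt h n x ^ 2)) := s2.sub (b10.const_mul _)
  have s4 : Integrable (fun x => (((1 / h) * (|S.f (n + 1) x - S.fa h (n + 1) x| *
      |S.z (n + 1) x|) + |S.ζt h n x| * |S.ζt h (n + 1) x|) -
      (1 / P.q / S.δ) * (S.Za h (n + 1) x - S.Za h n x)) -
      (h / 2 / S.δ) * (S.ζt h (n + 1) x ^ 2 - S.ζt h n x ^ 2) -
      (1 / S.δ) * (S.ζ h (n + 1) x * S.ζt h (n + 1) x - S.ζ h n x * S.ζt h n x)) :=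
    s3.sub (c10.const_mul _)
  -- the identity
  have key := S.avg_testG hh n iz x₀ hr
  -- (A)
  have hA : I0 P x₀ r (fun x => ‖S.Dζ h (n + 1) x‖ ^ 2) + h / (2 * S.δ) *
      (I0 P x₀ r (fun x => ‖S.Dζ h (n + 1) x‖ ^ 2) - I0 P x₀ r (fun x => ‖S.Dζ h n x‖ ^ 2)) ≤
      ∫ x, wt P.lam' x₀ r x * ⟪S.Dζ h (n + 1) x, S.Dz (n + 1) x⟫ := by
    have e : I0 P x₀ r (fun x => ‖S.Dζ h (n + 1) x‖ ^ 2) + h / (2 * S.δ) *
      (I0 P x₀ r (fun x => ‖S.Dζ h (n + 1) x‖ ^ 2) - I0 P x₀ r (fun x => ‖S.Dζ h n x‖ ^ 2)) =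
      I0 P x₀ r (fun x => ‖S.Dζ h (n + 1) x‖ ^ 2 + (h / (2 * S.δ)) *
        (‖S.Dζ h (n + 1) x‖ ^ 2 - ‖S.Dζ h n x‖ ^ 2)) := by
      rw [I0_add a1 (a10.const_mul _), I0_mul, I0_sub a1 a0]
    rw [e]
    refine I0_mono (a1.add (a10.const_mul _)) m1 (ae_of_all _ fun x => ?_)
    have e2 := S.Dζ_step h n hh x
    rw [e2, inner_add_right, real_inner_self_eq_norm_sq, inner_smul_right, inner_sub_right,
      real_inner_self_eq_norm_sq]
    have e3 : ⟪S.Dζ h (n + 1) x, S.Dζ h n x⟫ ≤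
        (1 / 2) * (‖S.Dζ h (n + 1) x‖ ^ 2 + ‖S.Dζ h n x‖ ^ 2) := by
      have := real_inner_le_norm (S.Dζ h (n + 1) x) (S.Dζ h n x)
      nlinarith [sq_nonneg (‖S.Dζ h (n + 1) x‖ - ‖S.Dζ h n x‖)]
    have e4 : h / (2 * S.δ) * (‖S.Dζ h (n + 1) x‖ ^ 2 - ‖S.Dζ h n x‖ ^ 2) =
        h / S.δ * ((1 / 2) * (‖S.Dζ h (n + 1) x‖ ^ 2 - ‖S.Dζ h n x‖ ^ 2)) := by
      field_simp
    rw [e4]
    gcongr
    linarith
  -- (B)
  have hB : ∫ x, wt P.lam' x₀ r x * (((S.f (n + 1) x - S.fa h (n + 1) x) / h -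
        (g P.p (S.z (n + 1) x) - S.Γ h (n + 1) x) / h -
        (S.ζt h (n + 1) x - S.ζt h n x) / S.δ) * S.z (n + 1) x) ≤
      (1 / h) * I0 P x₀ r (fun x => |S.f (n + 1) x - S.fa h (n + 1) x| * |S.z (n + 1) x|) +
      I0 P x₀ r (fun x => |S.ζt h n x| * |S.ζt h (n + 1) x|) -
      (1 / P.q / S.δ) * (I0 P x₀ r (S.Za h (n + 1)) - I0 P x₀ r (S.Za h n)) -
      (h / 2 / S.δ) * (I0 P x₀ r (fun x => S.ζt h (n + 1) x ^ 2) -
        I0 P x₀ r (fun x => S.ζt h n x ^ 2)) -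
      (1 / S.δ) * (I0 P x₀ r (fun x => S.ζ h (n + 1) x * S.ζt h (n + 1) x) -
        I0 P x₀ r (fun x => S.ζ h n x * S.ζt h n x)) := by
    have e : (1 / h) * I0 P x₀ r (fun x => |S.f (n + 1) x - S.fa h (n + 1) x| *
        |S.z (n + 1) x|) +
      I0 P x₀ r (fun x => |S.ζt h n x| * |S.ζt h (n + 1) x|) -
      (1 / P.q / S.δ) * (I0 P x₀ r (S.Za h (n + 1)) - I0 P x₀ r (S.Za h n)) -
      (h / 2 / S.δ) * (I0 P x₀ r (fun x => S.ζt h (n + 1) x ^ 2) -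
        I0 P x₀ r (fun x => S.ζt h n x ^ 2)) -
      (1 / S.δ) * (I0 P x₀ r (fun x => S.ζ h (n + 1) x * S.ζt h (n + 1) x) -
        I0 P x₀ r (fun x => S.ζ h n x * S.ζt h n x)) =
      I0 P x₀ r (fun x => (((1 / h) * (|S.f (n + 1) x - S.fa h (n + 1) x| * |S.z (n + 1) x|) +
        |S.ζt h n x| * |S.ζt h (n + 1) x|) -
        (1 / P.q / S.δ) * (S.Za h (n + 1) x - S.Za h n x)) -
        (h / 2 / S.δ) * (S.ζt h (n + 1) x ^ 2 - S.ζt h n x ^ 2) -
        (1 / S.δ) * (S.ζ h (n + 1) x * S.ζt h (n + 1) x - S.ζ h n x * S.ζt h n x)) := by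
      rw [I0_sub s3 (c10.const_mul _), I0_mul (1 / S.δ), I0_sub c1 c0,
        I0_sub s2 (b10.const_mul _), I0_mul (h / 2 / S.δ), I0_sub b1 b0,
        I0_sub s1 (d10.const_mul _), I0_mul (1 / P.q / S.δ),
        I0_sub d1 d0, I0_add (k1.const_mul _) f1, I0_mul (1 / h)]
    rw [e]
    refine I0_mono l1 s4 (ae_of_all _ fun x => ?_)
    have u1 : (S.f (n + 1) x - S.fa h (n + 1) x) / h * S.z (n + 1) x ≤
        (1 / h) * (|S.f (n + 1) x - S.fa h (n + 1) x| * |S.z (n + 1) x|) := by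
      rw [← abs_mul]
      have := le_abs_self ((S.f (n + 1) x - S.fa h (n + 1) x) * S.z (n + 1) x)
      calc _ = (1 / h) * ((S.f (n + 1) x - S.fa h (n + 1) x) * S.z (n + 1) x) := by ring
        _ ≤ _ := by gcongr
    have u2 : (1 / P.q / S.δ) * (S.Za h (n + 1) x - S.Za h n x) ≤
        (g P.p (S.z (n + 1) x) - S.Γ h (n + 1) x) / h * S.z (n + 1) x := by
      have := pt_pa_step P (δ := S.δ) (h := h) hδ hh (fun m => S.z m x) n
      have v1 : pa P S.δ h (fun m => S.z m x) (n + 1) = S.Za h (n + 1) x := rfl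
      have v2 : pa P S.δ h (fun m => S.z m x) n = S.Za h n x := rfl
      have v3 : ga P S.δ h (fun m => S.z m x) (n + 1) = S.Γ h (n + 1) x := rfl
      rw [v1, v2, v3] at this
      calc (1 / P.q / S.δ) * (S.Za h (n + 1) x - S.Za h n x) =
            (1 / h) * (h / P.q * ((S.Za h (n + 1) x - S.Za h n x) / S.δ)) := by
            field_simp
        _ ≤ (1 / h) * ((g P.p (S.z (n + 1) x) - S.Γ h (n + 1) x) * S.z (n + 1) x) := by
            gcongr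
        _ = _ := by ring
    have u3 : S.z (n + 1) x = S.ζ h (n + 1) x + h * S.ζt h (n + 1) x := S.z_eq h (n + 1) hh x
    have u4 : S.ζ h (n + 1) x = S.ζ h n x + S.δ * S.ζt h (n + 1) x := S.ζ_step h n hh x
    have u5 : (h / 2 / S.δ) * (S.ζt h (n + 1) x ^ 2 - S.ζt h n x ^ 2) +
        (1 / S.δ) * (S.ζ h (n + 1) x * S.ζt h (n + 1) x - S.ζ h n x * S.ζt h n x) -
        |S.ζt h n x| * |S.ζt h (n + 1) x| ≤
        (S.ζt h (n + 1) x - S.ζt h n x) / S.δ * S.z (n + 1) x := by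
      have w1 : S.ζt h n x * S.ζt h (n + 1) x ≤ |S.ζt h n x| * |S.ζt h (n + 1) x| := by
        rw [← abs_mul]; exact le_abs_self _
      have w2 : (S.ζt h (n + 1) x - S.ζt h n x) / S.δ * S.z (n + 1) x =
          (h / 2 / S.δ) * (S.ζt h (n + 1) x ^ 2 - S.ζt h n x ^ 2) +
          (1 / S.δ) * (S.ζ h (n + 1) x * S.ζt h (n + 1) x - S.ζ h n x * S.ζt h n x) -
          S.ζt h n x * S.ζt h (n + 1) x +
          (h / 2 / S.δ) * (S.ζt h (n + 1) x - S.ζt h n x) ^ 2 := by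
        rw [u3, u4]
        field_simp
        ring
      have w3 : 0 ≤ (h / 2 / S.δ) * (S.ζt h (n + 1) x - S.ζt h n x) ^ 2 := by positivity
      linarith
    nlinarith [u1, u2, u5]
  -- (C)
  have hC := hid Ω (S.ζ h (n + 1)) (S.Dζ h (n + 1)) iζ x₀ r hr
  have hD := m14_flux_ge (P := P) (x₀ := x₀) hr (iz.1.sub iζ.1) iζ.2.1
  have hE : ∫ x, S.z (n + 1) x * ⟪gradient (wt P.lam' x₀ r) x, S.Dζ h (n + 1) x⟫ =
      (∫ x, S.ζ h (n + 1) x * ⟪gradient (wt P.lam' x₀ r) x, S.Dζ h (n + 1) x⟫) +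
      ∫ x, (S.z (n + 1) - S.ζ h (n + 1)) x *
        ⟪gradient (wt P.lam' x₀ r) x, S.Dζ h (n + 1) x⟫ := by
    rw [← integral_add (m14_flux_int hr iζ.1 iζ.2.1) (m14_flux_int hr (iz.1.sub iζ.1) iζ.2.1)]
    congr 1
    ext x
    simp only [Pi.sub_apply]
    ring
  have hF : (fun x => (S.z (n + 1) - S.ζ h (n + 1)) x ^ 2) =
      fun x => (S.z (n + 1) x - S.ζ h (n + 1) x) ^ 2 := rfl
  rw [hF] at hD
  rw [hE] at key
  have n1 : 0 ≤ I2 P x₀ r (fun x => (S.z (n + 1) x - S.ζ h (n + 1) x) ^ 2) :=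
    I2_nonneg fun x => by positivity
  have n2 : 0 ≤ I0 P x₀ r (fun x => |S.ζt h n x| * |S.ζt h (n + 1) x|) :=
    I0_nonneg fun x => by positivity
  have n3 : 0 ≤ I0 P x₀ r (fun x => |S.f (n + 1) x - S.fa h (n + 1) x| * |S.z (n + 1) x|) :=
    I0_nonneg fun x => by positivity
  have hR : S.Rr h x₀ r (n + 1) =
      I2 P x₀ r (fun x => (S.z (n + 1) x - S.ζ h (n + 1) x) ^ 2) +
      I0 P x₀ r (fun x => |S.ζt h n x| * |S.ζt h (n + 1) x|) +
      I0 P x₀ r (fun x => |S.f (n + 1) x - S.fa h (n + 1) x| * |S.z (n + 1) x|) / h := rfl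
  have hM1 : (1 : ℝ) ≤ max 1 (P.lam' ^ 2 / 2) := le_max_left _ _
  have hM2 : P.lam' ^ 2 / 2 ≤ max 1 (P.lam' ^ 2 / 2) := le_max_right _ _
  have g1 : P.lam' ^ 2 / 2 * I2 P x₀ r (fun x => (S.z (n + 1) x - S.ζ h (n + 1) x) ^ 2) ≤
      max 1 (P.lam' ^ 2 / 2) * I2 P x₀ r (fun x => (S.z (n + 1) x - S.ζ h (n + 1) x) ^ 2) := by
    gcongr
  have g2 : I0 P x₀ r (fun x => |S.ζt h n x| * |S.ζt h (n + 1) x|) ≤
      max 1 (P.lam' ^ 2 / 2) * I0 P x₀ r (fun x => |S.ζt h n x| * |S.ζt h (n + 1) x|) := by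
    nlinarith
  have g3 : (1 / h) * I0 P x₀ r (fun x => |S.f (n + 1) x - S.fa h (n + 1) x| *
        |S.z (n + 1) x|) ≤ max 1 (P.lam' ^ 2 / 2) *
      (I0 P x₀ r (fun x => |S.f (n + 1) x - S.fa h (n + 1) x| * |S.z (n + 1) x|) / h) := by
    have : (1 / h) * I0 P x₀ r (fun x => |S.f (n + 1) x - S.fa h (n + 1) x| *
        |S.z (n + 1) x|) = I0 P x₀ r (fun x => |S.f (n + 1) x - S.fa h (n + 1) x| *
        |S.z (n + 1) x|) / h := by ring
    rw [this]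
    have n4 := div_nonneg n3 hh.le
    nlinarith
  have hY : (S.Y h x₀ r (n + 1) - S.Y h x₀ r n) / S.δ =
      (1 / P.q / S.δ) * (I0 P x₀ r (S.Za h (n + 1)) - I0 P x₀ r (S.Za h n)) +
      h / (2 * S.δ) * (I0 P x₀ r (fun x => ‖S.Dζ h (n + 1) x‖ ^ 2) -
        I0 P x₀ r (fun x => ‖S.Dζ h n x‖ ^ 2)) +
      (h / 2 / S.δ) * (I0 P x₀ r (fun x => S.ζt h (n + 1) x ^ 2) -
        I0 P x₀ r (fun x => S.ζt h n x ^ 2)) +
      (1 / S.δ) * (I0 P x₀ r (fun x => S.ζ h (n + 1) x * S.ζt h (n + 1) x) -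
        I0 P x₀ r (fun x => S.ζ h n x * S.ζt h n x)) := by
    unfold Sol.Y
    field_simp
    ring
  rw [hY, hR]
  rw [mul_add, mul_add]
  linarith

section small
variable {P : Par} {R τ εf θ : ℝ}

theorem m14_R2 (hs : Small R τ εf θ) (hτ : 1 ≤ τ) : R ^ 2 / (θ * τ) ≤ θ ^ 3 := by
  have h0 := hs.θ0
  have h1 := hs.hτ
  rw [div_le_iff₀ (by positivity)]
  calc R ^ 2 ≤ θ ^ 4 * τ := h1
    _ = θ ^ 3 * (θ * τ) := by ring

theorem m14_R22 (hs : Small R τ εf θ) (hτ : 1 ≤ τ) : R ^ 2 / (θ * τ) ^ 2 ≤ θ ^ 2 := by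
  have h0 := hs.θ0
  have h1 := hs.hτ
  rw [div_le_iff₀ (by positivity)]
  calc R ^ 2 ≤ θ ^ 4 * τ := h1
    _ ≤ θ ^ 4 * (τ * τ) := by
        have : τ ≤ τ * τ := by nlinarith
        gcongr
    _ = θ ^ 2 * (θ * τ) ^ 2 := by ring

theorem m14_exp (P : Par) {θ : ℝ} (h0 : 0 < θ) (h1 : θ ≤ 1) : θ ≤ θ ^ (1 / (2 * P.p)) := by
  have hp := P.two_lt_p
  have : θ ^ (1 : ℝ) ≤ θ ^ (1 / (2 * P.p)) := by
    apply Real.rpow_le_rpow_of_exponent_ge h0 h1
    rw [div_le_one (by positivity)]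
    linarith
  rwa [Real.rpow_one] at this

/-- `(M ε Y)^(1/q) (M Y)^(1/p) = ε^(1/q) M Y` -/
theorem m14_prod (P : Par) {M ε Y : ℝ} (hM : 0 ≤ M) (hε : 0 ≤ ε) (hY : 0 ≤ Y) :
    (M * ε * Y) ^ (1 / P.q) * (M * Y) ^ (1 / P.p) = ε ^ (1 / P.q) * (M * Y) := by
  have hpq := P.holder
  have h1 : 1 / P.q + 1 / P.p = 1 := by
    have := hpq.inv_add_inv_eq_one
    rw [one_div, one_div]; linarith
  have hMY : 0 ≤ M * Y := by positivity
  rw [show M * ε * Y = ε * (M * Y) by ring, Real.mul_rpow hε hMY, mul_assoc]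
  congr 1
  rcases hMY.eq_or_lt with h | h
  · rw [← h, Real.zero_rpow, Real.zero_rpow, mul_zero]
    · have := P.two_lt_p
      positivity
    · have := P.q_gt_one
      positivity
  · rw [← Real.rpow_add h, h1, Real.rpow_one]

theorem m14_eps (P : Par) (hs : Small R τ εf θ) (h0 : 0 ≤ εf) : εf ^ (1 / P.q) ≤ θ ^ 2 := by
  have hq1 := P.q_gt_one
  have hq2 := P.q_lt_two
  have hθ := hs.θ0
  have hθ1 : θ ≤ 1 := by linarith [hs.θ1]
  calc εf ^ (1 / P.q) ≤ (θ ^ 4) ^ (1 / P.q) :=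
        Real.rpow_le_rpow h0 hs.hε (by positivity)
    _ = θ ^ (4 / P.q) := by
        rw [← Real.rpow_natCast, ← Real.rpow_mul hθ.le]
        congr 1
        push_cast
        ring
    _ ≤ θ ^ (2 : ℝ) := by
        apply Real.rpow_le_rpow_of_exponent_ge hθ hθ1
        rw [le_div_iff₀ (by linarith)]
        linarith
    _ = θ ^ 2 := by norm_num

end small

theorem est5 (P : Par) : ∃ C : ℝ, 0 < C ∧ ∀ (Ω : Set (E P.N)) (S : Sol P Ω) (R : ℝ) (n1 : ℕ)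
    (τ A εf θ : ℝ) (X : ℕ → ℝ), Hyp S R n1 τ A εf X → Small R τ εf θ →
    ∀ n ≤ n1, ∀ x₀ r, Adm R x₀ r →
    avg S.δ τ (fun m => S.Rr (θ * τ) x₀ r m) n ≤
      C * θ ^ (1 / (2 * P.p)) * (X n / τ) * r ^ P.lam := by
  obtain ⟨C1, hC1, e1⟩ := est1 P
  obtain ⟨Cb, hCb, eb⟩ := est1b P
  obtain ⟨Cc, hCc, ec⟩ := est1c P
  obtain ⟨C4, hC4, e4⟩ := est4 P
  refine ⟨C4 + Cc + max C1 Cb, by positivity, ?_⟩
  intro Ω S R n1 τ A εf θ X hyp hs n hn x₀ r hadm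
  have hτ1 := hyp.τ1
  have hτ : 0 < τ := by linarith
  have hθ := hs.θ0
  have hθ1 : θ ≤ 1 := by linarith [hs.θ1]
  have hh : 0 < θ * τ := by positivity
  have h2h : 2 * (θ * τ) ≤ τ := by nlinarith [hs.θ1]
  have hδ := S.δ_pos
  have hX : 0 < X n := lt_of_lt_of_le (by positivity) (hyp.X_lb n hn)
  have hr : 0 < r := hadm.2.1
  have hrl : 0 < r ^ P.lam := by positivity
  obtain ⟨a1, -, -⟩ := e1 Ω S R n1 τ A εf X hyp n hn x₀ r hadm
  obtain ⟨-, -, -, b4, -, -⟩ := eb Ω S R n1 τ A εf X hyp (θ * τ) hh h2h n hn x₀ r hadm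
  obtain ⟨-, -, -, c4, -⟩ := ec Ω S R n1 τ A εf X hyp (θ * τ) hh h2h n hn x₀ r hadm
  obtain ⟨-, d2⟩ := e4 Ω S R n1 τ A εf θ X hyp hs n hn x₀ r hadm
  have hex := m14_exp P hθ hθ1
  have hθ2 : θ ^ 2 ≤ θ := by nlinarith
  -- split
  have split : avg S.δ τ (fun m => S.Rr (θ * τ) x₀ r m) n =
      avg S.δ τ (fun m => I2 P x₀ r (fun x => (S.z m x - S.ζ (θ * τ) m x) ^ 2)) n +
      avg S.δ τ (fun m => I0 P x₀ r (fun x => |S.ζt (θ * τ) (m - 1) x| *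
        |S.ζt (θ * τ) m x|)) n +
      (1 / (θ * τ)) * avg S.δ τ (fun m => I0 P x₀ r (fun x =>
        |S.f m x - S.fa (θ * τ) m x| * |S.z m x|)) n := by
    rw [← avg_mul_left, ← avg_add, ← avg_add]
    congr 1
    ext m
    unfold Sol.Rr
    ring
  rw [split]
  -- force
  have hF : avg S.δ τ (fun m => I0 P x₀ r (fun x =>
        |S.f m x - S.fa (θ * τ) m x| * |S.z m x|)) n ≤
        θ ^ 2 * (max C1 Cb * (X n * r ^ P.lam)) := by
    have g1 : avg S.δ τ (fun m => I0 P x₀ r (fun x =>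
        |S.f m x - S.fa (θ * τ) m x| * |S.z m x|)) n ≤
        avg S.δ τ (fun m => (I0 P x₀ r (fun x => |S.f m x - S.fa (θ * τ) m x| ^ P.q)) ^ (1 / P.q) *
          (I0 P x₀ r (fun x => |S.z m x| ^ P.p)) ^ (1 / P.p)) n := by
      refine avg_mono hδ hτ fun m _ _ => ?_
      exact I0_holder ((S.hf m).1.sub (S.hfa (θ * τ) m).1) (S.hz m).1.1
        (S.ffaq (θ * τ) m hh hyp.hΩ) (S.zp m)
    have g2 := avg_holder (δ := S.δ) (h := τ) (n := n) hδ hτ P.holder.symm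
      (a := fun m => I0 P x₀ r (fun x => |S.f m x - S.fa (θ * τ) m x| ^ P.q))
      (b := fun m => I0 P x₀ r (fun x => |S.z m x| ^ P.p))
      (fun m => I0_nonneg fun x => by positivity) (fun m => I0_nonneg fun x => by positivity)
    have n1' : 0 ≤ avg S.δ τ (fun m => I0 P x₀ r (fun x =>
        |S.f m x - S.fa (θ * τ) m x| ^ P.q)) n :=
      avg_nonneg hδ hτ fun m _ _ => I0_nonneg fun x => by positivity
    have n2' : 0 ≤ avg S.δ τ (fun m => I0 P x₀ r (fun x => |S.z m x| ^ P.p)) n :=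
      avg_nonneg hδ hτ fun m _ _ => I0_nonneg fun x => by positivity
    have hq1 := P.q_gt_one
    have hp1 := P.two_lt_p
    have g3 : avg S.δ τ (fun m => I0 P x₀ r (fun x =>
        |S.f m x - S.fa (θ * τ) m x| ^ P.q)) n ≤ max C1 Cb * εf * (X n * r ^ P.lam) := by
      refine b4.trans ?_
      have h3 : Cb ≤ max C1 Cb := le_max_right _ _
      have h4 := hyp.εf0
      calc Cb * εf * X n * r ^ P.lam = Cb * (εf * (X n * r ^ P.lam)) := by ring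
        _ ≤ max C1 Cb * (εf * (X n * r ^ P.lam)) := by gcongr
        _ = _ := by ring
    have g4 : avg S.δ τ (fun m => I0 P x₀ r (fun x => |S.z m x| ^ P.p)) n ≤
        max C1 Cb * (X n * r ^ P.lam) := by
      refine a1.trans ?_
      have h3 : C1 ≤ max C1 Cb := le_max_left _ _
      calc C1 * X n * r ^ P.lam = C1 * (X n * r ^ P.lam) := by ring
        _ ≤ _ := by gcongr
    have h4 := hyp.εf0
    have h5 : 0 ≤ (max C1 Cb * εf * (X n * r ^ P.lam)) ^ (1 / P.q) := by positivity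
    calc _ ≤ _ := g1
      _ ≤ _ := g2
      _ ≤ (max C1 Cb * εf * (X n * r ^ P.lam)) ^ (1 / P.q) *
          (max C1 Cb * (X n * r ^ P.lam)) ^ (1 / P.p) := by gcongr
      _ = εf ^ (1 / P.q) * (max C1 Cb * (X n * r ^ P.lam)) :=
          m14_prod P (by positivity) hyp.εf0 (by positivity)
      _ ≤ θ ^ 2 * (max C1 Cb * (X n * r ^ P.lam)) := by
          gcongr
          exact m14_eps P hs hyp.εf0
  have hF' : (1 / (θ * τ)) * avg S.δ τ (fun m => I0 P x₀ r (fun x =>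
        |S.f m x - S.fa (θ * τ) m x| * |S.z m x|)) n ≤
        max C1 Cb * θ ^ (1 / (2 * P.p)) * (X n / τ) * r ^ P.lam := by
    calc _ ≤ (1 / (θ * τ)) * (θ ^ 2 * (max C1 Cb * (X n * r ^ P.lam))) := by gcongr
      _ = max C1 Cb * θ * (X n / τ) * r ^ P.lam := by
          field_simp
      _ ≤ _ := by gcongr
  have hB : avg S.δ τ (fun m => I0 P x₀ r (fun x => |S.ζt (θ * τ) (m - 1) x| *
        |S.ζt (θ * τ) m x|)) n ≤ Cc * θ ^ (1 / (2 * P.p)) * (X n / τ) * r ^ P.lam := by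
    refine c4.trans ?_
    have h1 := m14_R22 hs hτ1
    calc Cc * R ^ 2 / (θ * τ) ^ 2 * (X n / τ) * r ^ P.lam =
          Cc * (R ^ 2 / (θ * τ) ^ 2) * (X n / τ) * r ^ P.lam := by ring
      _ ≤ Cc * θ ^ (1 / (2 * P.p)) * (X n / τ) * r ^ P.lam := by
          gcongr
          linarith
  calc _ ≤ C4 * θ ^ (1 / (2 * P.p)) * (X n / τ) * r ^ P.lam +
        Cc * θ ^ (1 / (2 * P.p)) * (X n / τ) * r ^ P.lam +
        max C1 Cb * θ ^ (1 / (2 * P.p)) * (X n / τ) * r ^ P.lam := by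
        gcongr
    _ = _ := by ring

/-- lower bound of `Y` -/
theorem Y_lower (P : Par) (Ω : Set (E P.N)) (S : Sol P Ω) (h : ℝ) (hh : 0 < h) (n : ℕ)
    (x₀ : E P.N) (r : ℝ) (_hr : 0 < r) :
    (1 / P.q) * I0 P x₀ r (S.Za h n) ≤
      S.Y h x₀ r n + 1 / (2 * h) * I0 P x₀ r (fun x => S.ζ h n x ^ 2) := by
  have iζ := S.hζ h n
  have t1 := S.ζt_mem h n
  have b1 : Integrable (fun x => S.ζt h n x ^ 2) := Sol.sq_int t1
  have c1 : Integrable (fun x => S.ζ h n x * S.ζt h n x) := Sol.mul_int iζ.1 t1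
  have a1 : Integrable (fun x => S.ζ h n x ^ 2) := Sol.sq_int iζ.1
  have n1 : 0 ≤ I0 P x₀ r (fun x => ‖S.Dζ h n x‖ ^ 2) := I0_nonneg fun x => by positivity
  have s1 : Integrable (fun x => (h / 2) * S.ζt h n x ^ 2 + S.ζ h n x * S.ζt h n x) :=
    (b1.const_mul _).add c1
  have key : 0 ≤ (h / 2) * I0 P x₀ r (fun x => S.ζt h n x ^ 2) +
      I0 P x₀ r (fun x => S.ζ h n x * S.ζt h n x) +
      1 / (2 * h) * I0 P x₀ r (fun x => S.ζ h n x ^ 2) := by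
    have e : (h / 2) * I0 P x₀ r (fun x => S.ζt h n x ^ 2) +
      I0 P x₀ r (fun x => S.ζ h n x * S.ζt h n x) +
      1 / (2 * h) * I0 P x₀ r (fun x => S.ζ h n x ^ 2) =
      I0 P x₀ r (fun x => ((h / 2) * S.ζt h n x ^ 2 + S.ζ h n x * S.ζt h n x) +
        1 / (2 * h) * S.ζ h n x ^ 2) := by
      rw [I0_add s1 (a1.const_mul _), I0_mul (1 / (2 * h)), I0_add (b1.const_mul _) c1,
        I0_mul (h / 2)]
    rw [e]
    refine I0_nonneg fun x => ?_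
    have : (h / 2) * S.ζt h n x ^ 2 + S.ζ h n x * S.ζt h n x + 1 / (2 * h) * S.ζ h n x ^ 2 =
        (h / 2) * (S.ζt h n x + S.ζ h n x / h) ^ 2 := by
      field_simp
      ring
    rw [this]
    positivity
  unfold Sol.Y
  have n2 : 0 ≤ h / 2 * I0 P x₀ r (fun x => ‖S.Dζ h n x‖ ^ 2) := by positivity
  linarith

theorem m14_young (P : Par) {D ε : ℝ} (hD : 0 < D) (hε : 0 < ε) : ∃ K : ℝ, 0 < K ∧
    ∀ a b : ℝ, 0 ≤ a → 0 ≤ b → D * (b ^ (1 / P.s) * a ^ (2 / P.p)) ≤ ε * a + K * b := by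
  have hs := P.s_gt_one
  have hp := P.two_lt_p
  have hsum : 1 / P.s + 2 / P.p = 1 := by
    rw [P.inv_s]; ring
  have h1s : 0 ≤ 1 / P.s := by positivity
  have h2p : 0 ≤ 2 / P.p := by positivity
  obtain ⟨T, hT⟩ : ∃ T : ℝ, T = (D / ε) ^ P.s := ⟨_, rfl⟩
  have hT0 : 0 < T := by rw [hT]; positivity
  have hTs : T ^ (1 / P.s) = D / ε := by
    rw [hT, ← Real.rpow_mul (by positivity), mul_one_div_cancel (by positivity), Real.rpow_one]
  refine ⟨D * T ^ (2 / P.p), by positivity, ?_⟩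
  intro a b ha hb
  rcases le_total a (T * b) with h | h
  · have h1 : a ^ (2 / P.p) ≤ T ^ (2 / P.p) * b ^ (2 / P.p) := by
      rw [← Real.mul_rpow hT0.le hb]
      exact Real.rpow_le_rpow ha h h2p
    calc D * (b ^ (1 / P.s) * a ^ (2 / P.p)) ≤
          D * (b ^ (1 / P.s) * (T ^ (2 / P.p) * b ^ (2 / P.p))) := by gcongr
      _ = D * T ^ (2 / P.p) * (b ^ (1 / P.s) * b ^ (2 / P.p)) := by ring
      _ = D * T ^ (2 / P.p) * b := by
          rw [← Real.rpow_add_of_nonneg hb h1s h2p, hsum, Real.rpow_one]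
      _ ≤ _ := by
          have : 0 ≤ ε * a := by positivity
          linarith
  · have h1 : b ^ (1 / P.s) ≤ a ^ (1 / P.s) / (D / ε) := by
      rw [← hTs, ← Real.div_rpow ha hT0.le]
      apply Real.rpow_le_rpow hb _ h1s
      rw [le_div_iff₀ hT0]
      linarith
    calc D * (b ^ (1 / P.s) * a ^ (2 / P.p)) ≤
          D * (a ^ (1 / P.s) / (D / ε) * a ^ (2 / P.p)) := by gcongr
      _ = ε * (a ^ (1 / P.s) * a ^ (2 / P.p)) := by
          field_simp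
      _ = ε * a := by
          rw [← Real.rpow_add_of_nonneg ha h1s h2p, hsum, Real.rpow_one]
      _ ≤ _ := by
          have : 0 ≤ D * T ^ (2 / P.p) * b := by positivity
          linarith

theorem est6 (P : Par) : ∃ C : ℝ, 0 < C ∧ ∀ (Ω : Set (E P.N)) (S : Sol P Ω) (R : ℝ) (n1 : ℕ)
    (τ A εf θ : ℝ) (X : ℕ → ℝ), Hyp S R n1 τ A εf X → Small R τ εf θ →
    ∀ n ≤ n1, ∀ x₀ r, Adm R x₀ r →
    S.Y (θ * τ) x₀ r n ≤ C * r ^ P.lam * X n ∧
    I0 P x₀ r (S.Za (θ * τ) n) ≤ C * X n * r ^ P.lam := by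
  obtain ⟨Cb, hCb, eb⟩ := est1b P
  obtain ⟨Cc, hCc, ec⟩ := est1c P
  obtain ⟨C2, hC2, e2⟩ := est2 P
  obtain ⟨C5, hC5, e5⟩ := est5 P
  obtain ⟨Cg, cg, hCg, hcg, eg⟩ := gz_ineq P
  obtain ⟨Ch, hCh, eh⟩ := holder_two P
  have hq1 := P.q_gt_one
  have hp2 := P.two_lt_p
  obtain ⟨K, hK, young⟩ := m14_young P (D := 5 / 2 * Ch) (ε := 1 / (2 * P.q)) (by positivity)
    (by positivity)
  obtain ⟨CY, hCY⟩ : ∃ CY : ℝ, CY = Cb + C2 + 2 * Cc + Cg * C5 := ⟨_, rfl⟩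
  have hCY0 : 0 < CY := by rw [hCY]; positivity
  refine ⟨CY + 2 * P.q * (CY + K), by positivity, ?_⟩
  intro Ω S R n1 τ A εf θ X hyp hs n hn x₀ r hadm
  have hτ1 := hyp.τ1
  have hτ : 0 < τ := by linarith
  have hθ := hs.θ0
  have hθ1 : θ ≤ 1 := by linarith [hs.θ1]
  obtain ⟨h, hhdef⟩ : ∃ h : ℝ, h = θ * τ := ⟨_, rfl⟩
  have hh : 0 < h := by rw [hhdef]; positivity
  have h2h : 2 * h ≤ τ := by rw [hhdef]; nlinarith [hs.θ1]
  have hδ := S.δ_pos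
  have hX1 : 1 ≤ X n :=
    (Real.one_le_rpow hτ1 (by linarith [P.s_gt_one])).trans (hyp.X_lb n hn)
  have hX : 0 < X n := by linarith
  have hr : 0 < r := hadm.2.1
  have hrl : 0 < r ^ P.lam := by positivity
  obtain ⟨b1, -, -, -, -, -⟩ := eb Ω S R n1 τ A εf X hyp h hh h2h n hn x₀ r hadm
  obtain ⟨-, c2, c3, -, -⟩ := ec Ω S R n1 τ A εf X hyp h hh h2h n hn x₀ r hadm
  have d2 := e2 Ω S R n1 τ A εf θ X hyp hs n hn x₀ r hadm
  have d5 := e5 Ω S R n1 τ A εf θ X hyp hs n hn x₀ r hadm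
  rw [← hhdef] at d2 d5 ⊢
  have hRh : R ^ 2 / h ≤ 1 := by
    have := m14_R2 hs hτ1
    rw [← hhdef] at this
    have h3 : θ ^ 3 ≤ 1 := pow_le_one₀ hθ.le hθ1
    linarith
  have hXτ : X n / τ ≤ X n := div_le_self hX.le hτ1
  -- average of Y
  have hYm : ∀ m, S.Y h x₀ r m ≤ I0 P x₀ r (S.Za h m) +
      (h / 2) * I0 P x₀ r (fun x => ‖S.Dζ h m x‖ ^ 2) +
      h * I0 P x₀ r (fun x => S.ζt h m x ^ 2) +
      (1 / (2 * h)) * I0 P x₀ r (fun x => S.ζ h m x ^ 2) := by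
    intro m
    have iζ := S.hζ h m
    have t1 := S.ζt_mem h m
    have i1 : Integrable (fun x => S.ζt h m x ^ 2) := Sol.sq_int t1
    have i2 : Integrable (fun x => S.ζ h m x * S.ζt h m x) := Sol.mul_int iζ.1 t1
    have i3 : Integrable (fun x => S.ζ h m x ^ 2) := Sol.sq_int iζ.1
    have k1 : I0 P x₀ r (fun x => S.ζ h m x * S.ζt h m x) ≤
        (h / 2) * I0 P x₀ r (fun x => S.ζt h m x ^ 2) +
        (1 / (2 * h)) * I0 P x₀ r (fun x => S.ζ h m x ^ 2) := by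
      rw [← I0_mul, ← I0_mul, ← I0_add (i1.const_mul _) (i3.const_mul _)]
      refine I0_mono i2 ((i1.const_mul _).add (i3.const_mul _)) (ae_of_all _ fun x => ?_)
      have : h / 2 * S.ζt h m x ^ 2 + 1 / (2 * h) * S.ζ h m x ^ 2 - S.ζ h m x * S.ζt h m x =
          (h / 2) * (S.ζt h m x - S.ζ h m x / h) ^ 2 := by
        field_simp
        ring
      have h3 : 0 ≤ (h / 2) * (S.ζt h m x - S.ζ h m x / h) ^ 2 := by positivity
      linarith
    have k2 : 0 ≤ I0 P x₀ r (S.Za h m) := I0_nonneg fun x => S.Za_nonneg h m hh x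
    have k3 : (1 / P.q) * I0 P x₀ r (S.Za h m) ≤ I0 P x₀ r (S.Za h m) := by
      apply mul_le_of_le_one_left k2
      rw [div_le_one (by linarith)]
      linarith
    unfold Sol.Y
    linarith
  have hAY : avg S.δ τ (fun m => S.Y h x₀ r m) n ≤ (Cb + C2 + 2 * Cc) * (X n * r ^ P.lam) := by
    have k1 : avg S.δ τ (fun m => S.Y h x₀ r m) n ≤
        avg S.δ τ (fun m => I0 P x₀ r (S.Za h m)) n +
        (h / 2) * avg S.δ τ (fun m => I0 P x₀ r (fun x => ‖S.Dζ h m x‖ ^ 2)) n +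
        h * avg S.δ τ (fun m => I0 P x₀ r (fun x => S.ζt h m x ^ 2)) n +
        (1 / (2 * h)) * avg S.δ τ (fun m => I0 P x₀ r (fun x => S.ζ h m x ^ 2)) n := by
      rw [← avg_mul_left, ← avg_mul_left, ← avg_mul_left, ← avg_add, ← avg_add, ← avg_add]
      exact avg_mono hδ hτ fun m _ _ => hYm m
    have k2 : (h / 2) * avg S.δ τ (fun m => I0 P x₀ r (fun x => ‖S.Dζ h m x‖ ^ 2)) n ≤
        C2 * (X n * r ^ P.lam) := by
      calc _ ≤ (h / 2) * (C2 / θ * (X n / τ) * r ^ P.lam) := by gcongr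
        _ = (1 / 2) * (C2 * (X n * r ^ P.lam)) := by
            rw [hhdef]
            field_simp
        _ ≤ _ := by
            have : 0 ≤ C2 * (X n * r ^ P.lam) := by positivity
            linarith
    have k3 : h * avg S.δ τ (fun m => I0 P x₀ r (fun x => S.ζt h m x ^ 2)) n ≤
        Cc * (X n * r ^ P.lam) := by
      calc _ ≤ h * (Cc * R ^ 2 / h ^ 2 * (X n / τ) * r ^ P.lam) := by gcongr
        _ = Cc * ((R ^ 2 / h) * ((X n / τ) * r ^ P.lam)) := by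
            field_simp
        _ ≤ Cc * (1 * (X n * r ^ P.lam)) := by gcongr
        _ = _ := by ring
    have k4 : (1 / (2 * h)) * avg S.δ τ (fun m => I0 P x₀ r (fun x => S.ζ h m x ^ 2)) n ≤
        Cc * (X n * r ^ P.lam) := by
      calc _ ≤ (1 / (2 * h)) * (Cc * R ^ 2 * (X n / τ) * r ^ P.lam) := by gcongr
        _ = (1 / 2) * (Cc * ((R ^ 2 / h) * ((X n / τ) * r ^ P.lam))) := by
            field_simp
        _ ≤ (1 / 2) * (Cc * (1 * (X n * r ^ P.lam))) := by gcongr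
        _ ≤ _ := by
            have : 0 ≤ Cc * (X n * r ^ P.lam) := by positivity
            linarith
    have k5 : Cb * X n * r ^ P.lam = Cb * (X n * r ^ P.lam) := by ring
    calc _ ≤ _ := k1
      _ ≤ Cb * (X n * r ^ P.lam) + C2 * (X n * r ^ P.lam) + Cc * (X n * r ^ P.lam) +
          Cc * (X n * r ^ P.lam) := by linarith
      _ = _ := by ring
  have hθe : θ ^ (1 / (2 * P.p)) ≤ 1 := Real.rpow_le_one hθ.le hθ1 (by positivity)
  -- the bound of Y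
  have hYn : S.Y h x₀ r n ≤ CY * (X n * r ^ P.lam) := by
    have H : ∀ m < n1, (S.Y h x₀ r (m + 1) - S.Y h x₀ r m) / S.δ + (fun _ : ℕ => (0 : ℝ)) (m + 1) ≤
        (fun m => Cg * S.Rr h x₀ r m) (m + 1) := by
      intro m _
      have := eg Ω S h hh m x₀ r hr
      have n1' : 0 ≤ I0 P x₀ r (fun x => ‖S.Dζ h (m + 1) x‖ ^ 2) :=
        I0_nonneg fun x => by positivity
      have n2' : 0 ≤ cg * I2 P x₀ r (fun x => S.ζ h (m + 1) x ^ 2) :=
        mul_nonneg hcg.le (I2_nonneg fun x => by positivity)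
      simp only
      linarith
    have k1 := avg_ineq (δ := S.δ) (h := τ) hδ hτ (Y := fun m => S.Y h x₀ r m)
      (A := fun _ => 0) (B := fun m => Cg * S.Rr h x₀ r m) (S.Y_zero h x₀ r) H n hn
    have k2 : 0 ≤ avg S.δ τ (fun _ => (0 : ℝ)) n := avg_nonneg hδ hτ fun m _ _ => le_rfl
    have k3 : 0 ≤ τ * avg S.δ τ (fun _ => (0 : ℝ)) n := mul_nonneg hτ.le k2
    have k4 : τ * avg S.δ τ (fun m => Cg * S.Rr h x₀ r m) n ≤
        Cg * C5 * (X n * r ^ P.lam) := by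
      rw [avg_mul_left]
      calc τ * (Cg * avg S.δ τ (fun m => S.Rr h x₀ r m) n) ≤
            τ * (Cg * (C5 * θ ^ (1 / (2 * P.p)) * (X n / τ) * r ^ P.lam)) := by gcongr
        _ = Cg * (C5 * θ ^ (1 / (2 * P.p)) * (X n * r ^ P.lam)) := by
            field_simp
        _ ≤ Cg * (C5 * 1 * (X n * r ^ P.lam)) := by gcongr
        _ = _ := by ring
    calc S.Y h x₀ r n ≤ (Cb + C2 + 2 * Cc) * (X n * r ^ P.lam) +
          Cg * C5 * (X n * r ^ P.lam) := by linarith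
      _ = _ := by rw [hCY]; ring
  -- the bound of Za
  have hZ : I0 P x₀ r (S.Za h n) ≤ 2 * P.q * (CY + K) * (X n * r ^ P.lam) := by
    have iζ := S.hζ h n
    have i3 : Integrable (fun x => S.ζ h n x ^ 2) := Sol.sq_int iζ.1
    have k1 := Y_lower P Ω S h hh n x₀ r hr
    have k2 : I0 P x₀ r (fun x => S.ζ h n x ^ 2) ≤
        5 * R ^ 2 * I2 P x₀ r (fun x => S.ζ h n x ^ 2) := by
      refine I0_le_I2 hadm i3 (fun x => by positivity) ?_
      filter_upwards [S.ζ_off h n] with x hx hxb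
      rw [hx fun hxΩ => hxb (hyp.hΩ hxΩ)]
      ring
    have k3 := eh x₀ r hr (S.ζ h n) iζ.1.1 (S.ζp h n hh)
    have k4 : I0 P x₀ r (fun x => |S.ζ h n x| ^ P.p) ≤ I0 P x₀ r (S.Za h n) := by
      refine I0_mono (S.ζp h n hh) (S.Za_int h n) (ae_of_all _ fun x => ?_)
      exact pt_za P hδ hh (fun m => S.z m x) n
    have k5 : 0 ≤ I0 P x₀ r (fun x => |S.ζ h n x| ^ P.p) := I0_nonneg fun x => by positivity
    have k6 : 0 ≤ I0 P x₀ r (S.Za h n) := I0_nonneg fun x => S.Za_nonneg h n hh x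
    have k7 : 1 / (2 * h) * I0 P x₀ r (fun x => S.ζ h n x ^ 2) ≤
        5 / 2 * Ch * ((r ^ P.lam) ^ (1 / P.s) * (I0 P x₀ r (S.Za h n)) ^ (2 / P.p)) := by
      calc _ ≤ 1 / (2 * h) * (5 * R ^ 2 * (Ch * (r ^ P.lam) ^ (1 / P.s) *
            (I0 P x₀ r (fun x => |S.ζ h n x| ^ P.p)) ^ (2 / P.p))) := by
            gcongr
            exact k2.trans (by gcongr)
        _ ≤ 1 / (2 * h) * (5 * R ^ 2 * (Ch * (r ^ P.lam) ^ (1 / P.s) *
            (I0 P x₀ r (S.Za h n)) ^ (2 / P.p))) := by gcongr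
        _ = (R ^ 2 / h) * (5 / 2 * Ch * ((r ^ P.lam) ^ (1 / P.s) *
            (I0 P x₀ r (S.Za h n)) ^ (2 / P.p))) := by
            field_simp
        _ ≤ 1 * (5 / 2 * Ch * ((r ^ P.lam) ^ (1 / P.s) *
            (I0 P x₀ r (S.Za h n)) ^ (2 / P.p))) := by gcongr
        _ = _ := one_mul _
    have k8 := young (I0 P x₀ r (S.Za h n)) (r ^ P.lam) k6 hrl.le
    have k9 : K * r ^ P.lam ≤ K * (X n * r ^ P.lam) := by
      have : r ^ P.lam ≤ X n * r ^ P.lam := by nlinarith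
      gcongr
    have k10 : 1 / (2 * P.q) * I0 P x₀ r (S.Za h n) ≤ (CY + K) * (X n * r ^ P.lam) := by
      have : 1 / P.q * I0 P x₀ r (S.Za h n) = 1 / (2 * P.q) * I0 P x₀ r (S.Za h n) +
          1 / (2 * P.q) * I0 P x₀ r (S.Za h n) := by
        field_simp
        ring
      linarith
    calc I0 P x₀ r (S.Za h n) = 2 * P.q * (1 / (2 * P.q) * I0 P x₀ r (S.Za h n)) := by
          field_simp
      _ ≤ 2 * P.q * ((CY + K) * (X n * r ^ P.lam)) := by gcongr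
      _ = _ := by ring
  have hq0 : 0 < 2 * P.q * (CY + K) := by positivity
  have hXr : 0 < X n * r ^ P.lam := by positivity
  constructor
  · calc S.Y h x₀ r n ≤ CY * (X n * r ^ P.lam) := hYn
      _ ≤ (CY + 2 * P.q * (CY + K)) * (X n * r ^ P.lam) := by nlinarith
      _ = _ := by ring
  · calc I0 P x₀ r (S.Za h n) ≤ 2 * P.q * (CY + K) * (X n * r ^ P.lam) := hZ
      _ ≤ (CY + 2 * P.q * (CY + K)) * (X n * r ^ P.lam) := by nlinarith
      _ = _ := by ring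

end Pool.Agent.H15.Hx
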