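import Pool.Agent.H15.Hx.M07_Adams
import Pool.Agent.H15.Hx.M14_Gz

/-! M15: decay of the averaged functional on the last A τ units of time. -/

set_option autoImplicit false

open MeasureTheory Set Filter Topology
open scoped RealInnerProductSpace
open Pool.Agent.H25.HX (E g Tst H10)

noncomputable section

namespace Pool.Agent.H15.Hx

/-- the right side of the decay inequality -/
def Sol.Rs {P : Par} {Ω : Set (E P.N)} (S : Sol P Ω) (τ h : ℝ) (x₀ : E P.N) (r : ℝ) (n : ℕ) : ℝ :=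
  S.Rr h x₀ r n + (I0 P x₀ r (S.Cv h n) + h * I0 P x₀ r (fun x => S.ζt h n x ^ 2) +
    I0 P x₀ r (fun x => S.ζ h n x ^ 2) / h) / τ

theorem m15_small {R τ εf θ : ℝ} (hR : 1 ≤ R) (hτ : 1 ≤ τ) (hs : Small R τ εf θ) {κ : ℝ}
    (hκ : κ ≤ 1) : R ^ 2 / (θ * τ) ≤ θ ^ κ := by
  have h0 := hs.θ0
  have h1 : θ ≤ 1 := by linarith [hs.θ1]
  have h2 : R ^ 2 / (θ * τ) ≤ θ ^ 3 := by
    rw [div_le_iff₀ (by positivity)]
    calc R ^ 2 ≤ θ ^ 4 * τ := hs.hτ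
      _ = θ ^ 3 * (θ * τ) := by ring
  have h3 : θ ^ 3 ≤ θ := by
    calc θ ^ 3 = θ * θ ^ 2 := by ring
      _ ≤ θ * 1 := by
        apply mul_le_mul_of_nonneg_left _ h0.le
        nlinarith
      _ = θ := by ring
  calc R ^ 2 / (θ * τ) ≤ θ := h2.trans h3
    _ = θ ^ (1 : ℝ) := (Real.rpow_one θ).symm
    _ ≤ θ ^ κ := Real.rpow_le_rpow_of_exponent_ge h0 h1 hκ

theorem Rs_avg (P : Par) : ∃ C : ℝ, 0 < C ∧ ∀ (Ω : Set (E P.N)) (S : Sol P Ω) (R : ℝ) (n1 : ℕ)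
    (τ A εf θ : ℝ) (X : ℕ → ℝ), Hyp S R n1 τ A εf X → Small R τ εf θ →
    ∀ n ≤ n1, ∀ x₀ r, Adm R x₀ r →
    avg S.δ τ (fun m => S.Rs τ (θ * τ) x₀ r m) n ≤
      C * θ ^ (1 / (2 * P.p)) * (X n / τ) * r ^ P.lam := by
  obtain ⟨C5, hC5, e5⟩ := est5 P
  obtain ⟨C3, hC3, e3⟩ := est3 P
  obtain ⟨Cc, hCc, ec⟩ := est1c P
  refine ⟨C5 + C3 + 2 * Cc, by positivity, ?_⟩
  intro Ω S R n1 τ A εf θ X H hs n hn x₀ r hr
  have hτ1 := H.τ1
  have hτ : 0 < τ := by linarith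
  have hθ := hs.θ0
  have hθ1 : θ ≤ 1 := by linarith [hs.θ1]
  have hh : 0 < θ * τ := by positivity
  have h2h : 2 * (θ * τ) ≤ τ := by nlinarith [hs.θ1]
  have hp := P.two_lt_p
  have hκ : 1 / (2 * P.p) ≤ 1 / 2 := by
    apply one_div_le_one_div_of_le (by norm_num); linarith
  have hX0 : 0 ≤ X n := le_trans (Real.rpow_nonneg hτ.le _) (H.X_lb n hn)
  have hrl : 0 ≤ r ^ P.lam := Real.rpow_nonneg hr.2.1.le _
  set κ := 1 / (2 * P.p) with hκd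
  have hXτ : 0 ≤ X n / τ * r ^ P.lam := by positivity
  have key := m15_small H.hR hτ1 hs (κ := κ) (by linarith)
  have a5 := e5 Ω S R n1 τ A εf θ X H hs n hn x₀ r hr
  have a3 := (e3 Ω S R n1 τ A εf θ X H hs n hn x₀ r hr).2
  obtain ⟨-, az, at', -, -⟩ := ec Ω S R n1 τ A εf X H (θ * τ) hh h2h n hn x₀ r hr
  have hθκ : θ ^ (1 / 2 : ℝ) ≤ θ ^ κ := Real.rpow_le_rpow_of_exponent_ge hθ hθ1 hκ
  have e1 : avg S.δ τ (fun m => S.Rs τ (θ * τ) x₀ r m) n =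
      avg S.δ τ (fun m => S.Rr (θ * τ) x₀ r m) n +
      (1 / τ) * (avg S.δ τ (fun m => I0 P x₀ r (S.Cv (θ * τ) m)) n +
        ((θ * τ) * avg S.δ τ (fun m => I0 P x₀ r (fun x => S.ζt (θ * τ) m x ^ 2)) n +
        (1 / (θ * τ)) * avg S.δ τ (fun m => I0 P x₀ r (fun x => S.ζ (θ * τ) m x ^ 2)) n)) := by
    rw [← avg_mul_left, ← avg_mul_left, ← avg_add, ← avg_add, ← avg_mul_left, ← avg_add]
    congr 1
    funext m
    simp only [Sol.Rs]
    ring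
  rw [e1]
  have b3 : (1 / τ) * avg S.δ τ (fun m => I0 P x₀ r (S.Cv (θ * τ) m)) n ≤
      C3 * θ ^ κ * (X n / τ * r ^ P.lam) := by
    calc (1 / τ) * avg S.δ τ (fun m => I0 P x₀ r (S.Cv (θ * τ) m)) n
        ≤ (1 / τ) * (C3 * θ ^ (1 / 2 : ℝ) * X n * r ^ P.lam) :=
          mul_le_mul_of_nonneg_left a3 (by positivity)
      _ = C3 * θ ^ (1 / 2 : ℝ) * (X n / τ * r ^ P.lam) := by ring
      _ ≤ C3 * θ ^ κ * (X n / τ * r ^ P.lam) := by gcongr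
  have h1τ : 1 / τ ≤ 1 := by rw [div_le_one hτ]; exact hτ1
  have bt : (1 / τ) * ((θ * τ) * avg S.δ τ
      (fun m => I0 P x₀ r (fun x => S.ζt (θ * τ) m x ^ 2)) n) ≤
      Cc * θ ^ κ * (X n / τ * r ^ P.lam) := by
    calc (1 / τ) * ((θ * τ) * avg S.δ τ
          (fun m => I0 P x₀ r (fun x => S.ζt (θ * τ) m x ^ 2)) n)
        ≤ (1 / τ) * ((θ * τ) * (Cc * R ^ 2 / (θ * τ) ^ 2 * (X n / τ) * r ^ P.lam)) := by
          gcongr
      _ = (1 / τ) * (Cc * (R ^ 2 / (θ * τ)) * (X n / τ * r ^ P.lam)) := by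
          field_simp
      _ ≤ 1 * (Cc * θ ^ κ * (X n / τ * r ^ P.lam)) := by gcongr
      _ = Cc * θ ^ κ * (X n / τ * r ^ P.lam) := one_mul _
  have bz : (1 / τ) * ((1 / (θ * τ)) * avg S.δ τ
      (fun m => I0 P x₀ r (fun x => S.ζ (θ * τ) m x ^ 2)) n) ≤
      Cc * θ ^ κ * (X n / τ * r ^ P.lam) := by
    calc (1 / τ) * ((1 / (θ * τ)) * avg S.δ τ
          (fun m => I0 P x₀ r (fun x => S.ζ (θ * τ) m x ^ 2)) n)
        ≤ (1 / τ) * ((1 / (θ * τ)) * (Cc * R ^ 2 * (X n / τ) * r ^ P.lam)) := by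
          gcongr
      _ = (1 / τ) * (Cc * (R ^ 2 / (θ * τ)) * (X n / τ * r ^ P.lam)) := by
          field_simp
      _ ≤ 1 * (Cc * θ ^ κ * (X n / τ * r ^ P.lam)) := by gcongr
      _ = Cc * θ ^ κ * (X n / τ * r ^ P.lam) := one_mul _
  have fin : (C5 + C3 + 2 * Cc) * θ ^ κ * (X n / τ) * r ^ P.lam =
      C5 * θ ^ κ * (X n / τ) * r ^ P.lam + (C3 * θ ^ κ * (X n / τ * r ^ P.lam) +
        (Cc * θ ^ κ * (X n / τ * r ^ P.lam) + Cc * θ ^ κ * (X n / τ * r ^ P.lam))) := by ring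
  rw [fin, mul_add, mul_add]
  exact add_le_add a5 (add_le_add b3 (add_le_add bt bz))

/-- `X` is at most `e τ^s` in the window -/
theorem m15_window {δ B : ℝ} (hδ : 0 < δ) (hB : 0 < B) {X : ℕ → ℝ} {n1 : ℕ}
    (hX : ∀ m ≤ n1, 0 ≤ X m) (hs : ∀ m < n1, X m ≤ (1 + δ / B) * X (m + 1)) :
    ∀ k ≤ n1, X (n1 - k) ≤ Real.exp (k * δ / B) * X n1 := by
  intro k
  induction k with
  | zero => intro _; simp
  | succ k ih =>
    intro hk
    have h1 := hs (n1 - (k + 1)) (by omega)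
    have h2 : n1 - (k + 1) + 1 = n1 - k := by omega
    rw [h2] at h1
    have h3 := ih (by omega)
    have h4 : 1 + δ / B ≤ Real.exp (δ / B) := by
      have := Real.add_one_le_exp (δ / B)
      linarith
    have h5 : 0 ≤ X (n1 - k) := hX _ (by omega)
    calc X (n1 - (k + 1)) ≤ (1 + δ / B) * X (n1 - k) := h1
      _ ≤ Real.exp (δ / B) * X (n1 - k) := mul_le_mul_of_nonneg_right h4 h5
      _ ≤ Real.exp (δ / B) * (Real.exp (k * δ / B) * X n1) :=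
          mul_le_mul_of_nonneg_left h3 (Real.exp_pos _).le
      _ = Real.exp (((k + 1 : ℕ) : ℝ) * δ / B) * X n1 := by
          rw [← mul_assoc, ← Real.exp_add]
          congr 2
          push_cast
          ring

theorem decay_step (P : Par) : ∃ C c0 : ℝ, 0 < C ∧ 0 < c0 ∧ c0 ≤ 1 ∧
    ∀ (Ω : Set (E P.N)) (S : Sol P Ω) (R : ℝ) (n1 : ℕ)
    (τ A εf θ : ℝ) (X : ℕ → ℝ), Hyp S R n1 τ A εf X → Small R τ εf θ → X n1 = τ ^ P.s →
    ∀ n < n1, ((n1 : ℝ) - (n + 1 : ℕ)) * S.δ ≤ A * τ → ∀ x₀ r, Adm R x₀ r →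
    (S.Y (θ * τ) x₀ r (n + 1) - S.Y (θ * τ) x₀ r n) / S.δ +
      c0 / τ * S.Y (θ * τ) x₀ r (n + 1) ≤ C * S.Rs τ (θ * τ) x₀ r (n + 1) := by
  obtain ⟨Cg, c, hCg, hc, gz⟩ := gz_ineq P
  obtain ⟨C6, hC6, e6⟩ := est6 P
  obtain ⟨C7, hC7, ws⟩ := wsob_p P
  obtain ⟨C8, hC8, pl⟩ := pt_pa_le P
  set K : ℝ := C8 * (C7 * (C6 * Real.exp 1) ^ (1 / P.s)) + 1 with hK
  have hK0 : 0 < K := by positivity
  set m0 : ℝ := min (1 / 2) c with hm0
  have hm0p : 0 < m0 := lt_min (by norm_num) hc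
  refine ⟨Cg + C8 + 1, min 1 (m0 / K), by positivity, lt_min one_pos (by positivity),
    min_le_left _ _, ?_⟩
  intro Ω S R n1 τ A εf θ X H hs hXn1 n hn hw x₀ r hr
  set c0 : ℝ := min 1 (m0 / K) with hc0
  have hc00 : 0 < c0 := lt_min one_pos (by positivity)
  have hτ1 := H.τ1
  have hτ : 0 < τ := by linarith
  have hθ := hs.θ0
  have hθ1 : θ ≤ 1 := by linarith [hs.θ1]
  have hh : 0 < θ * τ := by positivity
  have hδ := S.δ_pos
  have hA : 0 < A := by linarith [H.hA]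
  have hs1 := P.s_gt_one
  have hm : n + 1 ≤ n1 := hn
  have hr0 := hr.2.1
  -- the window
  have hXe : X (n + 1) ≤ Real.exp 1 * τ ^ P.s := by
    have h1 := m15_window hδ (B := A * τ) (by positivity) (X := X) (n1 := n1)
      (fun m hm => le_trans (Real.rpow_nonneg hτ.le _) (H.X_lb m hm)) H.X_slow
      (n1 - (n + 1)) (by omega)
    have h2 : n1 - (n1 - (n + 1)) = n + 1 := by omega
    rw [h2, hXn1] at h1
    refine h1.trans ?_
    apply mul_le_mul_of_nonneg_right _ (Real.rpow_nonneg hτ.le _)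
    apply Real.exp_le_exp.2
    rw [div_le_one (by positivity), Nat.cast_sub hm]
    exact hw
  have hXp : 0 ≤ X (n + 1) := le_trans (Real.rpow_nonneg hτ.le _) (H.X_lb _ hm)
  -- Sobolev for ζ
  have hζp := S.ζp (θ * τ) (n + 1) hh
  have hZi := S.Za_int (θ * τ) (n + 1)
  have hsob : I0 P x₀ r (fun x => |S.ζ (θ * τ) (n + 1) x| ^ P.p) ≤
      C7 * ((C6 * X (n + 1)) ^ (1 / P.s)) *
        (I0 P x₀ r (fun x => ‖S.Dζ (θ * τ) (n + 1) x‖ ^ 2) +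
          I2 P x₀ r (fun x => S.ζ (θ * τ) (n + 1) x ^ 2)) := by
    refine ws Ω R (by linarith [H.hR]) H.hΩ _ _ (S.hζ (θ * τ) (n + 1)) hζp (C6 * X (n + 1))
      (by positivity) ?_ x₀ r hr0
    intro y ρ hy
    refine le_trans (I0_mono hζp hZi (Filter.Eventually.of_forall fun x => ?_))
      (e6 Ω S R n1 τ A εf θ X H hs (n + 1) hm y ρ hy).2
    exact pt_za (P := P) hδ hh (fun m => S.z m x) (n + 1)
  have hpow : (C6 * X (n + 1)) ^ (1 / P.s) ≤ (C6 * Real.exp 1) ^ (1 / P.s) * τ := by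
    have h1 : C6 * X (n + 1) ≤ (C6 * Real.exp 1) * τ ^ P.s := by
      calc C6 * X (n + 1) ≤ C6 * (Real.exp 1 * τ ^ P.s) := by gcongr
        _ = (C6 * Real.exp 1) * τ ^ P.s := by ring
    calc (C6 * X (n + 1)) ^ (1 / P.s) ≤ ((C6 * Real.exp 1) * τ ^ P.s) ^ (1 / P.s) :=
          Real.rpow_le_rpow (by positivity) h1 (by positivity)
      _ = (C6 * Real.exp 1) ^ (1 / P.s) * (τ ^ P.s) ^ (1 / P.s) :=
          Real.mul_rpow (by positivity) (by positivity)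
      _ = (C6 * Real.exp 1) ^ (1 / P.s) * τ := by
          rw [← Real.rpow_mul hτ.le, mul_one_div_cancel (by linarith), Real.rpow_one]
  have hD2 : 0 ≤ I0 P x₀ r (fun x => ‖S.Dζ (θ * τ) (n + 1) x‖ ^ 2) :=
    I0_nonneg fun x => by positivity
  have hI2 : 0 ≤ I2 P x₀ r (fun x => S.ζ (θ * τ) (n + 1) x ^ 2) :=
    I2_nonneg fun x => by positivity
  have hT : 0 ≤ I0 P x₀ r (fun x => S.ζt (θ * τ) (n + 1) x ^ 2) :=
    I0_nonneg fun x => by positivity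
  have hZ2 : 0 ≤ I0 P x₀ r (fun x => S.ζ (θ * τ) (n + 1) x ^ 2) :=
    I0_nonneg fun x => by positivity
  have hCv : 0 ≤ I0 P x₀ r (S.Cv (θ * τ) (n + 1)) :=
    I0_nonneg fun x => pt_ca_nonneg P hδ hh (fun m => S.z m x) (n + 1)
  have hRr := S.Rr_nonneg (θ * τ) (n + 1) hh x₀ r
  -- Za ≤ C (Cv + |ζ|^p)
  have hZa : I0 P x₀ r (S.Za (θ * τ) (n + 1)) ≤ C8 * (I0 P x₀ r (S.Cv (θ * τ) (n + 1)) +
      I0 P x₀ r (fun x => |S.ζ (θ * τ) (n + 1) x| ^ P.p)) := by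
    rw [← I0_add (S.Cv_int (θ * τ) (n + 1) hh) hζp, ← I0_mul]
    refine I0_mono hZi (((S.Cv_int (θ * τ) (n + 1) hh).add hζp).const_mul C8)
      (Filter.Eventually.of_forall fun x => ?_)
    exact pl S.δ (θ * τ) hδ hh (fun m => S.z m x) (n + 1)
  -- the cross term
  have hcross : I0 P x₀ r (fun x => S.ζ (θ * τ) (n + 1) x * S.ζt (θ * τ) (n + 1) x) ≤
      (θ * τ) / 2 * I0 P x₀ r (fun x => S.ζt (θ * τ) (n + 1) x ^ 2) +
        1 / (θ * τ) * I0 P x₀ r (fun x => S.ζ (θ * τ) (n + 1) x ^ 2) := by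
    have i1 : Integrable (fun x => S.ζ (θ * τ) (n + 1) x * S.ζt (θ * τ) (n + 1) x) :=
      Sol.mul_int (S.hζ (θ * τ) (n + 1)).1 (S.ζt_mem (θ * τ) (n + 1))
    have i2 := Sol.sq_int (S.ζt_mem (θ * τ) (n + 1))
    have i3 := Sol.sq_int (S.hζ (θ * τ) (n + 1)).1
    rw [← I0_mul, ← I0_mul, ← I0_add (i2.const_mul _) (i3.const_mul _)]
    refine I0_mono i1 ((i2.const_mul _).add (i3.const_mul _))
      (Filter.Eventually.of_forall fun x => ?_)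
    set a := S.ζ (θ * τ) (n + 1) x
    set b := S.ζt (θ * τ) (n + 1) x
    set h := θ * τ
    have h1 : 0 ≤ (h * b - a) ^ 2 / (2 * h) := by positivity
    have h2 : (h * b - a) ^ 2 / (2 * h) = h / 2 * b ^ 2 - a * b + 1 / (2 * h) * a ^ 2 := by
      field_simp
      ring
    have h3 : 1 / (2 * h) * a ^ 2 ≤ 1 / h * a ^ 2 := by
      apply mul_le_mul_of_nonneg_right _ (sq_nonneg a)
      apply one_div_le_one_div_of_le hh
      linarith
    change a * b ≤ h / 2 * b ^ 2 + 1 / h * a ^ 2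
    linarith
  -- upper bound of Y
  set D2 := I0 P x₀ r (fun x => ‖S.Dζ (θ * τ) (n + 1) x‖ ^ 2) with hD2d
  set J2 := I2 P x₀ r (fun x => S.ζ (θ * τ) (n + 1) x ^ 2) with hJ2d
  set T := I0 P x₀ r (fun x => S.ζt (θ * τ) (n + 1) x ^ 2) with hTd
  set Z2 := I0 P x₀ r (fun x => S.ζ (θ * τ) (n + 1) x ^ 2) with hZ2d
  set V := I0 P x₀ r (S.Cv (θ * τ) (n + 1)) with hVd
  set W := V + (θ * τ) * T + Z2 / (θ * τ) with hW
  have hW0 : 0 ≤ W := by positivity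
  have hq1 : 1 / P.q ≤ 1 := by
    rw [div_le_one (by linarith [P.q_gt_one])]; exact P.q_gt_one.le
  have hYle : S.Y (θ * τ) x₀ r (n + 1) ≤ K * τ * (D2 + J2) + (C8 + 1) * W := by
    have hZa0 : 0 ≤ I0 P x₀ r (S.Za (θ * τ) (n + 1)) :=
      I0_nonneg fun x => S.Za_nonneg (θ * τ) (n + 1) hh x
    have b1 : (1 / P.q) * I0 P x₀ r (S.Za (θ * τ) (n + 1)) ≤ C8 * V +
        C8 * (C7 * (C6 * Real.exp 1) ^ (1 / P.s)) * τ * (D2 + J2) := by
      calc (1 / P.q) * I0 P x₀ r (S.Za (θ * τ) (n + 1))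
          ≤ 1 * I0 P x₀ r (S.Za (θ * τ) (n + 1)) := mul_le_mul_of_nonneg_right hq1 hZa0
        _ ≤ C8 * (V + C7 * ((C6 * Real.exp 1) ^ (1 / P.s) * τ) * (D2 + J2)) := by
            rw [one_mul]
            refine hZa.trans ?_
            gcongr
            refine hsob.trans ?_
            gcongr
        _ = _ := by ring
    have b2 : (θ * τ) / 2 * D2 ≤ 1 * τ * (D2 + J2) := by
      have : (θ * τ) / 2 ≤ τ := by nlinarith
      calc (θ * τ) / 2 * D2 ≤ τ * D2 := mul_le_mul_of_nonneg_right this hD2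
        _ ≤ τ * (D2 + J2) := by gcongr; linarith
        _ = 1 * τ * (D2 + J2) := by ring
    have e2 : S.Y (θ * τ) x₀ r (n + 1) = (1 / P.q) * I0 P x₀ r (S.Za (θ * τ) (n + 1)) +
        (θ * τ) / 2 * D2 + (θ * τ) / 2 * T +
        I0 P x₀ r (fun x => S.ζ (θ * τ) (n + 1) x * S.ζt (θ * τ) (n + 1) x) := rfl
    rw [e2]
    have e3 : 1 / (θ * τ) * Z2 = Z2 / (θ * τ) := by ring
    rw [e3] at hcross
    have hC8W : 0 ≤ C8 * ((θ * τ) * T + Z2 / (θ * τ)) := by positivity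
    have hVle : 0 ≤ V := hCv
    calc (1 / P.q) * I0 P x₀ r (S.Za (θ * τ) (n + 1)) + (θ * τ) / 2 * D2 + (θ * τ) / 2 * T +
        I0 P x₀ r (fun x => S.ζ (θ * τ) (n + 1) x * S.ζt (θ * τ) (n + 1) x)
        ≤ (C8 * V + C8 * (C7 * (C6 * Real.exp 1) ^ (1 / P.s)) * τ * (D2 + J2)) +
          1 * τ * (D2 + J2) + (θ * τ) / 2 * T + ((θ * τ) / 2 * T + Z2 / (θ * τ)) := by
          gcongr
      _ = K * τ * (D2 + J2) + (C8 * V + ((θ * τ) * T + Z2 / (θ * τ))) := by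
          rw [hK]; ring
      _ ≤ K * τ * (D2 + J2) + (C8 + 1) * W := by
          gcongr
          rw [hW]
          nlinarith
  have g1 := gz Ω S (θ * τ) hh n x₀ r hr0
  have hcK : c0 * K ≤ m0 := by
    calc c0 * K ≤ (m0 / K) * K := mul_le_mul_of_nonneg_right (min_le_right _ _) hK0.le
      _ = m0 := by field_simp
  have hcY : c0 / τ * S.Y (θ * τ) x₀ r (n + 1) ≤ (1 / 2) * D2 + c * J2 + (C8 + 1) * W / τ := by
    calc c0 / τ * S.Y (θ * τ) x₀ r (n + 1)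
        ≤ c0 / τ * (K * τ * (D2 + J2) + (C8 + 1) * W) :=
          mul_le_mul_of_nonneg_left hYle (by positivity)
      _ = (c0 * K) * (D2 + J2) + c0 * ((C8 + 1) * W / τ) := by
          field_simp
      _ ≤ m0 * (D2 + J2) + 1 * ((C8 + 1) * W / τ) := by
          have : c0 ≤ 1 := min_le_left _ _
          gcongr
      _ = m0 * D2 + m0 * J2 + (C8 + 1) * W / τ := by ring
      _ ≤ (1 / 2) * D2 + c * J2 + (C8 + 1) * W / τ := by
          have h1 : m0 ≤ 1 / 2 := min_le_left _ _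
          have h2 : m0 ≤ c := min_le_right _ _
          gcongr
  have hfin : Cg * S.Rr (θ * τ) x₀ r (n + 1) + (C8 + 1) * W / τ ≤
      (Cg + C8 + 1) * S.Rs τ (θ * τ) x₀ r (n + 1) := by
    have e4 : S.Rs τ (θ * τ) x₀ r (n + 1) = S.Rr (θ * τ) x₀ r (n + 1) + W / τ := rfl
    rw [e4]
    have h1 : 0 ≤ W / τ := by positivity
    have h2 : 0 ≤ (C8 + 1) * S.Rr (θ * τ) x₀ r (n + 1) := by positivity
    have h3 : 0 ≤ Cg * (W / τ) := by positivity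
    have e5 : (C8 + 1) * W / τ = (C8 + 1) * (W / τ) := by ring
    rw [e5]
    nlinarith
  linarith

end Pool.Agent.H15.Hx
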