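import Pool.Agent.H15.Hx.M02b_Decay
import Pool.Agent.H15.Hx.M15_Decay

/-! M16: the mean of the dissipation is small. -/

set_option autoImplicit false

open MeasureTheory Set Filter Topology
open scoped RealInnerProductSpace
open Pool.Agent.H25.HX (E g Tst H10)

noncomputable section

namespace Pool.Agent.H15.Hx

theorem m16_Cv_nonneg {P : Par} {Ω : Set (E P.N)} (S : Sol P Ω) {h : ℝ} (hh : 0 < h) (n : ℕ)
    (x : E P.N) : 0 ≤ S.Cv h n x :=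
  pt_ca_nonneg P S.δ_pos hh (fun m => S.z m x) n

theorem m16_Rs {P : Par} {Ω : Set (E P.N)} (S : Sol P Ω) {τ h : ℝ} (hτ : 0 < τ) (hh : 0 < h)
    (x₀ : E P.N) (r : ℝ) (n : ℕ) : 0 ≤ S.Rs τ h x₀ r n ∧ S.Rr h x₀ r n ≤ S.Rs τ h x₀ r n ∧
    1 / (2 * h) * I0 P x₀ r (fun x => S.ζ h n x ^ 2) ≤ τ / 2 * S.Rs τ h x₀ r n := by
  have h1 : 0 ≤ I0 P x₀ r (S.Cv h n) := I0_nonneg fun x => m16_Cv_nonneg S hh n x
  have h2 : 0 ≤ I0 P x₀ r (fun x => S.ζt h n x ^ 2) := I0_nonneg fun x => sq_nonneg _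
  have h3 : 0 ≤ I0 P x₀ r (fun x => S.ζ h n x ^ 2) := I0_nonneg fun x => sq_nonneg _
  have h4 : 0 ≤ S.Rr h x₀ r n := S.Rr_nonneg h n hh x₀ r
  have h5 : 0 ≤ (I0 P x₀ r (S.Cv h n) + h * I0 P x₀ r (fun x => S.ζt h n x ^ 2) +
      I0 P x₀ r (fun x => S.ζ h n x ^ 2) / h) / τ := by positivity
  refine ⟨?_, ?_, ?_⟩
  · unfold Sol.Rs
    positivity
  · unfold Sol.Rs
    linarith
  · unfold Sol.Rs
    have h6 : τ / 2 * (S.Rr h x₀ r n + (I0 P x₀ r (S.Cv h n) +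
        h * I0 P x₀ r (fun x => S.ζt h n x ^ 2) + I0 P x₀ r (fun x => S.ζ h n x ^ 2) / h) / τ) =
        τ / 2 * S.Rr h x₀ r n + (I0 P x₀ r (S.Cv h n) +
        h * I0 P x₀ r (fun x => S.ζt h n x ^ 2)) / 2 +
        1 / (2 * h) * I0 P x₀ r (fun x => S.ζ h n x ^ 2) := by
      field_simp
      ring
    rw [h6]
    have h7 : 0 ≤ τ / 2 * S.Rr h x₀ r n := by positivity
    have h8 : 0 ≤ (I0 P x₀ r (S.Cv h n) + h * I0 P x₀ r (fun x => S.ζt h n x ^ 2)) / 2 := by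
      positivity
    linarith

theorem zbound (P : Par) : ∃ C A0 : ℝ, 0 < C ∧ 4 ≤ A0 ∧
    ∀ (Ω : Set (E P.N)) (S : Sol P Ω) (R : ℝ) (n1 : ℕ)
    (τ A εf θ : ℝ) (X : ℕ → ℝ), Hyp S R n1 τ A εf X → Small R τ εf θ → X n1 = τ ^ P.s →
    A0 ≤ A → ∀ x₀ r, Adm R x₀ r →
    avg S.δ τ (fun m => I0 P x₀ r (fun x => |S.z m x| ^ P.p)) n1 ≤
      C * (θ ^ (1 / (2 * P.p)) + 1 / A) * X n1 * r ^ P.lam := by
  obtain ⟨Cg, cg, hCg, hcg, hgz⟩ := gz_ineq P
  obtain ⟨C6, hC6, h6⟩ := est6 P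
  obtain ⟨Cr, hCr, hrs⟩ := Rs_avg P
  obtain ⟨Cd, c0, hCd, hc0, hc1, hdec⟩ := decay_step P
  have hq1 := P.q_gt_one
  have hq0 : 0 < P.q := by linarith
  set Cb : ℝ := Cg + Cd with hCb
  set D0 : ℝ := C6 + Cb * Cr with hD0
  have hD0pos : 0 < D0 := by positivity
  refine ⟨P.q * (16 / c0 * D0 + Cr / 2) + C6, max 4 (16 / c0), by positivity,
    le_max_left _ _, ?_⟩
  intro Ω S R n1 τ A εf θ X hyp hsm hX1 hA x₀ r hadm
  have hδ := S.δ_pos
  have hτ1 := hyp.τ1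
  have hτ0 : 0 < τ := by linarith
  have hθ0 := hsm.θ0
  have hθ1 := hsm.θ1
  have hr0 : 0 < r := hadm.2.1
  have hh : 0 < θ * τ := by positivity
  have hA4 : 4 ≤ A := hyp.hA
  have hA0 : 0 < A := by linarith
  have hcA : 16 ≤ c0 * A := by
    have h1 : 16 / c0 ≤ A := (le_max_right _ _).trans hA
    rw [div_le_iff₀ hc0] at h1
    linarith
  have hXpos : ∀ m ≤ n1, 0 < X m := fun m hm =>
    lt_of_lt_of_le (Real.rpow_pos_of_pos hτ0 _) (hyp.X_lb m hm)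
  have hrl : 0 < r ^ P.lam := Real.rpow_pos_of_pos hr0 _
  set ε : ℝ := θ ^ (1 / (2 * P.p)) with hε
  have hε0 : 0 < ε := Real.rpow_pos_of_pos hθ0 _
  have hp0 := P.m01_p0
  have hθε : θ ≤ ε := by
    have h1 : 1 / (2 * P.p) ≤ 1 := by
      rw [div_le_one (by positivity)]
      linarith [P.two_lt_p]
    calc θ = θ ^ (1 : ℝ) := (Real.rpow_one θ).symm
      _ ≤ θ ^ (1 / (2 * P.p)) := Real.rpow_le_rpow_of_exponent_ge hθ0 (by linarith) h1
  have hRs := fun n => m16_Rs S hτ0 hh x₀ r n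
  -- the one dimensional lemma
  have hmain := decay1D (δ := S.δ) (τ := τ) (n1 := n1) hδ (S.δ_le.trans hτ1) (c0 := c0) (A := A)
    (D := D0 * r ^ P.lam) (ε := ε) hc0 hc1 hcA (by positivity) hε0.le (X := X)
    (Y := fun m => S.Y (θ * τ) x₀ r m) (r := fun m => Cb * S.Rs τ (θ * τ) x₀ r m)
    (fun m hm => (hXpos m hm).le) hyp.X_slow (S.Y_zero _ x₀ r)
    (by
      intro m hm
      have h1 := (h6 Ω S R n1 τ A εf θ X hyp hsm m hm x₀ r hadm).1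
      have h2 := hXpos m hm
      have h3 : 0 ≤ Cb * Cr * r ^ P.lam * X m := by positivity
      calc S.Y (θ * τ) x₀ r m ≤ C6 * r ^ P.lam * X m := h1
        _ ≤ C6 * r ^ P.lam * X m + Cb * Cr * r ^ P.lam * X m := by linarith
        _ = D0 * r ^ P.lam * X m := by rw [hD0]; ring)
    (fun m => mul_nonneg (by positivity) (hRs m).1)
    (by
      intro m _
      have h1 := hgz Ω S (θ * τ) hh m x₀ r hr0
      have h2 : 0 ≤ I0 P x₀ r (fun x => ‖S.Dζ (θ * τ) (m + 1) x‖ ^ 2) :=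
        I0_nonneg fun x => by positivity
      have h3 : 0 ≤ I2 P x₀ r (fun x => S.ζ (θ * τ) (m + 1) x ^ 2) :=
        I2_nonneg fun x => sq_nonneg _
      have h4 := hRs (m + 1)
      have h5 : Cg * S.Rr (θ * τ) x₀ r (m + 1) ≤ Cb * S.Rs τ (θ * τ) x₀ r (m + 1) := by
        have h7 : Cg * S.Rr (θ * τ) x₀ r (m + 1) ≤ Cg * S.Rs τ (θ * τ) x₀ r (m + 1) :=
          mul_le_mul_of_nonneg_left h4.2.1 hCg.le
        have h8 : 0 ≤ Cd * S.Rs τ (θ * τ) x₀ r (m + 1) := mul_nonneg hCd.le h4.1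
        rw [hCb]
        linarith
      have h9 : 0 ≤ cg * I2 P x₀ r (fun x => S.ζ (θ * τ) (m + 1) x ^ 2) := by positivity
      linarith)
    (by
      intro m hm hmA
      have h1 := hdec Ω S R n1 τ A εf θ X hyp hsm hX1 m hm hmA x₀ r hadm
      have h8 : 0 ≤ Cg * S.Rs τ (θ * τ) x₀ r (m + 1) := mul_nonneg hCg.le (hRs (m + 1)).1
      refine h1.trans ?_
      rw [hCb]
      linarith)
    (by
      intro m hm
      have h1 := hrs Ω S R n1 τ A εf θ X hyp hsm m hm x₀ r hadm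
      rw [avg_mul_left]
      have h2 := hXpos m hm
      calc Cb * avg S.δ τ (fun m => S.Rs τ (θ * τ) x₀ r m) m
          ≤ Cb * (Cr * θ ^ (1 / (2 * P.p)) * (X m / τ) * r ^ P.lam) :=
            mul_le_mul_of_nonneg_left h1 (by positivity)
        _ = ε * (X m / τ) * (Cb * Cr * r ^ P.lam) := by rw [hε]; ring
        _ ≤ ε * (X m / τ) * (D0 * r ^ P.lam) := by
            refine mul_le_mul_of_nonneg_left ?_ (by positivity)
            refine mul_le_mul_of_nonneg_right ?_ hrl.le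
            rw [hD0]
            linarith)
  -- from `Y` to the dissipation
  have hX1pos := hXpos n1 le_rfl
  have hRsn := hrs Ω S R n1 τ A εf θ X hyp hsm n1 le_rfl x₀ r hadm
  have hZa : avg S.δ τ (fun m => I0 P x₀ r (S.Za (θ * τ) m)) n1 ≤
      P.q * (avg S.δ τ (fun m => S.Y (θ * τ) x₀ r m) n1 +
        τ / 2 * avg S.δ τ (fun m => S.Rs τ (θ * τ) x₀ r m) n1) := by
    rw [← avg_mul_left, ← avg_add, ← avg_mul_left]
    refine avg_mono hδ hτ0 fun m _ _ => ?_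
    have h1 := Y_lower P Ω S (θ * τ) hh m x₀ r hr0
    have h2 := (hRs m).2.2
    have h3 : 1 / P.q * I0 P x₀ r (S.Za (θ * τ) m) ≤
        S.Y (θ * τ) x₀ r m + τ / 2 * S.Rs τ (θ * τ) x₀ r m := by linarith
    calc I0 P x₀ r (S.Za (θ * τ) m) = P.q * (1 / P.q * I0 P x₀ r (S.Za (θ * τ) m)) := by
          field_simp
      _ ≤ _ := mul_le_mul_of_nonneg_left h3 hq0.le
  have hlong := avg_long (n := n1) hδ hh (τ := τ) (by nlinarith)
    (fun m => I0 P x₀ r (fun x => |S.z m x| ^ P.p))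
  have hI0 : ∀ m, avg S.δ (θ * τ) (fun k => I0 P x₀ r (fun x => |S.z k x| ^ P.p)) m =
      I0 P x₀ r (S.Za (θ * τ) m) := fun m =>
    (I0_avg (P := P) (x₀ := x₀) (r := r) (δ := S.δ) (h := θ * τ)
      (w := fun k x => |S.z k x| ^ P.p) (fun k => S.zp k) m).symm
  have hfun : avg S.δ (θ * τ) (fun k => I0 P x₀ r (fun x => |S.z k x| ^ P.p)) =
      fun m => I0 P x₀ r (S.Za (θ * τ) m) := funext hI0
  rw [hlong, hfun]
  have hθτ : θ * τ / τ = θ := by field_simp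
  rw [hθτ]
  have h6' := (h6 Ω S R n1 τ A εf θ X hyp hsm n1 le_rfl x₀ r hadm).2
  have hZnn : 0 ≤ avg S.δ τ (fun m => I0 P x₀ r (S.Za (θ * τ) m)) n1 :=
    avg_nonneg hδ hτ0 fun m _ _ => I0_nonneg fun x => S.Za_nonneg _ m hh x
  have hb1 : (1 - θ) * avg S.δ τ (fun m => I0 P x₀ r (S.Za (θ * τ) m)) n1 ≤
      avg S.δ τ (fun m => I0 P x₀ r (S.Za (θ * τ) m)) n1 := by nlinarith
  have hb2 : θ * I0 P x₀ r (S.Za (θ * τ) n1) ≤ ε * (C6 * X n1 * r ^ P.lam) := by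
    have h1 : 0 ≤ I0 P x₀ r (S.Za (θ * τ) n1) := I0_nonneg fun x => S.Za_nonneg _ n1 hh x
    calc θ * I0 P x₀ r (S.Za (θ * τ) n1) ≤ ε * I0 P x₀ r (S.Za (θ * τ) n1) :=
          mul_le_mul_of_nonneg_right hθε h1
      _ ≤ ε * (C6 * X n1 * r ^ P.lam) := mul_le_mul_of_nonneg_left h6' hε0.le
  have hb3 : τ / 2 * avg S.δ τ (fun m => S.Rs τ (θ * τ) x₀ r m) n1 ≤
      Cr / 2 * ε * X n1 * r ^ P.lam := by
    calc τ / 2 * avg S.δ τ (fun m => S.Rs τ (θ * τ) x₀ r m) n1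
        ≤ τ / 2 * (Cr * θ ^ (1 / (2 * P.p)) * (X n1 / τ) * r ^ P.lam) :=
          mul_le_mul_of_nonneg_left hRsn (by positivity)
      _ = Cr / 2 * ε * X n1 * r ^ P.lam := by
          rw [hε]
          field_simp
  have hA1 : 0 < 1 / A := by positivity
  have hXr : 0 < X n1 * r ^ P.lam := by positivity
  calc (1 - θ) * avg S.δ τ (fun m => I0 P x₀ r (S.Za (θ * τ) m)) n1 +
        θ * I0 P x₀ r (S.Za (θ * τ) n1)
      ≤ P.q * (16 / c0 * (ε + 1 / A) * (D0 * r ^ P.lam) * X n1 +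
        Cr / 2 * ε * X n1 * r ^ P.lam) + ε * (C6 * X n1 * r ^ P.lam) := by
        refine add_le_add (hb1.trans (hZa.trans ?_)) hb2
        exact mul_le_mul_of_nonneg_left (add_le_add hmain hb3) hq0.le
    _ = (P.q * (16 / c0 * D0) * (ε + 1 / A) + (P.q * (Cr / 2) + C6) * ε) *
        (X n1 * r ^ P.lam) := by ring
    _ ≤ (P.q * (16 / c0 * D0) * (ε + 1 / A) + (P.q * (Cr / 2) + C6) * (ε + 1 / A)) *
        (X n1 * r ^ P.lam) := by
        refine mul_le_mul_of_nonneg_right ?_ hXr.le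
        have h1 : (P.q * (Cr / 2) + C6) * ε ≤ (P.q * (Cr / 2) + C6) * (ε + 1 / A) :=
          mul_le_mul_of_nonneg_left (by linarith) (by positivity)
        linarith
    _ = (P.q * (16 / c0 * D0 + Cr / 2) + C6) * (ε + 1 / A) * X n1 * r ^ P.lam := by ring

end Pool.Agent.H15.Hx
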