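import Pool.Agent.H15.Hx.M17b_Mean

/-! M17: the contradiction (helper25's choice of the constants), from `mean_energy` and
`energy_last`. -/

set_option autoImplicit false

open MeasureTheory Set Filter Topology
open scoped RealInnerProductSpace
open Pool.Agent.H25.HX (E g Tst H10)

noncomputable section

namespace Pool.Agent.H15.Hx

theorem main_contra (P : Par) : ∃ A θ : ℝ, 4 ≤ A ∧ 0 < θ ∧ θ ≤ 1 / 8 ∧
    ∀ (Ω : Set (E P.N)) (S : Sol P Ω) (R : ℝ) (n1 : ℕ)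
    (τ εf : ℝ) (X : ℕ → ℝ), Hyp S R n1 τ A εf X → Small R τ εf θ → X n1 = τ ^ P.s →
    ∀ x₀ r, Adm R x₀ r → S.Eg n1 x₀ r ≤ (1 / 2) * τ ^ (2 * P.β) * r ^ P.lam := by
  obtain ⟨C1, A0, hC1, hA0, h1⟩ := mean_energy P
  obtain ⟨C2, hC2, h2⟩ := energy_last P
  have hp : 0 < P.p := by
    have h3 : (3 : ℝ) ≤ P.N := by exact_mod_cast P.hN
    have h4 := P.hp
    have h5 : 0 < 2 * (P.N : ℝ) / ((P.N : ℝ) - 2) := div_pos (by linarith) (by linarith)
    linarith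
  have hq : 0 < P.q := by
    have h3 : (3 : ℝ) ≤ P.N := by exact_mod_cast P.hN
    have h4 := P.hp
    have h5 : 1 < 2 * (P.N : ℝ) / ((P.N : ℝ) - 2) := by
      rw [lt_div_iff₀ (by linarith)]; linarith
    rw [Par.q]
    exact div_pos hp (by linarith)
  -- choice of `ε0`
  set ε0 : ℝ := min 1 (1 / (4 * C2)) with hε0
  have hε0p : 0 < ε0 := by positivity
  have hε01 : ε0 ≤ 1 := min_le_left _ _
  have hε02 : C2 * ε0 ≤ 1 / 4 := by
    calc C2 * ε0 ≤ C2 * (1 / (4 * C2)) := mul_le_mul_of_nonneg_left (min_le_right _ _) hC2.le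
      _ = 1 / 4 := by field_simp
  -- a small number `η`
  set η : ℝ := ε0 / (4 * C1) with hη
  have hηp : 0 < η := by positivity
  -- `κ` with `κ ^ (1/q) = η / 2`
  set κ : ℝ := (η / 2) ^ P.q with hκ
  have hκp : 0 < κ := by positivity
  have hκq : κ ^ (1 / P.q) = η / 2 := by
    rw [hκ, ← Real.rpow_mul (by positivity), mul_one_div_cancel hq.ne', Real.rpow_one]
  set θ : ℝ := min (1 / 8) (min (η / 2) ((κ / 2) ^ (2 * P.p))) with hθ
  have hθp : 0 < θ := by positivity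
  have hθ1 : θ ≤ 1 / 8 := min_le_left _ _
  have hθ2 : θ ≤ η / 2 := (min_le_right _ _).trans (min_le_left _ _)
  have hθ3 : θ ^ (1 / (2 * P.p)) ≤ κ / 2 := by
    have h3 : θ ≤ (κ / 2) ^ (2 * P.p) := (min_le_right _ _).trans (min_le_right _ _)
    calc θ ^ (1 / (2 * P.p)) ≤ ((κ / 2) ^ (2 * P.p)) ^ (1 / (2 * P.p)) :=
          Real.rpow_le_rpow hθp.le h3 (by positivity)
      _ = κ / 2 := by
          rw [← Real.rpow_mul (by positivity), mul_one_div_cancel (by positivity), Real.rpow_one]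
  set A : ℝ := max A0 (2 / κ) with hA
  have hA4 : 4 ≤ A := hA0.trans (le_max_left _ _)
  have hAp : 0 < A := by linarith
  have hA2 : 1 / A ≤ κ / 2 := by
    have h3 : 2 / κ ≤ A := le_max_right _ _
    rw [div_le_iff₀ hAp]
    rw [div_le_iff₀ hκp] at h3
    linarith
  refine ⟨A, θ, hA4, hθp, hθ1, ?_⟩
  intro Ω S R n1 τ εf X hH hs hX x₀ r had
  have e1 := h1 Ω S R n1 τ A εf θ X hH hs hX (le_max_left _ _) x₀ r had
  have e2 := h2 Ω S R n1 τ A εf X hH hX ε0 hε0p hε01 x₀ r had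
  have hτ : 0 < τ := by linarith [hH.τ1]
  have hr : 0 < r := had.2.1
  have hW : 0 ≤ τ ^ (2 * P.β) * r ^ P.lam := by positivity
  have e3 : (θ ^ (1 / (2 * P.p)) + 1 / A) ^ (1 / P.q) ≤ η / 2 := by
    rw [← hκq]
    refine Real.rpow_le_rpow (by positivity) (by linarith) (by positivity)
  have e4 : C1 * (θ + (θ ^ (1 / (2 * P.p)) + 1 / A) ^ (1 / P.q)) ≤ ε0 / 4 := by
    calc C1 * (θ + (θ ^ (1 / (2 * P.p)) + 1 / A) ^ (1 / P.q)) ≤ C1 * (η / 2 + η / 2) :=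
          mul_le_mul_of_nonneg_left (by linarith) hC1.le
      _ = ε0 / 4 := by rw [hη]; field_simp; norm_num
  have e5 : (1 / ε0) * avg S.δ τ (fun m => S.Eg m x₀ r) n1 ≤ (1 / 4) * (τ ^ (2 * P.β) * r ^ P.lam) := by
    calc (1 / ε0) * avg S.δ τ (fun m => S.Eg m x₀ r) n1 ≤
        (1 / ε0) * (C1 * (θ + (θ ^ (1 / (2 * P.p)) + 1 / A) ^ (1 / P.q)) * (τ ^ (2 * P.β)) * r ^ P.lam) :=
          mul_le_mul_of_nonneg_left e1 (by positivity)
      _ = (1 / ε0) * (C1 * (θ + (θ ^ (1 / (2 * P.p)) + 1 / A) ^ (1 / P.q))) *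
          (τ ^ (2 * P.β) * r ^ P.lam) := by ring
      _ ≤ (1 / ε0) * (ε0 / 4) * (τ ^ (2 * P.β) * r ^ P.lam) :=
          mul_le_mul_of_nonneg_right (mul_le_mul_of_nonneg_left e4 (by positivity)) hW
      _ = (1 / 4) * (τ ^ (2 * P.β) * r ^ P.lam) := by field_simp
  have e6 : C2 * ε0 * τ ^ (2 * P.β) * r ^ P.lam ≤ (1 / 4) * (τ ^ (2 * P.β) * r ^ P.lam) := by
    calc C2 * ε0 * τ ^ (2 * P.β) * r ^ P.lam = C2 * ε0 * (τ ^ (2 * P.β) * r ^ P.lam) := by ring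
      _ ≤ (1 / 4) * (τ ^ (2 * P.β) * r ^ P.lam) := mul_le_mul_of_nonneg_right hε02 hW
  calc S.Eg n1 x₀ r ≤ _ := e2
    _ ≤ (1 / 4) * (τ ^ (2 * P.β) * r ^ P.lam) + (1 / 4) * (τ ^ (2 * P.β) * r ^ P.lam) :=
        add_le_add e5 e6
    _ = (1 / 2) * τ ^ (2 * P.β) * r ^ P.lam := by ring

end Pool.Agent.H15.Hx
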