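import Pool.Agent.H15.Hx.M16_Zbound

/-! M17a: parts of the contradiction (slowly varying powers, test with `G u`, energy at the last
time). -/

set_option autoImplicit false

open MeasureTheory Set Filter Topology
open scoped RealInnerProductSpace
open Pool.Agent.H25.HX (E g Tst H10)

noncomputable section

namespace Pool.Agent.H15.Hx


/-- powers of slowly varying sequences -/
theorem slow_rpow {δ B a : ℝ} (hδ : 0 < δ) (ha : 0 ≤ a) (hB : 0 < B) (haB : a * δ ≤ B)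
    {X : ℕ → ℝ} {m : ℕ} (h0 : 0 ≤ X m) (h1 : 0 ≤ X (m + 1))
    (hs : X m ≤ (1 + δ / B) * X (m + 1)) :
    X m ^ a ≤ (1 + 2 * a * δ / B) * X (m + 1) ^ a := by
  have hy : 0 ≤ δ / B := by positivity
  have h2 : X m ^ a ≤ ((1 + δ / B) * X (m + 1)) ^ a := Real.rpow_le_rpow h0 hs ha
  rw [Real.mul_rpow (by positivity) h1] at h2
  refine h2.trans (mul_le_mul_of_nonneg_right ?_ (Real.rpow_nonneg h1 a))
  have h3 : 0 ≤ a * (δ / B) := by positivity
  have h4 : a * (δ / B) ≤ 1 := by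
    rw [← mul_div_assoc, div_le_one hB]
    exact haB
  have h5 : (1 + δ / B) ^ a ≤ Real.exp (a * (δ / B)) := by
    calc (1 + δ / B) ^ a ≤ (Real.exp (δ / B)) ^ a := by
          refine Real.rpow_le_rpow (by positivity) ?_ ha
          have := Real.add_one_le_exp (δ / B)
          linarith
      _ = Real.exp (a * (δ / B)) := by
          rw [← Real.exp_mul, mul_comm]
  have h6 := Real.abs_exp_sub_one_le (x := a * (δ / B)) (by rw [abs_of_nonneg h3]; exact h4)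
  rw [abs_of_nonneg h3] at h6
  have h7 := (abs_le.1 h6).2
  have h8 : 1 + 2 * a * δ / B = 1 + 2 * (a * (δ / B)) := by ring
  rw [h8]
  linarith

/-- the energy at the last time is controlled by its mean -/
theorem energy_last (P : Par) : ∃ C : ℝ, 0 < C ∧
    ∀ (Ω : Set (E P.N)) (S : Sol P Ω) (R : ℝ) (n1 : ℕ)
    (τ A εf : ℝ) (X : ℕ → ℝ), Hyp S R n1 τ A εf X → X n1 = τ ^ P.s →
    ∀ ε0 : ℝ, 0 < ε0 → ε0 ≤ 1 → ∀ x₀ r, Adm R x₀ r →
    S.Eg n1 x₀ r ≤ (1 / ε0) * avg S.δ τ (fun m => S.Eg m x₀ r) n1 +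
      C * ε0 * τ ^ (2 * P.β) * r ^ P.lam := by
  obtain ⟨C0, hC0, hE⟩ := energy_step P
  refine ⟨4 * C0, by positivity, ?_⟩
  intro Ω S R n1 τ A εf X H hXn ε0 hε0 hε1 x₀ r hA
  have hr : 0 < r := hA.2.1
  have hτ1 := H.τ1
  have hτ : 0 < τ := by linarith
  have hδ := S.δ_pos
  have hX := m11_X_nonneg H
  have hrl : 0 < r ^ P.lam := Real.rpow_pos_of_pos hr _
  have hstep : ∀ m < n1, (S.Eg (m + 1) x₀ r - S.Eg m x₀ r) / S.δ +
      (fun _ : ℕ => (0 : ℝ)) (m + 1) ≤ (fun m => 2 * C0 * X m * r ^ P.lam) (m + 1) := by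
    intro m hm
    have h1 := hE Ω R H.hΩ S m x₀ r hr
    have hm1 : m + 1 ≤ n1 := hm
    have h2 := H.fK (m + 1) hm1 x₀ r hA
    have h3 := H.eK (m + 1) hm1 x₀ r hA
    have hXm := hX (m + 1) hm1
    have h0 : 0 ≤ I0 P x₀ r (fun x => |S.z (m + 1) x| ^ P.p) :=
      I0_nonneg fun x => Real.rpow_nonneg (abs_nonneg _) _
    have h4 : (r ^ P.lam) ^ (1 - P.q / 2) * (S.Eg (m + 1) x₀ r) ^ (P.q / 2) ≤
        X (m + 1) * r ^ P.lam := by
      have h5 : (S.Eg (m + 1) x₀ r) ^ (P.q / 2) ≤ (τ * X (m + 1) * r ^ P.lam) ^ (P.q / 2) :=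
        Real.rpow_le_rpow (S.Eg_nonneg (m + 1) x₀ r) h3 (by have := b3_pos_q P; positivity)
      rw [Real.mul_rpow (by positivity) hrl.le] at h5
      have h6 := Par.tauX_half_q (P := P) hτ1 (H.X_lb (m + 1) hm1)
      calc _ ≤ (r ^ P.lam) ^ (1 - P.q / 2) *
            ((τ * X (m + 1)) ^ (P.q / 2) * (r ^ P.lam) ^ (P.q / 2)) :=
            mul_le_mul_of_nonneg_left h5 (Real.rpow_nonneg hrl.le _)
        _ = (τ * X (m + 1)) ^ (P.q / 2) *
              ((r ^ P.lam) ^ (1 - P.q / 2) * (r ^ P.lam) ^ (P.q / 2)) := by ring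
        _ = (τ * X (m + 1)) ^ (P.q / 2) * r ^ P.lam := by
            rw [← Real.rpow_add hrl, sub_add_cancel, Real.rpow_one]
        _ ≤ _ := mul_le_mul_of_nonneg_right h6 hrl.le
    have h7 : I0 P x₀ r (fun x => |S.f (m + 1) x| ^ P.q) ≤ X (m + 1) * r ^ P.lam := by
      refine h2.trans ?_
      have : εf * X (m + 1) ≤ 1 * X (m + 1) := mul_le_mul_of_nonneg_right H.εf1 hXm
      rw [one_mul] at this
      exact mul_le_mul_of_nonneg_right this hrl.le
    have h8 : C0 * S.δ * (I0 P x₀ r (fun x => |S.f (m + 1) x| ^ P.q) +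
        (r ^ P.lam) ^ (1 - P.q / 2) * (S.Eg (m + 1) x₀ r) ^ (P.q / 2)) ≤
        C0 * S.δ * (2 * (X (m + 1) * r ^ P.lam)) :=
      mul_le_mul_of_nonneg_left (by linarith) (by positivity)
    have h9 : 0 ≤ S.δ * I0 P x₀ r (fun x => |S.z (m + 1) x| ^ P.p) := mul_nonneg hδ.le h0
    have h10 : S.Eg (m + 1) x₀ r - S.Eg m x₀ r ≤ (2 * C0 * X (m + 1) * r ^ P.lam) * S.δ := by
      linarith
    have h11 := (div_le_iff₀ hδ).2 h10
    simp only [add_zero]
    exact h11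
  have hh : 0 < ε0 * τ := by positivity
  have h1 := avg_ineq hδ hh (Y := fun m => S.Eg m x₀ r)
    (A := fun _ => (0 : ℝ)) (B := fun m => 2 * C0 * X m * r ^ P.lam) (S.Eg_zero x₀ r) hstep
    n1 le_rfl
  have h2 : avg S.δ (ε0 * τ) (fun _ => (0 : ℝ)) n1 = 0 := by
    have := avg_mul_left (δ := S.δ) (h := ε0 * τ) 0 (fun _ => (1 : ℝ)) n1
    simpa using this
  have h3 : avg S.δ (ε0 * τ) (fun m => S.Eg m x₀ r) n1 ≤
      (1 / ε0) * avg S.δ τ (fun m => S.Eg m x₀ r) n1 :=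
    avg_short_le hδ hτ hε0 hε1 fun m _ _ => S.Eg_nonneg m x₀ r
  have h4 : avg S.δ (ε0 * τ) (fun m => 2 * C0 * X m * r ^ P.lam) n1 ≤
      4 * C0 * X n1 * r ^ P.lam := by
    have h5 := avg_slow_le hδ hh (B := A * τ) (by nlinarith [H.hA]) hX H.X_slow n1 le_rfl
    have e : (fun m => 2 * C0 * X m * r ^ P.lam) = fun m => (2 * C0 * r ^ P.lam) * X m := by
      funext m
      ring
    rw [e, avg_mul_left]
    calc _ ≤ 2 * C0 * r ^ P.lam * (2 * X n1) := mul_le_mul_of_nonneg_left h5 (by positivity)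
      _ = _ := by ring
  have h5 : ε0 * τ * avg S.δ (ε0 * τ) (fun m => 2 * C0 * X m * r ^ P.lam) n1 ≤
      4 * C0 * ε0 * τ ^ (2 * P.β) * r ^ P.lam := by
    calc _ ≤ ε0 * τ * (4 * C0 * X n1 * r ^ P.lam) := mul_le_mul_of_nonneg_left h4 hh.le
      _ = 4 * C0 * ε0 * (τ * τ ^ P.s) * r ^ P.lam := by rw [hXn]; ring
      _ = _ := by rw [P.tau_mul hτ]
  rw [h2, mul_zero, add_zero] at h1
  linarith


/-- the equation tested with `G u` -/
theorem gu_ineq (P : Par) (Ω : Set (E P.N)) (S : Sol P Ω) (n : ℕ) (x₀ : E P.N) (r : ℝ)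
    (hr : 0 < r) :
    (I0 P x₀ r (fun x => S.z (n + 1) x * S.u (n + 1) x) -
        I0 P x₀ r (fun x => S.z n x * S.u n x)) / S.δ +
      I0 P x₀ r (fun x => ‖S.Du (n + 1) x‖ ^ 2) ≤
    I0 P x₀ r (fun x => |S.z n x| * |S.z (n + 1) x|) +
      I0 P x₀ r (fun x => |g P.p (S.z (n + 1) x)| * |S.u (n + 1) x|) +
      I0 P x₀ r (fun x => |S.f (n + 1) x| * |S.u (n + 1) x|) := by
  have hδ := S.δ_pos
  have hu1 := (S.hu (n + 1)).1
  have hu0 := (S.hu n).1
  have hz1 := (S.hz (n + 1)).1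
  have hz0 := (S.hz n).1
  have hf1 := S.hf (n + 1)
  have hg1 := S.hg (n + 1)
  have key := S.testG n (S.hu (n + 1)) x₀ hr
  obtain ⟨c, hc, hH⟩ := hardy_id P
  have h1 := hH Ω (S.u (n + 1)) (S.Du (n + 1)) (S.hu (n + 1)) x₀ r hr
  have h2 : 0 ≤ I2 P x₀ r (fun x => S.u (n + 1) x ^ 2) := I2_nonneg fun x => sq_nonneg _
  have h3 : 0 ≤ c * I2 P x₀ r (fun x => S.u (n + 1) x ^ 2) := mul_nonneg hc.le h2
  have e1 : (∫ x, wt P.lam' x₀ r x * ⟪S.Du (n + 1) x, S.Du (n + 1) x⟫) =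
      I0 P x₀ r (fun x => ‖S.Du (n + 1) x‖ ^ 2) := by
    unfold I0
    refine integral_congr_ae (ae_of_all _ fun x => ?_)
    simp only
    rw [real_inner_self_eq_norm_sq]
  rw [e1] at key
  -- integrability
  have i1 : Integrable (fun x => |S.z n x| * |S.z (n + 1) x|) := Sol.mul_int hz0.abs hz1.abs
  have i2 : Integrable (fun x => |g P.p (S.z (n + 1) x)| * |S.u (n + 1) x|) :=
    Sol.mul_int hg1.abs hu1.abs
  have i3 : Integrable (fun x => |S.f (n + 1) x| * |S.u (n + 1) x|) :=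
    Sol.mul_int hf1.abs hu1.abs
  have i4 : Integrable (fun x => S.z (n + 1) x * S.u (n + 1) x) := Sol.mul_int hz1 hu1
  have i5 : Integrable (fun x => S.z n x * S.u n x) := Sol.mul_int hz0 hu0
  have i6 : Integrable (fun x => (S.f (n + 1) x - g P.p (S.z (n + 1) x) -
      (S.z (n + 1) x - S.z n x) / S.δ) * S.u (n + 1) x) := by
    refine Sol.mul_int ((hf1.sub hg1).sub ?_) hu1
    have := (hz1.sub hz0).const_mul S.δ⁻¹
    refine this.ae_eq (ae_of_all _ fun x => ?_)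
    simp only [Pi.sub_apply]
    rw [div_eq_inv_mul]
  have i12 : Integrable (fun x => |S.z n x| * |S.z (n + 1) x| +
      |g P.p (S.z (n + 1) x)| * |S.u (n + 1) x|) := i1.add i2
  have i123 : Integrable (fun x => |S.z n x| * |S.z (n + 1) x| +
      |g P.p (S.z (n + 1) x)| * |S.u (n + 1) x| + |S.f (n + 1) x| * |S.u (n + 1) x|) := i12.add i3
  have i45 : Integrable (fun x => S.z (n + 1) x * S.u (n + 1) x - S.z n x * S.u n x) := i4.sub i5
  have i45' : Integrable (fun x => 1 / S.δ *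
      (S.z (n + 1) x * S.u (n + 1) x - S.z n x * S.u n x)) := i45.const_mul (1 / S.δ)
  have h4 : (∫ x, wt P.lam' x₀ r x * ((S.f (n + 1) x - g P.p (S.z (n + 1) x) -
      (S.z (n + 1) x - S.z n x) / S.δ) * S.u (n + 1) x)) ≤
      I0 P x₀ r (fun x => (|S.z n x| * |S.z (n + 1) x| +
        |g P.p (S.z (n + 1) x)| * |S.u (n + 1) x| + |S.f (n + 1) x| * |S.u (n + 1) x|) -
        1 / S.δ * (S.z (n + 1) x * S.u (n + 1) x - S.z n x * S.u n x)) := by
    refine I0_mono i6 (i123.sub i45') (ae_of_all _ fun x => ?_)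
    have hu := S.u_succ n x
    have e2 : (S.f (n + 1) x - g P.p (S.z (n + 1) x) -
      (S.z (n + 1) x - S.z n x) / S.δ) * S.u (n + 1) x =
        (S.z n x * S.z (n + 1) x - g P.p (S.z (n + 1) x) * S.u (n + 1) x +
          S.f (n + 1) x * S.u (n + 1) x) -
        1 / S.δ * (S.z (n + 1) x * S.u (n + 1) x - S.z n x * S.u n x) := by
      rw [hu]
      field_simp
      ring
    rw [e2]
    have a1 : S.z n x * S.z (n + 1) x ≤ |S.z n x| * |S.z (n + 1) x| := by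
      rw [← abs_mul]; exact le_abs_self _
    have a2 : -(g P.p (S.z (n + 1) x) * S.u (n + 1) x) ≤
        |g P.p (S.z (n + 1) x)| * |S.u (n + 1) x| := by
      rw [← abs_mul]; exact neg_le_abs _
    have a3 : S.f (n + 1) x * S.u (n + 1) x ≤ |S.f (n + 1) x| * |S.u (n + 1) x| := by
      rw [← abs_mul]; exact le_abs_self _
    linarith
  have e3 : I0 P x₀ r (fun x => (|S.z n x| * |S.z (n + 1) x| +
        |g P.p (S.z (n + 1) x)| * |S.u (n + 1) x| + |S.f (n + 1) x| * |S.u (n + 1) x|) -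
        1 / S.δ * (S.z (n + 1) x * S.u (n + 1) x - S.z n x * S.u n x)) =
      (I0 P x₀ r (fun x => |S.z n x| * |S.z (n + 1) x|) +
      I0 P x₀ r (fun x => |g P.p (S.z (n + 1) x)| * |S.u (n + 1) x|) +
      I0 P x₀ r (fun x => |S.f (n + 1) x| * |S.u (n + 1) x|)) -
      1 / S.δ * (I0 P x₀ r (fun x => S.z (n + 1) x * S.u (n + 1) x) -
        I0 P x₀ r (fun x => S.z n x * S.u n x)) := by
    have b1 := I0_sub (P := P) (x₀ := x₀) (r := r) i123 i45'
    have b2 := I0_add (P := P) (x₀ := x₀) (r := r) i12 i3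
    have b3 := I0_add (P := P) (x₀ := x₀) (r := r) i1 i2
    have b4 := I0_mul (P := P) (x₀ := x₀) (r := r) (1 / S.δ)
      (fun x => S.z (n + 1) x * S.u (n + 1) x - S.z n x * S.u n x)
    have b5 := I0_sub (P := P) (x₀ := x₀) (r := r) i4 i5
    rw [b1, b2, b3, b4, b5]
  rw [e3] at h4
  have e4 : (I0 P x₀ r (fun x => S.z (n + 1) x * S.u (n + 1) x) -
        I0 P x₀ r (fun x => S.z n x * S.u n x)) / S.δ =
      1 / S.δ * (I0 P x₀ r (fun x => S.z (n + 1) x * S.u (n + 1) x) -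
        I0 P x₀ r (fun x => S.z n x * S.u n x)) := by
    rw [one_div, inv_mul_eq_div]
  rw [e4]
  linarith

end Pool.Agent.H15.Hx
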