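import Pool.Agent.H15.Hx.M17a_Parts

/-! M17b: the mean of the energy is small compared with `τ X` (test with `G u`). -/

set_option autoImplicit false

open MeasureTheory Set Filter Topology
open scoped RealInnerProductSpace
open Pool.Agent.H25.HX (E g Tst H10)

noncomputable section

namespace Pool.Agent.H15.Hx

namespace M17

/-- the mean of `I0 |a| |u|` -/
theorem prod_bound {P : Par} {τ X c0 C3 : ℝ} {r : ℝ} (hr : 0 < r) (hτ : 1 ≤ τ)
    (hX : X = τ ^ P.s) (hc0 : 0 ≤ c0) (hC3 : 0 < C3) :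
    (c0 * X * r ^ P.lam) ^ (1 / P.q) * (2 * C3 * (τ * X) ^ (P.p / 2) * r ^ P.lam) ^ (1 / P.p) =
      c0 ^ (1 / P.q) * (2 * C3) ^ (1 / P.p) * (τ * X * r ^ P.lam) := by
  have hτ0 : 0 < τ := by linarith
  have hX0 : 0 < X := by rw [hX]; positivity
  have hrl : 0 < r ^ P.lam := Real.rpow_pos_of_pos hr _
  have hp0 : 0 < P.p := by linarith [P.two_lt_p]
  have e1 : (c0 * X * r ^ P.lam) ^ (1 / P.q) =
      c0 ^ (1 / P.q) * X ^ (1 / P.q) * (r ^ P.lam) ^ (1 / P.q) := by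
    rw [Real.mul_rpow (by positivity) hrl.le, Real.mul_rpow hc0 hX0.le]
  have e2 : (2 * C3 * (τ * X) ^ (P.p / 2) * r ^ P.lam) ^ (1 / P.p) =
      (2 * C3) ^ (1 / P.p) * (τ * X) ^ (1 / 2 : ℝ) * (r ^ P.lam) ^ (1 / P.p) := by
    rw [Real.mul_rpow (by positivity) hrl.le, Real.mul_rpow (by positivity) (by positivity),
      ← Real.rpow_mul (by positivity)]
    congr 3
    field_simp
  have e3 : (r ^ P.lam) ^ (1 / P.q) * (r ^ P.lam) ^ (1 / P.p) = r ^ P.lam := by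
    rw [← Real.rpow_add hrl, one_div, one_div, P.holder.symm.inv_add_inv_eq_one, Real.rpow_one]
  have e4 : X ^ (1 / P.q) * (τ * X) ^ (1 / 2 : ℝ) = τ * X := by
    rw [hX, P.X_final hτ, P.tau_mul hτ0]
  rw [e1, e2]
  calc c0 ^ (1 / P.q) * X ^ (1 / P.q) * (r ^ P.lam) ^ (1 / P.q) *
        ((2 * C3) ^ (1 / P.p) * (τ * X) ^ (1 / 2 : ℝ) * (r ^ P.lam) ^ (1 / P.p))
      = c0 ^ (1 / P.q) * (2 * C3) ^ (1 / P.p) * (X ^ (1 / P.q) * (τ * X) ^ (1 / 2 : ℝ)) *
        ((r ^ P.lam) ^ (1 / P.q) * (r ^ P.lam) ^ (1 / P.p)) := by ring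
    _ = _ := by rw [e3, e4]; ring

end M17

/-- the mean of the energy is small compared with `τ X` -/
theorem mean_energy (P : Par) : ∃ C A0 : ℝ, 0 < C ∧ 4 ≤ A0 ∧
    ∀ (Ω : Set (E P.N)) (S : Sol P Ω) (R : ℝ) (n1 : ℕ)
    (τ A εf θ : ℝ) (X : ℕ → ℝ), Hyp S R n1 τ A εf X → Small R τ εf θ → X n1 = τ ^ P.s →
    A0 ≤ A → ∀ x₀ r, Adm R x₀ r →
    avg S.δ τ (fun m => S.Eg m x₀ r) n1 ≤
      C * (θ + (θ ^ (1 / (2 * P.p)) + 1 / A) ^ (1 / P.q)) * (τ ^ (2 * P.β)) * r ^ P.lam := by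
  obtain ⟨C1, hC1, E1⟩ := est1c P
  obtain ⟨C2, A2, hC2, hA2, E2⟩ := zbound P
  obtain ⟨C3, hC3, E3⟩ := adams P
  obtain ⟨C4, hC4, E4⟩ := est1 P
  have hp2 := P.two_lt_p
  have hp0 : 0 < P.p := by linarith
  have hq1 := P.q_gt_one
  have hq2 := P.q_lt_two
  have hq0 : 0 < P.q := by linarith
  set K1 : ℝ := 2 * C1 + 3 * Real.sqrt (5 * C3) + 2 * (2 * C3) ^ (1 / P.p) with hK1
  set K2 : ℝ := C2 ^ (1 / P.q) * (2 * C3) ^ (1 / P.p) with hK2
  have hK10 : 0 < K1 := by positivity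
  have hK20 : 0 < K2 := by positivity
  refine ⟨K1 + K2, max A2 (2 * P.p), by positivity, hA2.trans (le_max_left _ _), ?_⟩
  intro Ω S R n1 τ A εf θ X H K hXn hA x₀ r hr
  obtain ⟨hτ, hh, h2h, h1h⟩ := M13.small_facts H K
  have hδ := S.δ_pos
  have hδ1 := S.δ_le
  have hτ1 := H.τ1
  have hR1 := H.hR
  have hθ0 := K.θ0
  have hθ1 := K.θ1
  have hr0 : 0 < r := hr.2.1
  have hrl : 0 < r ^ P.lam := Real.rpow_pos_of_pos hr0 _
  have hA2' : A2 ≤ A := (le_max_left _ _).trans hA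
  have hA3 : 2 * P.p ≤ A := (le_max_right _ _).trans hA
  have hA0 : 0 < A := by linarith
  have hXp : ∀ m ≤ n1, 0 < X m := fun m hm => M13.X_pos H hm
  have hX0 : 0 < X n1 := hXp n1 le_rfl
  set W : ℝ := τ * X n1 * r ^ P.lam with hW
  have hW0 : 0 < W := by positivity
  have hT : τ ^ (2 * P.β) * r ^ P.lam = W := by
    rw [hW, hXn, P.tau_mul hτ]
  -- small numbers
  have hθ4 : θ ^ 4 ≤ θ := by
    have h5 : θ ^ 3 ≤ 1 := pow_le_one₀ hθ0.le (by linarith)
    nlinarith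
  have hRR : R ≤ R ^ 2 := by nlinarith
  have hRτ : R ^ 2 ≤ θ * τ := by
    have : θ ^ 4 * τ ≤ θ * τ := mul_le_mul_of_nonneg_right hθ4 hτ.le
    linarith [K.hτ]
  -- pointwise bounds
  have hDu : ∀ m ≤ n1, ∀ (x₁ : E P.N) (r₁ : ℝ), Adm R x₁ r₁ →
      I0 P x₁ r₁ (fun x => ‖S.Du m x‖ ^ 2) ≤ τ * X m * r₁ ^ P.lam := by
    intro m hm x₁ r₁ h1
    refine le_trans ?_ (H.eK m hm x₁ r₁ h1)
    unfold Sol.Eg
    have i1 := Sol.vsq_int (S.hu m).2.1
    have i2 := Sol.sq_int (S.hz m).1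
    have i12 : Integrable (fun x => ‖S.Du m x‖ ^ 2 + S.z m x ^ 2) := i1.add i2
    apply I0_mono i1 i12
    refine ae_of_all _ fun x => ?_
    have := sq_nonneg (S.z m x)
    linarith
  have hz2 : ∀ m ≤ n1, I0 P x₀ r (fun x => S.z m x ^ 2) ≤ τ * X m * r ^ P.lam := by
    intro m hm
    refine le_trans ?_ (H.eK m hm x₀ r hr)
    unfold Sol.Eg
    have i1 := Sol.vsq_int (S.hu m).2.1
    have i2 := Sol.sq_int (S.hz m).1
    have i12 : Integrable (fun x => ‖S.Du m x‖ ^ 2 + S.z m x ^ 2) := i1.add i2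
    apply I0_mono i2 i12
    refine ae_of_all _ fun x => ?_
    have := sq_nonneg ‖S.Du m x‖
    linarith
  have had : ∀ m ≤ n1, I2 P x₀ r (fun x => S.u m x ^ 2) ≤ C3 * (τ * X m) * r ^ P.lam ∧
      I0 P x₀ r (fun x => |S.u m x| ^ P.p) ≤ C3 * (τ * X m) ^ (P.p / 2) * r ^ P.lam := by
    intro m hm
    have := hXp m hm
    exact E3 Ω R (by linarith) H.hΩ (S.u m) (S.Du m) (S.hu m) (S.up m) (τ * X m)
      (by positivity) (hDu m hm) x₀ r hr
  have hu2 : ∀ m ≤ n1, I0 P x₀ r (fun x => S.u m x ^ 2) ≤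
      5 * R ^ 2 * (C3 * (τ * X m) * r ^ P.lam) := by
    intro m hm
    refine (I0_le_I2 hr (Sol.sq_int (S.hu m).1) (fun x => sq_nonneg _) ?_).trans
      (mul_le_mul_of_nonneg_left (had m hm).1 (by positivity))
    filter_upwards [(S.hu m).off.1] with x hx hxR
    rw [hx fun h => hxR (H.hΩ h)]
    simp
  have hV : ∀ m ≤ n1, |I0 P x₀ r (fun x => S.z m x * S.u m x)| ≤
      Real.sqrt (5 * C3) * R * τ * r ^ P.lam * X m := by
    intro m hm
    have hXm := hXp m hm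
    have h1 : |I0 P x₀ r (fun x => S.z m x * S.u m x)| ≤
        I0 P x₀ r (fun x => |S.z m x| * |S.u m x|) := by
      unfold I0
      rw [← Real.norm_eq_abs]
      apply norm_integral_le_of_norm_le
        (wt_int (b3_l0 P) (Sol.mul_int (S.hz m).1.abs (S.hu m).1.abs))
      refine ae_of_all _ fun x => ?_
      rw [norm_mul, norm_mul, Real.norm_of_nonneg (wt_pos x).le, Real.norm_eq_abs,
        Real.norm_eq_abs]
      exact le_refl _
    refine h1.trans ((I0_cs (S.hz m).1 (S.hu m).1).trans ?_)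
    have h2 := mul_le_mul (Real.sqrt_le_sqrt (hz2 m hm)) (Real.sqrt_le_sqrt (hu2 m hm))
      (Real.sqrt_nonneg _) (Real.sqrt_nonneg _)
    refine h2.trans (le_of_eq ?_)
    have hY : 0 ≤ τ * X m * r ^ P.lam := by positivity
    rw [← Real.sqrt_mul hY]
    have e : τ * X m * r ^ P.lam * (5 * R ^ 2 * (C3 * (τ * X m) * r ^ P.lam)) =
        (5 * C3) * (R * (τ * X m * r ^ P.lam)) ^ 2 := by ring
    rw [e, Real.sqrt_mul (by positivity), Real.sqrt_sq (by positivity)]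
    ring
  -- averages
  obtain ⟨a1, _, _, _, a2⟩ := E1 Ω S R n1 τ A εf X H (θ * τ) hh h2h n1 le_rfl x₀ r hr
  have a3 := E2 Ω S R n1 τ A εf θ X H K hXn hA2' x₀ r hr
  obtain ⟨_, _, a4⟩ := E4 Ω S R n1 τ A εf X H n1 le_rfl x₀ r hr
  -- (a), (e)
  have hsm : C1 * R ^ 2 * (X n1 / τ) * r ^ P.lam ≤ C1 * θ * W := by
    have h1 : R ^ 2 * (X n1 / τ) ≤ θ * (τ * X n1) := by
      have h2 : R ^ 2 * (X n1 / τ) ≤ θ * τ * (X n1 / τ) :=
        mul_le_mul_of_nonneg_right hRτ (by positivity)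
      have h3 : θ * τ * (X n1 / τ) = θ * X n1 := by field_simp
      have h4 : θ * X n1 ≤ θ * (τ * X n1) := by
        apply mul_le_mul_of_nonneg_left _ hθ0.le
        nlinarith
      linarith
    calc C1 * R ^ 2 * (X n1 / τ) * r ^ P.lam = C1 * (R ^ 2 * (X n1 / τ)) * r ^ P.lam := by ring
      _ ≤ C1 * (θ * (τ * X n1)) * r ^ P.lam := by gcongr
      _ = _ := by rw [hW]; ring
  -- the average of |u|^p
  have hup0 : ∀ m, 0 ≤ I0 P x₀ r (fun x => |S.u m x| ^ P.p) :=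
    fun m => I0_nonneg fun x => by positivity
  have hup : avg S.δ τ (fun m => I0 P x₀ r (fun x => |S.u m x| ^ P.p)) n1 ≤
      2 * C3 * (τ * X n1) ^ (P.p / 2) * r ^ P.lam := by
    have h1 : avg S.δ τ (fun m => I0 P x₀ r (fun x => |S.u m x| ^ P.p)) n1 ≤
        avg S.δ τ (fun m => C3 * τ ^ (P.p / 2) * r ^ P.lam * X m ^ (P.p / 2)) n1 := by
      apply avg_mono hδ hτ
      intro m _ hm
      refine (had m hm).2.trans (le_of_eq ?_)
      rw [Real.mul_rpow hτ.le (hXp m hm).le]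
      ring
    refine h1.trans ?_
    rw [avg_mul_left]
    have h2 : avg S.δ τ (fun m => X m ^ (P.p / 2)) n1 ≤ 2 * X n1 ^ (P.p / 2) := by
      have hAτ : 0 < A * τ := by positivity
      apply avg_slow_le (n1 := n1) (B := A * τ / P.p) hδ hτ
      · rw [le_div_iff₀ hp0]
        nlinarith
      · intro m hm
        have := hXp m hm
        positivity
      · intro m hm
        have h3 := slow_rpow (a := P.p / 2) hδ (by positivity) hAτ (by
          have : P.p ≤ A * τ := by nlinarith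
          nlinarith) (hXp m hm.le).le (hXp (m + 1) hm).le (H.X_slow m hm)
        refine h3.trans (le_of_eq ?_)
        congr 2
        field_simp
      · exact le_rfl
    have h3 : 0 ≤ C3 * τ ^ (P.p / 2) * r ^ P.lam := by positivity
    refine (mul_le_mul_of_nonneg_left h2 h3).trans (le_of_eq ?_)
    rw [Real.mul_rpow hτ.le hX0.le]
    ring
  -- (b), (c)
  have hprod : ∀ (a : ℕ → E P.N → ℝ) (c0 : ℝ), (∀ m, AEStronglyMeasurable (a m) volume) →
      (∀ m, Integrable (fun x => |a m x| ^ P.q)) → 0 ≤ c0 →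
      avg S.δ τ (fun m => I0 P x₀ r (fun x => |a m x| ^ P.q)) n1 ≤ c0 * X n1 * r ^ P.lam →
      avg S.δ τ (fun m => I0 P x₀ r (fun x => |a m x| * |S.u m x|)) n1 ≤
        c0 ^ (1 / P.q) * (2 * C3) ^ (1 / P.p) * W := by
    intro a c0 ha ha' hc0 hb
    have i0 : ∀ m, 0 ≤ I0 P x₀ r (fun x => |a m x| ^ P.q) :=
      fun m => I0_nonneg fun x => by positivity
    have j1 : ∀ m, I0 P x₀ r (fun x => |a m x| * |S.u m x|) ≤
        (I0 P x₀ r (fun x => |a m x| ^ P.q)) ^ (1 / P.q) *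
        (I0 P x₀ r (fun x => |S.u m x| ^ P.p)) ^ (1 / P.p) := fun m =>
      I0_holder (ha m) (S.hu m).1.1 (ha' m) (S.up m)
    refine (avg_mono hδ hτ fun m _ _ => j1 m).trans ?_
    refine (avg_holder hδ hτ P.holder.symm i0 hup0).trans ?_
    rw [hW, ← M17.prod_bound hr0 hτ1 hXn hc0 hC3]
    exact mul_le_mul (Real.rpow_le_rpow (avg_nonneg hδ hτ fun m _ _ => i0 m) hb
      (by positivity)) (Real.rpow_le_rpow (avg_nonneg hδ hτ fun m _ _ => hup0 m) hup
      (by positivity)) (Real.rpow_nonneg (avg_nonneg hδ hτ fun m _ _ => hup0 m) _)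
      (Real.rpow_nonneg (by positivity) _)
  set κ : ℝ := θ ^ (1 / (2 * P.p)) + 1 / A with hκ
  have hκ0 : 0 < κ := by positivity
  have hb : avg S.δ τ (fun m => I0 P x₀ r (fun x => |g P.p (S.z m x)| * |S.u m x|)) n1 ≤
      K2 * κ ^ (1 / P.q) * W := by
    have h1 := hprod (fun m x => g P.p (S.z m x)) (C2 * κ) (fun m => (S.hg m).1)
      (fun m => S.gq m) (by positivity) (by
        have e : ∀ m, I0 P x₀ r (fun x => |g P.p (S.z m x)| ^ P.q) =
            I0 P x₀ r (fun x => |S.z m x| ^ P.p) := by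
          intro m
          congr 1
          funext x
          exact abs_g_q _
        simp only [e]
        exact a3)
    refine h1.trans (le_of_eq ?_)
    rw [Real.mul_rpow hC2.le hκ0.le, hK2]
    ring
  have hc : avg S.δ τ (fun m => I0 P x₀ r (fun x => |S.f m x| * |S.u m x|)) n1 ≤
      2 * (2 * C3) ^ (1 / P.p) * θ * W := by
    have h0 := H.εf0
    have h1 := hprod (fun m x => S.f m x) (2 * εf) (fun m => (S.hf m).1)
      (fun m => S.fq m H.hΩ) (by positivity) a4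
    refine h1.trans ?_
    have h2 : (2 * εf) ^ (1 / P.q) ≤ 2 * θ := by
      have hε := K.hε
      rw [Real.mul_rpow (by norm_num) h0]
      have h3 : (2:ℝ) ^ (1 / P.q) ≤ 2 := by
        calc (2:ℝ) ^ (1 / P.q) ≤ 2 ^ (1:ℝ) := by
              apply Real.rpow_le_rpow_of_exponent_le (by norm_num)
              rw [div_le_one hq0]
              exact hq1.le
          _ = 2 := Real.rpow_one _
      have h4 : εf ^ (1 / P.q) ≤ θ := by
        have h5 : εf ^ (1 / P.q) ≤ (θ ^ 4) ^ (1 / P.q) := Real.rpow_le_rpow h0 hε (by positivity)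
        refine h5.trans ?_
        rw [← Real.rpow_natCast, ← Real.rpow_mul hθ0.le]
        have h6 : (1:ℝ) ≤ ((4 : ℕ) : ℝ) * (1 / P.q) := by
          rw [mul_one_div, le_div_iff₀ hq0]
          push_cast
          linarith
        calc θ ^ (((4 : ℕ) : ℝ) * (1 / P.q)) ≤ θ ^ (1:ℝ) :=
              Real.rpow_le_rpow_of_exponent_ge hθ0 (by linarith) h6
          _ = θ := Real.rpow_one θ
      exact mul_le_mul h3 h4 (by positivity) (by norm_num)
    calc (2 * εf) ^ (1 / P.q) * (2 * C3) ^ (1 / P.p) * W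
        ≤ 2 * θ * (2 * C3) ^ (1 / P.p) * W := by gcongr
      _ = _ := by ring
  -- (d)
  set V : ℕ → ℝ := fun m => I0 P x₀ r (fun x => S.z m x * S.u m x) with hVdef
  have hV0 : V 0 = 0 := by
    simp only [hVdef, I0, S.z_zero, zero_mul, mul_zero]
    simp
  have hVa : avg S.δ τ V n1 ≤ 2 * (Real.sqrt (5 * C3) * R * τ * r ^ P.lam * X n1) := by
    have h1 : avg S.δ τ V n1 ≤
        avg S.δ τ (fun m => Real.sqrt (5 * C3) * R * τ * r ^ P.lam * X m) n1 :=
      avg_mono hδ hτ fun m _ hm => (le_abs_self _).trans (hV m hm)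
    rw [avg_mul_left] at h1
    have h2 : avg S.δ τ X n1 ≤ 2 * X n1 := by
      apply avg_slow_le (n1 := n1) (B := A * τ) hδ hτ _ (fun m hm => (hXp m hm).le)
        (fun m hm => H.X_slow m hm) n1 le_rfl
      nlinarith [H.hA]
    have h3 : 0 ≤ Real.sqrt (5 * C3) * R * τ * r ^ P.lam := by positivity
    refine h1.trans ((mul_le_mul_of_nonneg_left h2 h3).trans (le_of_eq ?_))
    ring
  have hav := avg_ineq (n1 := n1) (Y := V) (A := fun m => I0 P x₀ r (fun x => ‖S.Du m x‖ ^ 2))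
    (B := fun m => I0 P x₀ r (fun x => |S.z (m - 1) x| * |S.z m x|) +
      I0 P x₀ r (fun x => |g P.p (S.z m x)| * |S.u m x|) +
      I0 P x₀ r (fun x => |S.f m x| * |S.u m x|)) hδ hτ hV0
    (fun m _ => gu_ineq P Ω S m x₀ r hr0) n1 le_rfl
  rw [avg_add, avg_add] at hav
  have hVn := (abs_le.1 (hV n1 le_rfl)).1
  set SD := avg S.δ τ (fun m => I0 P x₀ r (fun x => ‖S.Du m x‖ ^ 2)) n1 with hSD
  set SZ := avg S.δ τ (fun m => I0 P x₀ r (fun x => |S.z (m - 1) x| * |S.z m x|)) n1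
  set SG := avg S.δ τ (fun m => I0 P x₀ r (fun x => |g P.p (S.z m x)| * |S.u m x|)) n1
  set SF := avg S.δ τ (fun m => I0 P x₀ r (fun x => |S.f m x| * |S.u m x|)) n1
  have hmain : SD ≤ 3 * Real.sqrt (5 * C3) * θ * W + (SZ + SG + SF) := by
    have h1 : τ * SD ≤ 3 * (Real.sqrt (5 * C3) * R * τ * r ^ P.lam * X n1) +
        τ * (SZ + SG + SF) := by
      have e : V n1 = I0 P x₀ r (fun x => S.z n1 x * S.u n1 x) := rfl
      rw [e] at hav
      linarith
    have h2 : R ≤ θ * τ := hRR.trans hRτ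
    have h3 : Real.sqrt (5 * C3) * R * τ * r ^ P.lam * X n1 ≤
        τ * (Real.sqrt (5 * C3) * θ * W) := by
      calc Real.sqrt (5 * C3) * R * τ * r ^ P.lam * X n1
          ≤ Real.sqrt (5 * C3) * (θ * τ) * τ * r ^ P.lam * X n1 := by gcongr
        _ = _ := by rw [hW]; ring
    have h4 : τ * SD ≤ τ * (3 * Real.sqrt (5 * C3) * θ * W + (SZ + SG + SF)) := by
      nlinarith
    exact le_of_mul_le_mul_left h4 hτ
  -- the energy
  have hEg : avg S.δ τ (fun m => S.Eg m x₀ r) n1 =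
      SD + avg S.δ τ (fun m => I0 P x₀ r (fun x => S.z m x ^ 2)) n1 := by
    rw [hSD, ← avg_add]
    congr 1
    funext m
    exact I0_add (Sol.vsq_int (S.hu m).2.1) (Sol.sq_int (S.hz m).1)
  rw [hEg]
  have f1 : SZ ≤ C1 * θ * W := a2.trans hsm
  have f2 : avg S.δ τ (fun m => I0 P x₀ r (fun x => S.z m x ^ 2)) n1 ≤ C1 * θ * W :=
    a1.trans hsm
  have e9 : (K1 + K2) * (θ + κ ^ (1 / P.q)) * τ ^ (2 * P.β) * r ^ P.lam =
      (K1 + K2) * (θ + κ ^ (1 / P.q)) * W := by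
    rw [← hT]
    ring
  rw [e9]
  have hκq : 0 < κ ^ (1 / P.q) := by positivity
  have g1 : SD + avg S.δ τ (fun m => I0 P x₀ r (fun x => S.z m x ^ 2)) n1 ≤
      K1 * θ * W + K2 * κ ^ (1 / P.q) * W := by
    have e10 : K1 * θ * W = 2 * (C1 * θ * W) + 3 * Real.sqrt (5 * C3) * θ * W +
        2 * (2 * C3) ^ (1 / P.p) * θ * W := by
      rw [hK1]
      ring
    rw [e10]
    linarith
  have g2 : 0 ≤ K2 * θ * W := by positivity
  have g3 : 0 ≤ K1 * κ ^ (1 / P.q) * W := by positivity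
  have e11 : (K1 + K2) * (θ + κ ^ (1 / P.q)) * W = K1 * θ * W + K2 * κ ^ (1 / P.q) * W +
      K2 * θ * W + K1 * κ ^ (1 / P.q) * W := by ring
  rw [e11]
  linarith

end Pool.Agent.H15.Hx
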