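import Pool.Agent.H15.Hx.M11_Energy

/-! M18: the Morrey quantity is finite at each step. -/

set_option autoImplicit false

open MeasureTheory Set Filter Topology
open scoped RealInnerProductSpace
open Pool.Agent.H25.HX (E g Tst H10)

noncomputable section

namespace Pool.Agent.H15.Hx

theorem m18_real {q c K w : ℝ} (hq0 : 0 < q) (hq : q < 2) (hc : 0 < c) (hK : 0 ≤ K)
    (hw : 0 ≤ w) (h : w ≤ K + c * w ^ (q / 2)) : w ≤ (2 * c) ^ (2 / (2 - q)) + 2 * K := by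
  have hc2 : 0 < 2 * c := by positivity
  have h0 : 0 ≤ (2 * c) ^ (2 / (2 - q)) := Real.rpow_nonneg hc2.le _
  rcases le_or_gt w ((2 * c) ^ (2 / (2 - q))) with h1 | h1
  · linarith
  · have hw0 : 0 < w := h0.trans_lt h1
    have h2 : 2 * c ≤ w ^ (1 - q / 2) := by
      have h3 : ((2 * c) ^ (2 / (2 - q))) ^ (1 - q / 2) ≤ w ^ (1 - q / 2) :=
        Real.rpow_le_rpow h0 h1.le (by linarith)
      rw [← Real.rpow_mul hc2.le] at h3
      have h4 : 2 / (2 - q) * (1 - q / 2) = 1 := by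
        have : 2 - q ≠ 0 := by linarith
        field_simp
      rwa [h4, Real.rpow_one] at h3
    have h5 : w = w ^ (1 - q / 2) * w ^ (q / 2) := by
      rw [← Real.rpow_add hw0]
      simp
    have h6 : 0 ≤ w ^ (q / 2) := Real.rpow_nonneg hw _
    have h7 : 2 * c * w ^ (q / 2) ≤ w := by
      calc 2 * c * w ^ (q / 2) ≤ w ^ (1 - q / 2) * w ^ (q / 2) :=
            mul_le_mul_of_nonneg_right h2 h6
        _ = w := h5.symm
    linarith

theorem Eg_finite (P : Par) (Ω : Set (E P.N)) (R : ℝ) (hR : 1 ≤ R) (hΩ : Ω ⊆ Metric.ball 0 R)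
    (S : Sol P Ω) (nT : ℕ)
    (hF : ∀ n ≤ nT, ∃ F : ℝ, ∀ x₀ r, Adm R x₀ r →
      I0 P x₀ r (fun x => |S.f n x| ^ P.q) ≤ F * r ^ P.lam) :
    ∀ n ≤ nT, ∃ K : ℝ, 0 ≤ K ∧ ∀ x₀ r, Adm R x₀ r → S.Eg n x₀ r ≤ K * r ^ P.lam := by
  obtain ⟨C, hC, hstep⟩ := energy_step P
  have hδ := S.δ_pos
  have hq0 : 0 < P.q := by linarith [P.q_gt_one]
  have hq2 := P.q_lt_two
  intro n
  induction n with
  | zero =>
    intro _
    refine ⟨0, le_rfl, fun x₀ r _ => ?_⟩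
    rw [S.Eg_zero]
    simp
  | succ n ih =>
    intro hn
    obtain ⟨K, hK, hKb⟩ := ih (by omega)
    obtain ⟨F, hFb⟩ := hF (n + 1) hn
    refine ⟨(2 * (C * S.δ)) ^ (2 / (2 - P.q)) + 2 * (K + C * S.δ * |F|), by positivity, ?_⟩
    intro x₀ r hA
    have hr : 0 < r := hA.2.1
    have hρ : 0 < r ^ P.lam := Real.rpow_pos_of_pos hr _
    have h1 := hstep Ω R hΩ S n x₀ r hr
    have h2 := hKb x₀ r hA
    have h3 := hFb x₀ r hA
    have h4 : 0 ≤ I0 P x₀ r (fun x => |S.z (n + 1) x| ^ P.p) :=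
      I0_nonneg fun x => Real.rpow_nonneg (abs_nonneg _) _
    have hy : 0 ≤ S.Eg (n + 1) x₀ r := S.Eg_nonneg (n + 1) x₀ r
    set ρ : ℝ := r ^ P.lam with hρd
    set y : ℝ := S.Eg (n + 1) x₀ r with hyd
    set w : ℝ := y / ρ with hw
    have hyw : y = w * ρ := by
      rw [hw]
      field_simp
    have hw0 : 0 ≤ w := div_nonneg hy hρ.le
    have h5 : ρ ^ (1 - P.q / 2) * y ^ (P.q / 2) = ρ * w ^ (P.q / 2) := by
      rw [hyw, Real.mul_rpow hw0 hρ.le]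
      have : ρ ^ (1 - P.q / 2) * ρ ^ (P.q / 2) = ρ := by
        rw [← Real.rpow_add hρ]
        simp
      calc ρ ^ (1 - P.q / 2) * (w ^ (P.q / 2) * ρ ^ (P.q / 2))
          = (ρ ^ (1 - P.q / 2) * ρ ^ (P.q / 2)) * w ^ (P.q / 2) := by ring
        _ = _ := by rw [this]
    rw [h5] at h1
    have h6 : F * ρ ≤ |F| * ρ := mul_le_mul_of_nonneg_right (le_abs_self F) hρ.le
    have h7 : w * ρ ≤ (K + C * S.δ * |F| + C * S.δ * w ^ (P.q / 2)) * ρ := by
      rw [← hyw]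
      have h8 : C * S.δ * (I0 P x₀ r (fun x => |S.f (n + 1) x| ^ P.q) + ρ * w ^ (P.q / 2)) ≤
          C * S.δ * (|F| * ρ + ρ * w ^ (P.q / 2)) :=
        mul_le_mul_of_nonneg_left (by linarith) (by positivity)
      have h9 : 0 ≤ S.δ * I0 P x₀ r (fun x => |S.z (n + 1) x| ^ P.p) := mul_nonneg hδ.le h4
      have h10 : y ≤ K * ρ + C * S.δ * (|F| * ρ + ρ * w ^ (P.q / 2)) := by linarith
      refine h10.trans (le_of_eq ?_)
      ring
    have h8 := le_of_mul_le_mul_right h7 hρ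
    have h9 := m18_real hq0 hq2 (mul_pos hC hδ) (by positivity : 0 ≤ K + C * S.δ * |F|) hw0 h8
    rw [hyw]
    exact mul_le_mul_of_nonneg_right h9 hρ.le

end Pool.Agent.H15.Hx
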