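import Pool.Agent.H15.Hx.M17_Contra
import Pool.Agent.H15.Hx.M18_Finite

/-! M19: selection of the time and conclusion of the Morrey bound. -/

set_option autoImplicit false

open MeasureTheory Set Filter Topology
open scoped RealInnerProductSpace
open Pool.Agent.H25.HX (E g Tst H10)

noncomputable section

namespace Pool.Agent.H15.Hx

theorem m19_pow {x b : ℝ} (hx : 0 ≤ x) (hb : 0 ≤ b) (hbx : b * x ≤ 1 / 2) :
    (1 + x) ^ b ≤ 1 + 2 * (b * x) := by
  have h1 : (1 + x) ^ b ≤ Real.exp (b * x) := by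
    have h2 : 1 + x ≤ Real.exp x := by
      have := Real.add_one_le_exp x
      linarith
    calc (1 + x) ^ b ≤ (Real.exp x) ^ b := Real.rpow_le_rpow (by linarith) h2 hb
      _ = Real.exp (b * x) := by rw [← Real.exp_mul, mul_comm]
  have h0 : 0 ≤ b * x := mul_nonneg hb hx
  have h3 : Real.exp (b * x) ≤ 1 + 2 * (b * x) := by
    have h4 := Real.exp_bound_div_one_sub_of_interval h0
    have h6 := h4 (by linarith)
    refine h6.trans ?_
    rw [div_le_iff₀ (by linarith)]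
    nlinarith
  exact h1.trans h3

theorem m19_Eg_nonneg {P : Par} {Ω : Set (E P.N)} (S : Sol P Ω) (n : ℕ) (x₀ : E P.N) (r : ℝ) :
    0 ≤ S.Eg n x₀ r := by
  unfold Sol.Eg I0
  refine integral_nonneg fun x => ?_
  exact mul_nonneg (wt_pos x).le (by positivity)

/-- the smallest Morrey constant of the weighted energy at the step `n` -/
def m19K {P : Par} {Ω : Set (E P.N)} (S : Sol P Ω) (R : ℝ) (n : ℕ) : ℝ :=
  sSup {y | ∃ (x₀ : E P.N) (r : ℝ), Adm R x₀ r ∧ y = S.Eg n x₀ r / r ^ P.lam}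

theorem m19_adm {N : ℕ} {R : ℝ} (hR : 1 ≤ R) : Adm R (0 : E N) R :=
  ⟨by simpa using (by linarith : (0:ℝ) ≤ R), by linarith, le_rfl⟩

theorem m19K_le {P : Par} {Ω : Set (E P.N)} (S : Sol P Ω) {R : ℝ} (hR : 1 ≤ R) {n : ℕ} {c : ℝ}
    (h : ∀ x₀ r, Adm R x₀ r → S.Eg n x₀ r ≤ c * r ^ P.lam) : m19K S R n ≤ c := by
  refine csSup_le ⟨_, 0, R, m19_adm hR, rfl⟩ ?_
  rintro y ⟨x₀, r, had, rfl⟩
  rw [div_le_iff₀ (Real.rpow_pos_of_pos had.2.1 _)]
  exact h x₀ r had

theorem m19_le_K {P : Par} {Ω : Set (E P.N)} (S : Sol P Ω) {R : ℝ} {n : ℕ} {c : ℝ}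
    (h : ∀ x₀ r, Adm R x₀ r → S.Eg n x₀ r ≤ c * r ^ P.lam) (x₀ : E P.N) (r : ℝ)
    (had : Adm R x₀ r) : S.Eg n x₀ r ≤ m19K S R n * r ^ P.lam := by
  have hr := Real.rpow_pos_of_pos had.2.1 P.lam
  rw [← div_le_iff₀ hr]
  refine le_csSup ⟨c, ?_⟩ ⟨x₀, r, had, rfl⟩
  rintro y ⟨x₁, r₁, had₁, rfl⟩
  rw [div_le_iff₀ (Real.rpow_pos_of_pos had₁.2.1 _)]
  exact h x₁ r₁ had₁

theorem m19K_nonneg {P : Par} {Ω : Set (E P.N)} (S : Sol P Ω) {R : ℝ} {n : ℕ} :
    0 ≤ m19K S R n := by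
  refine Real.sSup_nonneg ?_
  rintro y ⟨x₀, r, had, rfl⟩
  exact div_nonneg (m19_Eg_nonneg S n x₀ r) (Real.rpow_pos_of_pos had.2.1 _).le

theorem m19_force {s τ a B θ CF ε D : ℝ} (hs : 0 < s) (hτ : 1 ≤ τ) (ha : τ ≤ a) (hB : 1 ≤ B)
    (hθ : 0 < θ) (hCF : 0 ≤ CF) (hε : 0 < ε) (hε1 : ε ≤ 1)
    (hD0 : 0 ≤ D) (hD : D ≤ B * a) (hbig : (CF * (2 * B)) / (θ ^ 4) ^ (1 / s) ≤ τ ^ ε) :
    (CF * (1 + D) ^ (1 - ε)) ^ s ≤ θ ^ 4 * (a ^ (s + 1) / τ) := by
  have ha1 : 1 ≤ a := hτ.trans ha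
  have ha0 : 0 < a := by linarith
  have hτ0 : 0 < τ := by linarith
  have hB0 : 0 < B := by linarith
  have hθ4 : 0 < θ ^ 4 := by positivity
  have hBa : 1 ≤ B * a := by nlinarith
  have h1 : (1 + D) ^ (1 - ε) ≤ (2 * B) * a ^ (1 - ε) := by
    calc (1 + D) ^ (1 - ε) ≤ (2 * B * a) ^ (1 - ε) :=
          Real.rpow_le_rpow (by linarith) (by linarith) (by linarith)
      _ = (2 * B) ^ (1 - ε) * a ^ (1 - ε) := Real.mul_rpow (by linarith) ha0.le
      _ ≤ (2 * B) ^ (1 : ℝ) * a ^ (1 - ε) := by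
          refine mul_le_mul_of_nonneg_right ?_ (Real.rpow_pos_of_pos ha0 _).le
          exact Real.rpow_le_rpow_of_exponent_le (by linarith) (by linarith)
      _ = (2 * B) * a ^ (1 - ε) := by rw [Real.rpow_one]
  have h2 : CF * (2 * B) ≤ (θ ^ 4) ^ (1 / s) * a ^ ε := by
    rw [div_le_iff₀ (Real.rpow_pos_of_pos hθ4 _)] at hbig
    calc CF * (2 * B) ≤ τ ^ ε * (θ ^ 4) ^ (1 / s) := hbig
      _ ≤ a ^ ε * (θ ^ 4) ^ (1 / s) := by
          refine mul_le_mul_of_nonneg_right ?_ (Real.rpow_pos_of_pos hθ4 _).le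
          exact Real.rpow_le_rpow hτ0.le ha hε.le
      _ = _ := mul_comm _ _
  have h3 : CF * (1 + D) ^ (1 - ε) ≤ (θ ^ 4) ^ (1 / s) * a := by
    calc CF * (1 + D) ^ (1 - ε) ≤ CF * ((2 * B) * a ^ (1 - ε)) :=
          mul_le_mul_of_nonneg_left h1 hCF
      _ = (CF * (2 * B)) * a ^ (1 - ε) := by ring
      _ ≤ ((θ ^ 4) ^ (1 / s) * a ^ ε) * a ^ (1 - ε) :=
          mul_le_mul_of_nonneg_right h2 (Real.rpow_pos_of_pos ha0 _).le
      _ = (θ ^ 4) ^ (1 / s) * (a ^ ε * a ^ (1 - ε)) := by ring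
      _ = (θ ^ 4) ^ (1 / s) * a := by
          rw [← Real.rpow_add ha0]
          simp
  have h4 : 0 ≤ CF * (1 + D) ^ (1 - ε) :=
    mul_nonneg hCF (Real.rpow_nonneg (by linarith) _)
  calc (CF * (1 + D) ^ (1 - ε)) ^ s ≤ ((θ ^ 4) ^ (1 / s) * a) ^ s :=
        Real.rpow_le_rpow h4 h3 hs.le
    _ = ((θ ^ 4) ^ (1 / s)) ^ s * a ^ s :=
        Real.mul_rpow (Real.rpow_pos_of_pos hθ4 _).le ha0.le
    _ = θ ^ 4 * a ^ s := by
        rw [← Real.rpow_mul hθ4.le, one_div, inv_mul_cancel₀ hs.ne', Real.rpow_one]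
    _ ≤ θ ^ 4 * (a ^ (s + 1) / τ) := by
        refine mul_le_mul_of_nonneg_left ?_ hθ4.le
        rw [le_div_iff₀ hτ0, Real.rpow_add ha0, Real.rpow_one]
        exact mul_le_mul_of_nonneg_left ha (Real.rpow_pos_of_pos ha0 _).le

theorem morrey_bound (P : Par) (R CF ε : ℝ) (hR : 1 ≤ R) (hCF : 0 ≤ CF) (hε : 0 < ε)
    (hε1 : ε ≤ 1) : ∃ C : ℝ, 0 < C ∧ ∀ (Ω : Set (E P.N)), IsOpen Ω → Ω ⊆ Metric.ball 0 R →
    ∀ (S : Sol P Ω) (nT : ℕ),
    (∀ n ≤ nT, ∀ x₀ r, Adm R x₀ r → I0 P x₀ r (fun x => |S.f n x| ^ P.q) ≤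
      (CF * (1 + (S.t nT - S.t n)) ^ (1 - ε)) ^ P.s * r ^ P.lam) →
    ∀ x₀ r, Adm R x₀ r → S.Eg nT x₀ r ≤ C * r ^ P.lam := by
  have hs1 := P.s_gt_one
  have hβ1 := P.β_gt_one
  have h2β := P.two_β
  obtain ⟨A, θ, hA, hθ0, hθ1, hmain⟩ := main_contra P
  have hs0 : 0 < P.s := by linarith
  have hβ0 : 0 < P.β := by linarith
  set B : ℝ := 4 * P.β * A with hB
  have hB1 : 1 ≤ B := by rw [hB]; nlinarith
  have hB0 : 0 < B := by linarith
  have hθ4 : 0 < θ ^ 4 := by positivity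
  set M : ℝ := (CF * (2 * B)) / (θ ^ 4) ^ (1 / P.s) with hM
  have hM0 : 0 ≤ M := div_nonneg (by positivity) (Real.rpow_pos_of_pos hθ4 _).le
  set τ0 : ℝ := max 1 (max (R ^ 2 / θ ^ 4) (M ^ (1 / ε))) with hτ0
  have hτ01 : 1 ≤ τ0 := le_max_left _ _
  refine ⟨τ0 ^ (2 * P.β), Real.rpow_pos_of_pos (by linarith) _, ?_⟩
  intro Ω hΩo hΩ S nT hF
  have hδ := S.δ_pos
  -- finiteness
  have hfin := Eg_finite P Ω R hR hΩ S nT (fun n hn => ⟨_, hF n hn⟩)
  have hKle : ∀ n ≤ nT, ∀ x₀ r, Adm R x₀ r → S.Eg n x₀ r ≤ m19K S R n * r ^ P.lam := by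
    intro n hn x₀ r had
    obtain ⟨K, _, hK⟩ := hfin n hn
    exact m19_le_K S hK x₀ r had
  set T : ℕ → ℝ := fun n => m19K S R n ^ (1 / (2 * P.β)) with hT
  have hT0 : ∀ n, 0 ≤ T n := fun n => Real.rpow_nonneg (m19K_nonneg S) _
  have hTK : ∀ n, T n ^ (2 * P.β) = m19K S R n := by
    intro n
    rw [hT]
    simp only
    rw [← Real.rpow_mul (m19K_nonneg S), one_div, inv_mul_cancel₀ (by linarith), Real.rpow_one]
  obtain ⟨n1, hn1, hmax⟩ := Finset.exists_max_image (Finset.range (nT + 1))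
    (fun n => T n - (S.t nT - S.t n) / B) ⟨0, by simp⟩
  have hn1' : n1 ≤ nT := by
    have := Finset.mem_range.1 hn1
    omega
  have hmax' : ∀ n ≤ nT, T n - (S.t nT - S.t n) / B ≤ T n1 - (S.t nT - S.t n1) / B := by
    intro n hn
    exact hmax n (Finset.mem_range.2 (by omega))
  have htmono : ∀ n ≤ nT, S.t n ≤ S.t nT := by
    intro n hn
    unfold Sol.t
    exact mul_le_mul_of_nonneg_right (by exact_mod_cast hn) hδ.le
  have hTn1 : T nT ≤ T n1 := by
    have h1 := hmax' nT le_rfl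
    have h2 : 0 ≤ (S.t nT - S.t n1) / B := div_nonneg (by linarith [htmono n1 hn1']) hB0.le
    simp only [sub_self, zero_div, sub_zero] at h1
    linarith
  have hlt : T n1 < τ0 := by
    by_contra hcon
    push Not at hcon
    set τ : ℝ := T n1 with hτdef
    have hτ1 : 1 ≤ τ := hτ01.trans hcon
    have hτ0' : 0 < τ := by linarith
    have hRτ : R ^ 2 / θ ^ 4 ≤ τ := (le_max_left _ _).trans ((le_max_right _ _).trans hcon)
    have hMτ : M ≤ τ ^ ε := by
      have h1 : M ^ (1 / ε) ≤ τ := (le_max_right _ _).trans ((le_max_right _ _).trans hcon)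
      calc M = (M ^ (1 / ε)) ^ ε := by
            rw [← Real.rpow_mul hM0, one_div, inv_mul_cancel₀ hε.ne', Real.rpow_one]
        _ ≤ τ ^ ε := Real.rpow_le_rpow (Real.rpow_nonneg hM0 _) h1 hε.le
    set a : ℕ → ℝ := fun n => τ + (S.t n1 - S.t n) / B with ha
    have htn1 : ∀ n ≤ n1, S.t n ≤ S.t n1 := by
      intro n hn
      unfold Sol.t
      exact mul_le_mul_of_nonneg_right (by exact_mod_cast hn) hδ.le
    have haτ : ∀ n ≤ n1, τ ≤ a n := by
      intro n hn
      rw [ha]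
      have : 0 ≤ (S.t n1 - S.t n) / B := div_nonneg (by linarith [htn1 n hn]) hB0.le
      simp only
      linarith
    have hTa : ∀ n ≤ n1, T n ≤ a n := by
      intro n hn
      have h1 := hmax' n (hn.trans hn1')
      have h2 : (S.t n1 - S.t n) / B = (S.t nT - S.t n) / B - (S.t nT - S.t n1) / B := by ring
      rw [ha]
      simp only
      rw [h2]
      linarith
    have hstep : ∀ n, S.t (n + 1) = S.t n + S.δ := by
      intro n
      unfold Sol.t
      push_cast
      ring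
    set X : ℕ → ℝ := fun n => a n ^ (P.s + 1) / τ with hX
    have hyp : Hyp S R n1 τ A (θ ^ 4) X := by
      refine ⟨hΩo, hΩ, hR, hτ1, hA, hθ4.le, ?_, ?_, ?_, ?_, ?_, ?_⟩
      · exact pow_le_one₀ hθ0.le (by linarith)
      · intro n hn
        have h1 := haτ n hn
        rw [hX]
        simp only
        rw [le_div_iff₀ hτ0', ← Real.rpow_add_one hτ0'.ne']
        exact Real.rpow_le_rpow hτ0'.le h1 (by linarith)
      · intro n hn
        rw [hX]
        simp only
        refine div_le_div_of_nonneg_right ?_ hτ0'.le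
        have h1 := haτ (n + 1) hn
        refine Real.rpow_le_rpow (by linarith) ?_ (by linarith)
        rw [ha]
        simp only
        have h2 : (S.t n1 - S.t (n + 1)) / B ≤ (S.t n1 - S.t n) / B := by
          refine div_le_div_of_nonneg_right ?_ hB0.le
          rw [hstep]
          linarith
        linarith
      · intro n hn
        have h1 := haτ (n + 1) hn
        have ha1 : 0 < a (n + 1) := by linarith
        have h2 : a n ≤ (1 + S.δ / (B * τ)) * a (n + 1) := by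
          have h3 : a n = a (n + 1) + S.δ / B := by
            rw [ha]
            simp only
            rw [hstep]
            field_simp
            ring
          have h4 : S.δ / B ≤ S.δ / (B * τ) * a (n + 1) := by
            rw [div_mul_eq_mul_div, div_le_div_iff₀ hB0 (by positivity)]
            nlinarith [mul_le_mul_of_nonneg_left h1 (mul_pos hδ hB0).le]
          rw [h3]
          linarith
        have hx0 : 0 ≤ S.δ / (B * τ) := by positivity
        have h5 : (P.s + 1) * (S.δ / (B * τ)) = (1 / 2) * (S.δ / (A * τ)) := by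
          rw [← h2β, hB]
          field_simp
          ring
        have h6 : S.δ / (A * τ) ≤ 1 := by
          rw [div_le_one (by positivity)]
          have := S.δ_le
          nlinarith
        have h7 := m19_pow hx0 (by linarith : 0 ≤ P.s + 1) (by rw [h5]; linarith)
        rw [h5] at h7
        rw [hX]
        simp only
        rw [← mul_div_assoc]
        refine div_le_div_of_nonneg_right ?_ hτ0'.le
        have han : 0 ≤ a n := by
          have := haτ n (Nat.le_of_lt hn)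
          linarith
        calc a n ^ (P.s + 1) ≤ ((1 + S.δ / (B * τ)) * a (n + 1)) ^ (P.s + 1) :=
              Real.rpow_le_rpow han h2 (by linarith)
          _ = (1 + S.δ / (B * τ)) ^ (P.s + 1) * a (n + 1) ^ (P.s + 1) :=
              Real.mul_rpow (by linarith) ha1.le
          _ ≤ (1 + 2 * (1 / 2 * (S.δ / (A * τ)))) * a (n + 1) ^ (P.s + 1) :=
              mul_le_mul_of_nonneg_right h7 (Real.rpow_pos_of_pos ha1 _).le
          _ = (1 + S.δ / (A * τ)) * a (n + 1) ^ (P.s + 1) := by ring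
      · intro n hn x₀ r had
        have hr := Real.rpow_pos_of_pos had.2.1 P.lam
        refine (hKle n (hn.trans hn1') x₀ r had).trans ?_
        refine mul_le_mul_of_nonneg_right ?_ hr.le
        rw [hX]
        simp only
        rw [mul_div_cancel₀ _ hτ0'.ne', ← hTK n, ← h2β]
        exact Real.rpow_le_rpow (hT0 n) (hTa n hn) (by linarith)
      · intro n hn x₀ r had
        have hr := Real.rpow_pos_of_pos had.2.1 P.lam
        refine (hF n (hn.trans hn1') x₀ r had).trans ?_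
        refine mul_le_mul_of_nonneg_right ?_ hr.le
        refine m19_force hs0 hτ1 (haτ n hn) hB1 hθ0 hCF hε hε1 ?_ ?_ hMτ
        · linarith [htmono n (hn.trans hn1')]
        · have h1 := hmax' nT le_rfl
          simp only [sub_self, zero_div, sub_zero] at h1
          have h2 : (S.t nT - S.t n1) / B ≤ τ := by
            have := hT0 nT
            linarith
          rw [div_le_iff₀ hB0] at h2
          rw [ha]
          simp only
          have h3 : B * (τ + (S.t n1 - S.t n) / B) = τ * B + (S.t n1 - S.t n) := by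
            field_simp
          rw [h3]
          linarith
    have hsmall : Small R τ (θ ^ 4) θ := by
      refine ⟨hθ0, hθ1, ?_, le_rfl⟩
      rw [div_le_iff₀ hθ4] at hRτ
      linarith
    have hXn1 : X n1 = τ ^ P.s := by
      rw [hX, ha]
      simp only [sub_self, zero_div, add_zero]
      rw [Real.rpow_add_one hτ0'.ne', mul_div_assoc, div_self hτ0'.ne', mul_one]
    have hfinal := hmain Ω S R n1 τ (θ ^ 4) X hyp hsmall hXn1
    have h1 := m19K_le S hR hfinal
    rw [hτdef, hTK n1] at h1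
    have h2 : 0 < m19K S R n1 := by
      rw [← hTK n1]
      exact Real.rpow_pos_of_pos hτ0' _
    linarith
  intro x₀ r had
  have hr := Real.rpow_pos_of_pos had.2.1 P.lam
  refine (hKle nT le_rfl x₀ r had).trans ?_
  refine mul_le_mul_of_nonneg_right ?_ hr.le
  rw [← hTK nT]
  exact Real.rpow_le_rpow (hT0 nT) (by linarith) (by linarith)

end Pool.Agent.H15.Hx
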