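import Pool.Agent.H15.Hx.M03b_WtInt
import Pool.Agent.H15.Hx.M08_G

/-! M20: truncation of the force. -/

set_option autoImplicit false

open MeasureTheory Set Filter Topology
open scoped RealInnerProductSpace
open Pool.Agent.H25.HX (E g Tst H10)

noncomputable section

namespace Pool.Agent.H15.Hx

/-- truncation at height `H` -/
def clip (H y : ℝ) : ℝ := max (-H) (min H y)

/-- `∫_{B(0,R)} wt b ≤ C r^a` for `a < b`, `a ≤ N` -/
theorem wt_ball_int {N : ℕ} (R a b : ℝ) (hR : 1 ≤ R) (hab : a < b) (ha : a ≤ N) : ∃ C : ℝ,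
    0 < C ∧ ∀ (x₀ : E N) (r : ℝ), Adm R x₀ r →
    ∫ x in Metric.ball (0 : E N) R, wt b x₀ r x ≤ C * r ^ a := by
  set c : ℝ := N + (b - a) with hc
  obtain ⟨C0, hC0, hI⟩ := wt_integral N c (by rw [hc]; linarith)
  have hcb : b ≤ c := by rw [hc]; linarith
  refine ⟨C0 * (5 * R ^ 2) ^ ((c - b) / 2), by positivity, fun x₀ r hA => ?_⟩
  obtain ⟨h1, h2, h3⟩ := hA
  obtain ⟨hint, hval⟩ := hI x₀ r h2
  have hpt : ∀ x ∈ Metric.ball (0 : E N) R,
      wt b x₀ r x ≤ (5 * R ^ 2 / r ^ 2) ^ ((c - b) / 2) * wt c x₀ r x := by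
    intro x hx
    have hx' : ‖x‖ < R := by simpa using hx
    have e1 : wt b x₀ r x = (1 + ‖x - x₀‖ ^ 2 / r ^ 2) ^ ((c - b) / 2) * wt c x₀ r x := by
      unfold wt
      rw [← Real.rpow_add (wt_base_pos x₀ r x)]
      congr 1
      ring
    rw [e1]
    apply mul_le_mul_of_nonneg_right _ (wt_pos x).le
    apply Real.rpow_le_rpow (wt_base_pos x₀ r x).le _ (by linarith)
    have h4 : ‖x - x₀‖ ≤ 2 * R := by
      have := norm_sub_le x x₀
      linarith
    have h5 : ‖x - x₀‖ ^ 2 ≤ 4 * R ^ 2 := by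
      have := pow_le_pow_left₀ (norm_nonneg _) h4 2
      linarith [this]
    have h6 : r ^ 2 ≤ R ^ 2 := pow_le_pow_left₀ h2.le h3 2
    have h7 : 0 < r ^ 2 := by positivity
    rw [le_div_iff₀ h7, add_mul, div_mul_cancel₀ _ h7.ne']
    linarith
  have hint2 : IntegrableOn (wt b x₀ r) (Metric.ball (0 : E N) R) :=
    (wt_cont.continuousOn.integrableOn_compact (isCompact_closedBall 0 R)).mono_set
      Metric.ball_subset_closedBall
  have hint3 : Integrable (fun x => (5 * R ^ 2 / r ^ 2) ^ ((c - b) / 2) * wt c x₀ r x) :=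
    hint.const_mul _
  calc ∫ x in Metric.ball (0 : E N) R, wt b x₀ r x
      ≤ ∫ x in Metric.ball (0 : E N) R, (5 * R ^ 2 / r ^ 2) ^ ((c - b) / 2) * wt c x₀ r x :=
        setIntegral_mono_on hint2 hint3.integrableOn measurableSet_ball hpt
    _ ≤ ∫ x, (5 * R ^ 2 / r ^ 2) ^ ((c - b) / 2) * wt c x₀ r x :=
        setIntegral_le_integral hint3 (Eventually.of_forall fun x =>
          mul_nonneg (by positivity) (wt_pos x).le)
    _ = (5 * R ^ 2 / r ^ 2) ^ ((c - b) / 2) * (C0 * r ^ (N : ℝ)) := by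
        rw [integral_const_mul, hval]
    _ = C0 * (5 * R ^ 2) ^ ((c - b) / 2) * r ^ a := by
        rw [Real.div_rpow (by positivity) (by positivity)]
        have e2 : (r ^ 2) ^ ((c - b) / 2) = r ^ (c - b) := by
          rw [← Real.rpow_natCast r 2, ← Real.rpow_mul h2.le]
          congr 1
          push_cast
          ring
        rw [e2]
        have e3 : r ^ (N : ℝ) = r ^ (c - b) * r ^ a := by
          rw [← Real.rpow_add h2]
          congr 1
          rw [hc]
          ring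
        rw [e3]
        have : r ^ (c - b) ≠ 0 := (Real.rpow_pos_of_pos h2 _).ne'
        field_simp

theorem m20_clip_abs_le {H : ℝ} (hH : 0 ≤ H) (y : ℝ) : |clip H y| ≤ |y| := by
  unfold clip
  rcases le_total 0 y with hy | hy
  · have h1 : 0 ≤ min H y := le_min hH hy
    rw [max_eq_right (by linarith), abs_of_nonneg h1, abs_of_nonneg hy]
    exact min_le_right _ _
  · rw [min_eq_right (by linarith)]
    have h1 : max (-H) y ≤ 0 := max_le (by linarith) hy
    rw [abs_of_nonpos h1, abs_of_nonpos hy]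
    have := le_max_right (-H) y
    linarith

theorem m20_clip_abs_le' {H : ℝ} (hH : 0 ≤ H) (y : ℝ) : |clip H y| ≤ H := by
  unfold clip
  rw [abs_le]
  exact ⟨le_max_left _ _, max_le (by linarith) (min_le_left _ _)⟩

theorem m20_clip_zero {H : ℝ} (hH : 0 ≤ H) : clip H 0 = 0 := by
  unfold clip
  rw [min_eq_right hH, max_eq_right (by linarith)]

theorem m20_clip_eq {H y : ℝ} (hy : |y| ≤ H) : clip H y = y := by
  unfold clip
  rw [abs_le] at hy
  rw [min_eq_right hy.2, max_eq_right hy.1]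

theorem m20_sub_clip {H : ℝ} (hH : 0 ≤ H) (y : ℝ) : |y - clip H y| ≤ |y| := by
  unfold clip
  rcases le_total 0 y with hy | hy
  · have h1 : 0 ≤ min H y := le_min hH hy
    rw [max_eq_right (by linarith), abs_of_nonneg (by linarith [min_le_right H y]),
      abs_of_nonneg hy]
    linarith
  · rw [min_eq_right (by linarith)]
    have h1 : max (-H) y ≤ 0 := max_le (by linarith) hy
    have h2 := le_max_right (-H) y
    rw [abs_of_nonpos (by linarith), abs_of_nonpos hy]
    linarith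

theorem trunc (P : Par) : ∃ b ε κ : ℝ, 0 < b ∧ 0 < ε ∧ ε ≤ 1 ∧ 0 < κ ∧
    ∀ R M : ℝ, 1 ≤ R → 0 ≤ M → ∃ CF : ℝ, 0 ≤ CF ∧ ∀ f : E P.N → ℝ, MemLp f 2 volume →
    ∫ x, f x ^ 2 ≤ M ^ 2 → (∀ x, x ∉ Metric.ball (0 : E P.N) R → f x = 0) →
    ∀ μ : ℝ, 1 ≤ μ →
    (∀ x₀ r, Adm R x₀ r → I0 P x₀ r (fun x => |clip (μ ^ b) (f x)| ^ P.q) ≤
      (CF * μ ^ (1 - ε)) ^ P.s * r ^ P.lam) ∧
    ∫ x, |f x - clip (μ ^ b) (f x)| ^ P.q ≤ M ^ 2 * μ ^ (-(1 + κ)) := by
  have hN := P.N_ge
  have hs := P.s_gt_one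
  have hq1 := P.q_gt_one
  have hq2 := P.q_lt_two
  have hβ := P.β_gt_one
  have hlam := P.lam_pos
  have hll := P.lam_lt_lam'
  have hNpos : (0 : ℝ) < P.N := by linarith
  set ϑ : ℝ := min 1 (4 * P.s / P.N) with hϑ
  have hϑ0 : 0 < ϑ := lt_min one_pos (by positivity)
  have hϑ1 : ϑ ≤ 1 := min_le_left _ _
  have hϑN : ϑ * P.N ≤ 4 * P.s := by
    have h1 : ϑ ≤ 4 * P.s / P.N := min_le_right _ _
    rwa [le_div_iff₀ hNpos] at h1
  set ε : ℝ := ϑ / (2 * P.q) with hε
  have hε0 : 0 < ε := by positivity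
  have hε1 : ε ≤ 1 := by
    rw [hε, div_le_one (by positivity)]
    linarith
  have hβq := P.β_mul_q
  have h2q := P.two_sub_q
  set b : ℝ := (1 + ε) * P.β with hb
  have hb0 : 0 < b := by positivity
  -- exponent comparison
  have hexp : b * (P.q - ϑ) ≤ (1 - ε) * P.s := by
    have h1 : P.β * (P.q - ϑ) = P.s - P.β * ϑ := by rw [mul_sub, hβq]
    have h2 : ε * (2 * P.s) = P.β * ϑ := by
      rw [hε, ← hβq]
      field_simp
    have h3 : b * (P.q - ϑ) = (1 + ε) * (P.s - P.β * ϑ) := by rw [hb, mul_assoc, h1]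
    rw [h3]
    have h4 : 0 ≤ ε * (P.β * ϑ) := by positivity
    nlinarith
  set T : ℝ := 2 / (2 - ϑ) with hT
  have hT0 : 0 < T := div_pos (by norm_num) (by linarith)
  have hconj : T.HolderConjugate (2 / ϑ) := by
    rw [Real.holderConjugate_iff]
    constructor
    · rw [hT, lt_div_iff₀ (by linarith)]
      linarith
    · rw [hT, inv_div, inv_div]
      ring
  refine ⟨b, ε, ε, hb0, hε0, hε1, hε0, fun R M hR hM => ?_⟩
  obtain ⟨C1, hC1, hwt⟩ := wt_ball_int (N := P.N) R (P.lam * T) (P.lam' * T) hR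
    (mul_lt_mul_of_pos_right hll hT0) (by
      rw [hT, ← mul_div_assoc, div_le_iff₀ (by linarith)]
      have : P.lam = P.N - 2 * P.s := rfl
      rw [this]
      nlinarith)
  have hC2 : 0 < C1 + M ^ 2 := by positivity
  refine ⟨(C1 + M ^ 2) ^ (1 / P.s), by positivity, ?_⟩
  intro f hf hfM hf0 μ hμ
  have hμ0 : 0 < μ := by linarith
  set H : ℝ := μ ^ b with hH
  have hH0 : 0 < H := Real.rpow_pos_of_pos hμ0 _
  have hf2 : Integrable (fun x => f x ^ 2) := hf.integrable_sq
  constructor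
  · intro x₀ r hA
    have hr : 0 < r := hA.2.1
    -- pointwise bound on the ball
    have hpt : ∀ x, wt P.lam' x₀ r x * |clip H (f x)| ^ P.q ≤
        H ^ (P.q - ϑ) * (r ^ P.lam * ((r ^ (-P.lam)) ^ T * wt (P.lam' * T) x₀ r x +
          f x ^ 2)) := by
      intro x
      have h1 : |clip H (f x)| ^ P.q ≤ H ^ (P.q - ϑ) * |f x| ^ ϑ := by
        rcases eq_or_lt_of_le (abs_nonneg (clip H (f x))) with h0 | h0
        · rw [← h0, Real.zero_rpow (by linarith)]
          positivity
        · have e1 : |clip H (f x)| ^ P.q =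
              |clip H (f x)| ^ (P.q - ϑ) * |clip H (f x)| ^ ϑ := by
            rw [← Real.rpow_add h0]
            congr 1
            ring
          rw [e1]
          apply mul_le_mul
          · exact Real.rpow_le_rpow h0.le (m20_clip_abs_le' hH0.le _) (by linarith)
          · exact Real.rpow_le_rpow h0.le (m20_clip_abs_le hH0.le _) hϑ0.le
          · positivity
          · positivity
      have h2 := Real.young_inequality_of_nonneg (a := r ^ (-P.lam) * wt P.lam' x₀ r x)
        (b := |f x| ^ ϑ) (mul_nonneg (by positivity) (wt_pos x).le) (by positivity) hconj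
      have h3 : (|f x| ^ ϑ) ^ (2 / ϑ) = f x ^ 2 := by
        rw [← Real.rpow_mul (abs_nonneg _), mul_div_cancel₀ _ hϑ0.ne', Real.rpow_two, sq_abs]
      rw [h3, Real.mul_rpow (by positivity) (wt_pos x).le, wt_rpow] at h2
      have h4 : (r ^ (-P.lam)) ^ T * wt (P.lam' * T) x₀ r x / T ≤
          (r ^ (-P.lam)) ^ T * wt (P.lam' * T) x₀ r x :=
        div_le_self (mul_nonneg (by positivity) (wt_pos x).le) hconj.lt.le
      have h5 : f x ^ 2 / (2 / ϑ) ≤ f x ^ 2 :=
        div_le_self (by positivity) hconj.symm.lt.le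
      have h6 : wt P.lam' x₀ r x * |f x| ^ ϑ ≤
          r ^ P.lam * ((r ^ (-P.lam)) ^ T * wt (P.lam' * T) x₀ r x + f x ^ 2) := by
        have e2 : wt P.lam' x₀ r x * |f x| ^ ϑ =
            r ^ P.lam * (r ^ (-P.lam) * wt P.lam' x₀ r x * |f x| ^ ϑ) := by
          rw [Real.rpow_neg hr.le]
          have : r ^ P.lam ≠ 0 := (Real.rpow_pos_of_pos hr _).ne'
          field_simp
        rw [e2]
        apply mul_le_mul_of_nonneg_left _ (by positivity)
        linarith
      calc wt P.lam' x₀ r x * |clip H (f x)| ^ P.q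
          ≤ wt P.lam' x₀ r x * (H ^ (P.q - ϑ) * |f x| ^ ϑ) :=
            mul_le_mul_of_nonneg_left h1 (wt_pos x).le
        _ = H ^ (P.q - ϑ) * (wt P.lam' x₀ r x * |f x| ^ ϑ) := by ring
        _ ≤ _ := mul_le_mul_of_nonneg_left h6 (by positivity)
    have hz : ∀ x, x ∉ Metric.ball (0 : E P.N) R →
        wt P.lam' x₀ r x * |clip H (f x)| ^ P.q = 0 := by
      intro x hx
      rw [hf0 x hx, m20_clip_zero hH0.le, abs_zero, Real.zero_rpow (by linarith), mul_zero]
    have hintw : IntegrableOn (wt (P.lam' * T) x₀ r) (Metric.ball (0 : E P.N) R) :=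
      (wt_cont.continuousOn.integrableOn_compact (isCompact_closedBall 0 R)).mono_set
        Metric.ball_subset_closedBall
    have hdom : IntegrableOn (fun x => H ^ (P.q - ϑ) * (r ^ P.lam * ((r ^ (-P.lam)) ^ T *
        wt (P.lam' * T) x₀ r x + f x ^ 2))) (Metric.ball (0 : E P.N) R) :=
      (((hintw.const_mul _).add hf2.integrableOn).const_mul _).const_mul _
    unfold I0
    rw [← setIntegral_eq_integral_of_forall_compl_eq_zero hz]
    have hle : ∫ x in Metric.ball (0 : E P.N) R, wt P.lam' x₀ r x * |clip H (f x)| ^ P.q ≤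
        ∫ x in Metric.ball (0 : E P.N) R, H ^ (P.q - ϑ) * (r ^ P.lam * ((r ^ (-P.lam)) ^ T *
          wt (P.lam' * T) x₀ r x + f x ^ 2)) :=
      integral_mono_of_nonneg (Eventually.of_forall fun x =>
        mul_nonneg (wt_pos x).le (Real.rpow_nonneg (abs_nonneg _) _)) hdom
        (Eventually.of_forall hpt)
    refine hle.trans ?_
    rw [integral_const_mul, integral_const_mul, integral_add (hintw.const_mul _)
      hf2.integrableOn, integral_const_mul]
    have hA1 := hwt x₀ r hA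
    have hA2 : ∫ x in Metric.ball (0 : E P.N) R, f x ^ 2 ≤ M ^ 2 :=
      (setIntegral_le_integral hf2 (Eventually.of_forall fun x => sq_nonneg _)).trans hfM
    have hA3 : (r ^ (-P.lam)) ^ T * ∫ x in Metric.ball (0 : E P.N) R,
        wt (P.lam' * T) x₀ r x ≤ C1 := by
      have h1 : (r ^ (-P.lam)) ^ T * ∫ x in Metric.ball (0 : E P.N) R,
          wt (P.lam' * T) x₀ r x ≤ (r ^ (-P.lam)) ^ T * (C1 * r ^ (P.lam * T)) :=
        mul_le_mul_of_nonneg_left hA1 (by positivity)
      refine h1.trans (le_of_eq ?_)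
      rw [← Real.rpow_mul hr.le, neg_mul, Real.rpow_neg hr.le]
      have : r ^ (P.lam * T) ≠ 0 := (Real.rpow_pos_of_pos hr _).ne'
      field_simp
    have hHpow : H ^ (P.q - ϑ) ≤ μ ^ ((1 - ε) * P.s) := by
      rw [hH, ← Real.rpow_mul hμ0.le]
      exact Real.rpow_le_rpow_of_exponent_le hμ hexp
    have hfin : ((C1 + M ^ 2) ^ (1 / P.s) * μ ^ (1 - ε)) ^ P.s =
        (C1 + M ^ 2) * μ ^ ((1 - ε) * P.s) := by
      rw [Real.mul_rpow (by positivity) (by positivity), ← Real.rpow_mul hC2.le,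
        ← Real.rpow_mul hμ0.le, one_div_mul_cancel (by linarith), Real.rpow_one]
    rw [hfin]
    have hr0 : 0 < r ^ P.lam := Real.rpow_pos_of_pos hr _
    calc H ^ (P.q - ϑ) * (r ^ P.lam * ((r ^ (-P.lam)) ^ T *
          (∫ x in Metric.ball (0 : E P.N) R, wt (P.lam' * T) x₀ r x) +
            (∫ x in Metric.ball (0 : E P.N) R, f x ^ 2)))
        ≤ H ^ (P.q - ϑ) * (r ^ P.lam * (C1 + M ^ 2)) := by
          apply mul_le_mul_of_nonneg_left _ (by positivity)
          apply mul_le_mul_of_nonneg_left _ hr0.le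
          linarith
      _ ≤ μ ^ ((1 - ε) * P.s) * (r ^ P.lam * (C1 + M ^ 2)) :=
          mul_le_mul_of_nonneg_right hHpow (by positivity)
      _ = _ := by ring
  · -- the tail
    have hpt : ∀ x, |f x - clip H (f x)| ^ P.q ≤ H ^ (P.q - 2) * f x ^ 2 := by
      intro x
      rcases le_or_gt |f x| H with h | h
      · rw [m20_clip_eq h, sub_self, abs_zero, Real.zero_rpow (by linarith)]
        positivity
      · have h0 : 0 < |f x| := hH0.trans h
        have h1 : |f x - clip H (f x)| ^ P.q ≤ |f x| ^ P.q :=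
          Real.rpow_le_rpow (abs_nonneg _) (m20_sub_clip hH0.le _) (by linarith)
        have h2 : |f x| ^ P.q = |f x| ^ (P.q - 2) * f x ^ 2 := by
          rw [← sq_abs, ← Real.rpow_natCast |f x| 2, ← Real.rpow_add h0]
          congr 1
          push_cast
          ring
        have h3 : |f x| ^ (P.q - 2) ≤ H ^ (P.q - 2) :=
          Real.rpow_le_rpow_of_nonpos hH0 h.le (by linarith)
        rw [h2] at h1
        exact h1.trans (mul_le_mul_of_nonneg_right h3 (sq_nonneg _))
    have hle : ∫ x, |f x - clip H (f x)| ^ P.q ≤ ∫ x, H ^ (P.q - 2) * f x ^ 2 :=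
      integral_mono_of_nonneg (Eventually.of_forall fun x =>
        Real.rpow_nonneg (abs_nonneg _) _) (hf2.const_mul _) (Eventually.of_forall hpt)
    refine hle.trans ?_
    rw [integral_const_mul]
    have h1 : H ^ (P.q - 2) = μ ^ (-(1 + ε)) := by
      rw [hH, ← Real.rpow_mul hμ0.le]
      congr 1
      have h2 : P.q - 2 = -(1 / P.β) := by linarith
      rw [h2, hb]
      field_simp
    rw [h1, mul_comm]
    exact mul_le_mul_of_nonneg_right hfM (by positivity)

end Pool.Agent.H15.Hx
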