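import Pool.Agent.H15.Hx.M01_Expo
import Pool.Agent.H25.HG.G1_Exist

/-! M21: existence for the scheme. -/

set_option autoImplicit false

open MeasureTheory Set Filter Topology
open scoped RealInnerProductSpace
open Pool.Agent.H25.HX (E g Tst H10)

noncomputable section

namespace Pool.Agent.H15.Hx

theorem exists_sol (P : Par) (Ω : Set (E P.N)) {δ : ℝ} (h0 : 0 < δ) (h1 : δ ≤ 1)
    (f : ℕ → E P.N → ℝ) (hf : ∀ n, MemLp (f n) 2 volume) (hfs : ∀ n, ∀ x, x ∉ Ω → f n x = 0)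
    (hf0 : ∀ x, f 0 x = 0) : ∃ S : Sol P Ω, S.δ = δ ∧ S.f = f :=
  exists_sol_aux P P.two_lt_p Ω h0 h1 f hf hfs hf0

end Pool.Agent.H15.Hx
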