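import Pool.Agent.H15.Hx.M08_G
import Pool.Agent.H15.Hx.M09_Int

/-! M22: comparison of two solutions with different forces. -/

set_option autoImplicit false

open MeasureTheory Set Filter Topology
open scoped RealInnerProductSpace
open Pool.Agent.H25.HX (E g Tst H10)

noncomputable section

namespace Pool.Agent.H15.Hx

theorem m22_inner {N : ℕ} {u v : E N → E N} (hu : MemLp u 2 volume) (hv : MemLp v 2 volume) :
    Integrable (fun x => ⟪u x, v x⟫) volume := by
  refine Integrable.mono' (hu.norm.integrable_mul hv.norm) (hu.1.inner hv.1)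
    (ae_of_all _ fun x => ?_)
  exact norm_inner_le_norm _ _

theorem compare (P : Par) : ∃ C : ℝ, 0 < C ∧ ∀ (Ω : Set (E P.N)) (R : ℝ),
    Ω ⊆ Metric.ball 0 R → ∀ (S S' : Sol P Ω), S'.δ = S.δ → ∀ n : ℕ,
    ∫ x, (‖S.Du n x - S'.Du n x‖ ^ 2 + (S.z n x - S'.z n x) ^ 2) ≤
      C * ∑ m ∈ Finset.range n, S.δ * ∫ x, |S.f (m + 1) x - S'.f (m + 1) x| ^ P.q := by
  obtain ⟨c, hc, hcg⟩ := g_strong P
  obtain ⟨C, hC, hY⟩ := young_p P hc
  have hp := P.two_lt_p
  have hq := P.q_gt_one
  refine ⟨2 * C, by positivity, fun Ω R hΩ S S' hδ n => ?_⟩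
  have hδ0 := S.δ_pos
  -- the differences
  have hu : ∀ n, H10 Ω (fun x => S.u n x - S'.u n x) (fun x => S.Du n x - S'.Du n x) :=
    fun n => (S.hu n).sub (S'.hu n)
  have hz : ∀ n, H10 Ω (fun x => S.z n x - S'.z n x) (fun x => S.Dz n x - S'.Dz n x) :=
    fun n => (S.hz n).sub (S'.hz n)
  have iA : ∀ n, Integrable (fun x => ‖S.Du n x - S'.Du n x‖ ^ 2) volume := fun n =>
    Pool.Agent.H25.HX.sq_norm_integrable (hu n).2.1
  have iB : ∀ n, Integrable (fun x => (S.z n x - S'.z n x) ^ 2) volume := fun n => by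
    have := Pool.Agent.H25.HX.sq_norm_integrable (hz n).1
    simpa [Real.norm_eq_abs, sq_abs] using this
  have iAB : ∀ n, Integrable (fun x => ‖S.Du n x - S'.Du n x‖ ^ 2 + (S.z n x - S'.z n x) ^ 2)
      volume := fun n => (iA n).add (iB n)
  have iF : ∀ n, Integrable (fun x => |S.f n x - S'.f n x| ^ P.q) volume := fun n => by
    refine Integrable.mono' (((Sol.fq S n hΩ).add (Sol.fq S' n hΩ)).const_mul
      ((2 : ℝ) ^ (P.q - 1))) ?_ (ae_of_all _ fun x => ?_)
    · exact (continuous_abs.rpow_const fun _ => Or.inr (by linarith)).comp_aestronglyMeasurable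
        ((S.hf n).sub (S'.hf n)).1
    · rw [Real.norm_of_nonneg (by positivity)]
      exact abs_sub_rpow hq.le _ _
  have iZ : ∀ n, Integrable (fun x => |S.z n x - S'.z n x| ^ P.p) volume := fun n => by
    refine Integrable.mono' (((Sol.zp S n).add (Sol.zp S' n)).const_mul
      ((2 : ℝ) ^ (P.p - 1))) ?_ (ae_of_all _ fun x => ?_)
    · exact (continuous_abs.rpow_const fun _ => Or.inr (by linarith)).comp_aestronglyMeasurable
        (hz n).1.1
    · rw [Real.norm_of_nonneg (by positivity)]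
      exact abs_sub_rpow (by linarith) _ _
  induction n with
  | zero =>
    simp only [S.Du_zero, S'.Du_zero, S.z_zero, S'.z_zero, Finset.range_zero, Finset.sum_empty]
    simp
  | succ n ih =>
    rw [Finset.sum_range_succ, mul_add]
    have key : ∫ x, (‖S.Du (n + 1) x - S'.Du (n + 1) x‖ ^ 2 +
        (S.z (n + 1) x - S'.z (n + 1) x) ^ 2) ≤
        (∫ x, (‖S.Du n x - S'.Du n x‖ ^ 2 + (S.z n x - S'.z n x) ^ 2)) +
          2 * C * (S.δ * ∫ x, |S.f (n + 1) x - S'.f (n + 1) x| ^ P.q) := by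
      set ψ : E P.N → ℝ := fun x => S.z (n + 1) x - S'.z (n + 1) x with hψ
      set Ψ : E P.N → E P.N := fun x => S.Dz (n + 1) x - S'.Dz (n + 1) x with hΨ
      have e1 := S.eqn n ψ Ψ (hz (n + 1))
      have e2 := S'.eqn n ψ Ψ (hz (n + 1))
      rw [hδ] at e2
      have i1 : Integrable (fun x => (S.f (n + 1) x - g P.p (S.z (n + 1) x) -
          (S.z (n + 1) x - S.z n x) / S.δ) * ψ x) volume := by
        refine (((S.hf (n + 1)).sub (S.hg (n + 1))).sub ?_).integrable_mul (hz (n + 1)).1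
        have := ((S.hz (n + 1)).1.sub (S.hz n).1).const_mul S.δ⁻¹
        refine (memLp_congr_ae (ae_of_all _ fun x => ?_)).1 this
        simp only [Pi.sub_apply]
        field_simp
      have i2 : Integrable (fun x => (S'.f (n + 1) x - g P.p (S'.z (n + 1) x) -
          (S'.z (n + 1) x - S'.z n x) / S.δ) * ψ x) volume := by
        refine (((S'.hf (n + 1)).sub (S'.hg (n + 1))).sub ?_).integrable_mul (hz (n + 1)).1
        have := ((S'.hz (n + 1)).1.sub (S'.hz n).1).const_mul S.δ⁻¹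
        refine (memLp_congr_ae (ae_of_all _ fun x => ?_)).1 this
        simp only [Pi.sub_apply]
        field_simp
      have j1 : Integrable (fun x => ⟪S.Du (n + 1) x, Ψ x⟫) volume :=
        m22_inner (S.hu (n + 1)).2.1 (hz (n + 1)).2.1
      have j2 : Integrable (fun x => ⟪S'.Du (n + 1) x, Ψ x⟫) volume :=
        m22_inner (S'.hu (n + 1)).2.1 (hz (n + 1)).2.1
      have e3 : ∫ x, (⟪S.Du (n + 1) x, Ψ x⟫ - ⟪S'.Du (n + 1) x, Ψ x⟫ -
          ((S.f (n + 1) x - g P.p (S.z (n + 1) x) - (S.z (n + 1) x - S.z n x) / S.δ) * ψ x -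
          (S'.f (n + 1) x - g P.p (S'.z (n + 1) x) -
            (S'.z (n + 1) x - S'.z n x) / S.δ) * ψ x)) = 0 := by
        have h1 := integral_sub (j1.sub j2) (i1.sub i2)
        have h2 := integral_sub j1 j2
        have h3 := integral_sub i1 i2
        simp only [Pi.sub_apply] at h1 h2 h3
        rw [h1, h2, h3, e1, e2]
        ring
      have hpt : ∀ x, (‖S.Du (n + 1) x - S'.Du (n + 1) x‖ ^ 2 +
          (S.z (n + 1) x - S'.z (n + 1) x) ^ 2) ≤
          (‖S.Du n x - S'.Du n x‖ ^ 2 + (S.z n x - S'.z n x) ^ 2) +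
            2 * S.δ * (⟪S.Du (n + 1) x, Ψ x⟫ - ⟪S'.Du (n + 1) x, Ψ x⟫ -
          ((S.f (n + 1) x - g P.p (S.z (n + 1) x) - (S.z (n + 1) x - S.z n x) / S.δ) * ψ x -
          (S'.f (n + 1) x - g P.p (S'.z (n + 1) x) -
            (S'.z (n + 1) x - S'.z n x) / S.δ) * ψ x)) +
            2 * C * (S.δ * |S.f (n + 1) x - S'.f (n + 1) x| ^ P.q) := by
        intro x
        have a1 : S.Du (n + 1) x - S'.Du (n + 1) x = (S.Du n x - S'.Du n x) + S.δ • Ψ x := by
          rw [S.Du_succ, S'.Du_succ, hδ, hΨ]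
          simp only [smul_sub]
          abel
        have a2 : ⟪S.Du (n + 1) x, Ψ x⟫ - ⟪S'.Du (n + 1) x, Ψ x⟫ =
            ⟪S.Du (n + 1) x - S'.Du (n + 1) x, Ψ x⟫ := by rw [inner_sub_left]
        set A := S.Du (n + 1) x - S'.Du (n + 1) x with hA
        set A0 := S.Du n x - S'.Du n x with hA0
        have a3 : ‖A‖ ^ 2 ≤ ‖A0‖ ^ 2 + 2 * S.δ * ⟪A, Ψ x⟫ := by
          have b1 : A0 = A - S.δ • Ψ x := by rw [a1]; abel
          have b2 : ‖A0‖ ^ 2 = ‖A‖ ^ 2 - 2 * ⟪A, S.δ • Ψ x⟫ + ‖S.δ • Ψ x‖ ^ 2 := by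
            rw [b1]; exact norm_sub_sq_real _ _
          rw [inner_smul_right] at b2
          nlinarith [sq_nonneg ‖S.δ • Ψ x‖]
        have a4 := hcg (S.z (n + 1) x) (S'.z (n + 1) x)
        have a5 := hY (S.z (n + 1) x - S'.z (n + 1) x) (S.f (n + 1) x - S'.f (n + 1) x)
        have a6 : (S.f (n + 1) x - S'.f (n + 1) x) * (S.z (n + 1) x - S'.z (n + 1) x) ≤
            |S.z (n + 1) x - S'.z (n + 1) x| * |S.f (n + 1) x - S'.f (n + 1) x| := by
          rw [← abs_mul, mul_comm]
          exact le_abs_self _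
        have a7 : (S.f (n + 1) x - g P.p (S.z (n + 1) x) - (S.z (n + 1) x - S.z n x) / S.δ) * ψ x -
          (S'.f (n + 1) x - g P.p (S'.z (n + 1) x) -
            (S'.z (n + 1) x - S'.z n x) / S.δ) * ψ x =
            (S.f (n + 1) x - S'.f (n + 1) x) * (S.z (n + 1) x - S'.z (n + 1) x) -
            (g P.p (S.z (n + 1) x) - g P.p (S'.z (n + 1) x)) *
              (S.z (n + 1) x - S'.z (n + 1) x) -
            ((S.z (n + 1) x - S'.z (n + 1) x) - (S.z n x - S'.z n x)) *
              (S.z (n + 1) x - S'.z (n + 1) x) / S.δ := by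
          simp only [hψ]
          field_simp
          ring
        rw [a2, a7]
        set b := S.z (n + 1) x - S'.z (n + 1) x with hb
        set b0 := S.z n x - S'.z n x with hb0
        set G := (g P.p (S.z (n + 1) x) - g P.p (S'.z (n + 1) x)) * b with hG
        set F := (S.f (n + 1) x - S'.f (n + 1) x) * b with hF
        set L := |S.f (n + 1) x - S'.f (n + 1) x| ^ P.q with hL
        have a8 : F ≤ G + C * L := by linarith
        have a9 : 2 * S.δ * (⟪A, Ψ x⟫ - (F - G - (b - b0) * b / S.δ)) =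
            2 * S.δ * ⟪A, Ψ x⟫ - 2 * S.δ * F + 2 * S.δ * G + 2 * ((b - b0) * b) := by
          field_simp
          ring
        rw [a9]
        have a10 : 0 ≤ S.δ * (G + C * L - F) := mul_nonneg hδ0.le (by linarith)
        nlinarith [sq_nonneg (b - b0)]
      have i3 : Integrable (fun x => (⟪S.Du (n + 1) x, Ψ x⟫ - ⟪S'.Du (n + 1) x, Ψ x⟫ -
          ((S.f (n + 1) x - g P.p (S.z (n + 1) x) - (S.z (n + 1) x - S.z n x) / S.δ) * ψ x -
          (S'.f (n + 1) x - g P.p (S'.z (n + 1) x) -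
            (S'.z (n + 1) x - S'.z n x) / S.δ) * ψ x))) volume := (j1.sub j2).sub (i1.sub i2)
      have k1 := integral_mono (iAB (n + 1))
        (((iAB n).add (i3.const_mul (2 * S.δ))).add (((iF (n + 1)).const_mul S.δ).const_mul
          (2 * C))) hpt
      refine k1.trans (le_of_eq ?_)
      have h1 := integral_add ((iAB n).add (i3.const_mul (2 * S.δ))) (((iF (n + 1)).const_mul
        S.δ).const_mul (2 * C))
      have h2 := integral_add (iAB n) (i3.const_mul (2 * S.δ))
      rw [integral_const_mul (2 * S.δ), e3, mul_zero, add_zero] at h2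
      rw [integral_const_mul (2 * C), integral_const_mul S.δ] at h1
      simp only [Pi.add_apply] at h1 h2 ⊢
      rw [h1, h2]
    linarith

end Pool.Agent.H15.Hx
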