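import Pool.Agent.H15.Hx.M19_Select
import Pool.Agent.H15.Hx.M20_Trunc
import Pool.Agent.H15.Hx.M21_Exist
import Pool.Agent.H15.Hx.M22_Compare

/-! M23: the discrete theorem. -/

set_option autoImplicit false

open MeasureTheory Set Filter Topology
open scoped RealInnerProductSpace
open Pool.Agent.H25.HX (E g Tst H10)

noncomputable section

namespace Pool.Agent.H15.Hx

theorem m23_step {d : ℝ} (hd : 0 < d) {δ : ℝ} (hδ : 0 < δ) (hδ1 : δ ≤ 1) {x : ℝ} (hx : 0 ≤ x) :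
    δ * (1 + x) ^ (-(1 + d)) ≤
      (2 : ℝ) ^ (1 + d) / d * ((1 + x) ^ (-d) - (1 + (x + δ)) ^ (-d)) := by
  have hy0 : 0 < 1 + x := by linarith
  set y : ℝ := 1 + (x + δ) with hy
  have hy1 : 0 < y := by positivity
  have hlt : δ / y < 1 := by
    rw [div_lt_one hy1]
    linarith
  have hu0 : 0 < 1 - δ / y := by linarith
  have h1 : 1 + d * (δ / y) ≤ (1 - δ / y) ^ (-d) := by
    rw [Real.rpow_def_of_pos hu0]
    have h2 : Real.log (1 - δ / y) ≤ -(δ / y) := by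
      have := Real.log_le_sub_one_of_pos hu0
      linarith
    have h3 : d * (δ / y) ≤ Real.log (1 - δ / y) * -d := by nlinarith
    have h4 := Real.add_one_le_exp (d * (δ / y))
    have h5 := Real.exp_le_exp.2 h3
    linarith
  have h2 : (1 + x) ^ (-d) = y ^ (-d) * (1 - δ / y) ^ (-d) := by
    rw [← Real.mul_rpow hy1.le hu0.le]
    congr 1
    field_simp
    rw [hy]
    ring
  have hyd : 0 < y ^ (-d) := Real.rpow_pos_of_pos hy1 _
  have h3 : y ^ (-d) * (d * (δ / y)) ≤ (1 + x) ^ (-d) - y ^ (-d) := by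
    rw [h2]
    nlinarith
  have h4 : y ^ (-d) * (d * (δ / y)) = d * δ * y ^ (-(1 + d)) := by
    have : y ^ (-(1 + d)) = y ^ (-d) / y := by
      rw [show -(1 + d) = -d - 1 by ring, Real.rpow_sub_one hy1.ne']
    rw [this]
    ring
  rw [h4] at h3
  have h5 : (1 + x) ^ (-(1 + d)) ≤ (2 : ℝ) ^ (1 + d) * y ^ (-(1 + d)) := by
    have h6 : y ≤ 2 * (1 + x) := by linarith
    have h7 : (2 * (1 + x)) ^ (-(1 + d)) ≤ y ^ (-(1 + d)) :=
      Real.rpow_le_rpow_of_nonpos hy1 h6 (by linarith)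
    rw [Real.mul_rpow (by norm_num) hy0.le] at h7
    have h8 : (2 : ℝ) ^ (1 + d) * (2 : ℝ) ^ (-(1 + d)) = 1 := by
      rw [← Real.rpow_add (by norm_num), add_neg_cancel, Real.rpow_zero]
    have h9 := mul_le_mul_of_nonneg_left h7 (by positivity : (0 : ℝ) ≤ 2 ^ (1 + d))
    rwa [← mul_assoc, h8, one_mul] at h9
  have h6 : δ * (1 + x) ^ (-(1 + d)) ≤ δ * ((2 : ℝ) ^ (1 + d) * y ^ (-(1 + d))) :=
    mul_le_mul_of_nonneg_left h5 hδ.le
  have h7 : (2 : ℝ) ^ (1 + d) / d * (d * δ * y ^ (-(1 + d))) ≤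
      (2 : ℝ) ^ (1 + d) / d * ((1 + x) ^ (-d) - y ^ (-d)) :=
    mul_le_mul_of_nonneg_left h3 (by positivity)
  refine h6.trans (le_trans (le_of_eq ?_) h7)
  field_simp

theorem m23_sum {d : ℝ} (hd : 0 < d) {δ : ℝ} (hδ : 0 < δ) (hδ1 : δ ≤ 1) (K : ℕ) :
    ∑ i ∈ Finset.range K, δ * (1 + i * δ) ^ (-(1 + d)) ≤ (2 : ℝ) ^ (1 + d) / d := by
  have h1 : ∀ K : ℕ, ∑ i ∈ Finset.range K, δ * (1 + i * δ) ^ (-(1 + d)) ≤
      (2 : ℝ) ^ (1 + d) / d * (1 - (1 + K * δ) ^ (-d)) := by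
    intro K
    induction K with
    | zero => simp
    | succ n ih =>
      rw [Finset.sum_range_succ]
      have h2 := m23_step hd hδ hδ1 (x := n * δ) (by positivity)
      have h3 : (1 + (((n + 1 : ℕ) : ℝ)) * δ) = 1 + (n * δ + δ) := by
        push_cast
        ring
      rw [h3]
      calc _ ≤ (2 : ℝ) ^ (1 + d) / d * (1 - (1 + n * δ) ^ (-d)) +
            (2 : ℝ) ^ (1 + d) / d * ((1 + n * δ) ^ (-d) - (1 + (n * δ + δ)) ^ (-d)) :=
            add_le_add ih h2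
        _ = _ := by ring
  refine (h1 K).trans ?_
  have h2 : 0 ≤ (1 + (K : ℝ) * δ) ^ (-d) := Real.rpow_nonneg (by positivity) _
  have h3 : 0 ≤ (2 : ℝ) ^ (1 + d) / d := by positivity
  nlinarith

theorem sum_cost {κ : ℝ} (hκ : 0 < κ) : ∃ C : ℝ, 0 < C ∧ ∀ (δ : ℝ), 0 < δ → δ ≤ 1 → ∀ K : ℕ,
    ∑ m ∈ Finset.range K, δ * (1 + ((K : ℝ) - (m + 1 : ℕ)) * δ) ^ (-(1 + κ)) ≤ C := by
  refine ⟨(2 : ℝ) ^ (1 + κ) / κ, by positivity, fun δ hδ hδ1 K => ?_⟩
  refine le_trans (le_of_eq ?_) (m23_sum hκ hδ hδ1 K)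
  rw [← Finset.sum_range_reflect]
  refine Finset.sum_congr rfl fun i hi => ?_
  have hi' : i < K := Finset.mem_range.1 hi
  have h1 : ((K : ℝ) - ((K - 1 - i + 1 : ℕ) : ℝ)) = i := by
    have : K - 1 - i + 1 = K - i := by omega
    rw [this, Nat.cast_sub hi'.le]
    ring
  rw [h1]

theorem discrete_bounded (P : Par) (R M : ℝ) (hR : 1 ≤ R) (hM : 0 ≤ M) : ∃ C : ℝ, 0 < C ∧
    ∀ (Ω : Set (E P.N)), IsOpen Ω → Ω ⊆ Metric.ball 0 R → ∀ S : Sol P Ω,
    (∀ n, ∫ x, S.f n x ^ 2 ≤ M ^ 2) → ∀ n, S.En n ≤ C := by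
  obtain ⟨b, ε, κ, hb, hε, hε1, hκ, htr⟩ := trunc P
  obtain ⟨CF, hCF, htr'⟩ := htr R M hR hM
  obtain ⟨C1, hC1, hmor⟩ := morrey_bound P R CF ε hR hCF hε hε1
  obtain ⟨C2, hC2, hcmp⟩ := compare P
  obtain ⟨C3, hC3, hsum⟩ := sum_cost hκ
  have hR0 : 0 < R := by linarith
  refine ⟨2 * ((2 : ℝ) ^ (P.lam' / 2) * (C1 * R ^ P.lam)) + 2 * (C2 * (C3 * M ^ 2)), by
    positivity, ?_⟩
  intro Ω hΩo hΩ S hf K
  have hδ := S.δ_pos
  have hδ1 := S.δ_le
  -- the truncated force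
  set μ : ℕ → ℝ := fun m => 1 + ((K : ℝ) - m) * S.δ with hμ
  have hμ1 : ∀ m ≤ K, 1 ≤ μ m := by
    intro m hm
    have : (m : ℝ) ≤ K := by exact_mod_cast hm
    have h2 : 0 ≤ ((K : ℝ) - m) * S.δ := mul_nonneg (by linarith) hδ.le
    simp only [hμ]
    linarith
  have hH0 : ∀ m ≤ K, 0 ≤ μ m ^ b := fun m hm =>
    Real.rpow_nonneg (by linarith [hμ1 m hm]) _
  set F : ℕ → E P.N → ℝ := fun m x => if m ≤ K then clip (μ m ^ b) (S.f m x) else 0 with hF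
  have hFle : ∀ m, m ≤ K → F m = fun x => clip (μ m ^ b) (S.f m x) := fun m hm => by
    funext x
    simp only [hF, if_pos hm]
  have hFgt : ∀ m, ¬ m ≤ K → F m = fun _ => 0 := fun m hm => by
    funext x
    simp only [hF, if_neg hm]
  have hFm : ∀ m, MemLp (F m) 2 volume := by
    intro m
    by_cases hm : m ≤ K
    · rw [hFle m hm]
      have hc : Continuous (clip (μ m ^ b)) := by
        unfold clip
        fun_prop
      refine MemLp.of_le (S.hf m) (hc.comp_aestronglyMeasurable (S.hf m).1)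
        (ae_of_all _ fun x => ?_)
      exact m20_clip_abs_le (hH0 m hm) (S.f m x)
    · rw [hFgt m hm]
      exact MemLp.zero
  have hFs : ∀ m, ∀ x, x ∉ Ω → F m x = 0 := by
    intro m x hx
    by_cases hm : m ≤ K
    · rw [hFle m hm]
      simp only
      rw [S.hfs m x hx, m20_clip_zero (hH0 m hm)]
    · rw [hFgt m hm]
  have hF0 : ∀ x, F 0 x = 0 := by
    intro x
    rw [hFle 0 (Nat.zero_le K)]
    simp only
    rw [S.f_zero, m20_clip_zero (hH0 0 (Nat.zero_le K))]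
  obtain ⟨T, hTδ, hTf⟩ := exists_sol P Ω hδ hδ1 F hFm hFs hF0
  have hfs' : ∀ m x, x ∉ Metric.ball (0 : E P.N) R → S.f m x = 0 := fun m x hx =>
    S.hfs m x fun h => hx (hΩ h)
  -- Morrey bound
  have hE := hmor Ω hΩo hΩ T K (by
    intro n hn x₀ r hA
    have h1 := (htr' (S.f n) (S.hf n) (hf n) (hfs' n) (μ n) (hμ1 n hn)).1 x₀ r hA
    rw [hTf, hFle n hn]
    have h2 : 1 + (T.t K - T.t n) = μ n := by
      simp only [Sol.t, hμ, hTδ]
      ring
    rw [h2]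
    exact h1) 0 R ⟨by simpa using hR0.le, hR0, le_rfl⟩
  -- from the weight to the energy
  have hu := T.hu K
  have hzH := T.hz K
  have iE : Integrable (fun x => ‖T.Du K x‖ ^ 2 + T.z K x ^ 2) volume :=
    (Pool.Agent.H25.HX.sq_norm_integrable hu.2.1).add (Pool.Agent.H25.HX.sq_int hzH.1)
  have hEn : ∫ x, (‖T.Du K x‖ ^ 2 + T.z K x ^ 2) ≤
      (2 : ℝ) ^ (P.lam' / 2) * T.Eg K 0 R := by
    rw [Sol.Eg, I0, ← integral_const_mul]
    have iW : Integrable (fun x => wt P.lam' 0 R x * (‖T.Du K x‖ ^ 2 + T.z K x ^ 2)) volume :=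
      wt_int P.lam'_pos.le iE
    apply integral_mono_ae iE (iW.const_mul _)
    filter_upwards [hu.off.2, hzH.off.1] with x h1 h2
    by_cases hx : x ∈ Ω
    · have h3 := wt_ball (b := P.lam') P.lam'_pos.le hR0 (hΩ hx)
      have h4 : 0 ≤ ‖T.Du K x‖ ^ 2 + T.z K x ^ 2 := by positivity
      rw [← mul_assoc]
      nlinarith
    · rw [h1 hx, h2 hx]
      simp
  have hcm := hcmp Ω R hΩ S T hTδ K
  have hcost : C2 * ∑ m ∈ Finset.range K, S.δ * ∫ x, |S.f (m + 1) x - T.f (m + 1) x| ^ P.q ≤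
      C2 * (C3 * M ^ 2) := by
    refine mul_le_mul_of_nonneg_left ?_ hC2.le
    calc ∑ m ∈ Finset.range K, S.δ * ∫ x, |S.f (m + 1) x - T.f (m + 1) x| ^ P.q
        ≤ ∑ m ∈ Finset.range K,
            (S.δ * (1 + ((K : ℝ) - (m + 1 : ℕ)) * S.δ) ^ (-(1 + κ))) * M ^ 2 := by
          refine Finset.sum_le_sum fun m hm => ?_
          have hm' : m + 1 ≤ K := Finset.mem_range.1 hm
          have h1 := (htr' (S.f (m + 1)) (S.hf _) (hf _) (hfs' _) (μ (m + 1))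
            (hμ1 _ hm')).2
          rw [hTf, hFle _ hm', mul_assoc]
          refine mul_le_mul_of_nonneg_left ?_ hδ.le
          rw [mul_comm]
          exact h1
      _ = (∑ m ∈ Finset.range K, S.δ * (1 + ((K : ℝ) - (m + 1 : ℕ)) * S.δ) ^ (-(1 + κ))) *
            M ^ 2 := by rw [Finset.sum_mul]
      _ ≤ C3 * M ^ 2 := mul_le_mul_of_nonneg_right (hsum S.δ hδ hδ1 K) (sq_nonneg M)
  have iD : Integrable (fun x => ‖S.Du K x - T.Du K x‖ ^ 2 + (S.z K x - T.z K x) ^ 2) volume :=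
    (Pool.Agent.H25.HX.sq_norm_integrable ((S.hu K).2.1.sub hu.2.1)).add
      (Pool.Agent.H25.HX.sq_int ((S.hz K).1.sub hzH.1))
  have iS : Integrable (fun x => ‖S.Du K x‖ ^ 2 + S.z K x ^ 2) volume :=
    (Pool.Agent.H25.HX.sq_norm_integrable (S.hu K).2.1).add
      (Pool.Agent.H25.HX.sq_int (S.hz K).1)
  have hfin : S.En K ≤ 2 * (∫ x, (‖T.Du K x‖ ^ 2 + T.z K x ^ 2)) +
      2 * ∫ x, (‖S.Du K x - T.Du K x‖ ^ 2 + (S.z K x - T.z K x) ^ 2) := by
    rw [Sol.En, ← integral_const_mul, ← integral_const_mul,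
      ← integral_add (iE.const_mul 2) (iD.const_mul 2)]
    apply integral_mono iS ((iE.const_mul 2).add (iD.const_mul 2))
    intro x
    simp only [Pi.add_apply]
    have h1 : ‖S.Du K x‖ ≤ ‖T.Du K x‖ + ‖S.Du K x - T.Du K x‖ := by
      have := norm_add_le (T.Du K x) (S.Du K x - T.Du K x)
      rwa [add_sub_cancel] at this
    have h2 := norm_nonneg (S.Du K x)
    nlinarith [sq_nonneg (‖T.Du K x‖ - ‖S.Du K x - T.Du K x‖),
      sq_nonneg (T.z K x - (S.z K x - T.z K x)), norm_nonneg (T.Du K x),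
      norm_nonneg (S.Du K x - T.Du K x)]
  have h1 : (2 : ℝ) ^ (P.lam' / 2) * T.Eg K 0 R ≤ (2 : ℝ) ^ (P.lam' / 2) * (C1 * R ^ P.lam) :=
    mul_le_mul_of_nonneg_left hE (by positivity)
  linarith

end Pool.Agent.H15.Hx
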